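import Pool.Agent.LP.Basic
import Pool.Agent.IST.Rank

/-!
# The forcing relation for atomic formulas

Every set `x` of the ground model is a name: its elements are the pairs `op z s`, `P.Cd s`, all
other elements of `x` are ignored.  `P.Nm i x`: all conditions which occur in `x` (hereditarily)
are of level `i`.

`P.Fq r x y` (`r` forces `x = y`) is defined by means of bisimulations: a set `B` of triples
`op (op x y) r`, where `x` and `y` are names of level `i` and `r ∈ PP i`, such that whenever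
`op z s ∈ x` and `r' ≤ r, s` there are `r'' ≤ r'` and `op z' s' ∈ y` with `r'' ≤ s'` and
`op (op z z') r'' ∈ B`, and vice versa.
-/

set_option synthInstance.maxSize 100000

namespace Pool.Agent.IST

open Pool.Agent.BVM

section

variable {M : Type} [SetModel M]

/-- induction on names -/
theorem nm_ind (Q : M → Prop) [hQ : Dfp fun γ : E0 M × M => Q γ.2]
    (h : ∀ x, (∀ z s, op z s ∈ x → Q z) → Q x) : ∀ x, Q x := by
  have hd : Dfp fun γ : E0 M × M => Q γ.2 ∧ ∀ u ∈ γ.2, Q u ∧ ∀ v ∈ u, Q v := by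
    have h1 : Dfp fun γ : (E0 M × M) × M => Q γ.2 := Dfp.use1 (P := Q) hQ
    have h2 : Dfp fun γ : ((E0 M × M) × M) × M => Q γ.2 := Dfp.use1 (P := Q) hQ
    infer_instance
  intro x
  refine (mem_ind (fun x => Q x ∧ ∀ u ∈ x, Q u ∧ ∀ v ∈ u, Q v) (fun x ih => ⟨?_, ?_⟩) x).1
  · refine h x fun z s hz => ?_
    exact ((ih _ hz).2 (sing z) (mem_op.2 (Or.inl rfl))).2 z (mem_sing.2 rfl)
  · exact fun u hu => ⟨(ih u hu).1, fun v hv => ((ih u hu).2 v hv).1⟩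

/-- the first components of the elements of an element of a transitive set -/
theorem IsTrans.fst_mem {t x z s : M} (ht : IsTrans t) (hx : x ∈ t) (hz : op z s ∈ x) : z ∈ t :=
  ht (sing z) (ht _ (ht x hx _ hz) _ (mem_op.2 (Or.inl rfl))) z (mem_sing.2 rfl)

theorem IsTrans.snd_mem {t x z s : M} (ht : IsTrans t) (hx : x ∈ t) (hz : op z s ∈ x) : s ∈ t :=
  ht (upair z s) (ht _ (ht x hx _ hz) _ (mem_op.2 (Or.inr rfl))) s (mem_upair.2 (Or.inr rfl))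

end

namespace LPo

variable {M : Type} [SetModel M] {Γ : Type} [IsCtx Γ M] (P : LPo M)

/-- all conditions which occur in the name `x` are of level `i` -/
def Nm (i x : M) : Prop :=
  ∃ t : M, x ∈ t ∧ ∀ y ∈ t, ∀ z s, op z s ∈ y → z ∈ t ∧ (P.Cd s → s ∈ P.PP i)

instance dfp_Nm {f g : Γ → M} [Dff f] [Dff g] : Dfp fun γ => P.Nm (f γ) (g γ) := by
  unfold Nm; infer_instance

theorem exists_levels (a : M) : ∃ i, IsOrd i ∧ ∀ s ∈ a, P.Cd s → s ∈ P.PP i := by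
  have h1 : Dff fun γ : E0 M × M => lst fun i => γ.2 ∈ P.PP i := inferInstance
  have h2 : Dfp fun γ : E0 M × M => P.Cd γ.2 := inferInstance
  obtain ⟨i, hi, h⟩ := exists_ord_bound (sep a fun s => P.Cd s)
    (fun s => lst fun i => IsOrd i ∧ s ∈ P.PP i) fun s hs => by
      rw [mem_sep] at hs
      obtain ⟨j, hj, hsj⟩ := P.exists_level hs.2
      exact (lst_spec (P := fun i => IsOrd i ∧ s ∈ P.PP i) hj ⟨hj, hsj⟩).1
  refine ⟨i, hi, fun s hs hc => ?_⟩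
  obtain ⟨j, hj, hsj⟩ := P.exists_level hc
  have hsp := lst_spec (P := fun i => IsOrd i ∧ s ∈ P.PP i) hj ⟨hj, hsj⟩
  exact P.mono_PP hsp.1 hi (hi.sub_of_mem (h s (mem_sep.2 ⟨hs, hc⟩))) _ hsp.2.1.2

theorem exists_Nm (x : M) : ∃ i, IsOrd i ∧ P.Nm i x := by
  obtain ⟨i, hi, h⟩ := P.exists_levels (tc (sing x))
  refine ⟨i, hi, tc (sing x), sub_tc _ _ (mem_sing.2 rfl), fun y hy z s hz => ?_⟩
  exact ⟨(isTrans_tc _).fst_mem hy hz, h s ((isTrans_tc _).snd_mem hy hz)⟩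

variable {P}

theorem Nm.mono {i j x : M} (h : P.Nm i x) (hi : IsOrd i) (hj : IsOrd j) (hij : i ⊆ j) :
    P.Nm j x := by
  obtain ⟨t, hx, h⟩ := h
  exact ⟨t, hx, fun y hy z s hz =>
    ⟨(h y hy z s hz).1, fun hs => P.mono_PP hi hj hij _ ((h y hy z s hz).2 hs)⟩⟩

theorem Nm.of_mem {i x z s : M} (h : P.Nm i x) (hz : op z s ∈ x) : P.Nm i z := by
  obtain ⟨t, hx, h⟩ := h
  exact ⟨t, (h x hx z s hz).1, h⟩

theorem Nm.mem_PP {i x z s : M} (h : P.Nm i x) (hz : op z s ∈ x) (hs : P.Cd s) :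
    s ∈ P.PP i := by
  obtain ⟨t, hx, h⟩ := h
  exact (h x hx z s hz).2 hs

/-- a name, given by its elements -/
theorem Nm.intro' {i x : M} (h : ∀ z s, op z s ∈ x → P.Nm i z ∧ (P.Cd s → s ∈ P.PP i)) :
    P.Nm i x := by
  have ht := isTrans_tc (sing x)
  refine ⟨sep (tc (sing x)) fun y => y = x ∨ P.Nm i y,
    mem_sep.2 ⟨sub_tc _ _ (mem_sing.2 rfl), Or.inl rfl⟩, fun y hy z s hz => ?_⟩
  rw [mem_sep] at hy ⊢
  rcases hy.2 with rfl | h1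
  · exact ⟨⟨ht.fst_mem hy.1 hz, Or.inr (h z s hz).1⟩, (h z s hz).2⟩
  · exact ⟨⟨ht.fst_mem hy.1 hz, Or.inr (h1.of_mem hz)⟩, fun hs => h1.mem_PP hz hs⟩

/-- a name, given by its elements -/
theorem Nm.intro {i x : M} (_ : IsOrd i)
    (h : ∀ t ∈ x, ∃ z s, t = op z s ∧ P.Nm i z ∧ s ∈ P.PP i) : P.Nm i x := by
  refine Nm.intro' fun z s hz => ?_
  obtain ⟨z', s', he, h1, h2⟩ := h _ hz
  obtain ⟨rfl, rfl⟩ := op_inj.1 he
  exact ⟨h1, fun _ => h2⟩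

theorem exists_Nm₂ (P : LPo M) (x y : M) : ∃ i, IsOrd i ∧ P.Nm i x ∧ P.Nm i y := by
  obtain ⟨i, hi, h⟩ := P.exists_Nm x
  obtain ⟨j, hj, h'⟩ := P.exists_Nm y
  exact ⟨i ∪ j, isOrd_union hi hj, h.mono hi (isOrd_union hi hj) fun z hz =>
    mem_union.2 (Or.inl hz), h'.mono hj (isOrd_union hi hj) fun z hz => mem_union.2 (Or.inr hz)⟩

/-! ### order lemmas -/

variable (P) in
theorem rs_eq {i p : M} (hi : IsOrd i) (hp : p ∈ P.PP i) : P.rs i p = p := ((P.mem_PP hi).1 hp).2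

variable (P) in
theorem cd_of_mem {i p : M} (hi : IsOrd i) (hp : p ∈ P.PP i) : P.Cd p := ((P.mem_PP hi).1 hp).1

theorem le_rs_of_le {i r s : M} (hi : IsOrd i) (hs : s ∈ P.PP i) (h : P.le r s) :
    P.le (P.rs i r) s := by
  have := P.rs_mono hi h
  rwa [P.rs_eq hi hs] at this

/-! ### equality -/

/-- `B` is a bisimulation of level `i` -/
def Bis (P : LPo M) (i B : M) : Prop :=
  ∀ x y r, op (op x y) r ∈ B → r ∈ P.PP i ∧ P.Nm i x ∧ P.Nm i y ∧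
    (∀ z s, op z s ∈ x → ∀ r' ∈ P.PP i, P.le r' r → P.le r' s → ∃ r'' ∈ P.PP i, P.le r'' r' ∧
      ∃ z' s', op z' s' ∈ y ∧ P.le r'' s' ∧ op (op z z') r'' ∈ B) ∧
    (∀ z' s', op z' s' ∈ y → ∀ r' ∈ P.PP i, P.le r' r → P.le r' s' → ∃ r'' ∈ P.PP i, P.le r'' r' ∧
      ∃ z s, op z s ∈ x ∧ P.le r'' s ∧ op (op z z') r'' ∈ B)

instance dfp_Bis (P : LPo M) {f g : Γ → M} [Dff f] [Dff g] :
    Dfp fun γ => P.Bis (f γ) (g γ) := by
  unfold Bis; infer_instance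

/-- `r` forces `x = y` -/
def Fq (P : LPo M) (r x y : M) : Prop :=
  P.Cd r ∧ ∃ i, IsOrd i ∧ ∃ B, P.Bis i B ∧ op (op x y) (P.rs i r) ∈ B

instance dfp_Fq (P : LPo M) {f g h : Γ → M} [Dff f] [Dff g] [Dff h] :
    Dfp fun γ => P.Fq (f γ) (g γ) (h γ) := by
  unfold Fq; infer_instance

/-- `r` forces `x ∈ y` -/
def Fm (P : LPo M) (r x y : M) : Prop := P.Cd r ∧ ∀ r', P.le r' r → ∃ r'', P.le r'' r' ∧
    ∃ z s, op z s ∈ y ∧ P.le r'' s ∧ P.Fq r'' x z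

instance dfp_Fm (P : LPo M) {f g h : Γ → M} [Dff f] [Dff g] [Dff h] :
    Dfp fun γ => P.Fm (f γ) (g γ) (h γ) := by
  unfold Fm; infer_instance

/-- the recursion clause for equality -/
def Fcl (P : LPo M) (r x y : M) : Prop := P.Cd r ∧
  (∀ z s, op z s ∈ x → ∀ r', P.le r' r → P.le r' s → ∃ r'', P.le r'' r' ∧
    ∃ z' s', op z' s' ∈ y ∧ P.le r'' s' ∧ P.Fq r'' z z') ∧
  (∀ z' s', op z' s' ∈ y → ∀ r', P.le r' r → P.le r' s' → ∃ r'', P.le r'' r' ∧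
    ∃ z s, op z s ∈ x ∧ P.le r'' s ∧ P.Fq r'' z z')

instance dfp_Fcl (P : LPo M) {f g h : Γ → M} [Dff f] [Dff g] [Dff h] :
    Dfp fun γ => P.Fcl (f γ) (g γ) (h γ) := by
  unfold Fcl; infer_instance

theorem Fq.cd {r x y : M} (h : P.Fq r x y) : P.Cd r := h.1
theorem Fm.cd {r x y : M} (h : P.Fm r x y) : P.Cd r := h.1

theorem Fq.fcl {r x y : M} (h : P.Fq r x y) : P.Fcl r x y := by
  obtain ⟨hr, i, hi, B, hB, hxy⟩ := h
  obtain ⟨-, hx, hy, h1, h2⟩ := hB _ _ _ hxy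
  refine ⟨hr, fun z s hz r' hr' hs => ?_, fun z s hz r' hr' hs => ?_⟩
  · have hc := P.left hr'
    obtain ⟨t, ht, htr, z', s', hz', hts, hm⟩ := h1 z s hz (P.rs i r') (P.rs_mem hi hc)
      (P.rs_mono hi hr') (le_rs_of_le hi (hx.mem_PP hz (P.right hs)) hs)
    have hg := P.rs_gl hi hc ht htr
    refine ⟨P.gl i t r', P.gl_le hi hc ht htr, z', s', hz',
      P.le_trans (P.gl_le_left hi hc ht htr) hts, P.left (P.gl_le hi hc ht htr), i, hi, B, hB, ?_⟩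
    rw [hg]; exact hm
  · have hc := P.left hr'
    obtain ⟨t, ht, htr, z', s', hz', hts, hm⟩ := h2 z s hz (P.rs i r') (P.rs_mem hi hc)
      (P.rs_mono hi hr') (le_rs_of_le hi (hy.mem_PP hz (P.right hs)) hs)
    have hg := P.rs_gl hi hc ht htr
    refine ⟨P.gl i t r', P.gl_le hi hc ht htr, z', s', hz',
      P.le_trans (P.gl_le_left hi hc ht htr) hts, P.left (P.gl_le hi hc ht htr), i, hi, B, hB, ?_⟩
    rw [hg]; exact hm

/-- the maximal bisimulation of level `i` on a transitive set -/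
theorem bis_max {i t : M} (hi : IsOrd i) (ht : IsTrans t) :
    P.Bis i (sep (prod (prod t t) (P.PP i)) fun p => ∃ a b r, p = op (op a b) (P.rs i r) ∧
      P.Nm i a ∧ P.Nm i b ∧ P.Fcl r a b) := by
  intro x y r h
  rw [mem_sep, op_mem_prod, op_mem_prod] at h
  obtain ⟨⟨⟨hx, hy⟩, hr⟩, x', y', r0, he, hnx, hny, hF⟩ := h
  obtain ⟨he', rfl⟩ := op_inj.1 he
  obtain ⟨rfl, rfl⟩ := op_inj.1 he'
  refine ⟨hr, hnx, hny, fun z s hz r' hr' hrr hs => ?_, fun z s hz r' hr' hrr hs => ?_⟩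
  · have h1 := P.gl_le hi hF.1 hr' hrr
    have h2 := P.gl_le_left hi hF.1 hr' hrr
    obtain ⟨r'', h3, z', s', hz', hs', hq⟩ := hF.2.1 z s hz _ h1 (P.le_trans h2 hs)
    have h4 := P.rs_mono hi h3
    rw [P.rs_gl hi hF.1 hr' hrr] at h4
    refine ⟨P.rs i r'', P.rs_mem hi hq.cd, h4, z', s', hz',
      le_rs_of_le hi (hny.mem_PP hz' (P.right hs')) hs', ?_⟩
    rw [mem_sep, op_mem_prod, op_mem_prod]
    exact ⟨⟨⟨ht.fst_mem hx hz, ht.fst_mem hy hz'⟩, P.rs_mem hi hq.cd⟩, z, z', r'', rfl,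
      hnx.of_mem hz, hny.of_mem hz', hq.fcl⟩
  · have h1 := P.gl_le hi hF.1 hr' hrr
    have h2 := P.gl_le_left hi hF.1 hr' hrr
    obtain ⟨r'', h3, z', s', hz', hs', hq⟩ := hF.2.2 z s hz _ h1 (P.le_trans h2 hs)
    have h4 := P.rs_mono hi h3
    rw [P.rs_gl hi hF.1 hr' hrr] at h4
    refine ⟨P.rs i r'', P.rs_mem hi hq.cd, h4, z', s', hz',
      le_rs_of_le hi (hnx.mem_PP hz' (P.right hs')) hs', ?_⟩
    rw [mem_sep, op_mem_prod, op_mem_prod]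
    exact ⟨⟨⟨ht.fst_mem hx hz', ht.fst_mem hy hz⟩, P.rs_mem hi hq.cd⟩, z', z, r'', rfl,
      hnx.of_mem hz', hny.of_mem hz, hq.fcl⟩

theorem Fcl.fq' {i r x y : M} (h : P.Fcl r x y) (hi : IsOrd i) (hx : P.Nm i x) (hy : P.Nm i y)
    {r' : M} (hr' : P.Cd r') (he : P.rs i r' = P.rs i r) : P.Fq r' x y := by
  refine ⟨hr', i, hi, _, bis_max hi (isTrans_tc (upair x y)), ?_⟩
  rw [mem_sep, op_mem_prod, op_mem_prod]
  exact ⟨⟨⟨sub_tc _ _ (mem_upair.2 (Or.inl rfl)), sub_tc _ _ (mem_upair.2 (Or.inr rfl))⟩,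
    P.rs_mem hi hr'⟩, x, y, r, by rw [he], hx, hy, h⟩

theorem Fcl.fq {r x y : M} (h : P.Fcl r x y) : P.Fq r x y := by
  obtain ⟨i, hi, hx, hy⟩ := exists_Nm₂ P x y
  exact h.fq' hi hx hy h.1 rfl

theorem fq_iff_fcl {r x y : M} : P.Fq r x y ↔ P.Fcl r x y := ⟨Fq.fcl, Fcl.fq⟩

theorem Fq.mono {r r' x y : M} (h : P.Fq r x y) (hr : P.le r' r) : P.Fq r' x y := by
  obtain ⟨-, h1, h2⟩ := h.fcl
  exact Fcl.fq ⟨P.left hr, fun z s hz t ht => h1 z s hz t (P.le_trans ht hr),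
    fun z s hz t ht => h2 z s hz t (P.le_trans ht hr)⟩

theorem Fm.mono {r r' x y : M} (h : P.Fm r x y) (hr : P.le r' r) : P.Fm r' x y :=
  ⟨P.left hr, fun t ht => h.2 t (P.le_trans ht hr)⟩

theorem Fq.loc {r x y : M} (hr : P.Cd r)
    (h : ∀ r', P.le r' r → ∃ r'', P.le r'' r' ∧ P.Fq r'' x y) : P.Fq r x y := by
  refine Fcl.fq ⟨hr, fun z s hz r' hr' hs => ?_, fun z s hz r' hr' hs => ?_⟩
  · obtain ⟨t, ht, hF⟩ := h r' hr'
    obtain ⟨r'', h1, h2⟩ := hF.fcl.2.1 z s hz t (P.le_refl hF.cd) (P.le_trans ht hs)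
    exact ⟨r'', P.le_trans h1 ht, h2⟩
  · obtain ⟨t, ht, hF⟩ := h r' hr'
    obtain ⟨r'', h1, h2⟩ := hF.fcl.2.2 z s hz t (P.le_refl hF.cd) (P.le_trans ht hs)
    exact ⟨r'', P.le_trans h1 ht, h2⟩

theorem Fm.loc {r x y : M} (hr : P.Cd r)
    (h : ∀ r', P.le r' r → ∃ r'', P.le r'' r' ∧ P.Fm r'' x y) : P.Fm r x y := by
  refine ⟨hr, fun r' hr' => ?_⟩
  obtain ⟨t, ht, hF⟩ := h r' hr'
  obtain ⟨r'', h1, h2⟩ := hF.2 t (P.le_refl hF.cd)
  exact ⟨r'', P.le_trans h1 ht, h2⟩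

theorem Fq.refl {r : M} (hr : P.Cd r) (x : M) : P.Fq r x x := by
  refine nm_ind (fun x => ∀ r, P.Cd r → P.Fq r x x) (fun x ih r hr => ?_) x r hr
  refine Fcl.fq ⟨hr, fun z s hz r' hr' hs => ?_, fun z s hz r' hr' hs => ?_⟩
  · exact ⟨r', P.le_refl (P.left hr'), z, s, hz, hs, ih z s hz r' (P.left hr')⟩
  · exact ⟨r', P.le_refl (P.left hr'), z, s, hz, hs, ih z s hz r' (P.left hr')⟩

theorem Fq.symm {r x y : M} (h : P.Fq r x y) : P.Fq r y x := by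
  refine nm_ind (fun x => ∀ y r, P.Fq r x y → P.Fq r y x) (fun x ih y r h => ?_) x y r h
  obtain ⟨hr, h1, h2⟩ := h.fcl
  refine Fcl.fq ⟨hr, fun z s hz r' hr' hs => ?_, fun z s hz r' hr' hs => ?_⟩
  · obtain ⟨r'', h3, z', s', h4, h5, h6⟩ := h2 z s hz r' hr' hs
    exact ⟨r'', h3, z', s', h4, h5, ih z' s' h4 z r'' h6⟩
  · obtain ⟨r'', h3, z', s', h4, h5, h6⟩ := h1 z s hz r' hr' hs
    exact ⟨r'', h3, z', s', h4, h5, ih z s hz z' r'' h6⟩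

theorem Fq.trans {r x y z : M} (h : P.Fq r x y) (h' : P.Fq r y z) : P.Fq r x z := by
  refine nm_ind (fun x => ∀ y z r, P.Fq r x y → P.Fq r y z → P.Fq r x z)
    (fun x ih y z r h h' => ?_) x y z r h h'
  obtain ⟨hr, h1, h2⟩ := h.fcl
  obtain ⟨-, h1', h2'⟩ := h'.fcl
  refine Fcl.fq ⟨hr, fun w s hw r' hr' hs => ?_, fun w s hw r' hr' hs => ?_⟩
  · obtain ⟨r1, h3, w1, s1, h4, h5, h6⟩ := h1 w s hw r' hr' hs
    obtain ⟨r2, h7, w2, s2, h8, h9, h10⟩ := h1' w1 s1 h4 r1 (P.le_trans h3 hr') h5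
    exact ⟨r2, P.le_trans h7 h3, w2, s2, h8, h9, ih w s hw w1 w2 r2 (h6.mono h7) h10⟩
  · obtain ⟨r1, h3, w1, s1, h4, h5, h6⟩ := h2' w s hw r' hr' hs
    obtain ⟨r2, h7, w2, s2, h8, h9, h10⟩ := h2 w1 s1 h4 r1 (P.le_trans h3 hr') h5
    exact ⟨r2, P.le_trans h7 h3, w2, s2, h8, h9, ih w2 s2 h8 w1 w r2 h10 (h6.mono h7)⟩

theorem Fm.congr {r x x' y y' : M} (h : P.Fm r x y) (hx : P.Fq r x x') (hy : P.Fq r y y') :
    P.Fm r x' y' := by
  refine ⟨h.cd, fun r' hr' => ?_⟩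
  obtain ⟨r1, h1, z, s, hz, hs, hF⟩ := h.2 r' hr'
  obtain ⟨-, h2, -⟩ := hy.fcl
  obtain ⟨r2, h3, z', s', hz', hs', hF'⟩ := h2 z s hz r1 (P.le_trans h1 hr') hs
  have h4 := P.le_trans h3 h1
  exact ⟨r2, h4, z', s', hz', hs',
    ((hx.mono (P.le_trans h4 hr')).symm.trans (hF.mono h3)).trans hF'⟩

theorem Fm.of_mem {r z s y : M} (h : op z s ∈ y) (hr : P.le r s) : P.Fm r z y :=
  ⟨P.left hr, fun r' hr' => ⟨r', P.le_refl (P.left hr'), z, s, h, P.le_trans hr' hr,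
    Fq.refl (P.left hr') z⟩⟩

theorem fm_iff {r x y : M} : P.Fm r x y ↔ P.Cd r ∧ ∀ r', P.le r' r → ∃ r'', P.le r'' r' ∧
    ∃ z s, op z s ∈ y ∧ P.le r'' s ∧ P.Fq r'' x z := Iff.rfl

theorem fq_iff' {r x y : M} : P.Fq r x y ↔ P.Cd r ∧
    (∀ z s, op z s ∈ x → ∀ r', P.le r' r → P.le r' s → P.Fm r' z y) ∧
    ∀ z s, op z s ∈ y → ∀ r', P.le r' r → P.le r' s → P.Fm r' z x := by
  constructor
  · intro h
    refine ⟨h.cd, fun z s hz r' hr' hs => ?_, fun z s hz r' hr' hs => ?_⟩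
    · exact (Fm.of_mem hz hs).congr (Fq.refl (P.left hr') z) (h.mono hr')
    · exact (Fm.of_mem hz hs).congr (Fq.refl (P.left hr') z) (h.symm.mono hr')
  · rintro ⟨hr, h1, h2⟩
    refine Fcl.fq ⟨hr, fun z s hz r' hr' hs => ?_, fun z s hz r' hr' hs => ?_⟩
    · exact (h1 z s hz r' hr' hs).2 r' (P.le_refl (P.left hr'))
    · obtain ⟨r'', h3, z', s', h4, h5, h6⟩ := (h2 z s hz r' hr' hs).2 r' (P.le_refl (P.left hr'))
      exact ⟨r'', h3, z', s', h4, h5, h6.symm⟩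

theorem fq_iff {r x y : M} : P.Fq r x y ↔ P.Cd r ∧ ∀ r', P.le r' r → ∀ z,
    (P.Fm r' z x ↔ P.Fm r' z y) := by
  constructor
  · intro h
    exact ⟨h.cd, fun r' hr' z => ⟨fun h' => h'.congr (Fq.refl h'.cd z) (h.mono hr'),
      fun h' => h'.congr (Fq.refl h'.cd z) (h.symm.mono hr')⟩⟩
  · rintro ⟨hr, h⟩
    exact fq_iff'.2 ⟨hr, fun z s hz r' hr' hs => (h r' hr' z).1 (Fm.of_mem hz hs),
      fun z s hz r' hr' hs => (h r' hr' z).2 (Fm.of_mem hz hs)⟩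

/-- forcing of equalities between names of level `i` depends only on the restriction -/
theorem fq_rs {i r x y : M} (hi : IsOrd i) (hx : P.Nm i x) (hy : P.Nm i y) (hr : P.Cd r) :
    P.Fq r x y ↔ P.Fq (P.rs i r) x y :=
  ⟨fun h => h.fcl.fq' hi hx hy (P.cd_of_mem hi (P.rs_mem hi hr))
    (P.rs_rs hi hi (Sub.refl i) hr), fun h => h.mono (P.le_rs hi hr)⟩

theorem fm_rs {i r x y : M} (hi : IsOrd i) (hx : P.Nm i x) (hy : P.Nm i y) (hr : P.Cd r) :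
    P.Fm r x y ↔ P.Fm (P.rs i r) x y := by
  refine ⟨fun h => ⟨P.cd_of_mem hi (P.rs_mem hi hr), fun r' hr' => ?_⟩,
    fun h => h.mono (P.le_rs hi hr)⟩
  have hc := P.left hr'
  have h1 := P.rs_mem hi hc
  have h2 : P.le (P.rs i r') (P.rs i r) := le_rs_of_le hi (P.rs_mem hi hr) hr'
  obtain ⟨r1, h3, z, s, hz, hs, hF⟩ := h.2 _ (P.gl_le hi hr h1 h2)
  have h4 := P.rs_mono hi h3
  rw [P.rs_gl hi hr h1 h2] at h4
  have h5 := P.rs_mem hi hF.cd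
  have h6 := P.gl_le_left hi hc h5 h4
  exact ⟨P.gl i (P.rs i r1) r', P.gl_le hi hc h5 h4, z, s, hz,
    P.le_trans h6 (le_rs_of_le hi (hy.mem_PP hz (P.right hs)) hs),
    ((fq_rs hi hx (hy.of_mem hz) hF.cd).1 hF).mono h6⟩

/-! ### canonical names -/

variable (P)

/-- the canonical name of `x` -/
noncomputable def chk (x : M) : M := erec (fun _ f => img (ran f) fun y => op y P.one) x

instance dff_chk {f : Γ → M} [Dff f] : Dff fun γ => P.chk (f γ) := by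
  unfold chk; infer_instance

theorem mem_chk {x t : M} : t ∈ P.chk x ↔ ∃ y ∈ x, t = op (P.chk y) P.one := by
  unfold chk
  rw [erec_eq, mem_img, ran_lam]
  constructor
  · rintro ⟨w, hw, rfl⟩
    obtain ⟨y, hy, rfl⟩ := mem_img.1 hw
    exact ⟨y, hy, rfl⟩
  · rintro ⟨y, hy, rfl⟩
    exact ⟨_, mem_img.2 ⟨y, hy, rfl⟩, rfl⟩

theorem op_mem_chk {x z s : M} : op z s ∈ P.chk x ↔ ∃ y ∈ x, z = P.chk y ∧ s = P.one := by
  rw [mem_chk]
  simp only [op_inj]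

theorem nm_chk {i : M} (hi : IsOrd i) (x : M) : P.Nm i (P.chk x) := by
  refine mem_ind (fun x => P.Nm i (P.chk x)) (fun x ih => ?_) x
  refine Nm.intro hi fun t ht => ?_
  obtain ⟨y, hy, rfl⟩ := P.mem_chk.1 ht
  exact ⟨_, _, rfl, ih y hy, P.one_mem hi⟩

variable {P}

theorem fq_chk {r x y : M} (hr : P.Cd r) : P.Fq r (P.chk x) (P.chk y) ↔ x = y := by
  refine ⟨fun h => ?_, fun h => h ▸ Fq.refl hr _⟩
  refine mem_ind (fun x => ∀ y r, P.Fq r (P.chk x) (P.chk y) → x = y) (fun x ih y r h => ?_) x y r h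
  obtain ⟨hr, h1, h2⟩ := h.fcl
  apply ext
  intro z
  constructor
  · intro hz
    obtain ⟨r1, -, z', s', h3, -, h4⟩ := h1 _ _ (P.op_mem_chk.2 ⟨z, hz, rfl, rfl⟩) r
      (P.le_refl hr) (P.le_one hr)
    obtain ⟨w, hw, rfl, rfl⟩ := P.op_mem_chk.1 h3
    exact (ih z hz w r1 h4) ▸ hw
  · intro hz
    obtain ⟨r1, -, z', s', h3, -, h4⟩ := h2 _ _ (P.op_mem_chk.2 ⟨z, hz, rfl, rfl⟩) r
      (P.le_refl hr) (P.le_one hr)
    obtain ⟨w, hw, rfl, rfl⟩ := P.op_mem_chk.1 h3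
    exact (ih w hw z r1 h4) ▸ hw

theorem fm_chk_iff {r z y : M} : P.Fm r z (P.chk y) ↔ P.Cd r ∧ ∀ r', P.le r' r →
    ∃ r'', P.le r'' r' ∧ ∃ x ∈ y, P.Fq r'' z (P.chk x) := by
  rw [fm_iff]
  refine and_congr_right fun _ => forall_congr' fun r' => imp_congr_right fun _ =>
    exists_congr fun r'' => and_congr_right fun hr'' => ?_
  constructor
  · rintro ⟨w, s, hw, -, hF⟩
    obtain ⟨x, hx, rfl, rfl⟩ := P.op_mem_chk.1 hw
    exact ⟨x, hx, hF⟩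
  · rintro ⟨x, hx, hF⟩
    exact ⟨_, _, P.op_mem_chk.2 ⟨x, hx, rfl, rfl⟩, P.le_one hF.cd, hF⟩

theorem fm_chk {r x y : M} (hr : P.Cd r) : P.Fm r (P.chk x) (P.chk y) ↔ x ∈ y := by
  rw [fm_chk_iff]
  constructor
  · rintro ⟨-, h⟩
    obtain ⟨r', -, z, hz, hF⟩ := h r (P.le_refl hr)
    exact (fq_chk hF.cd).1 hF ▸ hz
  · intro h
    exact ⟨hr, fun r' hr' => ⟨r', P.le_refl (P.left hr'), x, h, Fq.refl (P.left hr') _⟩⟩

end LPo

end Pool.Agent.IST
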