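import Pool.Agent.IST.CardDef

/-!
# Levelled class posets over a model of ZFC

`LPo M` is the interface between the construction of the iteration and its applications.

* `Cd` is the class of conditions, `le` the order (`le q p`: `q` is stronger), `one` the weakest
  condition.
* `PP i` is the set of the conditions of level `i` (`i` an ordinal); `rs i p` is the restriction of
  `p` to level `i`; `gl i r p` is the greatest lower bound of `r ∈ PP i` and `p`, for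
  `r ≤ rs i p`.
* `loc`: if densely many `r` below `rs i q` satisfy `gl i r q ≤ p`, then `q ≤ p`.
* `amal`: a family of fewer than `al i` conditions, which is directed modulo the
  generic filter on `PP i`, has a lower bound with a given restriction to level `i`.
* `card_PP`: for a successor `i` there are fewer than `al i` conditions of level `i`.
-/

set_option synthInstance.maxSize 100000

namespace Pool.Agent.IST

open Pool.Agent.BVM

section

variable {M : Type} [SetModel M] {Γ : Type} [IsCtx Γ M]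

/-- definable unary function -/
theorem Dff.use1 {F : M → M} (h : Dff fun γ : E0 M × M => F γ.2) {f : Γ → M} [Dff f] :
    Dff fun γ => F (f γ) :=
  Dff.lift1 (F := fun _ : E0 M => F) (c := fun _ => ⟨⟩)

theorem Dfp.use1 {P : M → Prop} (h : Dfp fun γ : E0 M × M => P γ.2) {f : Γ → M} [Dff f] :
    Dfp fun γ => P (f γ) :=
  Dfp.lift1 (P := fun _ : E0 M => P) (c := fun _ => ⟨⟩)

theorem Dff.use2 {F : M → M → M} (h : Dff fun γ : (E0 M × M) × M => F γ.1.2 γ.2)
    {f g : Γ → M} [Dff f] [Dff g] : Dff fun γ => F (f γ) (g γ) :=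
  Dff.lift2 (F := fun _ : E0 M => F) (c := fun _ => ⟨⟩)

theorem Dfp.use2 {P : M → M → Prop} (h : Dfp fun γ : (E0 M × M) × M => P γ.1.2 γ.2)
    {f g : Γ → M} [Dff f] [Dff g] : Dfp fun γ => P (f γ) (g γ) :=
  Dfp.lift2 (P := fun _ : E0 M => P) (c := fun _ => ⟨⟩)

theorem Dff.use3 {F : M → M → M → M} (h : Dff fun γ : ((E0 M × M) × M) × M =>
    F γ.1.1.2 γ.1.2 γ.2) {f g k : Γ → M} [Dff f] [Dff g] [Dff k] :
    Dff fun γ => F (f γ) (g γ) (k γ) := by
  have h1 : Dff fun γ : Γ × M => F γ.2 (g γ.1) (k γ.1) :=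
    Dff.lift2 (F := fun (γ : E0 M × M) x y => F γ.2 x y) (c := fun γ : Γ × M => (⟨⟩, γ.2))
      (hc := Cor.pair (g := fun _ : Γ × M => (⟨⟩ : E0 M)) (h := fun γ : Γ × M => γ))
  exact Dff.sub1' (F := fun γ x => F x (g γ) (k γ))

theorem Dfp.use3 {P : M → M → M → Prop} (h : Dfp fun γ : ((E0 M × M) × M) × M =>
    P γ.1.1.2 γ.1.2 γ.2) {f g k : Γ → M} [Dff f] [Dff g] [Dff k] :
    Dfp fun γ => P (f γ) (g γ) (k γ) := by
  have h1 : Dfp fun γ : Γ × M => P γ.2 (g γ.1) (k γ.1) :=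
    Dfp.lift2 (P := fun (γ : E0 M × M) x y => P γ.2 x y) (c := fun γ : Γ × M => (⟨⟩, γ.2))
      (hc := Cor.pair (g := fun _ : Γ × M => (⟨⟩ : E0 M)) (h := fun γ : Γ × M => γ))
  exact Dfp.sub1' (P := fun γ x => P x (g γ) (k γ))

end

/-- levelled class posets -/
structure LPo (M : Type) [SetModel M] where
  /-- the conditions -/
  Cd : M → Prop
  /-- `le q p`: `q` is stronger than `p` -/
  le : M → M → Prop
  /-- the weakest condition -/
  one : M
  /-- the set of the conditions of level `i` -/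
  PP : M → M
  /-- restriction -/
  rs : M → M → M
  /-- gluing -/
  gl : M → M → M → M
  /-- the closure cardinal of the level -/
  al : M → M
  cd_def : Dfp fun γ : E0 M × M => Cd γ.2
  le_def : Dfp fun γ : (E0 M × M) × M => le γ.1.2 γ.2
  pp_def : Dff fun γ : E0 M × M => PP γ.2
  rs_def : Dff fun γ : (E0 M × M) × M => rs γ.1.2 γ.2
  gl_def : Dff fun γ : ((E0 M × M) × M) × M => gl γ.1.1.2 γ.1.2 γ.2
  al_def : Dff fun γ : E0 M × M => al γ.2
  le_refl : ∀ {p}, Cd p → le p p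
  le_trans : ∀ {r q p}, le r q → le q p → le r p
  left : ∀ {q p}, le q p → Cd q
  right : ∀ {q p}, le q p → Cd p
  cd_one : Cd one
  le_one : ∀ {p}, Cd p → le p one
  mem_PP : ∀ {i p}, IsOrd i → (p ∈ PP i ↔ Cd p ∧ rs i p = p)
  exists_level : ∀ {p}, Cd p → ∃ i, IsOrd i ∧ p ∈ PP i
  mono_PP : ∀ {i j}, IsOrd i → IsOrd j → i ⊆ j → PP i ⊆ PP j
  one_mem : ∀ {i}, IsOrd i → one ∈ PP i
  rs_mem : ∀ {i p}, IsOrd i → Cd p → rs i p ∈ PP i
  le_rs : ∀ {i p}, IsOrd i → Cd p → le p (rs i p)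
  rs_mono : ∀ {i q p}, IsOrd i → le q p → le (rs i q) (rs i p)
  rs_rs : ∀ {i j p}, IsOrd i → IsOrd j → i ⊆ j → Cd p → rs i (rs j p) = rs i p
  gl_le : ∀ {i r p}, IsOrd i → Cd p → r ∈ PP i → le r (rs i p) → le (gl i r p) p
  gl_le_left : ∀ {i r p}, IsOrd i → Cd p → r ∈ PP i → le r (rs i p) → le (gl i r p) r
  rs_gl : ∀ {i r p}, IsOrd i → Cd p → r ∈ PP i → le r (rs i p) → rs i (gl i r p) = r
  le_gl : ∀ {i r p s}, IsOrd i → Cd p → r ∈ PP i → le r (rs i p) → le s r → le s p →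
    le s (gl i r p)
  gl_mem : ∀ {i j r p}, IsOrd i → IsOrd j → i ⊆ j → p ∈ PP j → r ∈ PP i → le r (rs i p) →
    gl i r p ∈ PP j
  loc : ∀ {i q p}, IsOrd i → Cd q → Cd p → le (rs i q) (rs i p) →
    (∀ r ∈ PP i, le r (rs i q) → ∃ r' ∈ PP i, le r' r ∧ le (gl i r' q) p) → le q p
  amal : ∀ {i j K d b}, IsOrd i → IsOrd j → i ⊆ j → IsFun d → dom d = K →
    card K ∈ al i → b ∈ PP i →
    (∀ k ∈ K, ap d k ∈ PP j) →
    (∀ k ∈ K, ∀ k' ∈ K, ∀ r ∈ PP i, le r b → le r (rs i (ap d k)) → le r (rs i (ap d k')) →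
      ∃ r' ∈ PP i, le r' r ∧ ∃ l ∈ K, le r' (rs i (ap d l)) ∧
        le (gl i r' (ap d l)) (ap d k) ∧ le (gl i r' (ap d l)) (ap d k')) →
    ∃ q ∈ PP j, rs i q = b ∧
      ∀ k ∈ K, ∀ r ∈ PP i, le r b → le r (rs i (ap d k)) → le (gl i r q) (ap d k)
  reg_al : ∀ {i}, IsOrd i → IsReg (al i)
  al_mem : ∀ {i j}, IsOrd j → i ∈ j → al i ∈ al j
  card_PP : ∀ {i}, IsOrd i → card (PP (sc i)) ∈ al (sc i)

namespace LPo

variable {M : Type} [SetModel M] {Γ : Type} [IsCtx Γ M] (P : LPo M)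

instance dfp_Cd {f : Γ → M} [Dff f] : Dfp fun γ => P.Cd (f γ) := Dfp.use1 P.cd_def
instance dfp_le {f g : Γ → M} [Dff f] [Dff g] : Dfp fun γ => P.le (f γ) (g γ) := Dfp.use2 P.le_def
instance dff_PP {f : Γ → M} [Dff f] : Dff fun γ => P.PP (f γ) := Dff.use1 P.pp_def
instance dff_al {f : Γ → M} [Dff f] : Dff fun γ => P.al (f γ) := Dff.use1 P.al_def
instance dff_rs {f g : Γ → M} [Dff f] [Dff g] : Dff fun γ => P.rs (f γ) (g γ) := Dff.use2 P.rs_def
instance dff_gl {f g h : Γ → M} [Dff f] [Dff g] [Dff h] : Dff fun γ => P.gl (f γ) (g γ) (h γ) :=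
  Dff.use3 P.gl_def

end LPo

end Pool.Agent.IST
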