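import Pool.Agent.LP.VZ

/-!
# Cardinals of the generic extension: covering and regularity
-/

set_option synthInstance.maxSize 100000

namespace Pool.Agent.IST

open Pool.Agent.BVM

section

variable {M : Type} [SetModel M]

/-- maximal independent sets for a symmetric relation -/
theorem exists_maxInd (X : M) (R : M → M → Prop)
    [hR : Dfp fun γ : (E0 M × M) × M => R γ.1.2 γ.2] (hs : ∀ x y, R x y → R y x) :
    ∃ A : M, A ⊆ X ∧ (∀ a ∈ A, ∀ b ∈ A, a ≠ b → ¬ R a b) ∧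
      ∀ x ∈ X, x ∈ A ∨ ∃ a ∈ A, R x a := by
  classical
  have hR' : DP2 R := ⟨hR⟩
  obtain ⟨α, hα, g, hg⟩ := exists_eqn_ord X
  let K : M → M → M := fun ξ k => if ∀ η ∈ ξ, ap k η = sc ∅ → ¬ R (ap g η) (ap g ξ) then sc ∅
    else ∅
  have hK : Dff fun γ : (E0 M × M) × M => K γ.1.2 γ.2 := by
    simp only [K]; infer_instance
  let H : M → M := fun ξ => erec K ξ
  have hH : Dff fun γ : E0 M × M => H γ.2 := erec_slice (G := K)
  have hne : (∅ : M) ≠ sc ∅ := fun e => by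
    have h1 := self_mem_sc (∅ : M)
    rw [← e] at h1
    exact notMem_empty ∅ h1
  have hspec : ∀ ξ ∈ α, (H ξ = sc ∅ ↔ ∀ η ∈ ξ, H η = sc ∅ → ¬ R (ap g η) (ap g ξ)) := by
    intro ξ hξ
    have h1 : H ξ = K ξ (lam ξ fun y => H y) := erec_ord (hα.mem hξ)
    have h2 : (∀ η ∈ ξ, ap (lam ξ fun y => H y) η = sc ∅ → ¬ R (ap g η) (ap g ξ)) ↔
        ∀ η ∈ ξ, H η = sc ∅ → ¬ R (ap g η) (ap g ξ) := by
      refine forall_congr' fun η => forall_congr' fun hη => ?_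
      rw [ap_lam hη]
    rw [h1, ← h2]
    simp only [K]
    split_ifs with h3
    · exact ⟨fun _ => h3, fun _ => rfl⟩
    · exact ⟨fun e => absurd e hne, fun e => absurd e h3⟩
  refine ⟨img (sep α fun ξ => H ξ = sc ∅) fun ξ => ap g ξ, ?_, ?_, ?_⟩
  · intro x hx
    obtain ⟨ξ, hξ, rfl⟩ := mem_img.1 hx
    exact hg.maps.ap_mem (mem_sep.1 hξ).1
  · intro x hx y hy hxy hr
    obtain ⟨ξ, hξ, rfl⟩ := mem_img.1 hx
    obtain ⟨ζ, hζ, rfl⟩ := mem_img.1 hy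
    obtain ⟨h1, h2⟩ := mem_sep.1 hξ
    obtain ⟨h3, h4⟩ := mem_sep.1 hζ
    rcases (hα.mem h1).cmp (hα.mem h3) with h5 | h5 | h5
    · exact (hspec ζ h3).1 h4 ξ h5 h2 hr
    · exact hxy (by rw [h5])
    · exact (hspec ξ h1).1 h2 ζ h5 h4 (hs _ _ hr)
  · intro x hx
    obtain ⟨ξ, hξ, rfl⟩ := hg.surj hx
    by_cases h1 : H ξ = sc ∅
    · exact Or.inl (mem_img.2 ⟨ξ, mem_sep.2 ⟨hξ, h1⟩, rfl⟩)
    · right
      rw [hspec ξ hξ] at h1
      push Not at h1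
      obtain ⟨η, hη, h2, h3⟩ := h1
      exact ⟨ap g η, mem_img.2 ⟨η, mem_sep.2 ⟨hα.trans hη hξ, h2⟩, rfl⟩, hs _ _ h3⟩

end

namespace LPo

variable {M : Type} [SetModel M]

/-- chain condition: every subset of `PP j` has a predense subset of size at most `κ` -/
def CC (P : LPo M) (j κ : M) : Prop :=
  ∀ X, X ⊆ P.PP j → ∃ A, A ⊆ X ∧ card A ⊆ κ ∧ ∀ r ∈ X, ∃ a ∈ A, ∃ w ∈ P.PP j, P.le w r ∧ P.le w a

variable {P : LPo M}

theorem cc_card {j : M} (hj : IsOrd j) : P.CC j (card (P.PP j)) := fun X hX =>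
  ⟨X, Sub.refl X, card_mono hX, fun r hr =>
    ⟨r, hr, r, hX r hr, P.le_refl ((P.mem_PP hj).1 (hX r hr)).1,
      P.le_refl ((P.mem_PP hj).1 (hX r hr)).1⟩⟩

/-- if all antichains have size at most `κ` then the chain condition holds -/
theorem cc_of_antichain {j κ : M} (hj : IsOrd j) (h : ∀ A, A ⊆ P.PP j →
    (∀ a ∈ A, ∀ b ∈ A, a ≠ b → ¬ ∃ w ∈ P.PP j, P.le w a ∧ P.le w b) → card A ⊆ κ) :
    P.CC j κ := by
  intro X hX
  obtain ⟨A, hA, h1, h2⟩ := exists_maxInd X (fun a b => ∃ w ∈ P.PP j, P.le w a ∧ P.le w b)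
    fun x y ⟨w, hw, h1, h2⟩ => ⟨w, hw, h2, h1⟩
  refine ⟨A, hA, h A (Sub.trans hA hX) h1, fun r hr => ?_⟩
  rcases h2 r hr with h3 | ⟨a, ha, w, hw, h3, h4⟩
  · have h4 := P.le_refl ((P.mem_PP hj).1 (hX r hr)).1
    exact ⟨r, h3, r, hX r hr, h4, h4⟩
  · exact ⟨a, ha, w, hw, h3, h4⟩

end LPo

namespace TEmb

variable {M N : Type} [SetModel M] [SetModel N] {f : M → N} (h : TEmb f)

include h

theorem infCard_of {κ : M} (hκ : InfCard (f κ)) : InfCard κ := by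
  refine ⟨h.isCard_of hκ.1, ?_⟩
  rw [← h.sub, h.om]
  exact hκ.2

theorem isReg_of {κ : M} (hκ : IsReg (f κ)) : IsReg κ := by
  refine ⟨h.infCard_of hκ.1, fun α hα g hg => ?_⟩
  obtain ⟨β, hβ, h1⟩ := hκ.2 (f α) (h.mem.2 hα) (f g) (h.maps.2 hg)
  obtain ⟨β, hβ', rfl⟩ := h.tr hβ
  refine ⟨β, hβ', fun ξ hξ => ?_⟩
  have h2 := h1 (f ξ) (h.mem.2 hξ)
  rw [← h.ap'] at h2
  exact h.mem.1 h2

end TEmb

namespace Gen

variable {M : Type} [SetModel M] [GCh M] {P : LPo M} (G : Gen P)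

theorem mem_opN {e v nf : M} : op (G.io e) (G.io v) ∈ G.nm nf ↔
    ∃ r, G.G r ∧ P.Fm r (opN P (P.chk e) (P.chk v)) nf := by
  rw [← G.mem_nm, G.nm_opN]
  rfl

/-- functions of the extension with small domain are read off from the filter on `PP j` -/
theorem read_fun' {j mu : M} (hj : IsOrd j) (hc : card (P.PP j) ∈ P.al j)
    (hm : card mu ∈ P.al j) {f : G.Ext} (hf : ∀ x y y' : G.Ext, op x y ∈ f → op x y' ∈ f → y = y') :
    ∃ F : M, IsFun F ∧ dom F ⊆ prod mu (P.PP j) ∧ ∀ e ∈ mu, ∀ v,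
      op (G.io e) (G.io v) ∈ f ↔ ∃ r, G.G r ∧ op (op e r) v ∈ F := by
  obtain ⟨nf, rfl⟩ := G.exists_nm f
  let D : M → M → Prop := fun e u => (∃ v, P.Fm u (opN P (P.chk e) (P.chk v)) nf) ∨
    ∀ u', P.le u' u → ∀ v, ¬ P.Fm u' (opN P (P.chk e) (P.chk v)) nf
  have hD : Dfp fun γ : (E0 M × M) × M => D γ.1.2 γ.2 := by
    simp only [D]; infer_instance
  obtain ⟨q, hq, h⟩ := G.exists_dec hj hc hm D
    (fun x _ u u' hu hle => hu.imp (fun ⟨v, hv⟩ => ⟨v, hv.mono hle⟩)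
      fun h u'' h' => h u'' (P.le_trans h' hle))
    fun x _ u hu => by
      by_cases h1 : ∃ u', P.le u' u ∧ ∃ v, P.Fm u' (opN P (P.chk x) (P.chk v)) nf
      · obtain ⟨u', hu', h2⟩ := h1
        exact ⟨u', hu', Or.inl h2⟩
      · exact ⟨u, P.le_refl hu, Or.inr fun u' hu' v hv => h1 ⟨u', hu', v, hv⟩⟩
  let S : M := sep (prod mu (P.PP j)) fun t => P.le (p2 t) (P.rs j q) ∧
    ∃ v, P.Fm (P.gl j (p2 t) q) (opN P (P.chk (p1 t)) (P.chk v)) nf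
  have hS : ∀ e r, op e r ∈ S ↔ (e ∈ mu ∧ r ∈ P.PP j) ∧ P.le r (P.rs j q) ∧
      ∃ v, P.Fm (P.gl j r q) (opN P (P.chk e) (P.chk v)) nf := by
    intro e r
    simp only [S]
    rw [mem_sep, op_mem_prod, p1_op, p2_op]
  let V : M → M := fun t => pick fun v => P.Fm (P.gl j (p2 t) q) (opN P (P.chk (p1 t)) (P.chk v)) nf
  have hV : Dff fun γ : E0 M × M => V γ.2 := by
    simp only [V]; infer_instance
  refine ⟨lam S V, isFun_lam, ?_, fun e he v => ?_⟩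
  · rw [dom_lam]
    exact fun t ht => (mem_sep.1 ht).1
  have key : ∀ r, G.G r → op e r ∈ S → op (G.io e) (G.io (V (op e r))) ∈ G.nm nf := by
    intro r hr hS'
    obtain ⟨⟨-, h1⟩, h2, h3⟩ := (hS e r).1 hS'
    have h4 : P.Fm (P.gl j r q) (opN P (P.chk e) (P.chk (V (op e r)))) nf := by
      simp only [V]
      rw [p1_op, p2_op]
      exact LPo.pick_spec (P := fun v => P.Fm (P.gl j r q) (opN P (P.chk e) (P.chk v)) nf) h3
    exact G.mem_opN.2 ⟨_, G.glue hj hr hq h1 h2, h4⟩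
  constructor
  · intro hv
    obtain ⟨s, hs, h1⟩ := G.mem_opN.1 hv
    obtain ⟨r, hr, hrG, hrq, h2, h3⟩ := G.dec_spec hj D hq h he
    have hrS : op e r ∈ S := by
      rcases h2 with h2 | h2
      · exact (hS e r).2 ⟨⟨he, hr⟩, hrq, h2⟩
      · obtain ⟨t, -, h4, h5⟩ := G.dir h3 hs
        exact absurd (h1.mono h5) (h2 t h4 v)
    refine ⟨r, hrG, op_mem_lam.2 ⟨hrS, ?_⟩⟩
    exact G.io_inj (hf _ _ _ hv (key r hrG hrS))
  · rintro ⟨r, hr, h1⟩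
    obtain ⟨h2, rfl⟩ := op_mem_lam.1 h1
    exact key r hr h2

/-- covering of functions of the extension -/
theorem cover_cc {j κ mu : M} (hj : IsOrd j) (hc : card (P.PP j) ∈ P.al j) (hcc : P.CC j κ)
    (hm : card mu ∈ P.al j) {f : G.Ext} (hf : ∀ x y y' : G.Ext, op x y ∈ f → op x y' ∈ f → y = y') :
    ∃ H : M, IsFun H ∧ dom H = mu ∧ (∀ e ∈ mu, card (ap H e) ⊆ κ) ∧
      ∀ e ∈ mu, ∀ v, op (G.io e) (G.io v) ∈ f → v ∈ ap H e := by
  obtain ⟨nf, rfl⟩ := G.exists_nm f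
  let D : M → M → Prop := fun e u => (∃ v, P.Fm u (opN P (P.chk e) (P.chk v)) nf) ∨
    ∀ u', P.le u' u → ∀ v, ¬ P.Fm u' (opN P (P.chk e) (P.chk v)) nf
  have hD : Dfp fun γ : (E0 M × M) × M => D γ.1.2 γ.2 := by
    simp only [D]; infer_instance
  obtain ⟨q, hq, h⟩ := G.exists_dec hj hc hm D
    (fun x _ u u' hu hle => hu.imp (fun ⟨v, hv⟩ => ⟨v, hv.mono hle⟩)
      fun h u'' h' => h u'' (P.le_trans h' hle))
    fun x _ u hu => by
      by_cases h1 : ∃ u', P.le u' u ∧ ∃ v, P.Fm u' (opN P (P.chk x) (P.chk v)) nf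
      · obtain ⟨u', hu', h2⟩ := h1
        exact ⟨u', hu', Or.inl h2⟩
      · exact ⟨u, P.le_refl hu, Or.inr fun u' hu' v hv => h1 ⟨u', hu', v, hv⟩⟩
  let X : M → M := fun e => sep (P.PP j) fun r => P.le r (P.rs j q) ∧
    ∃ v, P.Fm (P.gl j r q) (opN P (P.chk e) (P.chk v)) nf
  have hX : Dff fun γ : E0 M × M => X γ.2 := by
    simp only [X]; infer_instance
  have hX' : DF1 X := ⟨hX⟩
  have hmX : ∀ e r, r ∈ X e ↔ r ∈ P.PP j ∧ P.le r (P.rs j q) ∧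
      ∃ v, P.Fm (P.gl j r q) (opN P (P.chk e) (P.chk v)) nf := fun e r => mem_sep
  let A : M → M := fun e => pick fun A => A ⊆ X e ∧ card A ⊆ κ ∧
    ∀ r ∈ X e, ∃ a ∈ A, ∃ w ∈ P.PP j, P.le w r ∧ P.le w a
  have hA : Dff fun γ : E0 M × M => A γ.2 := by
    simp only [A]; infer_instance
  have hA' : DF1 A := ⟨hA⟩
  have hAs : ∀ e, A e ⊆ X e ∧ card (A e) ⊆ κ ∧
      ∀ r ∈ X e, ∃ a ∈ A e, ∃ w ∈ P.PP j, P.le w r ∧ P.le w a := by
    intro e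
    exact LPo.pick_spec (P := fun A => A ⊆ X e ∧ card A ⊆ κ ∧
      ∀ r ∈ X e, ∃ a ∈ A, ∃ w ∈ P.PP j, P.le w r ∧ P.le w a) (hcc (X e) fun r hr => ((hmX e r).1 hr).1)
  let V : M → M → M := fun e r => pick fun v => P.Fm (P.gl j r q) (opN P (P.chk e) (P.chk v)) nf
  have hV : Dff fun γ : (E0 M × M) × M => V γ.1.2 γ.2 := by
    simp only [V]; infer_instance
  have hV' : DF2 V := ⟨hV⟩
  refine ⟨lam mu fun e => img (A e) fun r => V e r, isFun_lam, dom_lam, fun e he => ?_,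
    fun e he v hv => ?_⟩
  · rw [ap_lam he]
    exact Sub.trans (card_sub_iff.2 (leq_img _ _)) (hAs e).2.1
  · rw [ap_lam he]
    obtain ⟨s, hs, h1⟩ := G.mem_opN.1 hv
    obtain ⟨r, hr, hrG, hrq, h2, h3⟩ := G.dec_spec hj D hq h he
    have hrX : r ∈ X e := by
      rcases h2 with h2 | h2
      · exact (hmX e r).2 ⟨hr, hrq, h2⟩
      · obtain ⟨t, -, h4, h5⟩ := G.dir h3 hs
        exact absurd (h1.mono h5) (h2 t h4 v)
    have hcq := G.cd hq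
    have hrc := G.cd hrG
    obtain ⟨u, hu, -, a, ha, hua⟩ := G.meets_below hrG (fun u => ∃ a ∈ A e, P.le u a) fun u hu => by
      have huc := P.left hu
      have h4 := P.rs_mono hj hu
      have h5 : P.rs j r = r := ((P.mem_PP hj).1 hr).2
      rw [h5] at h4
      have h6 : P.rs j u ∈ X e := by
        refine (hmX _ _).2 ⟨P.rs_mem hj huc, P.le_trans h4 hrq, ?_⟩
        obtain ⟨v, hv⟩ := ((hmX e r).1 hrX).2.2
        exact ⟨v, hv.mono (LPo.gl_mono hj h4 (P.le_refl hcq) hr (P.rs_mem hj huc) hrq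
          (P.le_trans h4 hrq))⟩
      obtain ⟨a, ha, w, hw, h7, h8⟩ := (hAs e).2.2 _ h6
      exact ⟨P.gl j w u, P.gl_le hj huc hw h7, a, ha,
        P.le_trans (P.gl_le_left hj huc hw h7) h8⟩
    have haX := (hmX e a).1 ((hAs e).1 a ha)
    have haG : G.G a := G.up hu hua
    have h9 : P.Fm (P.gl j a q) (opN P (P.chk e) (P.chk (V e a))) nf :=
      LPo.pick_spec (P := fun v => P.Fm (P.gl j a q) (opN P (P.chk e) (P.chk v)) nf) haX.2.2
    have h10 : op (G.io e) (G.io (V e a)) ∈ G.nm nf :=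
      G.mem_opN.2 ⟨_, G.glue hj haG hq haX.1 haX.2.1, h9⟩
    exact mem_img.2 ⟨a, ha, G.io_inj (hf _ _ _ hv h10)⟩

/-- bounds for functions of the extension into regular cardinals -/
theorem bdd_cc {j κ mu χ : M} (hj : IsOrd j) (hc : card (P.PP j) ∈ P.al j) (hcc : P.CC j κ)
    (hm : card mu ∈ P.al j) (hχ : IsReg χ) (hκ : κ ∈ χ) (hmu : card mu ∈ χ) {f : G.Ext}
    (hf : Maps f (G.io mu) (G.io χ)) : ∃ β ∈ χ, ∀ e ∈ mu, ap f (G.io e) ∈ G.io β := by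
  obtain ⟨H, -, -, h1, h2⟩ := G.cover_cc hj hc hcc hm (f := f) fun x y y' h h' => hf.1.2 x y y' h h'
  have h3 : ∀ e ∈ mu, bigU (ap H e ∩ χ) ∈ χ := by
    intro e he
    refine hχ.bigU_mem ?_ fun x hx => (mem_inter.1 hx).2
    refine (isOrd_card _).mem_of_sub_of_mem hχ.isOrd ?_ hκ
    exact Sub.trans (card_mono fun z hz => (mem_inter.1 hz).1) (h1 e he)
  obtain ⟨β, hβ, h4⟩ := hχ.bdd hmu (fun e => bigU (ap H e ∩ χ)) h3
  refine ⟨β, hβ, fun e he => ?_⟩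
  have h5 : ap f (G.io e) ∈ G.io χ := hf.ap_mem (G.io_mem.2 he)
  obtain ⟨v, hv, h6⟩ := G.io_tr h5
  have h7 : op (G.io e) (G.io v) ∈ f := by
    rw [← h6]
    exact hf.1.op_ap_mem (hf.dom_eq.symm ▸ G.io_mem.2 he)
  have h8 := h2 e he v h7
  rw [h6, G.io_mem]
  refine (hχ.isOrd.mem hv).mem_of_sub_of_mem (hχ.isOrd.mem hβ) ?_ (h4 e he)
  exact sub_bigU (mem_inter.2 ⟨h8, hv⟩)

/-- preservation of regular cardinals -/
theorem isReg_io {χ : M} (hχ : IsReg χ) (h : ∀ m ∈ χ, IsReg (G.io m) → ∃ j κ, IsOrd j ∧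
    card (P.PP j) ∈ P.al j ∧ card m ∈ P.al j ∧ P.CC j κ ∧ κ ∈ χ) : IsReg (G.io χ) := by
  have hlim : IsLim (G.io χ) := G.temb.isLim.2 hχ.infCard.isLim
  have hreg := isReg_cof hlim
  obtain ⟨h1, h2, ⟨f, hf, hfc⟩, -⟩ := cof_spec hlim.1
  rcases (h1.sub_iff hlim.1).1 h2 with h3 | h3
  · exfalso
    obtain ⟨m, hm, h4⟩ := G.io_tr h3
    rw [h4] at hreg hf hfc
    obtain ⟨j, κ, hj, hc, hmj, hcc, hκ⟩ := h m hm hreg
    obtain ⟨β, hβ, h5⟩ := G.bdd_cc hj hc hcc hmj hχ hκ (card_mem_of_mem hχ.isCard hm) hf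
    obtain ⟨ξ, hξ, h6⟩ := hfc (G.io β) (G.io_mem.2 hβ)
    obtain ⟨e, he, rfl⟩ := G.io_tr hξ
    exact mem_irrefl _ (h6 _ (h5 e he))
  · rwa [h3] at hreg

/-- the closure cardinals of good levels are regular in the extension -/
theorem isReg_al' {i : M} (hi : IsOrd i) (hc : card (P.PP i) ∈ P.al i) : IsReg (G.io (P.al i)) :=
  G.isReg_io (P.reg_al hi) fun _ hm _ => ⟨i, _, hi, hc,
    card_mem_of_mem (P.reg_al hi).isCard hm, LPo.cc_card hi, hc⟩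

/-- the number of subsets in the extension of a set of the ground model -/
theorem leq_pw_io {j a : M} (hj : IsOrd j) (hc : card (P.PP j) ∈ P.al j)
    (ha : card a ∈ P.al j) : Leq (pw (G.io a)) (G.io (pw (prod a (P.PP j)))) := by
  obtain ⟨g, hg⟩ := G.exists_filter hj
  refine leq_of_surj (fun R => sep (G.io a) fun y => ∃ r ∈ g, op y r ∈ R) fun x hx => ?_
  obtain ⟨R, hR, h1⟩ := G.subset_level hj hc ha (mem_pw.1 hx)
  refine ⟨G.io R, G.io_mem.2 (mem_pw.2 hR), ?_⟩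
  apply ext
  intro z
  rw [mem_sep]
  constructor
  · rintro ⟨hz, r, hr, hzr⟩
    obtain ⟨y, hy, rfl⟩ := G.io_tr hz
    obtain ⟨s, hs, hsG, rfl⟩ := (hg r).1 hr
    exact (h1 y hy).2 ⟨s, hsG, G.temb.op_mem.1 hzr⟩
  · intro hz
    have hza := mem_pw.1 hx z hz
    obtain ⟨y, hy, rfl⟩ := G.io_tr hza
    obtain ⟨r, hr, hyr⟩ := (h1 y hy).1 hz
    have hrP := (op_mem_prod.1 (hR _ hyr)).2
    exact ⟨hza, G.io r, (hg _).2 ⟨r, hrP, hr, rfl⟩, G.temb.op_mem.2 hyr⟩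

end Gen

end Pool.Agent.IST
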