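import Pool.Agent.LP.CndB

/-!
# Mixing of conditions
-/

set_option synthInstance.maxSize 100000

namespace Pool.Agent.IST

open Pool.Agent.BVM

section

variable {M : Type} [SetModel M] {Γ : Type} [IsCtx Γ M] [BitC M]

/-- the conditions are compatible -/
def Cmp (r a : M) : Prop := ∃ t, cle t r ∧ cle t a

instance Cmp.dfp {f g : Γ → M} [Dff f] [Dff g] : Dfp fun γ => Cmp (f γ) (g γ) := by
  unfold Cmp; infer_instance

/-- the value of the mixed condition at the coordinate `x` -/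
noncomputable def mixN (k d x : M) : M := sep (prod (CP (p1 x)) (tau (p1 x))) fun w =>
  (∃ ξ ∈ k, x ∈ dom (ap d ξ) ∧ cle (p1 w) (rst (p1 x) (ap d ξ)) ∧
    (∃ q, op q (p2 w) ∈ ap (ap d ξ) x ∧ cle (p1 w) q) ∧
    ∀ ζ ∈ ξ, x ∈ dom (ap d ζ) → ¬ Cmp (p1 w) (rst (p1 x) (ap d ζ))) ∨
  (p2 w = ∅ ∧ ∀ ζ ∈ k, x ∈ dom (ap d ζ) → ¬ Cmp (p1 w) (rst (p1 x) (ap d ζ)))

instance mixN.dff {f g h : Γ → M} [Dff f] [Dff g] [Dff h] :
    Dff fun γ => mixN (f γ) (g γ) (h γ) := by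
  unfold mixN; infer_instance

/-- the coordinates of the mixed condition -/
noncomputable def mixS (i k d : M) : M :=
  sep (iU k fun ξ => dom (ap d ξ)) fun x => p1 x ∉ i

instance mixS.dff {f g h : Γ → M} [Dff f] [Dff g] [Dff h] :
    Dff fun γ => mixS (f γ) (g γ) (h γ) := by
  unfold mixS; infer_instance

/-- the part of the mixed condition from `i` on -/
noncomputable def mixC (i k d : M) : M := lam (mixS i k d) fun x => mixN k d x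

instance mixC.dff {f g h : Γ → M} [Dff f] [Dff g] [Dff h] :
    Dff fun γ => mixC (f γ) (g γ) (h γ) := by
  unfold mixC; infer_instance

theorem mem_mixN {k d x r v : M} : op r v ∈ mixN k d x ↔ (r ∈ CP (p1 x) ∧ v ∈ tau (p1 x)) ∧
    ((∃ ξ ∈ k, x ∈ dom (ap d ξ) ∧ cle r (rst (p1 x) (ap d ξ)) ∧
    (∃ q, op q v ∈ ap (ap d ξ) x ∧ cle r q) ∧
    ∀ ζ ∈ ξ, x ∈ dom (ap d ζ) → ¬ Cmp r (rst (p1 x) (ap d ζ))) ∨
    (v = ∅ ∧ ∀ ζ ∈ k, x ∈ dom (ap d ζ) → ¬ Cmp r (rst (p1 x) (ap d ζ)))) := by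
  unfold mixN
  rw [mem_sep, op_mem_prod, p1_op, p2_op]

omit [BitC M] in
theorem mem_mixS {i k d x : M} :
    x ∈ mixS i k d ↔ (∃ ξ ∈ k, x ∈ dom (ap d ξ)) ∧ p1 x ∉ i := by
  unfold mixS
  rw [mem_sep, mem_iU]

section

variable {i j k d : M} (hi : IsOrd i) (hj : IsOrd j) (hk : IsOrd k) (hki : k ∈ alp i)
  (hd : ∀ ξ ∈ k, ap d ξ ∈ CP j)

include hj hk hd

theorem mixN_mem {x : M} (hx : ∃ ξ ∈ k, x ∈ dom (ap d ξ)) : mixN k d x ∈ Nm (p1 x) := by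
  obtain ⟨ξ₀, hξ₀, hx₀⟩ := hx
  have hs : IsOrd (p1 x) := (cnd_of_mem hj (hd ξ₀ hξ₀)).isOrd hx₀
  rw [mem_Nm hs]
  refine ⟨fun w hw => ?_, ?_, ?_⟩
  · unfold mixN at hw
    exact (mem_sep.1 hw).1
  · intro r v r' v' t h1 h2 ht h3 h4
    rw [mem_mixN] at h1 h2
    obtain ⟨-, h1⟩ := h1
    obtain ⟨-, h2⟩ := h2
    rcases h1 with ⟨ξ, hξ, hxξ, g1, ⟨q, g2, g3⟩, g4⟩ | ⟨g1, g2⟩ <;>
      rcases h2 with ⟨ζ, hζ, hxζ, k1, ⟨q', k2, k3⟩, k4⟩ | ⟨k1, k2⟩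
    · rcases (hk.mem hξ).cmp (hk.mem hζ) with h5 | h5 | h5
      · exact absurd ⟨t, h4, cle_trans h3 g1⟩ (k4 ξ h5 hxξ)
      · subst h5
        exact nm_coh hs ((cnd_of_mem hj (hd _ hξ)).nm hxξ) g2 k2 ht (cle_trans h3 g3)
          (cle_trans h4 k3)
      · exact absurd ⟨t, h3, cle_trans h4 k1⟩ (g4 ζ h5 hxζ)
    · exact absurd ⟨t, h4, cle_trans h3 g1⟩ (k2 ξ hξ hxξ)
    · exact absurd ⟨t, h3, cle_trans h4 k1⟩ (g2 ζ hζ hxζ)
    · rw [g1, k1]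
  · intro r hr
    have hrc := cnd_of_mem hs hr
    by_cases hc : ∃ ζ, ζ ∈ k ∧ x ∈ dom (ap d ζ) ∧ Cmp r (rst (p1 x) (ap d ζ))
    · obtain ⟨ζ₀, hζ₀⟩ := hc
      obtain ⟨ξ, -, ⟨hξ, hxξ, t, ht1, ht2⟩, hmin⟩ := exists_min
        (fun ζ => ζ ∈ k ∧ x ∈ dom (ap d ζ) ∧ Cmp r (rst (p1 x) (ap d ζ))) (hk.mem hζ₀.1) hζ₀
      have h1 := rst_mono hs ht1
      rw [rst_eq_self hs hr] at h1
      have h2 := rst_mono hs ht2
      rw [rst_rst (Sub.refl (p1 x))] at h2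
      obtain ⟨r', hr', h3, q, v, h4, h5⟩ := nm_tot hs ((cnd_of_mem hj (hd ξ hξ)).nm hxξ)
        (rst_mem hs ht1.1)
      refine ⟨r', hr', cle_trans h3 h1, r', v, ?_, cle_refl (cnd_of_mem hs hr')⟩
      rw [mem_mixN]
      refine ⟨⟨hr', (nm_cond ((cnd_of_mem hj (hd ξ hξ)).nm hxξ) h4).2⟩, Or.inl ⟨ξ, hξ, hxξ,
        cle_trans h3 h2, ⟨q, h4, h5⟩, fun ζ hζ hxζ hc => ?_⟩⟩
      obtain ⟨u, hu1, hu2⟩ := hc
      exact hmin ζ hζ ⟨hk.trans hζ hξ, hxζ, u, cle_trans hu1 (cle_trans h3 h1), hu2⟩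
    · refine ⟨r, hr, cle_refl hrc, r, ∅, ?_, cle_refl hrc⟩
      rw [mem_mixN]
      refine ⟨⟨hr, empty_mem_of_isLim (infCard_tau hs).isLim⟩, Or.inr ⟨rfl, fun ζ hζ hxζ hc' => ?_⟩⟩
      exact hc ⟨ζ, hζ, hxζ, hc'⟩

include hi hki

theorem cnd_mixC : Cnd (mixC i k d) := by
  have hdom : dom (mixC i k d) = mixS i k d := dom_lam
  refine ⟨isFun_lam, fun x hx => ?_, fun e he hom => ?_⟩
  · rw [hdom] at hx
    have hx' := mem_mixS.1 hx
    obtain ⟨⟨ξ, hξ, hxξ⟩, -⟩ := hx'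
    refine ⟨((cnd_of_mem hj (hd ξ hξ)).2.1 x hxξ).1, ?_⟩
    unfold mixC
    rw [ap_lam hx]
    exact mixN_mem hj hk hd ⟨ξ, hξ, hxξ⟩
  · rw [hdom]
    rcases he.isOrd.total (isOrd_alp hi) with h1 | h1
    · by_cases h2 : alp i ⊆ e
      · have h3 : sep (mixS i k d) (fun x => alp (p1 x) ⊆ e) ⊆
            iU k fun ξ => sep (dom (ap d ξ)) fun x => alp (p1 x) ⊆ e := by
          intro x hx
          obtain ⟨hx1, hx2⟩ := mem_sep.1 hx
          obtain ⟨⟨ξ, hξ, hxξ⟩, -⟩ := mem_mixS.1 hx1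
          exact mem_iU.2 ⟨ξ, hξ, mem_sep.2 ⟨hxξ, hx2⟩⟩
        refine (isOrd_card _).mem_of_sub_of_mem he.isOrd (card_mono h3) (he.card_iU _ ?_ ?_)
        · exact h2 _ (card_mem_of_mem (infCard_alp hi).1 hki)
        · intro ξ hξ
          exact (cnd_of_mem hj (hd ξ hξ)).2.2 e he hom
      · have h3 : sep (mixS i k d) (fun x => alp (p1 x) ⊆ e) = ∅ := by
          rw [eq_empty_iff]
          intro x hx
          obtain ⟨hx1, hx2⟩ := mem_sep.1 hx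
          obtain ⟨⟨ξ, hξ, hxξ⟩, hxi⟩ := mem_mixS.1 hx1
          have hs := (cnd_of_mem hj (hd ξ hξ)).isOrd hxξ
          exact h2 (Sub.trans (alp_sub_alp hi hs ((hs.not_mem hi).1 hxi)) hx2)
        rw [h3, isCard_empty.card_eq]
        exact empty_mem_of_isLim he.infCard.isLim
    · have h2 := he.isOrd.sub_of_mem h1
      have h3 : sep (mixS i k d) (fun x => alp (p1 x) ⊆ e) ⊆
            iU k fun ξ => sep (dom (ap d ξ)) fun x => alp (p1 x) ⊆ e := by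
          intro x hx
          obtain ⟨hx1, hx2⟩ := mem_sep.1 hx
          obtain ⟨⟨ξ, hξ, hxξ⟩, -⟩ := mem_mixS.1 hx1
          exact mem_iU.2 ⟨ξ, hξ, mem_sep.2 ⟨hxξ, hx2⟩⟩
      refine (isOrd_card _).mem_of_sub_of_mem he.isOrd (card_mono h3) (he.card_iU _ ?_ ?_)
      · exact h2 _ (card_mem_of_mem (infCard_alp hi).1 hki)
      · intro ξ hξ
        exact (cnd_of_mem hj (hd ξ hξ)).2.2 e he hom

theorem mixC_mem : mixC i k d ∈ CP j := by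
  refine (mem_CP hj).2 ⟨cnd_mixC hi hj hk hki hd, fun x hx => ?_⟩
  have hdom : dom (mixC i k d) = mixS i k d := dom_lam
  rw [hdom, mem_mixS] at hx
  obtain ⟨⟨ξ, hξ, hxξ⟩, -⟩ := hx
  exact ((mem_CP hj).1 (hd ξ hξ)).2 x hxξ

theorem rst_mixC : rst i (mixC i k d) = ∅ := by
  rw [eq_empty_iff]
  intro w hw
  unfold rst at hw
  rw [mem_sep] at hw
  obtain ⟨hw1, hw2⟩ := hw
  unfold mixC at hw1
  obtain ⟨x, hx, rfl⟩ := mem_lam.1 hw1
  rw [p1_op] at hw2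
  exact (mem_mixS.1 hx).2 hw2

theorem mix_le {b : M} (hb : b ∈ CP i)
    (H : ∀ ξ ∈ k, ∀ ζ ∈ k, ∀ r ∈ CP i, cle r b → cle r (rst i (ap d ξ)) →
      cle r (rst i (ap d ζ)) → ∃ r' ∈ CP i, cle r' r ∧ ∃ l ∈ k, cle r' (rst i (ap d l)) ∧
        cle (glu i r' (ap d l)) (ap d ξ) ∧ cle (glu i r' (ap d l)) (ap d ζ)) :
    ∀ s, IsOrd s → ∀ ξ ∈ k, ∀ r ∈ CP i, cle r b → cle r (rst i (ap d ξ)) →
      cle (rst s (glu i r (mixC i k d))) (rst s (ap d ξ)) := by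
  have hm := cnd_mixC hi hj hk hki hd
  have hmi := rst_mixC hi hj hk hki hd
  have hdom : dom (mixC i k d) = mixS i k d := dom_lam
  refine ord_ind (fun s => ∀ ξ ∈ k, ∀ r ∈ CP i, cle r b → cle r (rst i (ap d ξ)) →
      cle (rst s (glu i r (mixC i k d))) (rst s (ap d ξ))) fun s hs ih ξ hξ r hr hrb hrξ => ?_
  have hg := cnd_glu hi hr hm
  have hdξ := cnd_of_mem hj (hd ξ hξ)
  refine ⟨cnd_rst hg, cnd_rst hdξ, fun x hx => ?_, fun x hx => ?_⟩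
  · rw [mem_dom_rst] at hx ⊢
    refine ⟨?_, hx.2⟩
    rw [mem_dom_glu]
    by_cases h1 : p1 x ∈ i
    · exact Or.inl (hrξ.2.2.1 x (mem_dom_rst.2 ⟨hx.1, h1⟩))
    · refine Or.inr ⟨?_, h1⟩
      rw [hdom, mem_mixS]
      exact ⟨⟨ξ, hξ, hx.1⟩, h1⟩
  · rw [mem_dom_rst] at hx
    obtain ⟨hxξ, hxs⟩ := hx
    have ht := hs.mem hxs
    rw [rst_rst (hs.sub_of_mem hxs), ap_rst hg.1 hxs, ap_rst hdξ.1 hxs]
    by_cases h1 : p1 x ∈ i
    · have h2 : x ∈ dom (rst i (ap d ξ)) := mem_dom_rst.2 ⟨hxξ, h1⟩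
      have h3 := hrξ.2.2.2 x h2
      rw [ap_rst hdξ.1 h1] at h3
      rw [rst_glu_of_sub hi hr hm (hi.sub_of_mem h1), ap_glu_left hi hr hm (hrξ.2.2.1 x h2)]
      exact h3
    · have hit : i ⊆ p1 x := (ht.not_mem hi).1 h1
      have hxS : x ∈ mixS i k d := mem_mixS.2 ⟨⟨ξ, hξ, hxξ⟩, h1⟩
      have hapm : ap (glu i r (mixC i k d)) x = mixN k d x := by
        rw [ap_glu_right hi hr hm (hdom ▸ hxS) h1]
        unfold mixC
        rw [ap_lam hxS]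
      rw [hapm]
      have hR := rst_mem ht hg
      have hRξ := ih _ hxs ξ hξ r hr hrb hrξ
      have hglm : cle (glu i r (mixC i k d)) (mixC i k d) :=
        glu_le hi hr hm (by rw [hmi]; exact cle_empty (cnd_of_mem hi hr))
      rw [FE_iff ht hR]
      intro u hu huR
      obtain ⟨u1, hu1, h2, a, v, h3, h4⟩ := nm_tot ht (mixN_mem hj hk hd ⟨ξ, hξ, hxξ⟩) hu
      have hu1c := cnd_of_mem ht hu1
      have h5 : cle u1 (rst (p1 x) (ap d ξ)) := cle_trans h2 (cle_trans huR hRξ)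
      have h3' := mem_mixN.1 h3
      rcases h3'.2 with ⟨ζ, hζ, hxζ, g1, ⟨q, g2, g3⟩, g4⟩ | ⟨-, g2⟩
      swap
      · exact absurd ⟨u1, h4, h5⟩ (g2 ξ hξ hxξ)
      have hdζ := cnd_of_mem hj (hd ζ hζ)
      have h6 : cle u1 (rst (p1 x) (ap d ζ)) := cle_trans h4 g1
      have h7 : cle (rst i u1) (rst i (ap d ξ)) := by
        have := rst_mono hi h5
        rwa [rst_rst hit] at this
      have h8 : cle (rst i u1) (rst i (ap d ζ)) := by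
        have := rst_mono hi h6
        rwa [rst_rst hit] at this
      have h9 : cle (rst i u1) r := by
        have := rst_mono hi (cle_trans h2 huR)
        rwa [rst_rst hit, rst_glu hi hr hm] at this
      obtain ⟨r1, hr1, k1, l, hl, k2, k3, k4⟩ := H ζ hζ ξ hξ _ (rst_mem hi hu1c)
        (cle_trans h9 hrb) h8 h7
      have hdl := cnd_of_mem hj (hd l hl)
      have hu2 := glu_mem hi hr1 hu1c ht hit hu1
      have k5 := glu_le hi hr1 hu1c k1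
      have k6 := glu_le_left hi hr1 hu1c
      have k7 : cle (glu i r1 u1) (rst (p1 x) (mixC i k d)) :=
        cle_trans k5 (cle_trans h2 (cle_trans huR (rst_mono ht hglm)))
      have k8 : cle (glu i r1 u1) (rst (p1 x) (glu i r1 (mixC i k d))) := by
        rw [rst_glu_of_sup hi hr1 hm ht hit]
        exact le_glu hi hr1 (cnd_rst hm) k6 k7
      have k9 : cle (glu i r1 u1) (rst (p1 x) (ap d l)) :=
        cle_trans k8 (ih _ hxs l hl r1 hr1 (cle_trans k1 (cle_trans h9 hrb)) k2)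
      have k10 : cle (glu i r1 u1) (rst (p1 x) (glu i r1 (ap d l))) := by
        rw [rst_glu_of_sup hi hr1 hdl ht hit]
        exact le_glu hi hr1 (cnd_rst hdl) k6 k9
      have hgl := cnd_glu hi hr1 hdl
      have m1 := k3.2.2.2 x hxζ
      have m2 := k4.2.2.2 x hxξ
      have hW := rst_mem ht hgl
      have hxl : x ∈ dom (glu i r1 (ap d l)) := k3.2.2.1 x hxζ
      have m3 := FE_trans ht hW (hgl.nm hxl) (FE_symm m1) m2
      have m4 := FE_mono ht hW hu2 k10 m3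
      obtain ⟨u3, hu3, n1, w, c, c', n2, n3, n4, n5, n6, n7⟩ := (FE_iff ht hu2).1 m4 _ hu2
        (cle_refl (cnd_of_mem ht hu2))
      have n8 : cle u3 u1 := cle_trans n1 k5
      have n9 : w = v := nm_coh ht (hdζ.nm hxζ) n2 g2 hu3 n6 (cle_trans n8 (cle_trans h4 g3))
      subst n9
      exact ⟨u3, hu3, cle_trans n8 h2, w, a, c', h3, n3, (h3'.1).1, n5, cle_trans n8 h4, n7⟩

end

theorem glu_glu {i r b p : M} (hi : IsOrd i) (hb : b ∈ CP i) :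
    glu i r (glu i b p) = glu i r p := by
  apply ext
  intro w
  unfold glu
  rw [mem_union, mem_union, mem_sep, mem_sep, mem_union, mem_sep]
  constructor
  · rintro (h | ⟨h | h, h'⟩)
    · exact Or.inl h
    · obtain ⟨h1, h2⟩ := (mem_CP hi).1 hb
      obtain ⟨x, hx, rfl⟩ := h1.1.mem_iff.1 h
      rw [p1_op] at h'
      exact absurd (h2 x hx) h'
    · exact Or.inr h
  · rintro (h | h)
    · exact Or.inl h
    · exact Or.inr ⟨Or.inr h, h.2⟩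

/-- amalgamation -/
theorem cnd_amal {i j K d b : M} (hi : IsOrd i) (hj : IsOrd j) (hij : i ⊆ j) (hd : IsFun d)
    (hdK : dom d = K) (hK : card K ∈ alp i) (hb : b ∈ CP i) (hm : ∀ k ∈ K, ap d k ∈ CP j)
    (H : ∀ k ∈ K, ∀ k' ∈ K, ∀ r ∈ CP i, cle r b → cle r (rst i (ap d k)) →
      cle r (rst i (ap d k')) → ∃ r' ∈ CP i, cle r' r ∧ ∃ l ∈ K, cle r' (rst i (ap d l)) ∧
        cle (glu i r' (ap d l)) (ap d k) ∧ cle (glu i r' (ap d l)) (ap d k')) :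
    ∃ q ∈ CP j, rst i q = b ∧
      ∀ k ∈ K, ∀ r ∈ CP i, cle r b → cle r (rst i (ap d k)) → cle (glu i r q) (ap d k) := by
  obtain ⟨g, hg⟩ := (eqn_card K).symm
  have hk := isOrd_card K
  set e : M := lam (card K) fun ξ => ap d (ap g ξ) with he
  have hap : ∀ ξ ∈ card K, ap e ξ = ap d (ap g ξ) := fun ξ hξ => by rw [he, ap_lam hξ]
  have hem : ∀ ξ ∈ card K, ap e ξ ∈ CP j := fun ξ hξ => by
    rw [hap ξ hξ]
    exact hm _ (hg.1.ap_mem hξ)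
  have H' : ∀ ξ ∈ card K, ∀ ζ ∈ card K, ∀ r ∈ CP i, cle r b → cle r (rst i (ap e ξ)) →
      cle r (rst i (ap e ζ)) → ∃ r' ∈ CP i, cle r' r ∧ ∃ l ∈ card K, cle r' (rst i (ap e l)) ∧
        cle (glu i r' (ap e l)) (ap e ξ) ∧ cle (glu i r' (ap e l)) (ap e ζ) := by
    intro ξ hξ ζ hζ r hr h1 h2 h3
    rw [hap ξ hξ] at h2 ⊢
    rw [hap ζ hζ] at h3 ⊢
    obtain ⟨r', hr', h4, l, hl, h5, h6, h7⟩ := H _ (hg.1.ap_mem hξ) _ (hg.1.ap_mem hζ) r hr h1 h2 h3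
    obtain ⟨η, hη, rfl⟩ := hg.surj hl
    refine ⟨r', hr', h4, η, hη, ?_⟩
    rw [hap η hη]
    exact ⟨h5, h6, h7⟩
  have hc := cnd_mixC hi hj hk hK hem
  refine ⟨glu i b (mixC i (card K) e), glu_mem hi hb hc hj hij (mixC_mem hi hj hk hK hem),
    rst_glu hi hb hc, fun k hkK r hr hrb hrk => ?_⟩
  obtain ⟨ξ, hξ, rfl⟩ := hg.surj hkK
  rw [← hap ξ hξ] at hrk ⊢
  have h1 := mix_le hi hj hk hK hem hb H' j hj ξ hξ r hr hrb hrk
  rw [glu_glu hi hb]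
  rwa [rst_eq_self hj (hem ξ hξ), rst_eq_self hj
    (glu_mem hi hr hc hj hij (mixC_mem hi hj hk hK hem))] at h1

end

end Pool.Agent.IST
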