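import Pool.Agent.LP.CndB

/-!
# The sizes of the levels

`kap i` is the base of `tau i`: `tau i = pow2 (kap i)`, and `kap i` is at least `alp i` and the number
of conditions of level `i`. `tht i` is the size of the level `sc i`: `tau i` or its second successor.
-/

set_option synthInstance.maxSize 100000

namespace Pool.Agent.IST

open Pool.Agent.BVM

section

variable {M : Type} [SetModel M] {Γ : Type} [IsCtx Γ M] [BitC M]

open Classical in
/-- the base of `tau i` -/
noncomputable def kap (i : M) : M := if LimIx i then pow2 (dlt i) else alp i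

open Classical in
instance kap.dff {f : Γ → M} [Dff f] : Dff fun γ => kap (f γ) := by
  unfold kap; infer_instance

open Classical in
/-- the size of the level `sc i` -/
noncomputable def tht (i : M) : M := if Bit1 i then scard (scard (tau i)) else tau i

open Classical in
instance tht.dff {f : Γ → M} [Dff f] : Dff fun γ => tht (f γ) := by
  unfold tht; infer_instance

theorem tau_eq (i : M) : tau i = pow2 (kap i) := by
  unfold tau tauF kap
  split_ifs <;> rfl

theorem infCard_kap {i : M} (h : IsOrd i) : InfCard (kap i) := by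
  unfold kap
  split_ifs
  · exact infCard_pow2 (infCard_dlt h)
  · exact infCard_alp h

theorem kap_mem_tau {i : M} (h : IsOrd i) : kap i ∈ tau i := by
  rw [tau_eq]
  exact (infCard_kap h).1.mem_pow2

theorem alp_sub_kap {i : M} (h : IsOrd i) : alp i ⊆ kap i := by
  unfold kap
  by_cases h1 : LimIx i
  · rw [if_pos h1, alp_lim h1]
    exact scard_sub_pow2 (infCard_dlt h).1
  · rw [if_neg h1]
    exact Sub.refl _

theorem tau_sub_tht {i : M} (h : IsOrd i) : tau i ⊆ tht i := by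
  unfold tht
  split_ifs
  · have h1 := infCard_tau h
    have h2 := infCard_scard h1
    exact (infCard_scard h2).isOrd.sub_of_mem ((infCard_scard h2).isOrd.trans
      (mem_scard_self h1.isOrd) (mem_scard_self h2.isOrd))
  · exact Sub.refl _

theorem infCard_tht {i : M} (h : IsOrd i) : InfCard (tht i) := by
  unfold tht
  split_ifs
  · exact infCard_scard (infCard_scard (infCard_tau h))
  · exact infCard_tau h

theorem tht_mem_alp {i : M} (h : IsOrd i) : tht i ∈ alp (sc i) := by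
  rw [alp_sc h]
  unfold tht nxtF
  have h1 := infCard_tau h
  split_ifs
  · exact mem_scard_self (infCard_scard (infCard_scard h1)).isOrd
  · exact mem_scard_self h1.isOrd

theorem alp_sub_tau {i : M} (h : IsOrd i) : alp i ⊆ tau i :=
  (infCard_tau h).isOrd.sub_of_mem (alp_mem_tau h)

theorem DD_sub_tht {i : M} (h : IsOrd i) : DD i ⊆ tht i := by
  unfold DD tht
  split_ifs
  · exact Sub.refl _
  · exact alp_sub_tau h

/-- `tau i ^ (< alp i) = tau i` -/
theorem seqs_tau {i : M} (h : IsOrd i) : Leq (seqs (alp i) (tau i)) (tau i) := by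
  have h1 := infCard_kap h
  rw [tau_eq]
  refine (leq_of_sub (seqs_mono ?_ (Sub.refl _))).trans (leq_seqs_pow2 h1)
  exact Sub.trans (alp_sub_kap h)
    ((infCard_scard h1).isOrd.sub_of_mem (mem_scard_self h1.isOrd))

/-- `tht i ^ (< alp i) = tht i` -/
theorem seqs_tht {i : M} (h : IsOrd i) : Leq (seqs (alp i) (tht i)) (tht i) := by
  unfold tht
  split_ifs
  · have h1 := infCard_tau h
    have h2 := infCard_scard h1
    refine leq_seqs_scard h2 ?_ (leq_seqs_scard h1 (alp_sub_tau h) (seqs_tau h))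
    exact Sub.trans (alp_sub_tau h) (h2.isOrd.sub_of_mem (mem_scard_self h1.isOrd))
  · exact seqs_tau h

/-! ### supports -/

theorem SR.card_dom {p j : M} (h : SR p) (hj : IsOrd j) (hd : ∀ x ∈ dom p, IsX x)
    (hp : ∀ x ∈ dom p, p1 x ∈ sc j) : card (dom p) ∈ alp j := by
  have h1 := h (alp j) (isReg_alp hj) (om_mem_alp hj)
  have h2 : sep (dom p) (fun x => alp (p1 x) ⊆ alp j) = dom p := by
    refine Sub.antisymm (fun x hx => (mem_sep.1 hx).1) fun x hx => mem_sep.2 ⟨hx, ?_⟩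
    have h3 := (hd x hx).isOrd
    rw [alp_sub_iff h3 hj]
    exact (h3.mem_sc_iff hj).1 (hp x hx)
  rwa [h2] at h1

omit [BitC M] in
theorem dom_rst {i p : M} : dom (rst i p) = sep (dom p) fun x => p1 x ∈ i := by
  apply ext
  intro x
  unfold rst
  rw [mem_sep, mem_dom, mem_dom]
  constructor
  · rintro ⟨y, hy⟩
    rw [mem_sep, p1_op] at hy
    exact ⟨⟨y, hy.1⟩, hy.2⟩
  · rintro ⟨⟨y, hy⟩, h⟩
    exact ⟨y, mem_sep.2 ⟨hy, by rwa [p1_op]⟩⟩

theorem card_dom_rst {p j : M} (h : Cnd p) (hj : IsOrd j) : card (dom (rst (sc j) p)) ∈ alp j :=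
  (cnd_rst h).2.2.card_dom hj (fun x hx => ((cnd_rst h).2.1 x hx).1) fun _ hx =>
    (mem_dom_rst.1 hx).2

/-- supports are small -/
theorem mem_CP_sc {i p : M} (hi : IsOrd i) (hp : p ∈ CP (sc i)) : card (dom p) ∈ alp i := by
  obtain ⟨h1, h2⟩ := (mem_CP hi.sc).1 hp
  exact h1.2.2.card_dom hi (fun x hx => (h1.2.1 x hx).1) h2

theorem leq_dom {i p : M} (hi : LimIx i) (hp : p ∈ CP i) : Leq (dom p) (dlt i) := by
  obtain ⟨h1, h2⟩ := (mem_CP hi.isOrd).1 hp
  have h3 : dom p = iU i fun j => dom (rst (sc j) p) := by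
    apply ext
    intro x
    rw [mem_iU]
    constructor
    · intro hx
      exact ⟨p1 x, h2 x hx, mem_dom_rst.2 ⟨hx, self_mem_sc _⟩⟩
    · rintro ⟨j, -, hx⟩
      exact (mem_dom_rst.1 hx).1
  rw [h3]
  have h4 := infCard_dlt hi.isOrd
  refine leq_iU h4 (fun j => dom (rst (sc j) p)) (leq_of_sub (self_sub_dlt hi)) fun j hj => ?_
  have h5 := card_dom_rst h1 (hi.isOrd.mem hj)
  exact leq_of_card_mem h4.isOrd (alp_sub_dlt hj _ h5)

theorem leq_dom_card {i p : M} (hi : IsOrd i) (hp : p ∈ CP i) : Leq (dom p) (dlt i) := by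
  rcases limIx_or_sc hi with h1 | ⟨j, hj, rfl⟩
  · exact leq_dom h1 hp
  · rw [dlt_sc hj]
    exact leq_of_card_mem (isOrd_alp hj) (mem_CP_sc hj hp)

theorem card_dom {i p : M} (hi : IsOrd i) (hp : p ∈ CP i) : card (dom p) ∈ alp i := by
  have h1 := card_sub_of_leq (infCard_dlt hi).1 (leq_dom_card hi hp)
  exact (isOrd_card _).mem_of_sub_of_mem (isOrd_alp hi) h1 (dlt_mem_alp hi)

omit [BitC M] in
theorem leq_fun {f : M} (h : IsFun f) : Leq f (dom f) := by
  refine leq_of (fun w => p1 w) (fun w hw => ?_) fun w hw w' hw' e => ?_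
  · obtain ⟨x, hx, rfl⟩ := h.mem_iff.1 hw
    rwa [p1_op]
  · obtain ⟨x, hx, rfl⟩ := h.mem_iff.1 hw
    obtain ⟨x', hx', rfl⟩ := h.mem_iff.1 hw'
    rw [p1_op, p1_op] at e
    rw [e]

/-! ### sizes -/

theorem isFun_Nm {i n : M} (hi : IsOrd i) (hn : n ∈ Nm i) : IsFun n := by
  refine ⟨fun w hw => ?_, fun q v v' h1 h2 => ?_⟩
  · obtain ⟨x, -, y, -, rfl⟩ := mem_prod.1 (nm_sub hn w hw)
    exact ⟨x, y, rfl⟩
  · have hq := (nm_cond hn h1).1
    have h3 := cle_refl (cnd_of_mem hi hq)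
    exact nm_coh (r := q) hi hn h1 h2 hq h3 h3

theorem leq_Nm_of {i : M} (h : IsOrd i) (h' : Leq (CP i) (kap i)) : Leq (Nm i) (tau i) := by
  have h1 := infCard_kap h
  have h2 : Nm i ⊆ pws (scard (kap i)) (prod (CP i) (tau i)) := by
    intro n hn
    refine mem_pws.2 ⟨nm_sub hn, (card_mem_scard_iff h1.1).2 ?_⟩
    refine (leq_fun (isFun_Nm h hn)).trans ((leq_of_sub fun q hq => ?_).trans h')
    obtain ⟨v, hv⟩ := mem_dom.1 hq
    exact (nm_cond hn hv).1
  refine (leq_of_sub h2).trans (leq_pws ?_ ?_)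
  · rw [tau_eq]
    exact leq_seqs_pow2 h1
  · have h3 := infCard_tau h
    exact leq_prod h3 (h'.trans (leq_of_sub (h3.isOrd.sub_of_mem (kap_mem_tau h)))) (Leq.refl _)

theorem leq_CP_sc_of {i : M} (h : IsOrd i) (h' : Leq (CP i) (kap i)) :
    Leq (CP (sc i)) (tht i) := by
  have h1 := infCard_tht h
  have h2 : Leq (CP i) (tht i) := h'.trans (leq_of_sub (Sub.trans
    ((infCard_tau h).isOrd.sub_of_mem (kap_mem_tau h)) (tau_sub_tht h)))
  have h3 : Leq (pws (alp i) (prod (prod (sing i) (DD i)) (Nm i))) (tht i) := by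
    refine leq_pws (seqs_tht h) (leq_prod h1 (leq_prod h1 (leq_sing h1.ne_empty) ?_) ?_)
    · exact leq_of_sub (DD_sub_tht h)
    · exact (leq_Nm_of h h').trans (leq_of_sub (tau_sub_tht h))
  refine Leq.trans (leq_of (fun p => op (rst i p) (sep p fun w => p1 (p1 w) ∉ i)) ?_ ?_)
    (leq_prod h1 h2 h3)
  · intro p hp
    obtain ⟨h4, h5⟩ := (mem_CP h.sc).1 hp
    refine op_mem_prod.2 ⟨rst_mem h h4, mem_pws.2 ⟨fun w hw => ?_, ?_⟩⟩
    · obtain ⟨hw1, hw2⟩ := mem_sep.1 hw
      obtain ⟨x, hx, rfl⟩ := h4.1.mem_iff.1 hw1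
      rw [p1_op] at hw2
      have h6 : p1 x = i := by
        rcases mem_sc.1 (h5 x hx) with h7 | h7
        · exact absurd h7 hw2
        · exact h7
      obtain ⟨⟨j, -, ξ, hξ, rfl⟩, h8⟩ := h4.2.1 x hx
      rw [p1_op] at h6 h8
      subst h6
      exact op_mem_prod.2 ⟨op_mem_prod.2 ⟨mem_sing.2 rfl, hξ⟩, h8⟩
    · have h6 := mem_CP_sc h hp
      refine (isOrd_card _).mem_of_sub_of_mem (isOrd_alp h) (card_sub_iff.2 ?_) h6
      exact (leq_of_sub fun w hw => (mem_sep.1 hw).1).trans (leq_fun h4.1)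
  · intro p hp q hq e
    rw [op_inj] at e
    apply ext
    intro w
    by_cases h6 : p1 (p1 w) ∈ i
    · have := congrArg (fun u => w ∈ u) e.1
      simp only [rst, mem_sep, h6, and_true] at this
      exact iff_of_eq this
    · have := congrArg (fun u => w ∈ u) e.2
      simp only [mem_sep, h6, not_false_iff, and_true] at this
      exact iff_of_eq this

theorem leq_CP_lim_of {i : M} (h : LimIx i) (h' : ∀ j ∈ i, Leq (CP j) (kap j)) :
    Leq (CP i) (pow2 (dlt i)) := by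
  have h1 := infCard_dlt h.isOrd
  have hi : Leq i (dlt i) := leq_of_sub (self_sub_dlt h)
  have hsc : ∀ {j : M}, j ∈ i → sc j ∈ i := by
    intro j hj
    rcases h with rfl | h
    · exact absurd hj (notMem_empty j)
    · exact h.2.2 j hj
  have h2 : Leq (XX i) (dlt i) := by
    refine leq_iU h1 (fun j => prod (sing j) (DD j)) hi fun j hj => ?_
    refine leq_prod h1 (leq_sing h1.ne_empty) (leq_of_sub ?_)
    have h3 := h.isOrd.mem hj
    exact Sub.trans ((isOrd_alp h3.sc).sub_of_mem (DD_mem_alp h3)) (alp_sub_dlt (hsc hj))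
  have h3 : Leq (iU i fun j => Nm j) (dlt i) := by
    refine leq_iU h1 (fun j => Nm j) hi fun j hj => ?_
    have h3 := h.isOrd.mem hj
    refine (leq_Nm_of h3 (h' j hj)).trans (leq_of_sub ?_)
    exact Sub.trans ((isOrd_alp h3.sc).sub_of_mem (tau_mem_alp h3)) (alp_sub_dlt (hsc hj))
  have h4 : CP i ⊆ pw (prod (XX i) (iU i fun j => Nm j)) := by
    intro p hp
    obtain ⟨h5, h6⟩ := (mem_CP h.isOrd).1 hp
    refine mem_pw.2 fun w hw => ?_
    obtain ⟨x, hx, rfl⟩ := h5.1.mem_iff.1 hw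
    exact op_mem_prod.2 ⟨(mem_XX_iff h.isOrd).2 ⟨(h5.2.1 x hx).1, h6 x hx⟩,
      mem_iU.2 ⟨p1 x, h6 x hx, (h5.2.1 x hx).2⟩⟩
  exact ((leq_of_sub h4).trans (leq_pw (leq_prod h1 h2 h3))).trans (eqn_pw_pow2 _).leq

theorem leq_CP_kap {i : M} (h : IsOrd i) : Leq (CP i) (kap i) := by
  have key : ∀ i : M, IsOrd i → Leq (CP i) (kap i) := by
    refine ord_ind (fun i => Leq (CP i) (kap i)) fun i hi ih => ?_
    rcases limIx_or_sc hi with h1 | ⟨j, hj, rfl⟩
    · have h2 := leq_CP_lim_of h1 ih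
      unfold kap
      rwa [if_pos h1]
    · have h2 := leq_CP_sc_of hj (ih j (self_mem_sc j))
      unfold kap
      rw [if_neg not_limIx_sc]
      exact h2.trans (leq_of_sub ((isOrd_alp hj.sc).sub_of_mem (tht_mem_alp hj)))
  exact key i h

/-- the number of conditions of a limit level -/
theorem leq_CP_lim {i : M} (h : LimIx i) : Leq (CP i) (pow2 (dlt i)) := by
  have := leq_CP_kap h.isOrd
  unfold kap at this
  rwa [if_pos h] at this

theorem leq_CP_tau {i : M} (h : IsOrd i) : Leq (CP i) (tau i) :=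
  (leq_CP_kap h).trans (leq_of_sub ((infCard_tau h).isOrd.sub_of_mem (kap_mem_tau h)))

/-- the number of names -/
theorem leq_Nm {i : M} (h : IsOrd i) : Leq (Nm i) (tau i) := leq_Nm_of h (leq_CP_kap h)

/-- the number of conditions of a successor level -/
theorem leq_CP_sc {i : M} (h : IsOrd i) : Leq (CP (sc i)) (tht i) := leq_CP_sc_of h (leq_CP_kap h)

theorem card_CP_sc {i : M} (h : IsOrd i) : card (CP (sc i)) ∈ alp (sc i) :=
  (isOrd_card _).mem_of_sub_of_mem (isOrd_alp h.sc)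
    (card_sub_of_leq (infCard_tht h).1 (leq_CP_sc h)) (tht_mem_alp h)

theorem CP_empty : CP (∅ : M) = sing ∅ := by
  apply ext
  intro p
  rw [mem_CP isOrd_empty, mem_sing]
  constructor
  · rintro ⟨h1, h2⟩
    refine eq_empty_iff.2 fun w hw => ?_
    obtain ⟨x, hx, rfl⟩ := h1.1.mem_iff.1 hw
    exact notMem_empty _ (h2 x hx)
  · rintro rfl
    exact ⟨cnd_empty, fun x hx => by rw [dom_empty] at hx; exact absurd hx (notMem_empty x)⟩

theorem card_CP_empty : card (CP (∅ : M)) ∈ alp (∅ : M) := by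
  rw [CP_empty]
  refine (isOrd_card _).mem_of_sub_of_mem (isOrd_alp isOrd_empty) ?_ (dlt_mem_alp isOrd_empty)
  exact card_sub_of_leq (infCard_dlt isOrd_empty).1 (leq_sing (infCard_dlt isOrd_empty).ne_empty)

theorem mem_CP_reg {i p : M} (h : IsLim i) (hr : IsReg (dlt i)) (hp : p ∈ CP i) :
    ∃ j ∈ i, p ∈ CP j := by
  obtain ⟨h1, h2⟩ := (mem_CP h.1).1 hp
  have e := dlt_eq_self h hr
  have h3 : card (dom p) ∈ dlt i := by
    have h4 : om ∈ dlt i := (mem_dlt_lim h).2 ⟨∅, empty_mem_of_isLim h, om_mem_alp isOrd_empty⟩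
    have h5 := h1.2.2 (dlt i) hr h4
    have h6 : sep (dom p) (fun x => alp (p1 x) ⊆ dlt i) = dom p :=
      Sub.antisymm (fun x hx => (mem_sep.1 hx).1) fun x hx =>
        mem_sep.2 ⟨hx, alp_sub_dlt (h2 x hx)⟩
    rwa [h6] at h5
  obtain ⟨β, hβ, h4⟩ := hr.bdd h3 (fun x => p1 x) fun x hx => by
    rw [e]; exact h2 x hx
  rw [e] at hβ
  exact ⟨β, hβ, (mem_CP (h.1.mem hβ)).2 ⟨h1, h4⟩⟩

theorem leq_CP_reg {i : M} (h : IsLim i) (hr : IsReg (dlt i)) : Leq (CP i) (dlt i) := by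
  have h1 : CP i ⊆ iU i fun j => CP (sc j) := by
    intro p hp
    obtain ⟨j, hj, h2⟩ := mem_CP_reg h hr hp
    have h3 := h.1.mem hj
    exact mem_iU.2 ⟨j, hj, CP_mono h3 h3.sc (sub_sc j) p h2⟩
  refine (leq_of_sub h1).trans (leq_iU hr.infCard (fun j => CP (sc j))
    (leq_of_sub (self_sub_dlt (Or.inr h))) fun j hj => ?_)
  have h3 := h.1.mem hj
  refine (leq_CP_sc h3).trans (leq_of_sub ?_)
  exact Sub.trans ((isOrd_alp h3.sc).sub_of_mem (tht_mem_alp h3)) (alp_sub_dlt (h.2.2 j hj))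

theorem card_CP_reg {i : M} (h : IsLim i) (hr : IsReg (dlt i)) : card (CP i) ∈ alp i :=
  (isOrd_card _).mem_of_sub_of_mem (isOrd_alp h.1)
    (card_sub_of_leq hr.isCard (leq_CP_reg h hr)) (dlt_mem_alp h.1)

end

end Pool.Agent.IST
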