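import Pool.Agent.LP.Basic
import Pool.Agent.LP.Mix
import Pool.Agent.LP.Size

/-!
# The iteration is a levelled class poset
-/

set_option synthInstance.maxSize 100000

namespace Pool.Agent.IST

open Pool.Agent.BVM

section

variable {M : Type} [SetModel M] [BitC M]

/-- the iteration as a levelled class poset -/
noncomputable def IT (M : Type) [SetModel M] [BitC M] : LPo M where
  Cd := Cnd
  le := cle
  one := ∅
  PP := CP
  rs := rst
  gl := glu
  al := alp
  cd_def := inferInstance
  le_def := inferInstance
  pp_def := inferInstance
  rs_def := inferInstance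
  gl_def := inferInstance
  al_def := inferInstance
  le_refl := cle_refl
  le_trans := cle_trans
  left := cle.left
  right := cle.right
  cd_one := cnd_empty
  le_one := cle_empty
  mem_PP := mem_CP_iff
  exists_level := exists_level
  mono_PP := CP_mono
  one_mem := empty_mem_CP
  rs_mem := rst_mem
  le_rs := fun _ h => cle_rst h
  rs_mono := rst_mono
  rs_rs := fun _ _ h _ => rst_rst h
  gl_le := fun hi hp hr h => glu_le hi hr hp h
  gl_le_left := fun hi hp hr _ => glu_le_left hi hr hp
  rs_gl := fun hi hp hr _ => rst_glu hi hr hp
  le_gl := fun hi hp hr _ h1 h2 => le_glu hi hr hp h1 h2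
  gl_mem := fun hi hj hij hp hr _ => glu_mem hi hr (cnd_of_mem hj hp) hj hij hp
  loc := cle_loc
  amal := cnd_amal
  reg_al := isReg_alp
  al_mem := alp_mem_alp
  card_PP := card_CP_sc

end

end Pool.Agent.IST
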