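import Pool.Agent.LP.CC
import Pool.Agent.LP.Inst
import Pool.Agent.LP.CV

/-!
# The chain condition, for the levelled class poset
-/

namespace Pool.Agent.IST

open Pool.Agent.BVM

/-- the chain condition of the levels of the iteration -/
theorem IT_cc {M : Type} [SetModel M] [BitC M] {i : M} (hi : IsOrd i) :
    (IT M).CC (sc i) (tau i) := by
  refine LPo.cc_of_antichain hi.sc fun A hA h => ?_
  refine card_sub_of_leq (infCard_tau hi).isCard (leq_antichain hi hA fun p hp q hq r hr h1 h2 => ?_)
  by_contra hne
  exact h p hp q hq hne ⟨r, hr, h1, h2⟩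

end Pool.Agent.IST
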