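import Pool.Agent.LP.Size

/-!
# Disjoint copies of a name

Pure combinatorics of the level `sc i`. A set `R` of pairs `(y, r)`, `r` a condition of level `sc i`,
is regarded as a name of a set of ground model sets `y`. `Fr i R s y`: `s` forces that `y` is in the
set with the name `R`. `cmb i B a s t` is `a` below `i`, and at the stage `i` it is `s` on the
coordinates in `B` and `t` on the others.
-/

set_option synthInstance.maxSize 100000

namespace Pool.Agent.IST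

open Pool.Agent.BVM

section

variable {M : Type} [SetModel M] [BitC M] {Γ : Type} [IsCtx Γ M]

/-- `a` below `i`; at the stage `i` it is `s` on the coordinates in `B` and `t` on the others -/
noncomputable def cmb (i B a s t : M) : M :=
  a ∪ (sep s (fun w => p1 (p1 w) ∉ i ∧ p1 w ∈ B) ∪ sep t fun w => p1 (p1 w) ∉ i ∧ p1 w ∉ B)

instance cmb.dff {f g h k l : Γ → M} [Dff f] [Dff g] [Dff h] [Dff k] [Dff l] :
    Dff fun γ => cmb (f γ) (g γ) (h γ) (k γ) (l γ) := by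
  unfold cmb; infer_instance

theorem op_mem_cmb {i B a s t x y : M} : op x y ∈ cmb i B a s t ↔
    op x y ∈ a ∨ (op x y ∈ s ∧ p1 x ∉ i ∧ x ∈ B) ∨ (op x y ∈ t ∧ p1 x ∉ i ∧ x ∉ B) := by
  unfold cmb
  rw [mem_union, mem_union, mem_sep, mem_sep, p1_op]

theorem mem_dom_cmb {i B a s t x : M} : x ∈ dom (cmb i B a s t) ↔
    x ∈ dom a ∨ (x ∈ dom s ∧ p1 x ∉ i ∧ x ∈ B) ∨ (x ∈ dom t ∧ p1 x ∉ i ∧ x ∉ B) := by
  rw [mem_dom, mem_dom, mem_dom, mem_dom]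
  simp only [op_mem_cmb]
  constructor
  · rintro ⟨y, h | h | h⟩
    · exact Or.inl ⟨y, h⟩
    · exact Or.inr (Or.inl ⟨⟨y, h.1⟩, h.2⟩)
    · exact Or.inr (Or.inr ⟨⟨y, h.1⟩, h.2⟩)
  · rintro (⟨y, h⟩ | ⟨⟨y, h⟩, h'⟩ | ⟨⟨y, h⟩, h'⟩)
    · exact ⟨y, Or.inl h⟩
    · exact ⟨y, Or.inr (Or.inl ⟨h, h'⟩)⟩
    · exact ⟨y, Or.inr (Or.inr ⟨h, h'⟩)⟩

/-- the order of the level `sc i` -/
theorem cle_sc_iff {i u v : M} (hi : IsOrd i) (hu : u ∈ CP (sc i)) (hv : v ∈ CP (sc i)) :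
    cle u v ↔ cle (rst i u) (rst i v) ∧
      ∀ x ∈ dom v, p1 x ∉ i → x ∈ dom u ∧ FE i (rst i u) (ap u x) (ap v x) := by
  obtain ⟨hu1, hu2⟩ := (mem_CP hi.sc).1 hu
  obtain ⟨hv1, hv2⟩ := (mem_CP hi.sc).1 hv
  have key : ∀ x ∈ dom v, p1 x ∉ i → p1 x = i := fun x hx h => by
    rcases mem_sc.1 (hv2 x hx) with h1 | h1
    · exact absurd h1 h
    · exact h1
  constructor
  · intro h
    refine ⟨rst_mono hi h, fun x hx hx' => ⟨h.2.2.1 x hx, ?_⟩⟩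
    have := h.2.2.2 x hx
    rwa [key x hx hx'] at this
  · rintro ⟨h1, h2⟩
    refine ⟨hu1, hv1, fun x hx => ?_, fun x hx => ?_⟩
    · by_cases hx' : p1 x ∈ i
      · exact (mem_dom_rst.1 (h1.2.2.1 x (mem_dom_rst.2 ⟨hx, hx'⟩))).1
      · exact (h2 x hx hx').1
    · by_cases hx' : p1 x ∈ i
      · have h3 := h1.2.2.2 x (mem_dom_rst.2 ⟨hx, hx'⟩)
        rwa [ap_rst hu1.1 hx', ap_rst hv1.1 hx', rst_rst (hi.sub_of_mem hx')] at h3
      · have := (h2 x hx hx').2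
        rwa [key x hx hx']

section cmb

variable {i B a s t : M} (hi : IsOrd i) (ha : a ∈ CP i) (hs : s ∈ CP (sc i)) (ht : t ∈ CP (sc i))

include hi ha hs ht

theorem isFun_cmb : IsFun (cmb i B a s t) := by
  obtain ⟨h1, h2⟩ := (mem_CP hi).1 ha
  have h3 := cnd_of_mem hi.sc hs
  have h4 := cnd_of_mem hi.sc ht
  constructor
  · intro w hw
    unfold cmb at hw
    rcases mem_union.1 hw with h | h
    · exact h1.1.1 w h
    · rcases mem_union.1 h with h | h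
      · exact h3.1.1 w (mem_sep.1 h).1
      · exact h4.1.1 w (mem_sep.1 h).1
  · intro x y y' h h'
    rw [op_mem_cmb] at h h'
    rcases h with h | h | h <;> rcases h' with h' | h' | h'
    · exact h1.1.2 x y y' h h'
    · exact absurd (h2 x (mem_dom.2 ⟨y, h⟩)) h'.2.1
    · exact absurd (h2 x (mem_dom.2 ⟨y, h⟩)) h'.2.1
    · exact absurd (h2 x (mem_dom.2 ⟨y', h'⟩)) h.2.1
    · exact h3.1.2 x y y' h.1 h'.1
    · exact absurd h.2.2 h'.2.2
    · exact absurd (h2 x (mem_dom.2 ⟨y', h'⟩)) h.2.1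
    · exact absurd h'.2.2 h.2.2
    · exact h4.1.2 x y y' h.1 h'.1

theorem ap_cmb_a {x : M} (hx : x ∈ dom a) : ap (cmb i B a s t) x = ap a x :=
  (isFun_cmb hi ha hs ht).ap_eq (op_mem_cmb.2 (Or.inl ((cnd_of_mem hi ha).1.op_ap_mem hx)))

theorem ap_cmb_s {x : M} (hx : x ∈ dom s) (hx' : p1 x ∉ i) (hB : x ∈ B) :
    ap (cmb i B a s t) x = ap s x :=
  (isFun_cmb hi ha hs ht).ap_eq
    (op_mem_cmb.2 (Or.inr (Or.inl ⟨(cnd_of_mem hi.sc hs).1.op_ap_mem hx, hx', hB⟩)))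

theorem ap_cmb_t {x : M} (hx : x ∈ dom t) (hx' : p1 x ∉ i) (hB : x ∉ B) :
    ap (cmb i B a s t) x = ap t x :=
  (isFun_cmb hi ha hs ht).ap_eq
    (op_mem_cmb.2 (Or.inr (Or.inr ⟨(cnd_of_mem hi.sc ht).1.op_ap_mem hx, hx', hB⟩)))

theorem cmb_mem : cmb i B a s t ∈ CP (sc i) := by
  obtain ⟨h1, h2⟩ := (mem_CP hi).1 ha
  obtain ⟨h3, h3'⟩ := (mem_CP hi.sc).1 hs
  obtain ⟨h4, h4'⟩ := (mem_CP hi.sc).1 ht
  refine (mem_CP hi.sc).2 ⟨⟨isFun_cmb hi ha hs ht, fun x hx => ?_, fun d hd hom => ?_⟩,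
    fun x hx => ?_⟩
  · rcases mem_dom_cmb.1 hx with h | h | h
    · rw [ap_cmb_a hi ha hs ht h]
      exact h1.2.1 x h
    · rw [ap_cmb_s hi ha hs ht h.1 h.2.1 h.2.2]
      exact h3.2.1 x h.1
    · rw [ap_cmb_t hi ha hs ht h.1 h.2.1 h.2.2]
      exact h4.2.1 x h.1
  · have h5 : sep (dom (cmb i B a s t)) (fun x => alp (p1 x) ⊆ d) ⊆
        sep (dom a) (fun x => alp (p1 x) ⊆ d) ∪ (sep (dom s) (fun x => alp (p1 x) ⊆ d) ∪
          sep (dom t) fun x => alp (p1 x) ⊆ d) := by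
      intro x hx
      rw [mem_sep] at hx
      rw [mem_union, mem_union, mem_sep, mem_sep, mem_sep]
      rcases mem_dom_cmb.1 hx.1 with h | h | h
      · exact Or.inl ⟨h, hx.2⟩
      · exact Or.inr (Or.inl ⟨h.1, hx.2⟩)
      · exact Or.inr (Or.inr ⟨h.1, hx.2⟩)
    exact (isOrd_card _).mem_of_sub_of_mem hd.isOrd (card_mono h5)
      (card_union_mem hd.infCard (h1.2.2 d hd hom)
        (card_union_mem hd.infCard (h3.2.2 d hd hom) (h4.2.2 d hd hom)))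
  · rcases mem_dom_cmb.1 hx with h | h | h
    · exact sub_sc i _ (h2 x h)
    · exact h3' x h.1
    · exact h4' x h.1

omit hs ht in
theorem rst_cmb : rst i (cmb i B a s t) = a := by
  apply ext
  intro w
  have h2 := (mem_CP hi).1 ha
  unfold rst cmb
  rw [mem_sep, mem_union, mem_union, mem_sep, mem_sep]
  constructor
  · rintro ⟨h | h | h, h'⟩
    · exact h
    · exact absurd h' h.2.1
    · exact absurd h' h.2.1
  · intro h
    refine ⟨Or.inl h, ?_⟩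
    obtain ⟨x, hx, rfl⟩ := h2.1.1.mem_iff.1 h
    rw [p1_op]
    exact h2.2 x hx

end cmb

/-- `u` is stronger than `s` on the coordinates in `B` -/
def cB (i B u s : M) : Prop := cle (rst i u) (rst i s) ∧
  ∀ x ∈ dom s, p1 x ∉ i → x ∈ B → x ∈ dom u ∧ FE i (rst i u) (ap u x) (ap s x)

instance cB.dfp {f g h k : Γ → M} [Dff f] [Dff g] [Dff h] [Dff k] :
    Dfp fun γ => cB (f γ) (g γ) (h γ) (k γ) := by
  unfold cB; infer_instance

/-- `s` forces `y` into the set with the name `R` -/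
def Fr (i R s y : M) : Prop := ∀ s' ∈ CP (sc i), cle s' s →
  ∃ s'' ∈ CP (sc i), cle s'' s' ∧ ∃ r, op y r ∈ R ∧ cle s'' r

instance Fr.dfp {f g h k : Γ → M} [Dff f] [Dff g] [Dff h] [Dff k] :
    Dfp fun γ => Fr (f γ) (g γ) (h γ) (k γ) := by
  unfold Fr; infer_instance

theorem Fr.mono {i R s s' y : M} (h : Fr i R s y) (hs : cle s' s) : Fr i R s' y :=
  fun t ht h1 => h t ht (cle_trans h1 hs)

/-- `R` is a name of level `sc i`, with coordinates at the stage `i` in `B` -/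
def NB (i B R : M) : Prop := ∀ y r, op y r ∈ R → r ∈ CP (sc i) ∧ ∀ x ∈ dom r, p1 x ∉ i → x ∈ B

instance NB.dfp {f g h : Γ → M} [Dff f] [Dff g] [Dff h] :
    Dfp fun γ => NB (f γ) (g γ) (h γ) := by
  unfold NB; infer_instance

theorem nm_of_CP_sc {i s x : M} (hi : IsOrd i) (hs : s ∈ CP (sc i)) (hx : x ∈ dom s)
    (hx' : p1 x ∉ i) : ap s x ∈ Nm i := by
  have h4 := (mem_CP hi.sc).1 hs
  have h5 : p1 x = i := by
    rcases mem_sc.1 (h4.2 x hx) with h1 | h1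
    · exact absurd h1 hx'
    · exact h1
  have h6 := h4.1.nm hx
  rwa [h5] at h6

theorem rst_mem_of {i s : M} (hi : IsOrd i) (hs : s ∈ CP (sc i)) : rst i s ∈ CP i :=
  rst_mem hi (cnd_of_mem hi.sc hs)

/-- what is forced about a name with coordinates in `B` depends only on the coordinates in `B` -/
theorem Fr.of_cB {i B R s u y : M} (hi : IsOrd i) (hR : NB i B R) (hs : s ∈ CP (sc i))
    (hu : u ∈ CP (sc i)) (hus : cB i B u s) (h : Fr i R s y) : Fr i R u y := by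
  intro u' hu' hle
  have h1 := (cle_sc_iff hi hu' hu).1 hle
  have hra := rst_mem_of hi hu'
  have ht := cmb_mem (B := B) hi hra hu' hs
  have hrt := rst_cmb (B := B) (s := u') (t := s) hi hra
  obtain ⟨t', ht', h2, r, hr, h3⟩ := h (cmb i B (rst i u') u' s) ht (by
    rw [cle_sc_iff hi ht hs, hrt]
    refine ⟨cle_trans h1.1 hus.1, fun x hx hx' => ?_⟩
    by_cases hB : x ∈ B
    · obtain ⟨h4, h5⟩ := hus.2 x hx hx' hB
      obtain ⟨h6, h7⟩ := h1.2 x h4 hx'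
      refine ⟨mem_dom_cmb.2 (Or.inr (Or.inl ⟨h6, hx', hB⟩)), ?_⟩
      rw [ap_cmb_s hi hra hu' hs h6 hx' hB]
      exact FE_trans hi hra (nm_of_CP_sc hi hu h4 hx') h7
        (FE_mono hi (rst_mem_of hi hu) hra h1.1 h5)
    · refine ⟨mem_dom_cmb.2 (Or.inr (Or.inr ⟨hx, hx', hB⟩)), ?_⟩
      rw [ap_cmb_t hi hra hu' hs hx hx' hB]
      exact FE_refl hi hra (nm_of_CP_sc hi hs hx hx'))
  have hrr := (hR y r hr).1
  have h4 := (cle_sc_iff hi ht' ht).1 h2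
  have h5 := (cle_sc_iff hi ht' hrr).1 h3
  rw [hrt] at h4
  have hra' := rst_mem_of hi ht'
  have hv := cmb_mem (B := B) hi hra' ht' hu'
  have hrv := rst_cmb (B := B) (s := t') (t := u') hi hra'
  refine ⟨cmb i B (rst i t') t' u', hv, ?_, r, hr, ?_⟩
  · rw [cle_sc_iff hi hv hu', hrv]
    refine ⟨h4.1, fun x hx hx' => ?_⟩
    by_cases hB : x ∈ B
    · have h6 : x ∈ dom (cmb i B (rst i u') u' s) := mem_dom_cmb.2 (Or.inr (Or.inl ⟨hx, hx', hB⟩))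
      obtain ⟨h7, h8⟩ := h4.2 x h6 hx'
      rw [ap_cmb_s hi hra hu' hs hx hx' hB] at h8
      refine ⟨mem_dom_cmb.2 (Or.inr (Or.inl ⟨h7, hx', hB⟩)), ?_⟩
      rw [ap_cmb_s hi hra' ht' hu' h7 hx' hB]
      exact h8
    · refine ⟨mem_dom_cmb.2 (Or.inr (Or.inr ⟨hx, hx', hB⟩)), ?_⟩
      rw [ap_cmb_t hi hra' ht' hu' hx hx' hB]
      exact FE_refl hi hra' (nm_of_CP_sc hi hu' hx hx')
  · rw [cle_sc_iff hi hv hrr, hrv]
    refine ⟨h5.1, fun x hx hx' => ?_⟩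
    have hB := (hR y r hr).2 x hx hx'
    obtain ⟨h7, h8⟩ := h5.2 x hx hx'
    refine ⟨mem_dom_cmb.2 (Or.inr (Or.inl ⟨h7, hx', hB⟩)), ?_⟩
    rw [ap_cmb_s hi hra' ht' hu' h7 hx' hB]
    exact h8

/-- two names with almost disjoint coordinates, which are forced to be equal, have few possible
elements -/
theorem Fr.unique {i B1 B2 R1 R2 q0 r : M} (hi : IsOrd i) (hq : q0 ∈ CP (sc i))
    (hr : r ∈ CP (sc i)) (hrq : cle r q0) (hB : ∀ x ∈ B1, x ∈ B2 → x ∈ dom q0)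
    (h1 : NB i B1 R1) (h2 : NB i B2 R2)
    (heq : ∀ s ∈ CP (sc i), cle s r → ∀ y, Fr i R1 s y ↔ Fr i R2 s y)
    (hfun : ∀ s ∈ CP (sc i), cle s r → ∀ e v v', Fr i R1 s (op e v) → Fr i R1 s (op e v') → v = v')
    {s s' e v v' : M} (hs : s ∈ CP (sc i)) (hsr : cle s r) (hs' : s' ∈ CP (sc i))
    (hsr' : cle s' r) (hss : rst i s = rst i s') (hv : Fr i R1 s (op e v))
    (hv' : Fr i R1 s' (op e v')) : v = v' := by
  have hv2 := (heq s' hs' hsr' _).1 hv'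
  have ha := rst_mem_of hi hs
  have hw := cmb_mem (B := B2) hi ha hs' hr
  have hu := cmb_mem (B := B1) hi ha hs hw
  have hru := rst_cmb (B := B1) (s := s) (t := cmb i B2 (rst i s) s' r) hi ha
  have e1 := (cle_sc_iff hi hs hr).1 hsr
  have e2 := (cle_sc_iff hi hs' hr).1 hsr'
  have e3 := (cle_sc_iff hi hs hq).1 (cle_trans hsr hrq)
  have e4 := (cle_sc_iff hi hs' hq).1 (cle_trans hsr' hrq)
  rw [← hss] at e2 e4
  -- the values of the combination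
  have w1 : ∀ x ∈ dom s, p1 x ∉ i → x ∈ B1 →
      x ∈ dom (cmb i B1 (rst i s) s (cmb i B2 (rst i s) s' r)) ∧
      ap (cmb i B1 (rst i s) s (cmb i B2 (rst i s) s' r)) x = ap s x := fun x hx hx' hB =>
    ⟨mem_dom_cmb.2 (Or.inr (Or.inl ⟨hx, hx', hB⟩)), ap_cmb_s hi ha hs hw hx hx' hB⟩
  have w2 : ∀ x ∈ dom s', p1 x ∉ i → x ∉ B1 → x ∈ B2 →
      x ∈ dom (cmb i B1 (rst i s) s (cmb i B2 (rst i s) s' r)) ∧
      ap (cmb i B1 (rst i s) s (cmb i B2 (rst i s) s' r)) x = ap s' x := by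
    intro x hx hx' hB hB2
    have h3 : x ∈ dom (cmb i B2 (rst i s) s' r) := mem_dom_cmb.2 (Or.inr (Or.inl ⟨hx, hx', hB2⟩))
    refine ⟨mem_dom_cmb.2 (Or.inr (Or.inr ⟨h3, hx', hB⟩)), ?_⟩
    rw [ap_cmb_t hi ha hs hw h3 hx' hB, ap_cmb_s hi ha hs' hr hx hx' hB2]
  have w3 : ∀ x ∈ dom r, p1 x ∉ i → x ∉ B1 → x ∉ B2 →
      x ∈ dom (cmb i B1 (rst i s) s (cmb i B2 (rst i s) s' r)) ∧
      ap (cmb i B1 (rst i s) s (cmb i B2 (rst i s) s' r)) x = ap r x := by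
    intro x hx hx' hB hB2
    have h3 : x ∈ dom (cmb i B2 (rst i s) s' r) := mem_dom_cmb.2 (Or.inr (Or.inr ⟨hx, hx', hB2⟩))
    refine ⟨mem_dom_cmb.2 (Or.inr (Or.inr ⟨h3, hx', hB⟩)), ?_⟩
    rw [ap_cmb_t hi ha hs hw h3 hx' hB, ap_cmb_t hi ha hs' hr hx hx' hB2]
  have hur : cle (cmb i B1 (rst i s) s (cmb i B2 (rst i s) s' r)) r := by
    rw [cle_sc_iff hi hu hr, hru]
    refine ⟨e1.1, fun x hx hx' => ?_⟩
    by_cases hx1 : x ∈ B1
    · obtain ⟨h3, h4⟩ := e1.2 x hx hx'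
      obtain ⟨h5, h6⟩ := w1 x h3 hx' hx1
      rw [h6]
      exact ⟨h5, h4⟩
    · by_cases hx2 : x ∈ B2
      · obtain ⟨h3, h4⟩ := e2.2 x hx hx'
        obtain ⟨h5, h6⟩ := w2 x h3 hx' hx1 hx2
        rw [h6]
        exact ⟨h5, h4⟩
      · obtain ⟨h5, h6⟩ := w3 x hx hx' hx1 hx2
        rw [h6]
        exact ⟨h5, FE_refl hi ha (nm_of_CP_sc hi hr hx hx')⟩
  have hu1 : cB i B1 (cmb i B1 (rst i s) s (cmb i B2 (rst i s) s' r)) s := by
    refine ⟨by rw [hru]; exact cle_refl (cnd_of_mem hi ha), fun x hx hx' hx1 => ?_⟩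
    obtain ⟨h5, h6⟩ := w1 x hx hx' hx1
    rw [h6, hru]
    exact ⟨h5, FE_refl hi ha (nm_of_CP_sc hi hs hx hx')⟩
  have hu2 : cB i B2 (cmb i B1 (rst i s) s (cmb i B2 (rst i s) s' r)) s' := by
    refine ⟨by rw [hru, hss]; exact cle_refl (cnd_of_mem hi (hss ▸ ha)), fun x hx hx' hx2 => ?_⟩
    rw [hru]
    by_cases hx1 : x ∈ B1
    · have hx0 := hB x hx1 hx2
      obtain ⟨h3, h4⟩ := e3.2 x hx0 hx'
      obtain ⟨h7, h8⟩ := e4.2 x hx0 hx'
      obtain ⟨h5, h6⟩ := w1 x h3 hx' hx1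
      rw [h6]
      exact ⟨h5, FE_trans hi ha (nm_of_CP_sc hi hq hx0 hx') h4 (FE_symm h8)⟩
    · obtain ⟨h5, h6⟩ := w2 x hx hx' hx1 hx2
      rw [h6]
      exact ⟨h5, FE_refl hi ha (nm_of_CP_sc hi hs' hx hx')⟩
  have g1 := Fr.of_cB hi h1 hs hu hu1 hv
  have g2 := (heq _ hu hur _).2 (Fr.of_cB hi h2 hs' hu hu2 hv2)
  exact hfun _ hu hur _ _ _ g1 g2

/-- two names, with almost disjoint coordinates, for the same function onto the next cardinal -/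
theorem Fr.false {i B1 B2 R1 R2 q0 r α : M} (hi : IsOrd i) (hα : InfCard α)
    (hP : Leq (CP i) α) (hq : q0 ∈ CP (sc i))
    (hr : r ∈ CP (sc i)) (hrq : cle r q0) (hB : ∀ x ∈ B1, x ∈ B2 → x ∈ dom q0)
    (h1 : NB i B1 R1) (h2 : NB i B2 R2)
    (heq : ∀ s ∈ CP (sc i), cle s r → ∀ y, Fr i R1 s y ↔ Fr i R2 s y)
    (hfun : ∀ s ∈ CP (sc i), cle s r → ∀ e v v', Fr i R1 s (op e v) → Fr i R1 s (op e v') → v = v')
    (honto : ∀ v ∈ scard α, ∃ s ∈ CP (sc i), cle s r ∧ ∃ e ∈ α, Fr i R1 s (op e v)) : False := by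
  obtain ⟨g, hg1, hg2, hg⟩ := exists_choice_cls (scard α)
    (fun v w => ∃ s e, w = op s e ∧ s ∈ CP (sc i) ∧ cle s r ∧ e ∈ α ∧ Fr i R1 s (op e v))
    fun v hv => by
      obtain ⟨s, hs, h3, e, he, h4⟩ := honto v hv
      exact ⟨op s e, s, e, rfl, hs, h3, he, h4⟩
  have h3 : Leq (scard α) (prod α (CP i)) := by
    refine leq_of (fun v => op (p2 (ap g v)) (rst i (p1 (ap g v)))) (fun v hv => ?_)
      fun v hv v' hv' e => ?_
    · obtain ⟨s, e, h3, hs, h4, he, h5⟩ := hg v hv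
      rw [h3, p1_op, p2_op]
      exact op_mem_prod.2 ⟨he, rst_mem_of hi hs⟩
    · obtain ⟨s, e1, h3, hs, h4, he, h5⟩ := hg v hv
      obtain ⟨s', e', h3', hs', h4', he', h5'⟩ := hg v' hv'
      rw [h3, h3', p1_op, p2_op, p1_op, p2_op, op_inj] at e
      obtain ⟨e2, e3⟩ := e
      subst e2
      exact Fr.unique hi hq hr hrq hB h1 h2 heq hfun hs h4 hs' h4' e3 h5 h5'
  have h4 := h3.trans (leq_prod hα (Leq.refl α) hP)
  exact (infCard_scard hα).1.not_leq (mem_scard_self hα.isOrd) h4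

end

end Pool.Agent.IST
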