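import Pool.Agent.LP.Swap

/-!
# Many disjoint copies of a small set of coordinates at a bit 1 stage
-/

set_option synthInstance.maxSize 100000

namespace Pool.Agent.IST

open Pool.Agent.BVM

section

variable {M : Type} [SetModel M] [BitC M] {Γ : Type} [IsCtx Γ M]

theorem DD_bit {i : M} (hb : Bit1 i) : DD i = scard (scard (tau i)) := by
  unfold DD
  rw [if_pos hb]

/-- there is room for `DD i` copies of a small set outside of a set of size `tau i` -/
theorem leq_copies {i B C : M} (hi : IsOrd i) (hb : Bit1 i) (hB : Leq B (tau i))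
    (hC : Leq C (tau i)) : Leq (prod (DD i) B) (prod (sing i) (DD i) \ C) := by
  have h1 := infCard_tau hi
  have h2 := infCard_scard h1
  have h3 := infCard_scard h2
  have hts : Leq (tau i) (scard (tau i)) :=
    leq_of_sub (h2.isOrd.sub_of_mem (mem_scard_self h1.isOrd))
  have hss : Leq (scard (tau i)) (scard (scard (tau i))) :=
    leq_of_sub (h3.isOrd.sub_of_mem (mem_scard_self h2.isOrd))
  rw [DD_bit hb]
  have h4 : Leq (scard (scard (tau i))) (prod (sing i) (scard (scard (tau i)))) :=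
    leq_prod_right (ne_empty_iff.2 ⟨i, mem_sing.2 rfl⟩)
  refine (leq_prod h3 (Leq.refl _) (hB.trans (hts.trans hss))).trans ?_
  by_contra h5
  rcases leq_total (scard (scard (tau i))) (prod (sing i) (scard (scard (tau i))) \ C) with h6 | h6
  · exact h5 h6
  · have h7 : card (prod (sing i) (scard (scard (tau i))) \ C) ∈ scard (scard (tau i)) := by
      rw [card_mem_iff_not_leq h3.1]
      exact h5
    rw [card_mem_scard_iff h2.1] at h7
    have h8 : prod (sing i) (scard (scard (tau i))) ⊆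
        (prod (sing i) (scard (scard (tau i))) \ C) ∪ C := by
      intro z hz
      by_cases hzC : z ∈ C
      · exact mem_union.2 (Or.inr hzC)
      · exact mem_union.2 (Or.inl (mem_diff.2 ⟨hz, hzC⟩))
    have h9 := (h4.trans (leq_of_sub h8)).trans (leq_union h2 h7 (hC.trans hts))
    exact h3.1.not_leq (mem_scard_self h2.isOrd) h9

/-- the injection of `B` onto its copy with the index `η` -/
noncomputable def cpy (h B η : M) : M := lam B fun x => ap h (op η x)

instance cpy.dff {f g k : Γ → M} [Dff f] [Dff g] [Dff k] :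
    Dff fun γ => cpy (f γ) (g γ) (k γ) := by
  unfold cpy; infer_instance

section

variable {h B C D K η : M} (hh : Maps h (prod K B) (D \ C)) (hi : Inj h) (hη : η ∈ K)

omit [BitC M]

theorem isFun_cpy : IsFun (cpy h B η) := isFun_lam

theorem dom_cpy : dom (cpy h B η) = B := dom_lam

theorem ap_cpy {x : M} (hx : x ∈ B) : ap (cpy h B η) x = ap h (op η x) := ap_lam hx

theorem mem_ran_cpy {y : M} : y ∈ ran (cpy h B η) ↔ ∃ x ∈ B, y = ap h (op η x) := by
  unfold cpy
  rw [ran_lam, mem_img]

include hh hη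

theorem ap_cpy_mem {x : M} (hx : x ∈ B) : ap h (op η x) ∈ D ∧ ap h (op η x) ∉ C :=
  mem_diff.1 (hh.ap_mem (op_mem_prod.2 ⟨hη, hx⟩))

theorem ran_cpy {y : M} (hy : y ∈ ran (cpy h B η)) : y ∈ D ∧ y ∉ C := by
  obtain ⟨x, hx, rfl⟩ := mem_ran_cpy.1 hy
  exact ap_cpy_mem hh hη hx

include hi

theorem ap_h_inj {η' x x' : M} (hη' : η' ∈ K) (hx : x ∈ B) (hx' : x' ∈ B)
    (e : ap h (op η x) = ap h (op η' x')) : η = η' ∧ x = x' := by
  have h1 := (hh.inj_iff.1 hi) _ (op_mem_prod.2 ⟨hη, hx⟩) _ (op_mem_prod.2 ⟨hη', hx'⟩) e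
  exact op_inj.1 h1

theorem inj_cpy : Inj (cpy h B η) := by
  intro x hx y hy e
  rw [dom_cpy] at hx hy
  rw [ap_cpy hx, ap_cpy hy] at e
  exact (ap_h_inj hh hi hη hη hx hy e).2

end

end

end Pool.Agent.IST
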