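import Pool.Agent.LP.CndB

/-!
# Permutations of the coordinates

`Pm σ`: `σ` is a set function, a bijection of a set of coordinates, which preserves the stages.
`px σ` is the permutation of all coordinates, `ac σ p` is the image of the condition `p`, `nc σ n`
is the image of the name `n`.
-/

set_option synthInstance.maxSize 100000

namespace Pool.Agent.IST

open Pool.Agent.BVM

section

variable {M : Type} [SetModel M] [BitC M] {Γ : Type} [IsCtx Γ M]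

/-- stage preserving bijections of a set of coordinates -/
def Pm (σ : M) : Prop := Bij σ (dom σ) (dom σ) ∧ ∀ x ∈ dom σ, IsX x ∧ p1 (ap σ x) = p1 x

instance Pm.dfp {f : Γ → M} [Dff f] : Dfp fun γ => Pm (f γ) := by
  unfold Pm; infer_instance

open Classical in
/-- the permutation of all coordinates -/
noncomputable def px (σ x : M) : M := if x ∈ dom σ then ap σ x else x

open Classical in
instance px.dff {f g : Γ → M} [Dff f] [Dff g] : Dff fun γ => px (f γ) (g γ) := by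
  unfold px; infer_instance

/-- the action on conditions, from the recursion on the level -/
noncomputable def acF (σ h p : M) : M := img p fun w => op (px σ (p1 w))
  (img (p2 w) fun u => op (ap (ap h (p1 (p1 w))) (p1 u)) (p2 u))

instance acF.dff {f g h : Γ → M} [Dff f] [Dff g] [Dff h] :
    Dff fun γ => acF (f γ) (g γ) (h γ) := by
  unfold acF; infer_instance

/-- the action on the conditions of level `k` -/
noncomputable def acL (σ k : M) : M := erec (fun k h => lam (CP k) fun p => acF σ h p) k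

instance acL.dff {f g : Γ → M} [Dff f] [Dff g] : Dff fun γ => acL (f γ) (g γ) := by
  unfold acL; infer_instance

/-- the action on conditions -/
noncomputable def ac (σ p : M) : M := img p fun w => op (px σ (p1 w))
  (img (p2 w) fun u => op (ap (acL σ (p1 (p1 w))) (p1 u)) (p2 u))

instance ac.dff {f g : Γ → M} [Dff f] [Dff g] : Dff fun γ => ac (f γ) (g γ) := by
  unfold ac; infer_instance

/-- the action on names -/
noncomputable def nc (σ n : M) : M := img n fun u => op (ac σ (p1 u)) (p2 u)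

instance nc.dff {f g : Γ → M} [Dff f] [Dff g] : Dff fun γ => nc (f γ) (g γ) := by
  unfold nc; infer_instance

/-! ### permutations of the coordinates -/

theorem Pm.ap_mem {σ x : M} (h : Pm σ) (hx : x ∈ dom σ) : ap σ x ∈ dom σ := h.1.1.ap_mem hx

theorem Pm.isFun {σ : M} (h : Pm σ) : IsFun σ := h.1.1.isFun

theorem Pm.dom_inv {σ : M} (h : Pm σ) : dom (inv σ) = dom σ := h.1.inv.1.dom_eq

theorem Pm.ap_ap_inv {σ x : M} (h : Pm σ) (hx : x ∈ dom σ) : ap σ (ap (inv σ) x) = x :=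
  h.isFun.ap_ap_inv h.1.2.1 (by rw [h.1.2.2]; exact hx)

theorem Pm.ap_inv_ap {σ x : M} (h : Pm σ) (hx : x ∈ dom σ) : ap (inv σ) (ap σ x) = x :=
  h.isFun.ap_inv_ap h.1.2.1 hx

theorem Pm.inv_mem {σ x : M} (h : Pm σ) (hx : x ∈ dom σ) : ap (inv σ) x ∈ dom σ :=
  h.1.inv.1.ap_mem hx

theorem Pm.inv {σ : M} (h : Pm σ) : Pm (inv σ) := by
  refine ⟨?_, fun x hx => ?_⟩
  · rw [h.dom_inv]
    exact h.1.inv
  · rw [h.dom_inv] at hx
    refine ⟨(h.2 x hx).1, ?_⟩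
    have h1 := (h.2 _ (h.inv_mem hx)).2
    rw [h.ap_ap_inv hx] at h1
    exact h1.symm

theorem Pm.inv_inv {σ : M} (h : Pm σ) : IST.inv (IST.inv σ) = σ := by
  apply ext
  intro w
  constructor
  · intro hw
    obtain ⟨x, y, rfl⟩ := isRel_inv w hw
    exact op_mem_inv.1 (op_mem_inv.1 hw)
  · intro hw
    obtain ⟨x, y, rfl⟩ := h.isFun.1 w hw
    exact op_mem_inv.2 (op_mem_inv.2 hw)

theorem px_of_mem {σ x : M} (hx : x ∈ dom σ) : px σ x = ap σ x := by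
  unfold px
  rw [if_pos hx]

theorem px_of_notMem {σ x : M} (hx : x ∉ dom σ) : px σ x = x := by
  unfold px
  rw [if_neg hx]

theorem Pm.px_inv_px {σ : M} (h : Pm σ) (x : M) : px (IST.inv σ) (px σ x) = x := by
  by_cases hx : x ∈ dom σ
  · rw [px_of_mem hx, px_of_mem (by rw [h.dom_inv]; exact h.ap_mem hx), h.ap_inv_ap hx]
  · rw [px_of_notMem hx, px_of_notMem (by rw [h.dom_inv]; exact hx)]

theorem Pm.px_px_inv {σ : M} (h : Pm σ) (x : M) : px σ (px (IST.inv σ) x) = x := by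
  have := h.inv.px_inv_px x
  rwa [h.inv_inv] at this

theorem Pm.px_inj {σ x y : M} (h : Pm σ) (e : px σ x = px σ y) : x = y := by
  rw [← h.px_inv_px x, e, h.px_inv_px]

theorem Pm.p1_px {σ : M} (h : Pm σ) (x : M) : p1 (px σ x) = p1 x := by
  by_cases hx : x ∈ dom σ
  · rw [px_of_mem hx, (h.2 x hx).2]
  · rw [px_of_notMem hx]

theorem Pm.isX_px {σ x : M} (h : Pm σ) (hx : IsX x) : IsX (px σ x) := by
  by_cases h1 : x ∈ dom σ
  · rw [px_of_mem h1]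
    exact (h.2 _ (h.ap_mem h1)).1
  · rwa [px_of_notMem h1]

/-! ### the action on conditions -/

theorem acL_eq {σ k : M} (hk : IsOrd k) : acL σ k = lam (CP k) fun p => ac σ p := by
  unfold acL
  rw [erec_ord hk]
  refine lam_congr fun p hp => ?_
  obtain ⟨h1, h2⟩ := (mem_CP hk).1 hp
  apply ext
  intro t
  unfold acF ac
  rw [mem_img, mem_img]
  refine exists_congr fun w => and_congr_right fun hw => ?_
  obtain ⟨x, hx, rfl⟩ := h1.1.mem_iff.1 hw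
  have h3 := h2 x hx
  simp only [p1_op, p2_op]
  rw [ap_lam h3]
  rfl

theorem ap_acL {σ k p : M} (hk : IsOrd k) (hp : p ∈ CP k) : ap (acL σ k) p = ac σ p := by
  rw [acL_eq hk, ap_lam hp]

theorem nc_eq {σ i n : M} (hi : IsOrd i) (hn : n ∈ Nm i) :
    (img n fun u => op (ap (acL σ i) (p1 u)) (p2 u)) = nc σ n := by
  apply ext
  intro t
  unfold nc
  rw [mem_img, mem_img]
  refine exists_congr fun w => and_congr_right fun hw => ?_
  obtain ⟨q, hq, v, hv, rfl⟩ := mem_prod.1 (nm_sub hn w hw)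
  rw [p1_op, ap_acL hi hq]

theorem mem_ac {σ p t : M} (hp : Cnd p) : t ∈ ac σ p ↔ ∃ x ∈ dom p, t = op (px σ x)
    (nc σ (ap p x)) := by
  unfold ac
  rw [mem_img]
  constructor
  · rintro ⟨w, hw, rfl⟩
    obtain ⟨x, hx, rfl⟩ := hp.1.mem_iff.1 hw
    refine ⟨x, hx, ?_⟩
    rw [p1_op, p2_op, nc_eq (hp.isOrd hx) (hp.nm hx)]
  · rintro ⟨x, hx, rfl⟩
    refine ⟨_, hp.1.op_ap_mem hx, ?_⟩
    rw [p1_op, p2_op, nc_eq (hp.isOrd hx) (hp.nm hx)]

theorem op_mem_nc {σ i n q v : M} (hn : n ∈ Nm i) :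
    op q v ∈ nc σ n ↔ ∃ q' ∈ CP i, op q' v ∈ n ∧ q = ac σ q' := by
  unfold nc
  rw [mem_img]
  constructor
  · rintro ⟨w, hw, e⟩
    obtain ⟨q', hq', v', hv', rfl⟩ := mem_prod.1 (nm_sub hn w hw)
    rw [p1_op, p2_op] at e
    obtain ⟨rfl, rfl⟩ := op_inj.1 e
    exact ⟨q', hq', hw, rfl⟩
  · rintro ⟨q', -, h, rfl⟩
    exact ⟨_, h, by rw [p1_op, p2_op]⟩

theorem mem_dom_ac {σ p y : M} (hp : Cnd p) : y ∈ dom (ac σ p) ↔ ∃ x ∈ dom p, y = px σ x := by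
  rw [mem_dom]
  constructor
  · rintro ⟨n, hn⟩
    obtain ⟨x, hx, e⟩ := (mem_ac hp).1 hn
    exact ⟨x, hx, (op_inj.1 e).1⟩
  · rintro ⟨x, hx, rfl⟩
    exact ⟨_, (mem_ac hp).2 ⟨x, hx, rfl⟩⟩

theorem px_mem_dom_ac {σ p x : M} (hp : Cnd p) (hx : x ∈ dom p) : px σ x ∈ dom (ac σ p) :=
  (mem_dom_ac hp).2 ⟨x, hx, rfl⟩

theorem isFun_ac {σ p : M} (hσ : Pm σ) (hp : Cnd p) : IsFun (ac σ p) := by
  constructor
  · intro w hw
    obtain ⟨x, -, rfl⟩ := (mem_ac hp).1 hw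
    exact ⟨_, _, rfl⟩
  · intro x y y' h h'
    obtain ⟨a, ha, e⟩ := (mem_ac hp).1 h
    obtain ⟨b, hb, e'⟩ := (mem_ac hp).1 h'
    obtain ⟨rfl, rfl⟩ := op_inj.1 e
    obtain ⟨e1, rfl⟩ := op_inj.1 e'
    rw [hσ.px_inj e1]

theorem ap_ac {σ p x : M} (hσ : Pm σ) (hp : Cnd p) (hx : x ∈ dom p) :
    ap (ac σ p) (px σ x) = nc σ (ap p x) :=
  (isFun_ac hσ hp).ap_eq ((mem_ac hp).2 ⟨x, hx, rfl⟩)

theorem rst_ac {σ i p : M} (hσ : Pm σ) (hp : Cnd p) : rst i (ac σ p) = ac σ (rst i p) := by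
  apply ext
  intro w
  rw [mem_ac (cnd_rst hp)]
  unfold rst
  rw [mem_sep, mem_ac hp]
  constructor
  · rintro ⟨⟨x, hx, rfl⟩, h⟩
    rw [p1_op, hσ.p1_px] at h
    exact ⟨x, mem_dom_rst.2 ⟨hx, h⟩, by rw [← ap_rst hp.1 h]; rfl⟩
  · rintro ⟨x, hx, rfl⟩
    obtain ⟨h1, h2⟩ := mem_dom_rst.1 hx
    refine ⟨⟨x, h1, ?_⟩, ?_⟩
    · rw [← ap_rst hp.1 h2]
      rfl
    · rw [p1_op, hσ.p1_px]
      exact h2

theorem SR.ac {σ p : M} (hσ : Pm σ) (hp : Cnd p) : SR (ac σ p) := by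
  intro d hd hom
  have h1 := hp.2.2 d hd hom
  have h2 : sep (dom (IST.ac σ p)) (fun x => alp (p1 x) ⊆ d) ⊆
      img (sep (dom p) fun x => alp (p1 x) ⊆ d) fun x => px σ x := by
    intro y hy
    obtain ⟨hy1, hy2⟩ := mem_sep.1 hy
    obtain ⟨x, hx, rfl⟩ := (mem_dom_ac hp).1 hy1
    rw [hσ.p1_px] at hy2
    exact mem_img.2 ⟨x, mem_sep.2 ⟨hx, hy2⟩, rfl⟩
  have h3 : card (sep (dom (IST.ac σ p)) fun x => alp (p1 x) ⊆ d) ⊆
      card (sep (dom p) fun x => alp (p1 x) ⊆ d) :=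
    Sub.trans (card_mono h2) (card_sub_iff.2 (leq_img _ _))
  exact (isOrd_card _).mem_of_sub_of_mem hd.isOrd h3 h1

/-- the induction hypothesis: the action is an automorphism at the level `k` -/
def AcL (k : M) : Prop := ∀ σ, Pm σ → (∀ p ∈ CP k, ac σ p ∈ CP k ∧ ac (inv σ) (ac σ p) = p) ∧
  ∀ q ∈ CP k, ∀ p ∈ CP k, cle q p → cle (ac σ q) (ac σ p)

instance AcL.dfp {f : Γ → M} [Dff f] : Dfp fun γ => AcL (f γ) := by
  unfold AcL; infer_instance

section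

variable {i : M} (hi : IsOrd i) (H : AcL i) {σ : M} (hσ : Pm σ)

include hi H hσ

theorem AcL.mem {p : M} (hp : p ∈ CP i) : ac σ p ∈ CP i := ((H σ hσ).1 p hp).1

theorem AcL.inv_ac {p : M} (hp : p ∈ CP i) : ac (inv σ) (ac σ p) = p := ((H σ hσ).1 p hp).2

theorem AcL.ac_inv {p : M} (hp : p ∈ CP i) : ac σ (ac (inv σ) p) = p := by
  have := ((H _ hσ.inv).1 p hp).2
  rwa [hσ.inv_inv] at this

theorem AcL.le {q p : M} (hq : q ∈ CP i) (hp : p ∈ CP i) (h : cle q p) :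
    cle (ac σ q) (ac σ p) := (H σ hσ).2 q hq p hp h

theorem AcL.inv_le {q p : M} (hq : q ∈ CP i) (hp : p ∈ CP i) (h : cle q (ac σ p)) :
    cle (ac (inv σ) q) p := by
  have := (H _ hσ.inv).2 q hq _ (H.mem hi hσ hp) h
  rwa [H.inv_ac hi hσ hp] at this

theorem AcL.le_of_inv {q p : M} (hq : q ∈ CP i) (hp : p ∈ CP i) (h : cle q (ac (inv σ) p)) :
    cle (ac σ q) p := by
  have := (H σ hσ).2 q hq _ (H.mem hi hσ.inv hp) h
  rwa [H.ac_inv hi hσ hp] at this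

theorem AcL.nc_mem {n : M} (hn : n ∈ Nm i) : nc σ n ∈ Nm i := by
  rw [mem_Nm hi]
  refine ⟨fun w hw => ?_, fun q v q' v' r h1 h2 hr h3 h4 => ?_, fun r hr => ?_⟩
  · obtain ⟨u, hu, rfl⟩ := mem_img.1 hw
    obtain ⟨q, hq, v, hv, rfl⟩ := mem_prod.1 (nm_sub hn u hu)
    rw [p1_op, p2_op]
    exact op_mem_prod.2 ⟨H.mem hi hσ hq, hv⟩
  · obtain ⟨a, ha, h5, rfl⟩ := (op_mem_nc hn).1 h1
    obtain ⟨b, hb, h6, rfl⟩ := (op_mem_nc hn).1 h2
    exact nm_coh hi hn h5 h6 (H.mem hi hσ.inv hr) (H.inv_le hi hσ hr ha h3)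
      (H.inv_le hi hσ hr hb h4)
  · obtain ⟨r', hr', h1, q, v, h2, h3⟩ := nm_tot hi hn (H.mem hi hσ.inv hr)
    have hq := (nm_cond hn h2).1
    exact ⟨ac σ r', H.mem hi hσ hr', H.le_of_inv hi hσ hr' hr h1, ac σ q, v,
      (op_mem_nc hn).2 ⟨q, hq, h2, rfl⟩, H.le hi hσ hr' hq h3⟩

theorem AcL.nc_inv_nc {n : M} (hn : n ∈ Nm i) : nc (inv σ) (nc σ n) = n := by
  have h0 := H.nc_mem hi hσ hn
  apply ext
  intro t
  constructor
  · intro ht
    obtain ⟨u, hu, rfl⟩ := mem_img.1 ht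
    obtain ⟨q, hq, v, hv, rfl⟩ := mem_prod.1 (nm_sub h0 u hu)
    obtain ⟨a, ha, h5, rfl⟩ := (op_mem_nc hn).1 hu
    rw [p1_op, p2_op, H.inv_ac hi hσ ha]
    exact h5
  · intro ht
    obtain ⟨q, hq, v, hv, rfl⟩ := mem_prod.1 (nm_sub hn t ht)
    rw [op_mem_nc h0]
    refine ⟨ac σ q, H.mem hi hσ hq, (op_mem_nc hn).2 ⟨q, hq, ht, rfl⟩, (H.inv_ac hi hσ hq).symm⟩

theorem AcL.fe {r n n' : M} (hr : r ∈ CP i) (hn : n ∈ Nm i) (hn' : n' ∈ Nm i)
    (h : FE i r n n') : FE i (ac σ r) (nc σ n) (nc σ n') := by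
  rw [FE_iff hi hr] at h
  rw [FE_iff hi (H.mem hi hσ hr)]
  intro r' hr' h1
  obtain ⟨r2, hr2, h2, v, q, q', h3, h4, h5, h6, h7, h8⟩ := h _ (H.mem hi hσ.inv hr')
    (H.inv_le hi hσ hr' hr h1)
  exact ⟨ac σ r2, H.mem hi hσ hr2, H.le_of_inv hi hσ hr2 hr' h2, v, ac σ q, ac σ q',
    (op_mem_nc hn).2 ⟨q, h5, h3, rfl⟩, (op_mem_nc hn').2 ⟨q', h6, h4, rfl⟩, H.mem hi hσ h5,
    H.mem hi hσ h6, H.le hi hσ hr2 h5 h7, H.le hi hσ hr2 h6 h8⟩

end

theorem acL_spec {k : M} (hk : IsOrd k) : AcL k := by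
  have key : ∀ k : M, IsOrd k → AcL k := by
    refine ord_ind (fun k => AcL k) fun k hk ih => ?_
    have hmem : ∀ σ, Pm σ → ∀ p ∈ CP k, ac σ p ∈ CP k := by
      intro σ hσ p hp
      obtain ⟨h1, h2⟩ := (mem_CP hk).1 hp
      refine (mem_CP hk).2 ⟨⟨isFun_ac hσ h1, fun y hy => ?_, SR.ac hσ h1⟩, fun y hy => ?_⟩
      · obtain ⟨x, hx, rfl⟩ := (mem_dom_ac h1).1 hy
        refine ⟨hσ.isX_px (h1.2.1 x hx).1, ?_⟩
        rw [ap_ac hσ h1 hx, hσ.p1_px]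
        exact (ih _ (h2 x hx)).nc_mem (h1.isOrd hx) hσ (h1.nm hx)
      · obtain ⟨x, hx, rfl⟩ := (mem_dom_ac h1).1 hy
        rw [hσ.p1_px]
        exact h2 x hx
    intro σ hσ
    refine ⟨fun p hp => ⟨hmem σ hσ p hp, ?_⟩, fun q hq p hp h => ?_⟩
    · obtain ⟨h1, h2⟩ := (mem_CP hk).1 hp
      have h3 := cnd_of_mem hk (hmem σ hσ p hp)
      apply ext
      intro t
      rw [mem_ac h3, h1.1.mem_iff]
      constructor
      · rintro ⟨y, hy, rfl⟩
        obtain ⟨x, hx, rfl⟩ := (mem_dom_ac h1).1 hy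
        refine ⟨x, hx, ?_⟩
        rw [hσ.px_inv_px, ap_ac hσ h1 hx, (ih _ (h2 x hx)).nc_inv_nc (h1.isOrd hx) hσ (h1.nm hx)]
      · rintro ⟨x, hx, rfl⟩
        refine ⟨px σ x, px_mem_dom_ac h1 hx, ?_⟩
        rw [hσ.px_inv_px, ap_ac hσ h1 hx, (ih _ (h2 x hx)).nc_inv_nc (h1.isOrd hx) hσ (h1.nm hx)]
    · obtain ⟨hp1, hp2⟩ := (mem_CP hk).1 hp
      obtain ⟨hq1, hq2⟩ := (mem_CP hk).1 hq
      refine ⟨cnd_of_mem hk (hmem σ hσ q hq), cnd_of_mem hk (hmem σ hσ p hp), fun y hy => ?_,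
        fun y hy => ?_⟩
      · obtain ⟨x, hx, rfl⟩ := (mem_dom_ac hp1).1 hy
        exact px_mem_dom_ac hq1 (h.2.2.1 x hx)
      · obtain ⟨x, hx, rfl⟩ := (mem_dom_ac hp1).1 hy
        have hxq := h.2.2.1 x hx
        rw [hσ.p1_px, ap_ac hσ hp1 hx, ap_ac hσ hq1 hxq, rst_ac hσ hq1]
        exact (ih _ (hp2 x hx)).fe (hp1.isOrd hx) hσ (rst_mem (hp1.isOrd hx) hq1) (hq1.nm hxq)
          (hp1.nm hx) (h.2.2.2 x hx)
  exact key k hk

section

variable {σ : M} (hσ : Pm σ)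

include hσ

theorem ac_mem {k p : M} (hk : IsOrd k) (hp : p ∈ CP k) : ac σ p ∈ CP k := (acL_spec hk).mem hk hσ hp

theorem cnd_ac {p : M} (hp : Cnd p) : Cnd (ac σ p) := by
  obtain ⟨k, hk, h⟩ := exists_level hp
  exact cnd_of_mem hk (ac_mem hσ hk h)

theorem ac_inv_ac {p : M} (hp : Cnd p) : ac (inv σ) (ac σ p) = p := by
  obtain ⟨k, hk, h⟩ := exists_level hp
  exact (acL_spec hk).inv_ac hk hσ h

theorem ac_ac_inv {p : M} (hp : Cnd p) : ac σ (ac (inv σ) p) = p := by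
  obtain ⟨k, hk, h⟩ := exists_level hp
  exact (acL_spec hk).ac_inv hk hσ h

theorem ac_mono {q p : M} (h : cle q p) : cle (ac σ q) (ac σ p) := by
  obtain ⟨k, hk, h1⟩ := exists_level h.1
  obtain ⟨j, hj, h2⟩ := exists_level h.2.1
  have ho := isOrd_union hk hj
  exact (acL_spec ho).le ho hσ (CP_mono hk ho sub_union_left _ h1) (CP_mono hj ho sub_union_right _ h2) h

theorem nc_mem {i n : M} (hi : IsOrd i) (hn : n ∈ Nm i) : nc σ n ∈ Nm i :=
  (acL_spec hi).nc_mem hi hσ hn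

theorem nc_inv_nc {i n : M} (hi : IsOrd i) (hn : n ∈ Nm i) : nc (inv σ) (nc σ n) = n :=
  (acL_spec hi).nc_inv_nc hi hσ hn

theorem ac_glu {i r p : M} (hi : IsOrd i) (hr : r ∈ CP i) (hp : Cnd p) :
    ac σ (glu i r p) = glu i (ac σ r) (ac σ p) := by
  have h0 := cnd_of_mem hi hr
  have h1 := cnd_glu hi hr hp
  apply ext
  intro t
  rw [mem_ac h1]
  unfold glu
  rw [mem_union, mem_sep, mem_ac h0, mem_ac hp]
  constructor
  · rintro ⟨x, hx, rfl⟩
    rcases mem_dom_glu.1 hx with h | h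
    · left
      refine ⟨x, h, ?_⟩
      have := ap_glu_left hi hr hp h
      unfold glu at this
      rw [this]
    · right
      refine ⟨⟨x, h.1, ?_⟩, ?_⟩
      · have := ap_glu_right hi hr hp h.1 h.2
        unfold glu at this
        rw [this]
      · rw [p1_op, hσ.p1_px]
        exact h.2
  · rintro (⟨x, hx, rfl⟩ | ⟨⟨x, hx, rfl⟩, h⟩)
    · refine ⟨x, mem_dom_glu.2 (Or.inl hx), ?_⟩
      have := ap_glu_left hi hr hp hx
      unfold glu at this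
      rw [this]
    · rw [p1_op, hσ.p1_px] at h
      refine ⟨x, mem_dom_glu.2 (Or.inr ⟨hx, h⟩), ?_⟩
      have := ap_glu_right hi hr hp hx h
      unfold glu at this
      rw [this]

end

/-! ### conditions which are not moved -/

/-- if `σ` moves only coordinates of stages not below `i` then the conditions of level `i` are not
moved -/
theorem ac_level {σ i p : M} (hi : IsOrd i) (hσ : ∀ x ∈ dom σ, p1 x ∉ i) (hp : p ∈ CP i) :
    ac σ p = p := by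
  have key : ∀ k : M, IsOrd k → k ⊆ i → ∀ p ∈ CP k, ac σ p = p := by
    have h0 : Dfp fun γ : E0 M × M => γ.2 ⊆ i → ∀ p ∈ CP γ.2, ac σ p = p := inferInstance
    refine ord_ind (fun k => k ⊆ i → ∀ p ∈ CP k, ac σ p = p) fun k hk ih hki p hp => ?_
    obtain ⟨h1, h2⟩ := (mem_CP hk).1 hp
    have h3 : ∀ x ∈ dom p, op (px σ x) (nc σ (ap p x)) = op x (ap p x) := by
      intro x hx
      have h4 := h2 x hx
      rw [px_of_notMem fun h5 => hσ x h5 (hki _ h4)]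
      congr 1
      have hn := h1.nm hx
      apply ext
      intro t
      unfold nc
      rw [mem_img]
      constructor
      · rintro ⟨u, hu, rfl⟩
        obtain ⟨q, hq, v, hv, rfl⟩ := mem_prod.1 (nm_sub hn u hu)
        rw [p1_op, p2_op, ih _ h4 (Sub.trans (hk.sub_of_mem h4) hki) q hq]
        exact hu
      · intro ht
        refine ⟨t, ht, ?_⟩
        obtain ⟨q, hq, v, hv, rfl⟩ := mem_prod.1 (nm_sub hn t ht)
        rw [p1_op, p2_op, ih _ h4 (Sub.trans (hk.sub_of_mem h4) hki) q hq]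
    apply ext
    intro t
    rw [mem_ac h1, h1.1.mem_iff]
    constructor
    · rintro ⟨x, hx, rfl⟩
      exact ⟨x, hx, h3 x hx⟩
    · rintro ⟨x, hx, rfl⟩
      exact ⟨x, hx, (h3 x hx).symm⟩
  exact key i hi (Sub.refl i) p hp

theorem nc_level {σ i n : M} (hi : IsOrd i) (hσ : ∀ x ∈ dom σ, p1 x ∉ i) (hn : n ∈ Nm i) :
    nc σ n = n := by
  apply ext
  intro t
  unfold nc
  rw [mem_img]
  constructor
  · rintro ⟨u, hu, rfl⟩
    obtain ⟨q, hq, v, hv, rfl⟩ := mem_prod.1 (nm_sub hn u hu)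
    rw [p1_op, p2_op, ac_level hi hσ hq]
    exact hu
  · intro ht
    refine ⟨t, ht, ?_⟩
    obtain ⟨q, hq, v, hv, rfl⟩ := mem_prod.1 (nm_sub hn t ht)
    rw [p1_op, p2_op, ac_level hi hσ hq]

/-- conditions whose coordinates are not moved, at stages below which nothing is moved -/
theorem ac_eq_self {σ i p : M} (hi : IsOrd i) (hσ : ∀ x ∈ dom σ, p1 x ∉ i) (hp : p ∈ CP (sc i))
    (hx : ∀ x ∈ dom p, px σ x = x) : ac σ p = p := by
  obtain ⟨h1, h2⟩ := (mem_CP hi.sc).1 hp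
  have h3 : ∀ x ∈ dom p, op (px σ x) (nc σ (ap p x)) = op x (ap p x) := by
    intro x h4
    have h5 := (h1.isOrd h4)
    have h6 : p1 x ⊆ i := (h5.mem_sc_iff hi).1 (h2 x h4)
    rw [hx x h4, nc_level h5 (fun y hy hy' => hσ y hy (h6 _ hy')) (h1.nm h4)]
  apply ext
  intro t
  rw [mem_ac h1, h1.1.mem_iff]
  constructor
  · rintro ⟨x, hx, rfl⟩
    exact ⟨x, hx, h3 x hx⟩
  · rintro ⟨x, hx, rfl⟩
    exact ⟨x, hx, (h3 x hx).symm⟩

theorem ac_empty (σ : M) : ac σ ∅ = ∅ := by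
  rw [eq_empty_iff]
  intro t ht
  obtain ⟨x, hx, -⟩ := (mem_ac cnd_empty).1 ht
  rw [dom_empty] at hx
  exact notMem_empty x hx

end

end Pool.Agent.IST
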