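import Pool.Agent.LP.Rnm
import Pool.Agent.LP.Cop
import Pool.Agent.LP.Fam
import Pool.Agent.LP.Inst
import Pool.Agent.LP.CCi
import Pool.Agent.LP.Perm

/-!
# The permutation argument at a bit 1 stage
-/

set_option synthInstance.maxSize 100000

namespace Pool.Agent.IST

open Pool.Agent.BVM

namespace Gen

variable {M : Type} [SetModel M] [BitC M] [GCh M] {Γ : Type} [IsCtx Γ M] (G : Gen (IT M))

omit [GCh M] in
theorem fr_iff {i R a s y : M} (hi : IsOrd i) (hR : R ⊆ prod a (CP (sc i)))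
    (hs : s ∈ CP (sc i)) : Fr i R s y ↔ (IT M).Fm s ((IT M).chk y) ((IT M).rnm R) :=
  (LPo.fm_rnm_level (P := IT M) hi.sc hR hs).symm

/-- two names with almost disjoint coordinates have different values, if these are bijections
of `alp i` and its cardinal successor -/
theorem ne_of_disj {i R1 R2 B1 B2 q0 : M} (hi : IsOrd i) (hP : Leq (CP i) (alp i))
    (hR1 : R1 ⊆ prod (prod (alp i) (scard (alp i))) (CP (sc i)))
    (hR2 : R2 ⊆ prod (prod (alp i) (scard (alp i))) (CP (sc i)))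
    (hN1 : NB i B1 R1) (hN2 : NB i B2 R2) (hB : ∀ x ∈ B1, x ∈ B2 → x ∈ dom q0)
    (hq : q0 ∈ CP (sc i)) (hG : G.G q0)
    (hb : Bij (G.nm ((IT M).rnm R1)) (G.io (alp i)) (G.io (scard (alp i)))) :
    G.nm ((IT M).rnm R1) ≠ G.nm ((IT M).rnm R2) := by
  intro heq
  have hio : ∀ e v : M, G.io (op e v) = op (G.io e) (G.io v) := fun e v => G.temb.op
  have hself : ∀ {t : M}, t ∈ CP (sc i) → rst (sc i) t = t := fun ht => rst_eq_self hi.sc ht
  obtain ⟨r1, hr1, hfq⟩ := (G.nm_eq).1 heq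
  obtain ⟨t, ht, hD⟩ := G.meets (fun s => (∃ e v v', v ≠ v' ∧ Fr i R1 (rst (sc i) s) (op e v) ∧
      Fr i R1 (rst (sc i) s) (op e v')) ∨ (∀ s' ∈ CP (sc i), cle s' (rst (sc i) s) →
        ∀ e v v', Fr i R1 s' (op e v) → Fr i R1 s' (op e v') → v = v')) inferInstance
    fun r hr => by
      have hr' : Cnd r := hr
      by_cases h1 : ∃ s' ∈ CP (sc i), cle s' (rst (sc i) r) ∧ ∃ e v v', v ≠ v' ∧
          Fr i R1 s' (op e v) ∧ Fr i R1 s' (op e v')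
      · obtain ⟨s', hs', h2, h3⟩ := h1
        refine ⟨glu (sc i) s' r, glu_le hi.sc hs' hr' h2, Or.inl ?_⟩
        rw [rst_glu hi.sc hs' hr']
        exact h3
      · refine ⟨r, cle_refl hr', Or.inr fun s' hs' h2 e v v' h3 h4 => ?_⟩
        by_contra h5
        exact h1 ⟨s', hs', h2, e, v, v', h5, h3, h4⟩
  have hrt : G.G (rst (sc i) t) := G.rs_mem hi.sc ht
  have hcdt : Cnd t := G.cd ht
  have hmem : ∀ {s e v : M}, s ∈ CP (sc i) → G.G s → Fr i R1 s (op e v) →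
      op (G.io e) (G.io v) ∈ G.nm ((IT M).rnm R1) := by
    intro s e v hs hGs h
    rw [← hio]
    exact (G.mem_nm).2 ⟨s, hGs, (fr_iff hi hR1 hs).1 h⟩
  have hfun : ∀ s' ∈ CP (sc i), cle s' (rst (sc i) t) →
        ∀ e v v', Fr i R1 s' (op e v) → Fr i R1 s' (op e v') → v = v' := by
    rcases hD with ⟨e, v, v', hne, h1, h2⟩ | hD
    · exfalso
      have h3 := hmem (rst_mem hi.sc hcdt) hrt h1
      have h4 := hmem (rst_mem hi.sc hcdt) hrt h2
      exact hne (G.io_inj (hb.1.isFun.2 _ _ _ h3 h4))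
    · exact hD
  obtain ⟨r2, hr2, hr21, hr2t⟩ := G.dir hr1 ht
  obtain ⟨r3, hr3, hr32, hr3q⟩ := G.dir hr2 hG
  have hc3 : Cnd r3 := G.cd hr3
  have hr : G.G (rst (sc i) r3) := G.rs_mem hi.sc hr3
  have hrm : rst (sc i) r3 ∈ CP (sc i) := rst_mem hi.sc hc3
  have hrq : cle (rst (sc i) r3) q0 := by
    have h1 : cle (rst (sc i) r3) (rst (sc i) q0) := rst_mono hi.sc hr3q
    rwa [hself hq] at h1
  have hrt' : cle (rst (sc i) r3) (rst (sc i) t) := rst_mono hi.sc (cle_trans hr32 hr2t)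
  have hfq' : (IT M).Fq (rst (sc i) r3) ((IT M).rnm R1) ((IT M).rnm R2) := by
    have h1 : (IT M).Fq r3 ((IT M).rnm R1) ((IT M).rnm R2) := hfq.mono (cle_trans hr32 hr21)
    exact (LPo.fq_rs (P := IT M) hi.sc (LPo.nm_rnm (P := IT M) hi.sc hR1)
      (LPo.nm_rnm (P := IT M) hi.sc hR2) hc3).1 h1
  refine Fr.false hi (infCard_alp hi) hP hq hrm hrq hB hN1 hN2 (fun s hs hsr y => ?_)
    (fun s hs hsr e v v' => hfun s hs (cle_trans hsr hrt') e v v') fun v hv => ?_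
  · rw [fr_iff hi hR1 hs, fr_iff hi hR2 hs]
    exact (LPo.fq_iff.1 hfq').2 s hsr _
  · obtain ⟨e', he', h1⟩ := hb.surj (G.io_mem.2 hv)
    obtain ⟨e, he, rfl⟩ := G.io_tr he'
    have h2 : op (G.io e) (G.io v) ∈ G.nm ((IT M).rnm R1) := by
      rw [← h1]
      exact hb.1.isFun.op_ap_mem (hb.1.dom_eq.symm ▸ he')
    rw [← hio, G.mem_nm_rnm hR1] at h2
    obtain ⟨y, t', h3, h4, h5⟩ := h2
    have h6 := G.io_inj h5
    subst h6
    obtain ⟨s2, hs2, h7, h8⟩ := G.dir h4 hr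
    have hc2 : Cnd s2 := G.cd hs2
    have ht' : t' ∈ CP (sc i) := (op_mem_prod.1 (hR1 _ h3)).2
    have h9 : cle (rst (sc i) s2) t' := by
      have h10 : cle (rst (sc i) s2) (rst (sc i) t') := rst_mono hi.sc h7
      rwa [hself ht'] at h10
    have h10 : cle (rst (sc i) s2) (rst (sc i) r3) := by
      have h11 : cle (rst (sc i) s2) (rst (sc i) (rst (sc i) r3)) := rst_mono hi.sc h8
      rwa [hself hrm] at h11
    refine ⟨rst (sc i) s2, rst_mem hi.sc hc2, h10, e, he, fun s' hs' h11 => ?_⟩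
    exact ⟨s', hs', cle_refl (cnd_of_mem hi.sc hs'), t', h3, cle_trans h11 h9⟩

/-- the automorphism given by a permutation of coordinates -/
noncomputable def autIT (σ : M) (hσ : Pm σ) : (IT M).Aut where
  f := ac σ
  g := ac (inv σ)
  f_def := inferInstance
  g_def := inferInstance
  le_f := fun h => ac_mono hσ h
  le_g := fun h => ac_mono hσ.inv h
  gf := fun h => ac_inv_ac hσ h
  fg := fun h => ac_ac_inv hσ h
  f_one := ac_empty σ

theorem copies (H : (IT M).Hmg) (Q : G.Ext → G.Ext → G.Ext → Prop)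
    (hQ : Dfp fun γ : ((E0 G.Ext × G.Ext) × G.Ext) × G.Ext => Q γ.1.1.2 γ.1.2 γ.2)
    (hQb : ∀ f a b, Q f a b → Bij f a b) :
    ∃ k : M, IsOrd k ∧ ∀ i, IsOrd i → k ⊆ i → Leq (CP i) (alp i) → Bit1 i →
      (∃ f, Q f (G.io (alp i)) (G.io (scard (alp i)))) → ∀ S : G.Ext,
      (∀ g, Q g (G.io (alp i)) (G.io (scard (alp i))) → g ∈ S) →
      Leq (G.io (scard (scard (tau i)))) S := by
  obtain ⟨k, hk, hinv⟩ := G.exists_inv Q hQ H
  refine ⟨k, hk, fun i hi hki hP hb ⟨f, hf⟩ S hS => ?_⟩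
  have hα := infCard_alp hi
  have hτ := infCard_tau hi
  have hατ : Leq (alp i) (tau i) := leq_of_sub (alp_sub_tau hi)
  have hντ : Leq (scard (alp i)) (tau i) :=
    leq_of_sub (scard_sub hα.isOrd hτ.1 (alp_mem_tau hi))
  have haτ : Leq (prod (alp i) (scard (alp i))) (tau i) := leq_prod hτ hατ hντ
  -- the name of `f`
  have hbf := hQb _ _ _ hf
  have hfsub : f ⊆ G.io (prod (alp i) (scard (alp i))) := by
    rw [G.temb.prod]
    exact hbf.1.sub_prod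
  have hca : card (prod (alp i) (scard (alp i))) ∈ alp (sc i) :=
    (isOrd_card _).mem_of_sub_of_mem (isOrd_alp hi.sc) (card_sub_of_leq hτ.1 haτ) (tau_mem_alp hi)
  obtain ⟨R0, hR0, e0⟩ := G.exists_rnm (j := sc i) hi.sc (card_CP_sc hi) hca hfsub
  obtain ⟨R, hR, hRc, eR⟩ := G.exists_thin hi.sc (IT_cc hi) hR0
  rw [← eR] at e0
  subst e0
  have hRl : Leq R (tau i) := by
    have h1 : R ⊆ iU (prod (alp i) (scard (alp i))) fun y =>
        prod (sing y) (sep (CP (sc i)) fun r => op y r ∈ R) := by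
      intro w hw
      obtain ⟨y, hy, r, hr, rfl⟩ := mem_prod.1 (hR w hw)
      exact mem_iU.2 ⟨y, hy, op_mem_prod.2 ⟨mem_sing.2 rfl, mem_sep.2 ⟨hr, hw⟩⟩⟩
    refine (leq_of_sub h1).trans (leq_iU hτ (fun y =>
      prod (sing y) (sep (CP (sc i)) fun r => op y r ∈ R)) haτ fun y hy => ?_)
    exact leq_prod hτ (leq_sing hτ.ne_empty) (leq_of_card_sub (hRc y hy))
  obtain ⟨q0, hq0, hGq0, hA⟩ := hinv (sc i) hi.sc (Sub.trans hki (sub_sc i)) _ _ _
    (LPo.nm_rnm (P := IT M) hi.sc hR) hf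
  -- the coordinates
  let B : M := sep (iU R fun w => dom (p2 w)) fun x => x ∉ dom q0 ∧ p1 x ∉ i
  have hmB : ∀ x, x ∈ B ↔ (∃ w ∈ R, x ∈ dom (p2 w)) ∧ x ∉ dom q0 ∧ p1 x ∉ i := fun x => by
    simp only [B]
    rw [mem_sep, mem_iU]
  have hdomτ : ∀ {r : M}, r ∈ CP (sc i) → Leq (dom r) (tau i) := fun hr =>
    (leq_of_card_mem hα.isOrd (mem_CP_sc hi hr)).trans hατ
  have hBl : Leq B (tau i) := by
    refine (leq_of_sub fun x hx => (mem_sep.1 hx).1).trans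
      (leq_iU hτ (fun w => dom (p2 w)) hRl fun w hw => ?_)
    obtain ⟨y, hy, r, hr, rfl⟩ := mem_prod.1 (hR w hw)
    rw [p2_op]
    exact hdomτ hr
  obtain ⟨h, hh, hhi⟩ := leq_copies (C := dom q0 ∪ B) hi hb hBl
    (leq_union hτ (hdomτ hq0) hBl)
  have hpB : ∀ x ∈ B, IsX x ∧ p1 x = i := by
    intro x hx
    obtain ⟨⟨w, hw, h1⟩, -, h2⟩ := (hmB x).1 hx
    obtain ⟨y, hy, r, hr, rfl⟩ := mem_prod.1 (hR w hw)
    rw [p2_op] at h1
    obtain ⟨h3, h4⟩ := (mem_CP hi.sc).1 hr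
    refine ⟨(h3.2.1 x h1).1, ?_⟩
    rcases mem_sc.1 (h4 x h1) with h5 | h5
    · exact absurd h5 h2
    · exact h5
  have hD : ∀ x, x ∈ prod (sing i) (DD i) → IsX x ∧ p1 x = i := by
    intro x hx
    obtain ⟨a, ha, ξ, hξ, rfl⟩ := mem_prod.1 hx
    rw [mem_sing] at ha
    subst ha
    exact ⟨⟨a, hi, ξ, hξ, rfl⟩, by rw [p1_op]⟩
  -- the permutations
  let σ : M → M := fun η => swp (cpy h B η)
  have hσf : ∀ η, IsFun (cpy h B η) := fun η => isFun_cpy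
  have hσi : ∀ η ∈ DD i, Inj (cpy h B η) := fun η hη => inj_cpy hh hhi hη
  have hran : ∀ η ∈ DD i, ∀ x ∈ ran (cpy h B η), x ∈ prod (sing i) (DD i) ∧ x ∉ dom q0 ∧ x ∉ B := by
    intro η hη x hx
    obtain ⟨h1, h2⟩ := ran_cpy hh hη hx
    exact ⟨h1, fun h3 => h2 (mem_union.2 (Or.inl h3)), fun h3 => h2 (mem_union.2 (Or.inr h3))⟩
  have hσd : ∀ η ∈ DD i, ∀ x ∈ dom (cpy h B η), x ∉ ran (cpy h B η) := by
    intro η hη x hx hx'
    rw [dom_cpy] at hx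
    exact (hran η hη x hx').2.2 hx
  have hmd : ∀ η ∈ DD i, ∀ x, x ∈ dom (σ η) ↔ x ∈ B ∨ x ∈ ran (cpy h B η) := by
    intro η hη x
    simp only [σ]
    rw [dom_swp, mem_union, dom_cpy]
  have hst : ∀ η ∈ DD i, ∀ x ∈ dom (σ η), IsX x ∧ p1 x = i ∧ x ∉ dom q0 := by
    intro η hη x hx
    rcases (hmd η hη x).1 hx with h1 | h1
    · exact ⟨(hpB x h1).1, (hpB x h1).2, ((hmB x).1 h1).2.1⟩
    · obtain ⟨h2, h3, -⟩ := hran η hη x h1
      exact ⟨(hD x h2).1, (hD x h2).2, h3⟩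
  have hPm : ∀ η ∈ DD i, Pm (σ η) := by
    intro η hη
    have h1 := bij_swp (hσf η) (hσi η hη) (hσd η hη)
    refine ⟨h1, fun x hx => ⟨(hst η hη x hx).1, ?_⟩⟩
    rw [(hst η hη x hx).2.1]
    exact (hst η hη _ (h1.1.ap_mem hx)).2.1
  have hni : ∀ η ∈ DD i, ∀ x ∈ dom (σ η), p1 x ∉ i := by
    intro η hη x hx
    rw [(hst η hη x hx).2.1]
    exact mem_irrefl i
  -- the names
  let Rη : M → M := fun η => img R fun w => op (p1 w) (ac (σ η) (p2 w))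
  have hRη : ∀ η (hη : η ∈ DD i), Rη η = (autIT (σ η) (hPm η hη)).rel R := fun _ _ => rfl
  have hsubη : ∀ η ∈ DD i, Rη η ⊆ prod (prod (alp i) (scard (alp i))) (CP (sc i)) := by
    intro η hη
    rw [hRη η hη]
    exact LPo.Aut.rel_sub (P := IT M) _ hR fun r hr => ac_mem (hPm η hη) hi.sc hr
  have hQη : ∀ η ∈ DD i, Q (G.nm ((IT M).rnm (Rη η))) (G.io (alp i)) (G.io (scard (alp i))) := by
    intro η hη
    have h1 := hA (autIT (σ η) (hPm η hη)) (fun r hr => ac_level hi (hni η hη)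
      (CP_mono hk hi hki r hr)) q0 (cle_refl (cnd_of_mem hi.sc hq0)) (by
        have h2 : ac (σ η) q0 = q0 := ac_eq_self hi (hni η hη) hq0 fun x hx =>
          px_of_notMem fun h3 => (hst η hη x h3).2.2 hx
        have h3 : (autIT (σ η) (hPm η hη)).f q0 = q0 := h2
        rw [h3]
        exact hGq0)
    rw [LPo.Aut.nm_rnm (P := IT M) _ hR fun r hr => cnd_of_mem hi.sc hr] at h1
    exact h1
  have hNB : ∀ η ∈ DD i, NB i (dom q0 ∪ ran (cpy h B η)) (Rη η) := by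
    intro η hη y r' hr'
    have h0 := (op_mem_prod.1 (hsubη η hη _ hr')).2
    refine ⟨h0, fun x hx hxi => ?_⟩
    rw [hRη η hη] at hr'
    obtain ⟨r, hr, e⟩ := (LPo.Aut.op_mem_rel (P := IT M) _ hR).1 hr'
    have e' : r' = ac (σ η) r := e
    subst e'
    have hrC : r ∈ CP (sc i) := (op_mem_prod.1 (hR _ hr)).2
    obtain ⟨x0, hx0, rfl⟩ := (mem_dom_ac (cnd_of_mem hi.sc hrC)).1 hx
    rw [(hPm η hη).p1_px] at hxi
    rw [mem_union]
    by_cases h1 : x0 ∈ dom q0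
    · rw [px_of_notMem fun h3 => (hst η hη x0 h3).2.2 h1]
      exact Or.inl h1
    · have h2 : x0 ∈ B := (hmB x0).2 ⟨⟨_, hr, by rwa [p2_op]⟩, h1, hxi⟩
      rw [px_of_mem ((hmd η hη x0).2 (Or.inl h2))]
      simp only [σ]
      rw [ap_swp (hσf η) (hσi η hη) (hσd η hη) (by rwa [dom_cpy])]
      exact Or.inr ((hσf η).ap_mem_ran (by rwa [dom_cpy]))
  have hne : ∀ η ∈ DD i, ∀ ζ ∈ DD i, G.nm ((IT M).rnm (Rη η)) = G.nm ((IT M).rnm (Rη ζ)) →
      η = ζ := by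
    intro η hη ζ hζ heq
    by_contra hne
    refine G.ne_of_disj hi hP (hsubη η hη) (hsubη ζ hζ) (hNB η hη) (hNB ζ hζ) (fun x h1 h2 => ?_)
      hq0 hGq0 (hQb _ _ _ (hQη η hη)) heq
    rcases mem_union.1 h1 with h1 | h1
    · exact h1
    · rcases mem_union.1 h2 with h2 | h2
      · exact h2
      · exfalso
        obtain ⟨x1, hx1, e1⟩ := mem_ran_cpy.1 h1
        obtain ⟨x2, hx2, e2⟩ := mem_ran_cpy.1 h2
        exact hne (ap_h_inj hh hhi hη hζ hx1 hx2 (e1.symm.trans e2)).1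
  -- the function `η ↦ f_η`
  have hRd : Dff fun γ : E0 M × M => Rη γ.2 := by
    simp only [Rη, σ]; infer_instance
  have hFd : Dff fun γ : E0 M × M => opN (IT M) ((IT M).chk γ.2) ((IT M).rnm (Rη γ.2)) := by
    simp only [Rη, σ]; infer_instance
  obtain ⟨g, hg⟩ := G.exists_fam (DD i) (fun η => opN (IT M) ((IT M).chk η) ((IT M).rnm (Rη η)))
    (fun _ => (IT M).one)
  have hg' : ∀ b, b ∈ g ↔ ∃ η ∈ DD i, b = op (G.io η) (G.nm ((IT M).rnm (Rη η))) := by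
    intro b
    rw [hg]
    constructor
    · rintro ⟨η, hη, -, rfl⟩
      exact ⟨η, hη, G.nm_opN _ _⟩
    · rintro ⟨η, hη, rfl⟩
      exact ⟨η, hη, G.one_mem, (G.nm_opN _ _).symm⟩
  have hgf : IsFun g := by
    refine ⟨fun w hw => ?_, fun x y y' h1 h2 => ?_⟩
    · obtain ⟨η, hη, rfl⟩ := (hg' w).1 hw
      exact ⟨_, _, rfl⟩
    · obtain ⟨η, hη, e1⟩ := (hg' _).1 h1
      obtain ⟨ζ, hζ, e2⟩ := (hg' _).1 h2
      obtain ⟨rfl, rfl⟩ := op_inj.1 e1
      obtain ⟨e3, rfl⟩ := op_inj.1 e2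
      rw [G.io_inj e3]
  have hap : ∀ η ∈ DD i, ap g (G.io η) = G.nm ((IT M).rnm (Rη η)) := fun η hη =>
    hgf.ap_eq ((hg' _).2 ⟨η, hη, rfl⟩)
  rw [← DD_bit hb]
  refine leq_of (fun x => ap g x) (fun x hx => ?_) fun x hx y hy e => ?_
  · obtain ⟨η, hη, rfl⟩ := G.io_tr hx
    rw [hap η hη]
    exact hS _ (hQη η hη)
  · obtain ⟨η, hη, rfl⟩ := G.io_tr hx
    obtain ⟨ζ, hζ, rfl⟩ := G.io_tr hy
    rw [hap η hη, hap ζ hζ] at e
    rw [hne η hη ζ hζ e]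

end Gen

end Pool.Agent.IST
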