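import Pool.Agent.LP.Basic

/-!
# The bits of the iteration

The iteration depends on a definable class `BitC.b` of limit indices.
-/

set_option synthInstance.maxSize 100000

namespace Pool.Agent.IST

open Pool.Agent.BVM

/-- the bits: a definable class -/
class BitC (M : Type) [SetModel M] where
  /-- the bit of an index -/
  b : M → Prop
  b_def : Dfp fun γ : E0 M × M => b γ.2

instance BitC.dfp_b {M : Type} [SetModel M] [BitC M] {Γ : Type} [IsCtx Γ M] {f : Γ → M} [Dff f] :
    Dfp fun γ => BitC.b (f γ) := Dfp.use1 BitC.b_def

/-- the bits given by a set -/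
def BitC.ofSet {M : Type} [SetModel M] (c : M) : BitC M where
  b := fun l => l ∈ c
  b_def := inferInstance

end Pool.Agent.IST
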