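import Pool.Agent.LP.CndB

/-!
# The level `i` depends only on the bits below `i`

For two classes of bits `B`, `B'` which agree on the limit indices in `i`, the parameters and the
levels of the two iterations at `i` are the same.
-/

set_option synthInstance.maxSize 100000

namespace Pool.Agent.IST

open Pool.Agent.BVM

section

variable {M : Type} [SetModel M]

theorem img_cgr {a : M} {F G : M → M} [Dff fun γ : E0 M × M => F γ.2]
    [Dff fun γ : E0 M × M => G γ.2] (h : ∀ x ∈ a, F x = G x) : img a F = img a G := by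
  apply ext
  intro z
  rw [mem_img, mem_img]
  exact exists_congr fun x => and_congr_right fun hx => by rw [h x hx]

theorem sep_cgr {a : M} {P Q : M → Prop} [Dfp fun γ : E0 M × M => P γ.2]
    [Dfp fun γ : E0 M × M => Q γ.2] (h : ∀ x ∈ a, P x ↔ Q x) : sep a P = sep a Q := by
  apply ext
  intro z
  rw [mem_sep, mem_sep]
  exact and_congr_right fun hx => h z hx

/-- the two bit classes agree on the limit indices in `i` -/
def AgB (B B' : BitC M) (i : M) : Prop := ∀ l ∈ i, LimIx l → (B.b l ↔ B'.b l)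

instance AgB.dfp {B B' : BitC M} {Γ : Type} [IsCtx Γ M] {f : Γ → M} [Dff f] :
    Dfp fun γ => AgB B B' (f γ) := by
  have h1 : ∀ {Δ : Type} [IsCtx Δ M] {g : Δ → M} [Dff g], Dfp fun γ => B.b (g γ) :=
    fun {Δ} _ {g} _ => @BitC.dfp_b M _ B Δ _ g _
  have h2 : ∀ {Δ : Type} [IsCtx Δ M] {g : Δ → M} [Dff g], Dfp fun γ => B'.b (g γ) :=
    fun {Δ} _ {g} _ => @BitC.dfp_b M _ B' Δ _ g _
  unfold AgB; infer_instance

variable {B B' : BitC M}

theorem AgB.mono {i j : M} (h : AgB B B' j) (hij : i ⊆ j) : AgB B B' i :=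
  fun l hl => h l (hij l hl)

theorem bit1_congr {i : M} (h : AgB B B' i) : @Bit1 M _ B i ↔ @Bit1 M _ B' i := by
  unfold Bit1
  constructor
  · rintro ⟨l, h1, rfl, h3⟩
    exact ⟨l, h1, rfl, (h l (self_mem_sc l) h1).1 h3⟩
  · rintro ⟨l, h1, rfl, h3⟩
    exact ⟨l, h1, rfl, (h l (self_mem_sc l) h1).2 h3⟩

theorem nxtF_congr {i t : M} (h : AgB B B' i) : @nxtF M _ B i t = @nxtF M _ B' i t := by
  unfold nxtF
  by_cases h1 : @Bit1 M _ B i
  · rw [if_pos h1, if_pos ((bit1_congr h).1 h1)]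
  · rw [if_neg h1, if_neg fun h2 => h1 ((bit1_congr h).2 h2)]

theorem alp_congr : ∀ i : M, IsOrd i → AgB B B' i → @alp M _ B i = @alp M _ B' i := by
  refine ord_ind (fun i => AgB B B' i → @alp M _ B i = @alp M _ B' i) fun i hi ih h => ?_
  have key : ∀ j ∈ i, @alp M _ B j = @alp M _ B' j := fun j hj =>
    ih j hj (h.mono (hi.sub_of_mem hj))
  rw [@alp_eq M _ B, @alp_eq M _ B', lam_congr key]
  unfold alpG
  by_cases h1 : LimIx i
  · rw [if_pos h1, if_pos h1]
  · rw [if_neg h1, if_neg h1]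
    obtain ⟨j, hj, rfl⟩ := (limIx_or_sc hi).resolve_left h1
    rw [bigU_sc hj.1, nxtF_congr (h.mono (sub_sc j))]

theorem dlt_congr {i : M} (hi : IsOrd i) (h : AgB B B' i) : @dlt M _ B i = @dlt M _ B' i := by
  unfold dlt
  rw [img_cgr fun j hj => alp_congr j (hi.mem hj) (h.mono (hi.sub_of_mem hj))]

theorem tau_congr {i : M} (hi : IsOrd i) (h : AgB B B' i) : @tau M _ B i = @tau M _ B' i := by
  unfold tau
  rw [dlt_congr hi h, alp_congr i hi h]

theorem DD_congr {i : M} (hi : IsOrd i) (h : AgB B B' i) : @DD M _ B i = @DD M _ B' i := by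
  unfold DD
  by_cases h1 : @Bit1 M _ B i
  · rw [if_pos h1, if_pos ((bit1_congr h).1 h1), tau_congr hi h]
  · rw [if_neg h1, if_neg fun h2 => h1 ((bit1_congr h).2 h2), alp_congr i hi h]

theorem XX_congr {i : M} (hi : IsOrd i) (h : AgB B B' i) : @XX M _ B i = @XX M _ B' i := by
  unfold XX
  exact iU_congr fun j hj => by rw [DD_congr (hi.mem hj) (h.mono (hi.sub_of_mem hj))]

theorem SR_congr {i p : M} (hi : IsOrd i) (h : AgB B B' i) (hp : ∀ x ∈ dom p, p1 x ∈ i) :
    @SR M _ B p ↔ @SR M _ B' p := by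
  unfold SR
  refine forall_congr' fun d => forall_congr' fun hd => forall_congr' fun hd' => ?_
  rw [sep_cgr fun x hx => by
    rw [alp_congr _ (hi.mem (hp x hx)) (h.mono (hi.sub_of_mem (hp x hx)))]]

theorem NmF_congr {i f : M} (hi : IsOrd i) (h : AgB B B' i) :
    @NmF M _ B f i = @NmF M _ B' f i := by
  unfold NmF
  rw [tau_congr hi h]

theorem PPF_congr {i f : M} (hi : IsOrd i) (h : AgB B B' i) :
    @PPF M _ B i f = @PPF M _ B' i f := by
  have hN : ∀ j ∈ i, @NmF M _ B f j = @NmF M _ B' f j := fun j hj =>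
    NmF_congr (hi.mem hj) (h.mono (hi.sub_of_mem hj))
  unfold PPF
  rw [XX_congr hi h, iU_congr hN]
  refine sep_cgr fun p hp => ?_
  rw [mem_pw] at hp
  refine and_congr_right fun hf => ?_
  have hx : ∀ x ∈ dom p, p1 x ∈ i := fun x hx =>
    @p1_mem_of_mem_XX M _ B' i x (op_mem_prod.1 (hp _ (hf.op_ap_mem hx))).1
  refine and_congr (forall_congr' fun x => forall_congr' fun hxd => ?_) (SR_congr hi h hx)
  rw [hN _ (hx x hxd)]

theorem RR_congr : ∀ i : M, IsOrd i → AgB B B' i → @RR M _ B i = @RR M _ B' i := by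
  refine ord_ind (fun i => AgB B B' i → @RR M _ B i = @RR M _ B' i) fun i hi ih h => ?_
  have key : ∀ j ∈ i, @RR M _ B j = @RR M _ B' j := fun j hj =>
    ih j hj (h.mono (hi.sub_of_mem hj))
  rw [@RR_eq M _ B, @RR_eq M _ B', lam_congr key]
  unfold LLF
  rw [PPF_congr hi h]

theorem CP_congr {i : M} (hi : IsOrd i) (h : AgB B B' i) : @CP M _ B i = @CP M _ B' i := by
  unfold CP
  rw [RR_congr i hi h]

theorem CL_congr {i : M} (hi : IsOrd i) (h : AgB B B' i) : @CL M _ B i = @CL M _ B' i := by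
  unfold CL
  rw [RR_congr i hi h]

theorem Nm_congr {i : M} (hi : IsOrd i) (h : AgB B B' i) : @Nm M _ B i = @Nm M _ B' i := by
  unfold Nm
  rw [CP_congr hi h, CL_congr hi h, tau_congr hi h]

/-- for conditions of level `i` -/
theorem cle_congr {i q p : M} (hi : IsOrd i) (h : AgB B B' i) (hq : q ∈ @CP M _ B i)
    (hp : p ∈ @CP M _ B i) : @cle M _ B q p ↔ @cle M _ B' q p := by
  have h1 : op q p ∈ @CL M _ B i ↔ op q p ∈ @CL M _ B' i := by rw [CL_congr hi h]
  rw [@mem_CL M _ B i q p hi, @mem_CL M _ B' i q p hi, ← CP_congr hi h] at h1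
  exact ⟨fun h2 => (h1.1 ⟨hq, hp, h2⟩).2.2, fun h2 => (h1.2 ⟨hq, hp, h2⟩).2.2⟩

end

/-- the bits below `i`, as a set -/
noncomputable def bitS {M : Type} [SetModel M] [BitC M] (i : M) : M := sep i fun l => BitC.b l

instance bitS.dff {M : Type} [SetModel M] [BitC M] {Γ : Type} [IsCtx Γ M] {f : Γ → M} [Dff f] :
    Dff fun γ => bitS (f γ) := by
  unfold bitS; infer_instance

theorem agB_ofSet {M : Type} [SetModel M] [B : BitC M] (i : M) :
    AgB B (BitC.ofSet (bitS i)) i := by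
  intro l hl _
  change BitC.b l ↔ l ∈ bitS i
  unfold bitS
  rw [mem_sep]
  exact ⟨fun h => ⟨hl, h⟩, fun h => h.2⟩

end Pool.Agent.IST
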