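import Pool.Agent.LP.CCa
import Pool.Agent.LP.Size

/-!
# The chain condition of the levels

Antichains of the level `sc i` have size at most `tau i`.
-/

set_option synthInstance.maxSize 100000

namespace Pool.Agent.IST

open Pool.Agent.BVM

section

variable {M : Type} [SetModel M] {Γ : Type} [IsCtx Γ M] [BitC M]

/-! ### unions of conditions -/

omit [BitC M] in
theorem union_comm (a b : M) : a ∪ b = b ∪ a :=
  ext fun z => by rw [mem_union, mem_union]; exact or_comm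

omit [BitC M] in
theorem dom_union {p q : M} : dom (p ∪ q) = dom p ∪ dom q := by
  apply ext
  intro x
  rw [mem_union, mem_dom, mem_dom, mem_dom]
  simp only [mem_union]
  exact exists_or

omit [BitC M] in
theorem IsFun.ap_union_left {p q x : M} (h : IsFun (p ∪ q)) (hp : IsFun p) (hx : x ∈ dom p) :
    ap (p ∪ q) x = ap p x :=
  h.ap_eq (mem_union.2 (Or.inl (hp.op_ap_mem hx)))

omit [BitC M] in
theorem IsFun.ap_union_right {p q x : M} (h : IsFun (p ∪ q)) (hq : IsFun q) (hx : x ∈ dom q) :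
    ap (p ∪ q) x = ap q x :=
  h.ap_eq (mem_union.2 (Or.inr (hq.op_ap_mem hx)))

/-- the union of two conditions, if it is a function -/
theorem cnd_union {p q : M} (hp : Cnd p) (hq : Cnd q) (h : IsFun (p ∪ q)) : Cnd (p ∪ q) := by
  refine ⟨h, fun x hx => ?_, fun d hd hom => ?_⟩
  · rw [dom_union] at hx
    rcases mem_union.1 hx with h1 | h1
    · rw [h.ap_union_left hp.1 h1]
      exact hp.2.1 x h1
    · rw [h.ap_union_right hq.1 h1]
      exact hq.2.1 x h1
  · have h1 : sep (dom (p ∪ q)) (fun x => alp (p1 x) ⊆ d) ⊆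
        sep (dom p) (fun x => alp (p1 x) ⊆ d) ∪ sep (dom q) fun x => alp (p1 x) ⊆ d := by
      intro x hx
      rw [mem_sep, dom_union, mem_union] at hx
      rw [mem_union, mem_sep, mem_sep]
      rcases hx.1 with h | h
      · exact Or.inl ⟨h, hx.2⟩
      · exact Or.inr ⟨h, hx.2⟩
    exact (isOrd_card _).mem_of_sub_of_mem hd.isOrd (card_mono h1)
      (card_union_mem hd.infCard (hp.2.2 d hd hom) (hq.2.2 d hd hom))

theorem cle_union_left {p q : M} (hp : Cnd p) (hq : Cnd q) (h : IsFun (p ∪ q)) :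
    cle (p ∪ q) p := by
  have hc := cnd_union hp hq h
  refine ⟨hc, hp, fun x hx => ?_, fun x hx => ?_⟩
  · rw [dom_union]
    exact mem_union.2 (Or.inl hx)
  · rw [h.ap_union_left hp.1 hx]
    exact FE_refl (hp.isOrd hx) (rst_mem (hp.isOrd hx) hc) (hp.nm hx)

theorem cle_union_right {p q : M} (hp : Cnd p) (hq : Cnd q) (h : IsFun (p ∪ q)) :
    cle (p ∪ q) q := by
  have h' := h
  rw [union_comm] at h' ⊢
  exact cle_union_left hq hp h'

theorem union_mem_CP {i p q : M} (hi : IsOrd i) (hp : p ∈ CP i) (hq : q ∈ CP i)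
    (h : IsFun (p ∪ q)) : p ∪ q ∈ CP i := by
  obtain ⟨h1, h2⟩ := (mem_CP hi).1 hp
  obtain ⟨h3, h4⟩ := (mem_CP hi).1 hq
  refine (mem_CP hi).2 ⟨cnd_union h1 h3 h, fun x hx => ?_⟩
  rw [dom_union] at hx
  rcases mem_union.1 hx with h5 | h5
  · exact h2 x h5
  · exact h4 x h5

/-! ### the chain condition -/

theorem tau_mem_tau {i j : M} (hj : IsOrd j) (h : i ∈ j) : tau i ∈ tau j := by
  have hi := hj.mem h
  have h1 : tau i ∈ alp j := alp_sub_alp hi.sc hj (hj.sc_sub_iff.2 h) _ (tau_mem_alp hi)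
  exact (infCard_tau hj).isOrd.trans h1 (alp_mem_tau hj)

theorem tau_sub_tau {i j : M} (hi : IsOrd i) (hj : IsOrd j) (h : i ⊆ j) : tau i ⊆ tau j := by
  rcases (hi.sub_iff hj).1 h with h1 | rfl
  · exact (infCard_tau hj).isOrd.sub_of_mem (tau_mem_tau hj h1)
  · exact Sub.refl _

/-- the names of the stages up to `i` -/
theorem leq_iU_Nm {i : M} (hi : IsOrd i) : Leq (iU (sc i) fun j => Nm j) (tau i) := by
  have ht := infCard_tau hi
  have h1 : sc i ⊆ tau i := by
    rw [ht.isOrd.sc_sub_iff]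
    exact hi.mem_of_sub_of_mem ht.isOrd (self_sub_alp hi) (alp_mem_tau hi)
  refine leq_iU ht (fun j => Nm j) (leq_of_sub h1) fun j hj => ?_
  have hjo := hi.sc.mem hj
  exact (leq_Nm hjo).trans (leq_of_sub (tau_sub_tau hjo hi ((hjo.mem_sc_iff hi).1 hj)))

/-- antichains of the level `sc i` have size at most `tau i` -/
theorem leq_antichain {i C : M} (hi : IsOrd i) (hC : C ⊆ CP (sc i))
    (h : ∀ p ∈ C, ∀ q ∈ C, ∀ r ∈ CP (sc i), cle r p → cle r q → p = q) : Leq C (tau i) := by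
  refine leq_of_incomp (isReg_alp hi) (infCard_tau hi) (alp_sub_tau hi) (seqs_tau hi)
    (leq_iU_Nm hi) (fun p hp => ?_) fun p hp q hq hf => ?_
  · have hp' := hC p hp
    obtain ⟨h1, h2⟩ := (mem_CP hi.sc).1 hp'
    refine ⟨h1.1, mem_CP_sc hi hp', fun y hy => ?_⟩
    obtain ⟨x, hx, rfl⟩ := h1.1.mem_ran_iff.1 hy
    exact mem_iU.2 ⟨p1 x, h2 x hx, h1.nm hx⟩
  · have h1 := cnd_of_mem hi.sc (hC p hp)
    have h2 := cnd_of_mem hi.sc (hC q hq)
    exact h p hp q hq _ (union_mem_CP hi.sc (hC p hp) (hC q hq) hf) (cle_union_left h1 h2 hf)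
      (cle_union_right h1 h2 hf)

/-- at most `tau i` values can be decided by conditions of the level `sc i` -/
theorem leq_values {i V : M} (hi : IsOrd i) (D : M → M → Prop)
    [hD : Dfp fun γ : (E0 M × M) × M => D γ.1.2 γ.2]
    (hm : ∀ q v r, cle r q → D q v → D r v) (hc : ∀ r v v', D r v → D r v' → v = v')
    (hV : ∀ v ∈ V, ∃ q ∈ CP (sc i), D q v) : Leq V (tau i) := by
  have hD' : Dfp fun γ : (E0 M × M) × M => D γ.2 γ.1.2 :=
    Dfp.lift2 (P := fun _ : E0 M => D) (c := fun _ => ⟨⟩)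
  obtain ⟨f, hf, hf'⟩ := exists_choice_rel V (CP (sc i)) (fun v q => D q v) hV
  have hinj : ∀ v ∈ V, ∀ v' ∈ V, ap f v = ap f v' → v = v' := fun v hv v' hv' e => by
    have h1 := hf' v hv
    rw [e] at h1
    exact hc _ v v' h1 (hf' v' hv')
  refine Leq.trans (b := ran f) ⟨f, ⟨hf.1, hf.dom_eq, fun x hx => ?_⟩, ?_⟩
    (leq_antichain hi hf.ran_sub fun p hp q hq r _ h1 h2 => ?_)
  · exact hf.1.ap_mem_ran (hf.dom_eq.symm ▸ hx)
  · rw [hf.inj_iff]
    exact hinj
  · obtain ⟨v, hv, rfl⟩ := hf.1.mem_ran_iff.1 hp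
    obtain ⟨v', hv', rfl⟩ := hf.1.mem_ran_iff.1 hq
    rw [hf.dom_eq] at hv hv'
    rw [hc r v v' (hm _ _ _ h1 (hf' v hv)) (hm _ _ _ h2 (hf' v' hv'))]

end

end Pool.Agent.IST
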