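import Pool.Agent.IST.Reg
import Pool.Agent.IST.CardExp

/-!
# Families of pairwise incompatible small functions

If `θ ^ (< κ) = θ` and `κ` is regular, then a family of partial functions with domains of size less
than `κ` and values in a set of size `θ`, no two of which have a common extension, has size at most
`θ`. There is no system of roots here, the proof is by closing a set of coordinates.
-/

set_option synthInstance.maxSize 100000

namespace Pool.Agent.IST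

open Pool.Agent.BVM

section

variable {M : Type} [SetModel M] {Γ : Type} [IsCtx Γ M]

/-- the chosen element of the family with the given restriction -/
noncomputable def ccS (K c J t : M) : M := ap c (sep K fun k => res k J = t)

instance ccS.dff {f g h k : Γ → M} [Dff f] [Dff g] [Dff h] [Dff k] :
    Dff fun γ => ccS (f γ) (g γ) (h γ) (k γ) := by
  unfold ccS; infer_instance

/-- one step of the closure -/
noncomputable def ccH (K N κ c J : M) : M :=
  J ∪ iU (pws κ (prod J N)) fun t => dom (ccS K c J t)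

instance ccH.dff {f g h k l : Γ → M} [Dff f] [Dff g] [Dff h] [Dff k] [Dff l] :
    Dff fun γ => ccH (f γ) (g γ) (h γ) (k γ) (l γ) := by
  unfold ccH; infer_instance

/-- the closure -/
noncomputable def ccJ (K N κ c e : M) : M :=
  erec (fun _ f => bigU (img (ran f) fun J => ccH K N κ c J)) e

instance ccJ.dff {f g h k l : Γ → M} [Dff f] [Dff g] [Dff h] [Dff k] [Dff l] :
    Dff fun γ => ccJ (f γ) (g γ) (h γ) (k γ) (l γ) := by
  unfold ccJ; infer_instance

theorem ccJ_eq (K N κ c e : M) : ccJ K N κ c e = iU e fun x => ccH K N κ c (ccJ K N κ c x) := by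
  apply ext
  intro z
  unfold ccJ
  rw [erec_eq, mem_bigU, mem_iU]
  have : ran (lam e fun y : M => erec (fun _ f : M => bigU (img (ran f) fun J => ccH K N κ c J)) y) =
      img e fun y => ccJ K N κ c y := ran_lam
  rw [this]
  simp only [mem_img]
  constructor
  · rintro ⟨y, ⟨z, ⟨β, hβ, rfl⟩, rfl⟩, hx⟩
    exact ⟨β, hβ, hx⟩
  · rintro ⟨β, hβ, hx⟩
    exact ⟨_, ⟨ccJ K N κ c β, ⟨β, hβ, rfl⟩, rfl⟩, hx⟩

theorem mem_ccJ {K N κ c e z : M} :
    z ∈ ccJ K N κ c e ↔ ∃ x ∈ e, z ∈ ccH K N κ c (ccJ K N κ c x) := by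
  rw [ccJ_eq, mem_iU]

theorem ccJ_mono {K N κ c e e' : M} (h : e ⊆ e') : ccJ K N κ c e ⊆ ccJ K N κ c e' := fun z hz => by
  obtain ⟨x, hx, h'⟩ := mem_ccJ.1 hz
  exact mem_ccJ.2 ⟨x, h x hx, h'⟩

theorem leq_dom_of_isFun {f : M} (h : IsFun f) : Leq f (dom f) := by
  refine leq_of (fun w => p1 w) (fun w hw => ?_) fun w hw w' hw' e => ?_
  · obtain ⟨x, hx, rfl⟩ := h.mem_iff.1 hw
    rw [p1_op]
    exact hx
  · obtain ⟨x, hx, rfl⟩ := h.mem_iff.1 hw
    obtain ⟨x', hx', rfl⟩ := h.mem_iff.1 hw'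
    rw [p1_op, p1_op] at e
    rw [e]

theorem IsFun.sub_prod_of {f a b : M} (h : IsFun f) (ha : dom f ⊆ a) (hb : ran f ⊆ b) :
    f ⊆ prod a b := fun w hw => by
  obtain ⟨x, hx, rfl⟩ := h.mem_iff.1 hw
  exact op_mem_prod.2 ⟨ha x hx, hb _ (h.ap_mem_ran hx)⟩

theorem IsFun.mem_pws {f a b κ : M} (h : IsFun f) (hκ : IsOrd κ) (hf : card (dom f) ∈ κ)
    (ha : dom f ⊆ a) (hb : ran f ⊆ b) : f ∈ pws κ (prod a b) :=
  IST.mem_pws.2 ⟨h.sub_prod_of ha hb, (isOrd_card _).mem_of_sub_of_mem hκ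
    (card_sub_iff.2 (leq_dom_of_isFun h)) hf⟩

section

variable {κ θ K N c : M}

theorem leq_ccH (hθ : InfCard θ) (hs : Leq (seqs κ θ) θ) (hN : Leq N θ)
    (hK : ∀ k ∈ K, Leq (dom k) θ) (hc : ∀ X, X ⊆ K → X ≠ ∅ → ap c X ∈ X) (hc0 : ap c ∅ = ∅)
    {J : M} (hJ : Leq J θ) : Leq (ccH K N κ c J) θ := by
  refine leq_union hθ hJ (leq_iU hθ (fun t => dom (ccS K c J t)) (leq_pws hs (leq_prod hθ hJ hN))
    fun t _ => ?_)
  unfold ccS
  by_cases h : (sep K fun k => res k J = t) = ∅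
  · rw [h, hc0]
    have : dom (∅ : M) = ∅ := eq_empty_iff.2 fun z hz => by
      obtain ⟨y, hy⟩ := mem_dom.1 hz
      exact notMem_empty _ hy
    rw [this]
    exact leq_of_sub (empty_sub _)
  · exact hK _ (mem_sep.1 (hc _ (fun z hz => (mem_sep.1 hz).1) h)).1

theorem leq_ccJ (hθ : InfCard θ) (hs : Leq (seqs κ θ) θ) (hN : Leq N θ)
    (hK : ∀ k ∈ K, Leq (dom k) θ) (hc : ∀ X, X ⊆ K → X ≠ ∅ → ap c X ∈ X) (hc0 : ap c ∅ = ∅)
    {e : M} (he : IsOrd e) (h : e ⊆ θ) : Leq (ccJ K N κ c e) θ := by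
  have key : ∀ e : M, IsOrd e → e ⊆ θ → Leq (ccJ K N κ c e) θ := by
    refine ord_ind (fun e => e ⊆ θ → Leq (ccJ K N κ c e) θ) fun e he ih h => ?_
    rw [ccJ_eq]
    refine leq_iU hθ (fun x => ccH K N κ c (ccJ K N κ c x)) (leq_of_sub h) fun x hx => ?_
    exact leq_ccH hθ hs hN hK hc hc0 (ih x hx (Sub.trans (he.sub_of_mem hx) h))
  exact key e he h

end

/-- families of pairwise incompatible small functions are small -/
theorem leq_of_incomp {κ θ K N : M} (hκ : IsReg κ) (hθ : InfCard θ) (hκθ : κ ⊆ θ)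
    (hs : Leq (seqs κ θ) θ) (hN : Leq N θ)
    (h1 : ∀ k ∈ K, IsFun k ∧ card (dom k) ∈ κ ∧ ran k ⊆ N)
    (h2 : ∀ k ∈ K, ∀ k' ∈ K, IsFun (k ∪ k') → k = k') : Leq K θ := by
  obtain ⟨c, hcf, hcd, hc⟩ := exists_choice (sep (pw K) fun x => x ≠ ∅) fun x hx => (mem_sep.1 hx).2
  have hc' : ∀ X, X ⊆ K → X ≠ ∅ → ap c X ∈ X := fun X hX hX' =>
    hc X (mem_sep.2 ⟨mem_pw.2 hX, hX'⟩)
  have hc0 : ap c ∅ = ∅ := ap_of_notMem (by
    rw [hcd, mem_sep]
    exact fun h => h.2 rfl)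
  have hK : ∀ k ∈ K, Leq (dom k) θ := fun k hk =>
    (leq_of_card_mem hκ.isOrd (h1 k hk).2.1).trans (leq_of_sub hκθ)
  have hJ := leq_ccJ (κ := κ) hθ hs hN hK hc' hc0 hκ.isOrd hκθ
  have key : ∀ k ∈ K, dom k ⊆ ccJ K N κ c κ := by
    intro k hk
    obtain ⟨hkf, hkd, hkr⟩ := h1 k hk
    -- the restriction of `k` to the closure
    obtain ⟨f, hf, hf'⟩ := exists_choice_rel (dom k ∩ ccJ K N κ c κ) κ
      (fun x e => x ∈ ccH K N κ c (ccJ K N κ c e)) fun x hx => mem_ccJ.1 (mem_inter.1 hx).2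
    have hcard : card (dom k ∩ ccJ K N κ c κ) ∈ κ :=
      (isOrd_card _).mem_of_sub_of_mem hκ.isOrd (card_mono fun z hz => (mem_inter.1 hz).1) hkd
    obtain ⟨β, hβ, h3⟩ := hκ.bdd hcard (fun x => ap f x) fun x hx => hf.ap_mem hx
    have h4 : ∀ x ∈ dom k, x ∈ ccJ K N κ c κ → x ∈ ccJ K N κ c β := fun x hx hx' =>
      mem_ccJ.2 ⟨ap f x, h3 x (mem_inter.2 ⟨hx, hx'⟩), hf' x (mem_inter.2 ⟨hx, hx'⟩)⟩
    set t := res k (ccJ K N κ c β) with ht
    have htf : IsFun t := hkf.res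
    have htd : dom t ⊆ dom k := fun x hx => by
      rw [ht, dom_res] at hx
      exact (mem_inter.1 hx).1
    have htd' : dom t ⊆ ccJ K N κ c β := fun x hx => by
      rw [ht, dom_res] at hx
      exact (mem_inter.1 hx).2
    have htp : t ∈ pws κ (prod (ccJ K N κ c β) N) := by
      refine htf.mem_pws hκ.isOrd ?_ htd' ?_
      · exact (isOrd_card _).mem_of_sub_of_mem hκ.isOrd (card_mono htd) hkd
      · intro y hy
        obtain ⟨x, hx⟩ := mem_ran.1 hy
        exact hkr y (mem_ran.2 ⟨x, res_sub _ hx⟩)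
    have hs1 : ccS K c (ccJ K N κ c β) t ∈ sep K fun k => res k (ccJ K N κ c β) = t := by
      unfold ccS
      exact hc' _ (fun z hz => (mem_sep.1 hz).1) (ne_empty_iff.2 ⟨k, mem_sep.2 ⟨hk, rfl⟩⟩)
    obtain ⟨hs2, hs3⟩ := mem_sep.1 hs1
    set k' := ccS K c (ccJ K N κ c β) t with hk'
    have h5 : dom k' ⊆ ccH K N κ c (ccJ K N κ c β) := fun x hx => by
      unfold ccH
      exact mem_union.2 (Or.inr (mem_iU.2 ⟨t, htp, hx⟩))
    have h6 : dom k' ⊆ ccJ K N κ c κ := fun x hx => mem_ccJ.2 ⟨β, hβ, h5 x hx⟩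
    obtain ⟨hkf', -, -⟩ := h1 k' hs2
    have h7 : ∀ x y y', op x y ∈ k → op x y' ∈ k' → y = y' := by
      intro x y y' hy hy'
      have hx : x ∈ ccJ K N κ c β := h4 x (mem_dom.2 ⟨y, hy⟩) (h6 x (mem_dom.2 ⟨y', hy'⟩))
      have h8 : op x y' ∈ res k' (ccJ K N κ c β) := op_mem_res.2 ⟨hy', hx⟩
      rw [hs3, ht, op_mem_res] at h8
      exact hkf.2 x y y' hy h8.1
    have h9 : IsFun (k ∪ k') := by
      constructor
      · intro w hw
        rcases mem_union.1 hw with h | h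
        · exact hkf.1 w h
        · exact hkf'.1 w h
      · intro x y y' hy hy'
        rcases mem_union.1 hy with h | h <;> rcases mem_union.1 hy' with h' | h'
        · exact hkf.2 x y y' h h'
        · exact h7 x y y' h h'
        · exact (h7 x y' y h' h).symm
        · exact hkf'.2 x y y' h h'
    rw [h2 k hk k' hs2 h9]
    exact h6
  refine (leq_of_sub fun k hk => ?_).trans (leq_pws hs (leq_prod hθ hJ hN))
  obtain ⟨hkf, hkd, hkr⟩ := h1 k hk
  exact hkf.mem_pws hκ.isOrd hkd (key k hk) hkr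

end

end Pool.Agent.IST
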