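import Pool.Agent.IST.Reg
import Pool.Agent.IST.CardExp
import Pool.Agent.IST.Subst
import Pool.Agent.LP.BitC

/-!
# The parameters of the iteration

`alp i` is the closure cardinal of the stage `i`, `dlt i` the supremum of the previous ones (at
least `ω`), `tau i` the size of the range and `DD i` the domain of the generic function of the
stage `i`. The bits are given by the class `BitC.b`: the stage `sc l`, for a limit index
`l`, is a bit 1 stage if `l` is in it.
-/

set_option synthInstance.maxSize 100000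

namespace Pool.Agent.IST

open Pool.Agent.BVM

section

variable {M : Type} [SetModel M] {Γ : Type} [IsCtx Γ M] [BitC M]

/-- limit indices: `0` and the limit ordinals -/
def LimIx (i : M) : Prop := i = ∅ ∨ IsLim i

instance LimIx.dfp {f : Γ → M} [Dff f] : Dfp fun γ => LimIx (f γ) := by
  unfold LimIx; infer_instance

/-- bit 1 stages -/
def Bit1 (i : M) : Prop := ∃ l, LimIx l ∧ i = sc l ∧ BitC.b l

instance Bit1.dfp {f : Γ → M} [Dff f] : Dfp fun γ => Bit1 (f γ) := by
  unfold Bit1; infer_instance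

open Classical in
/-- `τ_j` from `δ_j` and `α_j` -/
noncomputable def tauF (j d a : M) : M := if LimIx j then pow2 (pow2 d) else pow2 a

open Classical in
instance tauF.dff {f g h : Γ → M} [Dff f] [Dff g] [Dff h] :
    Dff fun γ => tauF (f γ) (g γ) (h γ) := by
  unfold tauF; infer_instance

open Classical in
/-- `α_{j+1}` from `τ_j` -/
noncomputable def nxtF (j t : M) : M := if Bit1 j then scard (scard (scard t)) else scard t

open Classical in
instance nxtF.dff {f g : Γ → M} [Dff f] [Dff g] : Dff fun γ => nxtF (f γ) (g γ) := by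
  unfold nxtF; infer_instance

open Classical in
/-- the recursion for `α` -/
noncomputable def alpG (i f : M) : M :=
  if LimIx i then scard (om ∪ bigU (ran f)) else
    nxtF (bigU i) (tauF (bigU i) (om ∪ bigU (im f (bigU i))) (ap f (bigU i)))

open Classical in
instance alpG.dff {f g : Γ → M} [Dff f] [Dff g] : Dff fun γ => alpG (f γ) (g γ) := by
  unfold alpG; infer_instance

/-- the closure cardinals -/
noncomputable def alp (i : M) : M := erec (fun x f => alpG x f) i

instance alp.dff {f : Γ → M} [Dff f] : Dff fun γ => alp (f γ) := by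
  unfold alp; infer_instance

/-- the supremum of the previous closure cardinals -/
noncomputable def dlt (i : M) : M := om ∪ bigU (img i fun j => alp j)

instance dlt.dff {f : Γ → M} [Dff f] : Dff fun γ => dlt (f γ) := by
  unfold dlt; infer_instance

/-- the range of the generic function of the stage `i` -/
noncomputable def tau (i : M) : M := tauF i (dlt i) (alp i)

instance tau.dff {f : Γ → M} [Dff f] : Dff fun γ => tau (f γ) := by
  unfold tau; infer_instance

open Classical in
/-- the domain of the generic function of the stage `i` -/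
noncomputable def DD (i : M) : M := if Bit1 i then scard (scard (tau i)) else alp i

open Classical in
instance DD.dff {f : Γ → M} [Dff f] : Dff fun γ => DD (f γ) := by
  unfold DD; infer_instance

omit [BitC M] in
theorem bigU_sc {j : M} (h : IsTrans j) : bigU (sc j) = j := by
  apply ext
  intro z
  rw [mem_bigU]
  constructor
  · rintro ⟨y, hy, hz⟩
    rcases mem_sc.1 hy with h1 | rfl
    · exact h y h1 z hz
    · exact hz
  · intro hz
    exact ⟨j, self_mem_sc j, hz⟩

omit [BitC M] in
theorem not_limIx_sc {j : M} : ¬ LimIx (sc j) := by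
  rintro (h | h)
  · exact notMem_empty j (h ▸ self_mem_sc j)
  · exact not_isLim_sc h

omit [BitC M] in
theorem LimIx.isOrd {i : M} (h : LimIx i) : IsOrd i := by
  rcases h with rfl | h
  · exact isOrd_empty
  · exact h.1

omit [BitC M] in
theorem limIx_or_sc {i : M} (h : IsOrd i) : LimIx i ∨ ∃ j, IsOrd j ∧ i = sc j := by
  rcases ord_cases h with h1 | h1 | h1
  · exact Or.inl (Or.inl h1)
  · exact Or.inr h1
  · exact Or.inl (Or.inr h1)

theorem alp_eq (i : M) : alp i = alpG i (lam i fun j => alp j) := erec_eq i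

theorem alp_lim {i : M} (h : LimIx i) : alp i = scard (dlt i) := by
  rw [alp_eq]
  unfold alpG
  rw [if_pos h, ran_lam]
  rfl

theorem alp_sc {j : M} (h : IsOrd j) : alp (sc j) = nxtF j (tau j) := by
  rw [alp_eq]
  unfold alpG
  rw [if_neg not_limIx_sc, bigU_sc h.1, ap_lam (self_mem_sc j)]
  have : im (lam (sc j) fun j => alp j) j = img j fun j => alp j := by
    apply ext
    intro z
    rw [mem_im, mem_img]
    refine exists_congr fun x => and_congr_right fun hx => ?_
    rw [op_mem_lam]
    exact ⟨fun h => h.2, fun e => ⟨sub_sc j x hx, e⟩⟩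
  rw [this]
  rfl

omit [BitC M] in
theorem union_eq_right {a b : M} (h : a ⊆ b) : a ∪ b = b :=
  Sub.antisymm (union_sub h (Sub.refl b)) sub_union_right

theorem infCard_dlt_aux {i : M} (h : ∀ j ∈ i, InfCard (alp j)) : InfCard (dlt i) := by
  unfold dlt
  by_cases h0 : i = ∅
  · subst h0
    have : om ∪ bigU (img (∅ : M) fun j => alp j) = (om : M) := by
      refine Sub.antisymm (union_sub (Sub.refl _) ?_) sub_union_left
      intro z hz
      obtain ⟨y, hy, -⟩ := mem_bigU.1 hz
      obtain ⟨x, hx, -⟩ := mem_img.1 hy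
      exact absurd hx (notMem_empty x)
    rw [this]
    exact infCard_om
  · obtain ⟨j, hj⟩ := ne_empty_iff.1 h0
    have h1 : alp j ⊆ bigU (img i fun j => alp j) := sub_bigU (mem_img.2 ⟨j, hj, rfl⟩)
    have h2 : (om : M) ⊆ bigU (img i fun j => alp j) := Sub.trans (h j hj).2 h1
    rw [union_eq_right h2]
    refine ⟨isCard_bigU fun x hx => ?_, h2⟩
    obtain ⟨k, hk, rfl⟩ := mem_img.1 hx
    exact (h k hk).1

theorem infCard_nxtF {j t : M} (h : InfCard t) : InfCard (nxtF j t) := by
  unfold nxtF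
  split_ifs
  · exact infCard_scard (infCard_scard (infCard_scard h))
  · exact infCard_scard h

omit [BitC M] in
theorem infCard_tauF {j d a : M} (hd : InfCard d) (ha : InfCard a) : InfCard (tauF j d a) := by
  unfold tauF
  split_ifs
  · exact infCard_pow2 (infCard_pow2 hd)
  · exact infCard_pow2 ha

theorem infCard_alp {i : M} (h : IsOrd i) : InfCard (alp i) := by
  have key : ∀ i : M, IsOrd i → InfCard (alp i) := by
    refine ord_ind (fun i => InfCard (alp i)) fun i hi ih => ?_
    rcases limIx_or_sc hi with h | ⟨j, hj, rfl⟩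
    · rw [alp_lim h]
      exact infCard_scard (infCard_dlt_aux ih)
    · rw [alp_sc hj]
      refine infCard_nxtF (infCard_tauF (infCard_dlt_aux fun k hk => ih k (sub_sc j k hk)) ?_)
      exact ih j (self_mem_sc j)
  exact key i h

theorem infCard_dlt {i : M} (h : IsOrd i) : InfCard (dlt i) :=
  infCard_dlt_aux fun _ hj => infCard_alp (h.mem hj)

theorem infCard_tau {i : M} (h : IsOrd i) : InfCard (tau i) :=
  infCard_tauF (infCard_dlt h) (infCard_alp h)

theorem isReg_alp {i : M} (h : IsOrd i) : IsReg (alp i) := by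
  rcases limIx_or_sc h with h1 | ⟨j, hj, rfl⟩
  · rw [alp_lim h1]
    exact isReg_scard (infCard_dlt h)
  · rw [alp_sc hj]
    unfold nxtF
    split_ifs
    · exact isReg_scard (infCard_scard (infCard_scard (infCard_tau hj)))
    · exact isReg_scard (infCard_tau hj)

theorem isOrd_alp {i : M} (h : IsOrd i) : IsOrd (alp i) := (infCard_alp h).isOrd

theorem alp_mem_tau {i : M} (h : IsOrd i) : alp i ∈ tau i := by
  unfold tau tauF
  by_cases h1 : LimIx i
  · rw [if_pos h1, alp_lim h1]
    have h2 := infCard_dlt h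
    exact (infCard_scard h2).isOrd.mem_of_sub_of_mem (isCard_pow2 _).1 (scard_sub_pow2 h2.1)
      (isCard_pow2 (dlt i)).mem_pow2
  · rw [if_neg h1]
    exact (infCard_alp h).1.mem_pow2

theorem self_mem_nxtF {j t : M} (h : InfCard t) : t ∈ nxtF j t := by
  unfold nxtF
  split_ifs
  · have h1 := infCard_scard h
    have h2 := infCard_scard h1
    exact (infCard_scard h2).isOrd.trans (h2.isOrd.trans (mem_scard_self h.isOrd)
      (mem_scard_self h1.isOrd)) (mem_scard_self h2.isOrd)
  · exact mem_scard_self h.isOrd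

theorem tau_mem_alp {i : M} (h : IsOrd i) : tau i ∈ alp (sc i) := by
  rw [alp_sc h]
  exact self_mem_nxtF (infCard_tau h)

theorem alp_mem_alp_sc {i : M} (h : IsOrd i) : alp i ∈ alp (sc i) :=
  (isOrd_alp h.sc).trans (alp_mem_tau h) (tau_mem_alp h)

theorem alp_sub_dlt {i j : M} (h : j ∈ i) : alp j ⊆ dlt i :=
  Sub.trans (sub_bigU (mem_img.2 ⟨j, h, rfl⟩)) sub_union_right

/-- `α` is strictly increasing -/
theorem alp_mem_alp {i j : M} (hj : IsOrd j) (h : i ∈ j) : alp i ∈ alp j := by
  have key : ∀ j : M, IsOrd j → ∀ i ∈ j, alp i ∈ alp j := by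
    refine ord_ind (fun j => ∀ i ∈ j, alp i ∈ alp j) fun j hj ih i hi => ?_
    rcases limIx_or_sc hj with h1 | ⟨k, hk, rfl⟩
    · rw [alp_lim h1, card_mem_iff_sub (infCard_dlt hj).1 (infCard_alp (hj.mem hi)).1]
      exact alp_sub_dlt hi
    · rcases mem_sc.1 hi with h1 | rfl
      · exact (isOrd_alp hj).trans (ih k (self_mem_sc k) i h1) (alp_mem_alp_sc hk)
      · exact alp_mem_alp_sc hk
  exact key j hj i h

theorem alp_sub_alp {i j : M} (hi : IsOrd i) (hj : IsOrd j) (h : i ⊆ j) : alp i ⊆ alp j := by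
  rcases (hi.sub_iff hj).1 h with h1 | rfl
  · exact (isOrd_alp hj).sub_of_mem (alp_mem_alp hj h1)
  · exact Sub.refl _

theorem alp_mem_iff {i j : M} (hi : IsOrd i) (hj : IsOrd j) : alp i ∈ alp j ↔ i ∈ j := by
  refine ⟨fun h => ?_, alp_mem_alp hj⟩
  rcases hj.total hi with h1 | h1
  · exact absurd (alp_sub_alp hj hi h1 _ h) (mem_irrefl _)
  · exact h1

theorem alp_sub_iff {i j : M} (hi : IsOrd i) (hj : IsOrd j) : alp i ⊆ alp j ↔ i ⊆ j := by
  rw [← (isOrd_alp hj).not_mem (isOrd_alp hi), alp_mem_iff hj hi, hj.not_mem hi]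

theorem om_mem_alp {i : M} (h : IsOrd i) : (om : M) ∈ alp i := by
  have h1 : (om : M) ∈ alp (∅ : M) := by
    rw [alp_lim (Or.inl rfl), mem_scard_iff (infCard_dlt isOrd_empty).1 isOrd_om]
    exact leq_of_sub (infCard_dlt isOrd_empty).2
  exact alp_sub_alp isOrd_empty h (empty_sub i) _ h1

theorem dlt_mem_alp {i : M} (h : IsOrd i) : dlt i ∈ alp i := by
  rcases limIx_or_sc h with h1 | ⟨j, hj, rfl⟩
  · rw [alp_lim h1]
    exact mem_scard_self (infCard_dlt h).isOrd
  · have : dlt (sc j) ⊆ alp j := by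
      refine union_sub (infCard_alp hj).2 fun z hz => ?_
      obtain ⟨y, hy, hz⟩ := mem_bigU.1 hz
      obtain ⟨k, hk, rfl⟩ := mem_img.1 hy
      refine alp_sub_alp (h.mem hk) hj ?_ z hz
      exact ((h.mem hk).mem_sc_iff hj).1 hk
    exact (infCard_dlt h).isOrd.mem_of_sub_of_mem (isOrd_alp h) this (alp_mem_alp_sc hj)

theorem dlt_sc {j : M} (hj : IsOrd j) : dlt (sc j) = alp j := by
  refine Sub.antisymm ?_ (alp_sub_dlt (self_mem_sc j))
  refine union_sub (infCard_alp hj).2 fun z hz => ?_
  obtain ⟨y, hy, hz⟩ := mem_bigU.1 hz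
  obtain ⟨k, hk, rfl⟩ := mem_img.1 hy
  exact alp_sub_alp (hj.sc.mem hk) hj (((hj.sc.mem hk).mem_sc_iff hj).1 hk) z hz

theorem dlt_mono {i j : M} (h : i ⊆ j) : dlt i ⊆ dlt j := by
  refine union_sub sub_union_left fun z hz => ?_
  obtain ⟨y, hy, hz⟩ := mem_bigU.1 hz
  obtain ⟨k, hk, rfl⟩ := mem_img.1 hy
  exact alp_sub_dlt (h k hk) z hz

theorem alp_mem_dlt {i j : M} (hi : IsLim i) (h : j ∈ i) : alp j ∈ dlt i :=
  alp_sub_dlt (hi.2.2 j h) _ (alp_mem_alp_sc (hi.1.mem h))

theorem mem_dlt_lim {i z : M} (hi : IsLim i) : z ∈ dlt i ↔ ∃ j ∈ i, z ∈ alp j := by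
  constructor
  · intro hz
    rcases mem_union.1 hz with h1 | h1
    · have h0 := empty_mem_of_isLim hi
      exact ⟨∅, h0, (infCard_alp isOrd_empty).2 z h1⟩
    · obtain ⟨y, hy, hz⟩ := mem_bigU.1 h1
      obtain ⟨k, hk, rfl⟩ := mem_img.1 hy
      exact ⟨k, hk, hz⟩
  · rintro ⟨j, hj, hz⟩
    exact alp_sub_dlt hj z hz

theorem self_sub_alp {i : M} (h : IsOrd i) : i ⊆ alp i := by
  have key : ∀ i : M, IsOrd i → i ⊆ alp i := by
    refine ord_ind (fun i : M => i ⊆ alp i) fun i hi ih j hj => ?_
    exact (hi.mem hj).mem_of_sub_of_mem (isOrd_alp hi) (ih j hj) (alp_mem_alp hi hj)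
  exact key i h

theorem self_sub_dlt {i : M} (h : LimIx i) : i ⊆ dlt i := by
  rcases h with rfl | h
  · exact empty_sub _
  · intro j hj
    rw [mem_dlt_lim h]
    have h1 := h.2.2 j hj
    exact ⟨sc j, h1, self_sub_alp (h.1.mem h1) j (self_mem_sc j)⟩

/-- if the supremum at a limit is regular, then it is the limit itself -/
theorem dlt_eq_self {i : M} (h : IsLim i) (hr : IsReg (dlt i)) : dlt i = i := by
  rcases (hr.isOrd).total h.1 with h1 | h1
  · exact Sub.antisymm h1 (self_sub_dlt (Or.inr h))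
  · exfalso
    obtain ⟨β, hβ, h2⟩ := hr.bdd (a := i) (card_mem_of_mem hr.isCard h1) (fun j => alp j)
      fun j hj => alp_mem_dlt h hj
    obtain ⟨j, hj, h3⟩ := (mem_dlt_lim h).1 hβ
    exact mem_asymm h3 (h2 j hj)

/-- limits of the closure cardinals are strong limits -/
theorem isSLim_dlt {i : M} (h : IsLim i) : IsSLim (dlt i) := by
  refine ⟨infCard_dlt h.1, fun β hβ => ?_⟩
  obtain ⟨j, hj, h1⟩ := (mem_dlt_lim h).1 hβ
  have hj' := h.2.2 j hj
  have hjo := h.1.mem hj
  have h2 : pow2 β ⊆ tau (sc j) := by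
    unfold tau tauF
    rw [if_neg not_limIx_sc]
    exact pow2_mono (leq_of_sub ((isOrd_alp hjo.sc).sub_of_mem
      ((isOrd_alp hjo.sc).trans h1 (alp_mem_alp_sc hjo))))
  rw [mem_dlt_lim h]
  have h3 := h.2.2 _ hj'
  refine ⟨sc (sc j), h3, ?_⟩
  exact (isCard_pow2 β).1.mem_of_sub_of_mem (isOrd_alp (h.1.mem h3)) h2 (tau_mem_alp hjo.sc)

theorem infCard_DD {i : M} (h : IsOrd i) : InfCard (DD i) := by
  unfold DD
  split_ifs
  · exact infCard_scard (infCard_scard (infCard_tau h))
  · exact infCard_alp h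

theorem alp_sub_DD {i : M} (h : IsOrd i) : alp i ⊆ DD i := by
  unfold DD
  split_ifs
  · have h1 := infCard_tau h
    have h2 := infCard_scard h1
    have h3 := infCard_scard h2
    exact h3.isOrd.sub_of_mem (h3.isOrd.trans (h2.isOrd.trans (alp_mem_tau h)
      (mem_scard_self h1.isOrd)) (mem_scard_self h2.isOrd))
  · exact Sub.refl _

theorem DD_mem_alp {i : M} (h : IsOrd i) : DD i ∈ alp (sc i) := by
  rw [alp_sc h]
  unfold DD nxtF
  split_ifs
  · exact mem_scard_self (infCard_scard (infCard_scard (infCard_tau h))).isOrd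
  · have h1 := infCard_tau h
    exact (infCard_scard h1).isOrd.trans (alp_mem_tau h) (mem_scard_self h1.isOrd)

end

end Pool.Agent.IST
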