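import Pool.Agent.LP.Emb
import Pool.Agent.LP.Par

/-!
# The cardinals of the extension

`VFacts e`: the primitive facts about the cardinals of the extension `V` of `M`.  They determine
the cardinals of `V` completely.
-/

set_option synthInstance.maxSize 100000

namespace Pool.Agent.IST

open Pool.Agent.BVM

/-- uncountable limit cardinals -/
def LimC {V : Type} [SetModel V] (b : V) : Prop := IsCard b ∧ om ∈ b ∧ ∀ a ∈ b, scard a ∈ b

instance LimC.dfp {V : Type} [SetModel V] {Γ : Type} [IsCtx Γ V] {f : Γ → V} [Dff f] :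
    Dfp fun γ => LimC (f γ) := by
  unfold LimC; infer_instance

/-- primitive facts about the cardinals of the extension -/
structure VFacts {M V : Type} [SetModel M] [BitC M] [SetModel V] (e : M → V) : Prop where
  emb : TEmb e
  card_alp : ∀ {i}, IsOrd i → IsCard (e (alp i))
  leq_tau : ∀ {i}, IsOrd i → Leq (e (tau i)) (e (alp i))
  card_tau1 : ∀ {i}, IsOrd i → Bit1 i → IsCard (e (scard (tau i)))
  card_tau2 : ∀ {i}, IsOrd i → Bit1 i → IsCard (e (scard (scard (tau i))))
  leq_pw : ∀ {l}, IsLim l → ¬ Bit1 (sc l) → Leq (pw (e (alp (sc l)))) (e (alp (sc (sc l))))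

theorem not_bit1_lim {M : Type} [SetModel M] [BitC M] {l : M} (h : IsLim l) : ¬ Bit1 l := by
  rintro ⟨m, -, rfl, -⟩
  exact not_isLim_sc h

theorem not_bit1_empty {M : Type} [SetModel M] [BitC M] : ¬ Bit1 (∅ : M) := by
  rintro ⟨m, -, h, -⟩
  exact notMem_empty m (h ▸ self_mem_sc m)

theorem not_bit1_sc_sc {M : Type} [SetModel M] [BitC M] {j : M} : ¬ Bit1 (sc (sc j)) := by
  rintro ⟨m, hm, h, -⟩
  rw [← sc_inj h] at hm
  exact not_limIx_sc hm

theorem alp_sc_of_bit {M : Type} [SetModel M] [BitC M] {j : M} (h : IsOrd j) (hb : Bit1 j) :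
    alp (sc j) = scard (scard (scard (tau j))) := by
  rw [alp_sc h]
  unfold nxtF
  rw [if_pos hb]

theorem alp_sc_of_not {M : Type} [SetModel M] [BitC M] {j : M} (h : IsOrd j) (hb : ¬ Bit1 j) :
    alp (sc j) = scard (tau j) := by
  rw [alp_sc h]
  unfold nxtF
  rw [if_neg hb]

theorem dlt_lim_eq {M : Type} [SetModel M] [BitC M] {l : M} (hl : IsLim l) : dlt l = bigU (img l fun j => alp j) := by
  apply ext
  intro z
  rw [mem_dlt_lim hl, mem_bigU]
  simp only [mem_img]
  constructor
  · rintro ⟨j, hj, hz⟩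
    exact ⟨_, ⟨j, hj, rfl⟩, hz⟩
  · rintro ⟨y, ⟨j, hj, rfl⟩, hz⟩
    exact ⟨j, hj, hz⟩

theorem not_limC_scard {V : Type} [SetModel V] {a b : V} (ha : a ∈ b) (hb : b = scard a) : ¬ LimC b := by
  intro h1
  have := h1.2.2 a ha
  rw [← hb] at this
  exact mem_irrefl _ this

namespace VFacts

variable {M V : Type} [SetModel M] [BitC M] [SetModel V] {e : M → V} (h : VFacts e)

include h

/-- the next cardinal -/
theorem scard_eq {κ : V} {t : M} (hκ : IsCard κ) (ht : IsCard t) (hl : Leq (e t) κ)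
    (hm : κ ∈ e (scard t)) (hc : IsCard (e (scard t))) : scard κ = e (scard t) := by
  apply Sub.antisymm (scard_sub hκ.isOrd hc hm)
  have h1 := scard_spec hκ.isOrd
  rcases hc.isOrd.total h1.1.isOrd with h2 | h2
  · exact h2
  · obtain ⟨c, hc, h4⟩ := h.emb.tr h2
    have h3 : Leq c t := (mem_scard_iff ht ((isCard_scard ht.isOrd).isOrd.mem hc)).1 hc
    have h5 := (h.emb.leq h3).trans hl
    rw [← h4] at h5
    exact absurd h5 (h1.1.not_leq h1.2.1)

/-- successive cardinals of `M` which are cardinals of `V` -/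
theorem scard_eq' {t : M} (ht : IsCard t) (h1 : IsCard (e t)) (h2 : IsCard (e (scard t))) :
    scard (e t) = e (scard t) :=
  h.scard_eq h1 ht (Leq.refl _) (h.emb.mem.2 (mem_scard_self ht.isOrd)) h2

theorem alp_mem_scard_tau {i : M} (hi : IsOrd i) : e (alp i) ∈ e (scard (tau i)) :=
  h.emb.mem.2 ((isCard_scard (infCard_tau hi).isOrd).isOrd.trans (alp_mem_tau hi)
    (mem_scard_self (infCard_tau hi).isOrd))

theorem scard_alp_of_bit {i : M} (hi : IsOrd i) (hb : Bit1 i) :
    scard (e (alp i)) = e (scard (tau i)) :=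
  h.scard_eq (h.card_alp hi) (infCard_tau hi).isCard (h.leq_tau hi) (h.alp_mem_scard_tau hi)
    (h.card_tau1 hi hb)

theorem scard_alp_of_not {i : M} (hi : IsOrd i) (hb : ¬ Bit1 i) :
    scard (e (alp i)) = e (alp (sc i)) := by
  have h1 := h.card_alp hi.sc
  rw [alp_sc_of_not hi hb] at h1 ⊢
  exact h.scard_eq (h.card_alp hi) (infCard_tau hi).isCard (h.leq_tau hi)
    (h.alp_mem_scard_tau hi) h1

theorem scard_tau1 {i : M} (hi : IsOrd i) (hb : Bit1 i) :
    scard (e (scard (tau i))) = e (scard (scard (tau i))) :=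
  h.scard_eq' (isCard_scard (infCard_tau hi).isOrd) (h.card_tau1 hi hb) (h.card_tau2 hi hb)

theorem scard_tau2 {i : M} (hi : IsOrd i) (hb : Bit1 i) :
    scard (e (scard (scard (tau i)))) = e (alp (sc i)) := by
  have h1 := h.card_alp hi.sc
  rw [alp_sc_of_bit hi hb] at h1 ⊢
  exact h.scard_eq' (isCard_scard (isCard_scard (infCard_tau hi).isOrd).isOrd) (h.card_tau2 hi hb) h1

theorem card_dlt {l : M} (hl : IsLim l) : IsCard (e (dlt l)) := by
  rw [dlt_lim_eq hl, h.emb.bigU]
  refine isCard_bigU ?_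
  rw [h.emb.allB]
  intro y hy
  obtain ⟨j, hj, rfl⟩ := mem_img.1 hy
  exact h.card_alp (hl.1.mem hj)

theorem om_mem_alp {i : M} (hi : IsOrd i) : (om : V) ∈ e (alp i) := by
  rw [← h.emb.om, h.emb.mem]
  exact IST.om_mem_alp hi

theorem limC_dlt {l : M} (hl : IsLim l) : LimC (e (dlt l)) := by
  refine ⟨h.card_dlt hl, ?_, ?_⟩
  · have h0 := empty_mem_of_isLim hl
    exact (h.card_dlt hl).isOrd.trans (h.om_mem_alp isOrd_empty) (h.emb.mem.2 (alp_mem_dlt hl h0))
  · rw [h.emb.allB]
    intro a ha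
    obtain ⟨j, hj, ha⟩ := (mem_dlt_lim hl).1 ha
    have hj' := hl.1.mem hj
    have h1 : scard (e a) ⊆ e (alp j) :=
      scard_sub (h.emb.isOrd.2 ((isOrd_alp hj').mem ha)) (h.card_alp hj') (h.emb.mem.2 ha)
    exact (isCard_scard (h.emb.isOrd.2 ((isOrd_alp hj').mem ha))).isOrd.mem_of_sub_of_mem
      (h.card_dlt hl).isOrd h1 (h.emb.mem.2 (alp_mem_dlt hl hj))

theorem scard_dlt {l : M} (hl : IsLim l) : scard (e (dlt l)) = e (alp l) := by
  have h1 := h.card_alp hl.1
  rw [alp_lim (Or.inr hl)] at h1 ⊢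
  exact h.scard_eq' (infCard_dlt hl.1).isCard (h.card_dlt hl) h1

theorem not_limC_alp {i : M} (hi : IsOrd i) : ¬ LimC (e (alp i)) := by
  rcases ord_cases hi with rfl | ⟨j, hj, rfl⟩ | hl
  · have h1 := h.card_alp isOrd_empty
    have h2 : scard (om : V) = e (alp ∅) := by
      rw [alp_lim (Or.inl rfl)] at h1 ⊢
      have h3 : dlt (∅ : M) = om := by
        refine Sub.antisymm (union_sub (Sub.refl _) ?_) sub_union_left
        intro z hz
        obtain ⟨y, hy, -⟩ := mem_bigU.1 hz
        obtain ⟨x, hx, -⟩ := mem_img.1 hy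
        exact absurd hx (notMem_empty x)
      rw [h3] at h1 ⊢
      rw [← h.emb.om]
      exact h.scard_eq' isCard_om (by rw [h.emb.om]; exact isCard_om) h1
    exact not_limC_scard (h.om_mem_alp isOrd_empty) h2.symm
  · by_cases hb : Bit1 j
    · refine not_limC_scard ?_ (h.scard_tau2 hj hb).symm
      rw [h.emb.mem, alp_sc_of_bit hj hb]
      exact mem_scard_self (isCard_scard (isCard_scard (infCard_tau hj).isOrd).isOrd).isOrd
    · exact not_limC_scard (h.emb.mem.2 (alp_mem_alp_sc hj)) (h.scard_alp_of_not hj hb).symm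
  · refine not_limC_scard (h.emb.mem.2 ?_) (h.scard_dlt hl).symm
    exact dlt_mem_alp hl.1

/-- the uncountable limit cardinals of `V` -/
theorem limC_iff {b : V} : LimC b ↔ ∃ l : M, IsLim l ∧ b = e (dlt l) := by
  constructor
  · intro hb
    obtain ⟨c, hc, rfl⟩ := h.emb.exists_of_ord hb.1.isOrd
    have hex : c ∈ alp (sc c) := self_sub_alp hc.sc c (self_mem_sc c)
    obtain ⟨i, hi, hci, hmin⟩ := exists_min (fun i => c ∈ alp i) hc.sc hex
    have hsub : ∀ j ∈ i, alp j ⊆ c := fun j hj =>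
      (hc.not_mem (isOrd_alp (hi.mem hj))).1 (hmin j hj)
    rcases ord_cases hi with rfl | ⟨j, hj, rfl⟩ | hl
    · have h3 : dlt (∅ : M) = om := by
        refine Sub.antisymm (union_sub (Sub.refl _) ?_) sub_union_left
        intro z hz
        obtain ⟨y, hy, -⟩ := mem_bigU.1 hz
        obtain ⟨x, hx, -⟩ := mem_img.1 hy
        exact absurd hx (notMem_empty x)
      rw [alp_lim (Or.inl rfl), h3, mem_scard_iff isCard_om hc] at hci
      have h4 := h.emb.leq hci
      rw [h.emb.om] at h4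
      exact absurd h4 (hb.1.not_leq hb.2.1)
    · exfalso
      have h1 := hsub j (self_mem_sc j)
      rcases ((isOrd_alp hj).sub_iff hc).1 h1 with h2 | h2
      · have h3 : e (alp j) ∈ e c := h.emb.mem.2 h2
        by_cases hbit : Bit1 j
        · have h4 : e (scard (tau j)) ∈ e c := by
            have := hb.2.2 _ h3
            rwa [h.scard_alp_of_bit hj hbit] at this
          have h5 : e (scard (scard (tau j))) ∈ e c := by
            have := hb.2.2 _ h4
            rwa [h.scard_tau1 hj hbit] at this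
          have h6 : e (alp (sc j)) ∈ e c := by
            have := hb.2.2 _ h5
            rwa [h.scard_tau2 hj hbit] at this
          exact mem_asymm hci (h.emb.mem.1 h6)
        · have h6 : e (alp (sc j)) ∈ e c := by
            have := hb.2.2 _ h3
            rwa [h.scard_alp_of_not hj hbit] at this
          exact mem_asymm hci (h.emb.mem.1 h6)
      · rw [← h2] at hb
        exact h.not_limC_alp hj hb
    · have h1 : dlt i ⊆ c := by
        intro z hz
        obtain ⟨j, hj, hz⟩ := (mem_dlt_lim hl).1 hz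
        exact hsub j hj z hz
      rcases ((infCard_dlt hi).isOrd.sub_iff hc).1 h1 with h2 | h2
      · have h3 := hb.2.2 _ (h.emb.mem.2 h2)
        rw [h.scard_dlt hl, h.emb.mem] at h3
        exact absurd h3 (mem_asymm hci)
      · exact ⟨i, hl, by rw [h2]⟩
  · rintro ⟨l, hl, rfl⟩
    exact h.limC_dlt hl

/-- the collapse of the next cardinal of `M` -/
theorem eqn_scard_alp {i : M} (hi : IsOrd i) : Eqn (e (scard (alp i))) (e (alp i)) := by
  have h1 : Leq (e (scard (alp i))) (e (alp i)) := by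
    refine Leq.trans ?_ (h.leq_tau hi)
    refine leq_of_sub (h.emb.sub.2 ?_)
    exact scard_sub (isOrd_alp hi) (infCard_tau hi).isCard (alp_mem_tau hi)
  refine h1.antisymm (leq_of_sub (h.emb.sub.2 ?_))
  exact (isCard_scard (isOrd_alp hi)).isOrd.sub_of_mem (mem_scard_self (isOrd_alp hi))

end VFacts

end Pool.Agent.IST
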