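import Pool.Agent.LP.Par

/-!
# The conditions of the iteration

A condition `p` is a function; its domain consists of pairs `(i, ξ)` with `ξ ∈ DD i`, the value
`p (i, ξ)` is a name at the stage `i`, that is a set of pairs `(q, v)` with `q` a condition of
level `i` and `v ∈ tau i`.
-/

set_option synthInstance.maxSize 100000

namespace Pool.Agent.IST

open Pool.Agent.BVM

section

variable {M : Type} [SetModel M] {Γ : Type} [IsCtx Γ M] [BitC M]

/-- `n` is a name for the poset `A`, ordered by `L`, of an element of `t` -/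
def NmOf (A L t n : M) : Prop := n ⊆ prod A t ∧
  (∀ q v q' v', op q v ∈ n → op q' v' ∈ n → (∃ r, op r q ∈ L ∧ op r q' ∈ L) → v = v') ∧
  ∀ r ∈ A, ∃ r', op r' r ∈ L ∧ ∃ q v, op q v ∈ n ∧ op r' q ∈ L

instance NmOf.dfp {f g h k : Γ → M} [Dff f] [Dff g] [Dff h] [Dff k] :
    Dfp fun γ => NmOf (f γ) (g γ) (h γ) (k γ) := by
  unfold NmOf; infer_instance

/-- the set of names -/
noncomputable def NmS (A L t : M) : M := sep (pw (prod A t)) fun n => NmOf A L t n

instance NmS.dff {f g h : Γ → M} [Dff f] [Dff g] [Dff h] :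
    Dff fun γ => NmS (f γ) (g γ) (h γ) := by
  unfold NmS; infer_instance

omit [BitC M] in
theorem mem_NmS {A L t n : M} : n ∈ NmS A L t ↔ NmOf A L t n := by
  unfold NmS
  rw [mem_sep, mem_pw]
  exact ⟨fun h => h.2, fun h => ⟨h.1, h⟩⟩

/-- `r` forces that two names are equal -/
def FEq (L r n n' : M) : Prop := ∀ r', op r' r ∈ L → ∃ r'', op r'' r' ∈ L ∧
  ∃ v q q', op q v ∈ n ∧ op q' v ∈ n' ∧ op r'' q ∈ L ∧ op r'' q' ∈ L

instance FEq.dfp {f g h k : Γ → M} [Dff f] [Dff g] [Dff h] [Dff k] :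
    Dfp fun γ => FEq (f γ) (g γ) (h γ) (k γ) := by
  unfold FEq; infer_instance

/-- restriction of a condition to the level `i` -/
noncomputable def rst (i p : M) : M := sep p fun w => p1 (p1 w) ∈ i

instance rst.dff {f g : Γ → M} [Dff f] [Dff g] : Dff fun γ => rst (f γ) (g γ) := by
  unfold rst; infer_instance

/-- the support rule -/
def SR (p : M) : Prop :=
  ∀ d, IsReg d → om ∈ d → card (sep (dom p) fun x => alp (p1 x) ⊆ d) ∈ d

instance SR.dfp {f : Γ → M} [Dff f] : Dfp fun γ => SR (f γ) := by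
  unfold SR; infer_instance

/-- the coordinates -/
noncomputable def XX (k : M) : M := iU k fun i => prod (sing i) (DD i)

instance XX.dff {f : Γ → M} [Dff f] : Dff fun γ => XX (f γ) := by
  unfold XX; infer_instance

theorem mem_XX {k x : M} : x ∈ XX k ↔ ∃ i ∈ k, ∃ ξ ∈ DD i, x = op i ξ := by
  unfold XX
  rw [mem_iU]
  simp only [mem_prod, mem_sing]
  constructor
  · rintro ⟨i, hi, j, rfl, ξ, hξ, h⟩
    exact ⟨j, hi, ξ, hξ, h⟩
  · rintro ⟨i, hi, ξ, hξ, h⟩
    exact ⟨i, hi, i, rfl, ξ, hξ, h⟩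

/-- the names at `i`, from the recursion -/
noncomputable def NmF (f i : M) : M := NmS (p1 (ap f i)) (p2 (ap f i)) (tau i)

instance NmF.dff {f g : Γ → M} [Dff f] [Dff g] : Dff fun γ => NmF (f γ) (g γ) := by
  unfold NmF; infer_instance

/-- the conditions of level `k`, from the recursion -/
noncomputable def PPF (k f : M) : M :=
  sep (pw (prod (XX k) (iU k fun i => NmF f i))) fun p =>
    IsFun p ∧ (∀ x ∈ dom p, ap p x ∈ NmF f (p1 x)) ∧ SR p

instance PPF.dff {f g : Γ → M} [Dff f] [Dff g] : Dff fun γ => PPF (f γ) (g γ) := by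
  unfold PPF; infer_instance

/-- the order, from the recursion -/
noncomputable def LLF (k f : M) : M :=
  sep (prod (PPF k f) (PPF k f)) fun w => dom (p2 w) ⊆ dom (p1 w) ∧
    ∀ x ∈ dom (p2 w), FEq (p2 (ap f (p1 x))) (rst (p1 x) (p1 w)) (ap (p1 w) x) (ap (p2 w) x)

instance LLF.dff {f g : Γ → M} [Dff f] [Dff g] : Dff fun γ => LLF (f γ) (g γ) := by
  unfold LLF; infer_instance

/-- the recursion -/
noncomputable def RR (k : M) : M := erec (fun k f => op (PPF k f) (LLF k f)) k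

instance RR.dff {f : Γ → M} [Dff f] : Dff fun γ => RR (f γ) := by
  unfold RR; infer_instance

/-- the conditions of level `k` -/
noncomputable def CP (k : M) : M := p1 (RR k)

instance CP.dff {f : Γ → M} [Dff f] : Dff fun γ => CP (f γ) := by
  unfold CP; infer_instance

/-- the order on the conditions of level `k` -/
noncomputable def CL (k : M) : M := p2 (RR k)

instance CL.dff {f : Γ → M} [Dff f] : Dff fun γ => CL (f γ) := by
  unfold CL; infer_instance

/-- the names at the stage `i` -/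
noncomputable def Nm (i : M) : M := NmS (CP i) (CL i) (tau i)

instance Nm.dff {f : Γ → M} [Dff f] : Dff fun γ => Nm (f γ) := by
  unfold Nm; infer_instance

/-- `r` forces that two names at the stage `i` are equal -/
def FE (i r n n' : M) : Prop := FEq (CL i) r n n'

instance FE.dfp {f g h k : Γ → M} [Dff f] [Dff g] [Dff h] [Dff k] :
    Dfp fun γ => FE (f γ) (g γ) (h γ) (k γ) := by
  unfold FE; infer_instance

/-- coordinates -/
def IsX (x : M) : Prop := ∃ i, IsOrd i ∧ ∃ ξ ∈ DD i, x = op i ξ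

instance IsX.dfp {f : Γ → M} [Dff f] : Dfp fun γ => IsX (f γ) := by
  unfold IsX; infer_instance

/-- the conditions -/
def Cnd (p : M) : Prop := IsFun p ∧ (∀ x ∈ dom p, IsX x ∧ ap p x ∈ Nm (p1 x)) ∧ SR p

instance Cnd.dfp {f : Γ → M} [Dff f] : Dfp fun γ => Cnd (f γ) := by
  unfold Cnd; infer_instance

/-- the order -/
def cle (q p : M) : Prop := Cnd q ∧ Cnd p ∧ dom p ⊆ dom q ∧
  ∀ x ∈ dom p, FE (p1 x) (rst (p1 x) q) (ap q x) (ap p x)

instance cle.dfp {f g : Γ → M} [Dff f] [Dff g] : Dfp fun γ => cle (f γ) (g γ) := by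
  unfold cle; infer_instance

/-! ### unfolding the recursion -/

theorem RR_eq (k : M) : RR k = op (PPF k (lam k fun i => RR i)) (LLF k (lam k fun i => RR i)) := by
  conv_lhs => rw [RR, erec_eq]
  rfl

theorem CP_eq (k : M) : CP k = PPF k (lam k fun i => RR i) := by
  unfold CP
  rw [RR_eq, p1_op]

theorem CL_eq (k : M) : CL k = LLF k (lam k fun i => RR i) := by
  unfold CL
  rw [RR_eq, p2_op]

theorem NmF_lam {k i : M} (h : i ∈ k) : NmF (lam k fun i => RR i) i = Nm i := by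
  unfold NmF Nm CP CL
  rw [ap_lam h]

theorem p1_mem_of_mem_XX {k x : M} (h : x ∈ XX k) : p1 x ∈ k := by
  obtain ⟨i, hi, ξ, -, rfl⟩ := mem_XX.1 h
  rw [p1_op]
  exact hi

theorem mem_XX_iff {k x : M} (hk : IsOrd k) : x ∈ XX k ↔ IsX x ∧ p1 x ∈ k := by
  constructor
  · intro h
    refine ⟨?_, p1_mem_of_mem_XX h⟩
    obtain ⟨i, hi, ξ, hξ, rfl⟩ := mem_XX.1 h
    exact ⟨i, hk.mem hi, ξ, hξ, rfl⟩
  · rintro ⟨⟨i, -, ξ, hξ, rfl⟩, h⟩
    rw [p1_op] at h
    exact mem_XX.2 ⟨i, h, ξ, hξ, rfl⟩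

theorem IsX.isOrd {x : M} (h : IsX x) : IsOrd (p1 x) := by
  obtain ⟨i, hi, ξ, -, rfl⟩ := h
  rw [p1_op]
  exact hi

theorem mem_CP {k p : M} (hk : IsOrd k) : p ∈ CP k ↔ Cnd p ∧ ∀ x ∈ dom p, p1 x ∈ k := by
  rw [CP_eq]
  unfold PPF
  rw [mem_sep, mem_pw]
  constructor
  · rintro ⟨h1, hf, h2, h3⟩
    have h4 : ∀ x ∈ dom p, x ∈ XX k := by
      intro x hx
      have := h1 _ (hf.op_ap_mem hx)
      exact (op_mem_prod.1 this).1
    refine ⟨⟨hf, fun x hx => ⟨((mem_XX_iff hk).1 (h4 x hx)).1, ?_⟩, h3⟩,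
      fun x hx => p1_mem_of_mem_XX (h4 x hx)⟩
    have := h2 x hx
    rwa [NmF_lam (p1_mem_of_mem_XX (h4 x hx))] at this
  · rintro ⟨⟨hf, h1, h2⟩, h3⟩
    have h4 : ∀ x ∈ dom p, ap p x ∈ NmF (lam k fun i => RR i) (p1 x) := by
      intro x hx
      rw [NmF_lam (h3 x hx)]
      exact (h1 x hx).2
    refine ⟨fun w hw => ?_, hf, h4, h2⟩
    obtain ⟨x, hx, rfl⟩ := hf.mem_iff.1 hw
    refine op_mem_prod.2 ⟨(mem_XX_iff hk).2 ⟨(h1 x hx).1, h3 x hx⟩, ?_⟩
    exact mem_iU.2 ⟨p1 x, h3 x hx, h4 x hx⟩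

theorem mem_CL {k q p : M} (hk : IsOrd k) :
    op q p ∈ CL k ↔ q ∈ CP k ∧ p ∈ CP k ∧ cle q p := by
  rw [CL_eq]
  unfold LLF
  rw [mem_sep, op_mem_prod, p1_op, p2_op, ← CP_eq]
  constructor
  · rintro ⟨⟨hq, hp⟩, h1, h2⟩
    have hp' := (mem_CP hk).1 hp
    refine ⟨hq, hp, ((mem_CP hk).1 hq).1, hp'.1, h1, fun x hx => ?_⟩
    have := h2 x hx
    rw [ap_lam (hp'.2 x hx)] at this
    exact this
  · rintro ⟨hq, hp, -, -, h1, h2⟩
    have hp' := (mem_CP hk).1 hp
    refine ⟨⟨hq, hp⟩, h1, fun x hx => ?_⟩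
    rw [ap_lam (hp'.2 x hx)]
    exact h2 x hx

end

end Pool.Agent.IST
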