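import Pool.Agent.LP.Cnd

/-!
# The conditions of the iteration: preorder, restriction, gluing
-/

set_option synthInstance.maxSize 100000

namespace Pool.Agent.IST

open Pool.Agent.BVM

section

variable {M : Type} [SetModel M] {Γ : Type} [IsCtx Γ M] [BitC M]

/-! ### restriction -/

omit [BitC M] in
theorem rst_sub {i p : M} : rst i p ⊆ p := fun _ h => (mem_sep.1 h).1

omit [BitC M] in
theorem op_mem_rst {i p x y : M} : op x y ∈ rst i p ↔ op x y ∈ p ∧ p1 x ∈ i := by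
  unfold rst
  rw [mem_sep, p1_op]

omit [BitC M] in
theorem isFun_rst {i p : M} (h : IsFun p) : IsFun (rst i p) := h.mono rst_sub

omit [BitC M] in
theorem mem_dom_rst {i p x : M} : x ∈ dom (rst i p) ↔ x ∈ dom p ∧ p1 x ∈ i := by
  rw [mem_dom, mem_dom]
  simp only [op_mem_rst]
  simp

omit [BitC M] in
theorem ap_rst {i p x : M} (h : IsFun p) (hx : p1 x ∈ i) : ap (rst i p) x = ap p x := by
  by_cases h1 : x ∈ dom p
  · exact (isFun_rst h).ap_eq (op_mem_rst.2 ⟨h.op_ap_mem h1, hx⟩)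
  · rw [ap_of_notMem h1, ap_of_notMem]
    rw [mem_dom_rst]
    exact fun h2 => h1 h2.1

omit [BitC M] in
theorem rst_rst {i j p : M} (h : i ⊆ j) : rst i (rst j p) = rst i p := by
  apply ext
  intro w
  unfold rst
  rw [mem_sep, mem_sep, mem_sep]
  exact ⟨fun h1 => ⟨h1.1.1, h1.2⟩, fun h1 => ⟨⟨h1.1, h _ h1.2⟩, h1.2⟩⟩

omit [BitC M] in
theorem rst_rst' {i j p : M} (h : j ⊆ i) : rst i (rst j p) = rst j p := by
  apply ext
  intro w
  unfold rst
  rw [mem_sep, mem_sep]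
  exact ⟨fun h1 => h1.1, fun h1 => ⟨h1, h _ h1.2⟩⟩

omit [BitC M] in
theorem sep_mono' {a b : M} {P : M → Prop} [Dfp fun γ : E0 M × M => P γ.2] (h : a ⊆ b) :
    sep a P ⊆ sep b P := fun _ hx => mem_sep.2 ⟨h _ (mem_sep.1 hx).1, (mem_sep.1 hx).2⟩

theorem SR.mono {p q : M} (h : SR p) (h' : dom q ⊆ dom p) : SR q := by
  intro d hd hom
  exact (isOrd_card _).mem_of_sub_of_mem hd.isOrd (card_mono (sep_mono' h')) (h d hd hom)

theorem cnd_rst {i p : M} (h : Cnd p) : Cnd (rst i p) := by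
  refine ⟨isFun_rst h.1, fun x hx => ?_, h.2.2.mono fun x hx => (mem_dom_rst.1 hx).1⟩
  rw [mem_dom_rst] at hx
  rw [ap_rst h.1 hx.2]
  exact h.2.1 x hx.1

theorem rst_mem {i p : M} (hi : IsOrd i) (h : Cnd p) : rst i p ∈ CP i :=
  (mem_CP hi).2 ⟨cnd_rst h, fun _ hx => (mem_dom_rst.1 hx).2⟩

theorem cnd_of_mem {i p : M} (hi : IsOrd i) (h : p ∈ CP i) : Cnd p := ((mem_CP hi).1 h).1

theorem rst_eq_self {i p : M} (hi : IsOrd i) (h : p ∈ CP i) : rst i p = p := by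
  obtain ⟨h1, h2⟩ := (mem_CP hi).1 h
  apply ext
  intro w
  unfold rst
  rw [mem_sep]
  refine ⟨fun h => h.1, fun hw => ⟨hw, ?_⟩⟩
  obtain ⟨x, hx, rfl⟩ := h1.1.mem_iff.1 hw
  rw [p1_op]
  exact h2 x hx

theorem mem_CP_iff {i p : M} (hi : IsOrd i) : p ∈ CP i ↔ Cnd p ∧ rst i p = p :=
  ⟨fun h => ⟨cnd_of_mem hi h, rst_eq_self hi h⟩, fun h => h.2 ▸ rst_mem hi h.1⟩

theorem CP_mono {i j : M} (hi : IsOrd i) (hj : IsOrd j) (h : i ⊆ j) : CP i ⊆ CP j := by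
  intro p hp
  obtain ⟨h1, h2⟩ := (mem_CP hi).1 hp
  exact (mem_CP hj).2 ⟨h1, fun x hx => h _ (h2 x hx)⟩

omit [BitC M] in
theorem isFun_empty : IsFun (∅ : M) :=
  ⟨fun p hp => absurd hp (notMem_empty p), fun x y _ h _ => absurd h (notMem_empty _)⟩

omit [BitC M] in
theorem dom_empty : dom (∅ : M) = ∅ := by
  rw [eq_empty_iff]
  intro z hz
  obtain ⟨y, hy⟩ := mem_dom.1 hz
  exact notMem_empty _ hy

theorem cnd_empty : Cnd (∅ : M) := by
  refine ⟨isFun_empty, fun x hx => ?_, fun d hd hom => ?_⟩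
  · rw [dom_empty] at hx
    exact absurd hx (notMem_empty x)
  · have : sep (dom (∅ : M)) (fun x => alp (p1 x) ⊆ d) = ∅ := by
      rw [eq_empty_iff]
      intro z hz
      rw [mem_sep, dom_empty] at hz
      exact notMem_empty _ hz.1
    rw [this, isCard_empty.card_eq]
    exact empty_mem_of_isLim hd.infCard.isLim

theorem empty_mem_CP {i : M} (hi : IsOrd i) : ∅ ∈ CP i := by
  refine (mem_CP hi).2 ⟨cnd_empty, fun x hx => ?_⟩
  rw [dom_empty] at hx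
  exact absurd hx (notMem_empty x)

theorem Cnd.isOrd {p x : M} (h : Cnd p) (hx : x ∈ dom p) : IsOrd (p1 x) := (h.2.1 x hx).1.isOrd

theorem Cnd.nm {p x : M} (h : Cnd p) (hx : x ∈ dom p) : ap p x ∈ Nm (p1 x) := (h.2.1 x hx).2

theorem exists_level {p : M} (h : Cnd p) : ∃ i : M, IsOrd i ∧ p ∈ CP i := by
  obtain ⟨i, hi, h1⟩ := exists_ord_bound (dom p) (fun x => p1 x) fun x hx => h.isOrd hx
  exact ⟨i, hi, (mem_CP hi).2 ⟨h, h1⟩⟩

/-! ### names -/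

theorem nm_sub {i n : M} (h : n ∈ Nm i) : n ⊆ prod (CP i) (tau i) := (mem_NmS.1 h).1

theorem nm_cond {i n q v : M} (h : n ∈ Nm i) (h' : op q v ∈ n) : q ∈ CP i ∧ v ∈ tau i :=
  op_mem_prod.1 (nm_sub h _ h')

theorem nm_coh {i n q v q' v' r : M} (hi : IsOrd i) (h : n ∈ Nm i) (h1 : op q v ∈ n)
    (h2 : op q' v' ∈ n) (hr : r ∈ CP i) (h3 : cle r q) (h4 : cle r q') : v = v' :=
  (mem_NmS.1 h).2.1 q v q' v' h1 h2
    ⟨r, (mem_CL hi).2 ⟨hr, (nm_cond h h1).1, h3⟩, (mem_CL hi).2 ⟨hr, (nm_cond h h2).1, h4⟩⟩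

theorem nm_tot {i n r : M} (hi : IsOrd i) (h : n ∈ Nm i) (hr : r ∈ CP i) :
    ∃ r' ∈ CP i, cle r' r ∧ ∃ q v, op q v ∈ n ∧ cle r' q := by
  obtain ⟨r', h1, q, v, h2, h3⟩ := (mem_NmS.1 h).2.2 r hr
  rw [mem_CL hi] at h1 h3
  exact ⟨r', h1.1, h1.2.2, q, v, h2, h3.2.2⟩

theorem mem_Nm {i n : M} (hi : IsOrd i) : n ∈ Nm i ↔ n ⊆ prod (CP i) (tau i) ∧
    (∀ q v q' v' r, op q v ∈ n → op q' v' ∈ n → r ∈ CP i → cle r q → cle r q' → v = v') ∧
    ∀ r ∈ CP i, ∃ r' ∈ CP i, cle r' r ∧ ∃ q v, op q v ∈ n ∧ cle r' q := by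
  constructor
  · intro h
    exact ⟨nm_sub h, fun q v q' v' r h1 h2 hr h3 h4 => nm_coh hi h h1 h2 hr h3 h4,
      fun r hr => nm_tot hi h hr⟩
  · rintro ⟨h1, h2, h3⟩
    refine mem_NmS.2 ⟨h1, ?_, ?_⟩
    · rintro q v q' v' hq hq' ⟨r, hr, hr'⟩
      rw [mem_CL hi] at hr hr'
      exact h2 q v q' v' r hq hq' hr.1 hr.2.2 hr'.2.2
    · intro r hr
      obtain ⟨r', hr', h4, q, v, h5, h6⟩ := h3 r hr
      exact ⟨r', (mem_CL hi).2 ⟨hr', hr, h4⟩, q, v, h5,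
        (mem_CL hi).2 ⟨hr', (op_mem_prod.1 (h1 _ h5)).1, h6⟩⟩

theorem FE_iff {i r n n' : M} (hi : IsOrd i) (hr : r ∈ CP i) : FE i r n n' ↔
    ∀ r' ∈ CP i, cle r' r → ∃ r'' ∈ CP i, cle r'' r' ∧ ∃ v q q', op q v ∈ n ∧ op q' v ∈ n' ∧
      q ∈ CP i ∧ q' ∈ CP i ∧ cle r'' q ∧ cle r'' q' := by
  unfold FE FEq
  constructor
  · intro h r' hr' h1
    obtain ⟨r'', h2, v, q, q', h3, h4, h5, h6⟩ := h r' ((mem_CL hi).2 ⟨hr', hr, h1⟩)
    rw [mem_CL hi] at h2 h5 h6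
    exact ⟨r'', h2.1, h2.2.2, v, q, q', h3, h4, h5.2.1, h6.2.1, h5.2.2, h6.2.2⟩
  · intro h r' h1
    rw [mem_CL hi] at h1
    obtain ⟨r'', h2, h3, v, q, q', h4, h5, h6, h7, h8, h9⟩ := h r' h1.1 h1.2.2
    exact ⟨r'', (mem_CL hi).2 ⟨h2, h1.1, h3⟩, v, q, q', h4, h5, (mem_CL hi).2 ⟨h2, h6, h8⟩,
      (mem_CL hi).2 ⟨h2, h7, h9⟩⟩

theorem FE_refl {i r n : M} (hi : IsOrd i) (hr : r ∈ CP i) (hn : n ∈ Nm i) : FE i r n n := by
  rw [FE_iff hi hr]
  intro r' hr' _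
  obtain ⟨r'', hr'', h1, q, v, h2, h3⟩ := nm_tot hi hn hr'
  have hq := (nm_cond hn h2).1
  exact ⟨r'', hr'', h1, v, q, q, h2, h2, hq, hq, h3, h3⟩

theorem FE_symm {i r n n' : M} (h : FE i r n n') : FE i r n' n := by
  intro r' h1
  obtain ⟨r'', h2, v, q, q', h3, h4, h5, h6⟩ := h r' h1
  exact ⟨r'', h2, v, q', q, h4, h3, h6, h5⟩

/-- the order is transitive at the level `i` -/
def TrL (i : M) : Prop := ∀ s ∈ CP i, ∀ r ∈ CP i, ∀ q ∈ CP i, cle s r → cle r q → cle s q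

instance TrL.dfp {f : Γ → M} [Dff f] : Dfp fun γ => TrL (f γ) := by
  unfold TrL; infer_instance

theorem FE_mono' {i r s n n' : M} (hi : IsOrd i) (ht : TrL i) (hr : r ∈ CP i) (hs : s ∈ CP i)
    (hsr : cle s r) (h : FE i r n n') : FE i s n n' := by
  rw [FE_iff hi hs]
  intro r' hr' h1
  exact (FE_iff hi hr).1 h r' hr' (ht r' hr' s hs r hr h1 hsr)

theorem FE_trans' {i r n n' n'' : M} (hi : IsOrd i) (ht : TrL i) (hr : r ∈ CP i)
    (hn' : n' ∈ Nm i) (h : FE i r n n') (h' : FE i r n' n'') : FE i r n n'' := by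
  rw [FE_iff hi hr] at h h' ⊢
  intro r' hr' h1
  obtain ⟨r1, hr1, h2, v, q, q', h3, h4, h5, h6, h7, h8⟩ := h r' hr' h1
  obtain ⟨r2, hr2, g2, w, a, a', g3, g4, g5, g6, g7, g8⟩ := h' r1 hr1 (ht r1 hr1 r' hr' r hr h2 h1)
  have hr2q' : cle r2 q' := ht r2 hr2 r1 hr1 q' h6 g2 h8
  have hvw : v = w := nm_coh hi hn' h4 g3 hr2 hr2q' g7
  subst hvw
  exact ⟨r2, hr2, ht r2 hr2 r1 hr1 r' hr' g2 h2, v, q, a', h3, g4, h5, g6,
    ht r2 hr2 r1 hr1 q h5 g2 h7, g8⟩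

theorem cle.left {q p : M} (h : cle q p) : Cnd q := h.1

theorem cle.right {q p : M} (h : cle q p) : Cnd p := h.2.1

theorem cle_refl {p : M} (h : Cnd p) : cle p p :=
  ⟨h, h, Sub.refl _, fun _ hx => FE_refl (h.isOrd hx) (rst_mem (h.isOrd hx) h) (h.nm hx)⟩

theorem rst_mono {i q p : M} (hi : IsOrd i) (h : cle q p) : cle (rst i q) (rst i p) := by
  refine ⟨cnd_rst h.1, cnd_rst h.2.1, fun x hx => ?_, fun x hx => ?_⟩
  · rw [mem_dom_rst] at hx ⊢
    exact ⟨h.2.2.1 x hx.1, hx.2⟩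
  · rw [mem_dom_rst] at hx
    rw [rst_rst (hi.sub_of_mem hx.2), ap_rst h.1.1 hx.2, ap_rst h.2.1.1 hx.2]
    exact h.2.2.2 x hx.1

theorem trL {k : M} (hk : IsOrd k) : TrL k := by
  have key : ∀ k : M, IsOrd k → TrL k := by
    refine ord_ind (fun k => TrL k) fun k hk ih => ?_
    intro s hs r hr q hq h1 h2
    refine ⟨h1.1, h2.2.1, Sub.trans h2.2.2.1 h1.2.2.1, fun x hx => ?_⟩
    have hi := ((mem_CP hk).1 hq).2 x hx
    have hio := hk.mem hi
    have hxr := h2.2.2.1 x hx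
    have g1 := h1.2.2.2 x hxr
    have g2 := h2.2.2.2 x hx
    have hs' := rst_mem hio h1.1
    have hr' := rst_mem hio h2.1
    exact FE_trans' hio (ih _ hi) hs' (h2.1.nm hxr) g1
      (FE_mono' hio (ih _ hi) hr' hs' (rst_mono hio h1) g2)
  exact key k hk

theorem FE_mono {i r s n n' : M} (hi : IsOrd i) (hr : r ∈ CP i) (hs : s ∈ CP i)
    (hsr : cle s r) (h : FE i r n n') : FE i s n n' := FE_mono' hi (trL hi) hr hs hsr h

theorem FE_trans {i r n n' n'' : M} (hi : IsOrd i) (hr : r ∈ CP i)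
    (hn' : n' ∈ Nm i) (h : FE i r n n') (h' : FE i r n' n'') : FE i r n n'' :=
  FE_trans' hi (trL hi) hr hn' h h'

theorem cle_trans {s r q : M} (h1 : cle s r) (h2 : cle r q) : cle s q := by
  obtain ⟨i, hi, hsi⟩ := exists_level h1.1
  obtain ⟨j, hj, hrj⟩ := exists_level h2.1
  obtain ⟨k, hk, hqk⟩ := exists_level h2.2.1
  have ho := isOrd_union hi (isOrd_union hj hk)
  exact trL ho s (CP_mono hi ho sub_union_left s hsi)
    r (CP_mono hj ho (Sub.trans sub_union_left sub_union_right) r hrj)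
    q (CP_mono hk ho (Sub.trans sub_union_right sub_union_right) q hqk) h1 h2

theorem FE_dense {i r n n' : M} (hi : IsOrd i) (hr : r ∈ CP i)
    (h : ∀ r' ∈ CP i, cle r' r → ∃ r'' ∈ CP i, cle r'' r' ∧ FE i r'' n n') : FE i r n n' := by
  rw [FE_iff hi hr]
  intro r' hr' h1
  obtain ⟨r1, hr1, h2, h3⟩ := h r' hr' h1
  obtain ⟨r2, hr2, h4, h5⟩ := (FE_iff hi hr1).1 h3 r1 hr1 (cle_refl (cnd_of_mem hi hr1))
  exact ⟨r2, hr2, cle_trans h4 h2, h5⟩

theorem cle_empty {p : M} (h : Cnd p) : cle p ∅ :=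
  ⟨h, cnd_empty, fun x hx => by
    rw [dom_empty] at hx
    exact absurd hx (notMem_empty x), fun x hx => by
    rw [dom_empty] at hx
    exact absurd hx (notMem_empty x)⟩

theorem cle_rst {i p : M} (h : Cnd p) : cle p (rst i p) := by
  refine ⟨h, cnd_rst h, fun x hx => (mem_dom_rst.1 hx).1, fun x hx => ?_⟩
  rw [mem_dom_rst] at hx
  rw [ap_rst h.1 hx.2]
  exact FE_refl (h.isOrd hx.1) (rst_mem (h.isOrd hx.1) h) (h.nm hx.1)

/-! ### gluing -/

/-- the condition which is `r` below `i` and `p` from `i` on -/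
noncomputable def glu (i r p : M) : M := r ∪ sep p fun w => p1 (p1 w) ∉ i

instance glu.dff {f g h : Γ → M} [Dff f] [Dff g] [Dff h] :
    Dff fun γ => glu (f γ) (g γ) (h γ) := by
  unfold glu; infer_instance

omit [BitC M] in
theorem op_mem_glu {i r p x y : M} :
    op x y ∈ glu i r p ↔ op x y ∈ r ∨ (op x y ∈ p ∧ p1 x ∉ i) := by
  unfold glu
  rw [mem_union, mem_sep, p1_op]

omit [BitC M] in
theorem mem_dom_glu {i r p x : M} : x ∈ dom (glu i r p) ↔ x ∈ dom r ∨ (x ∈ dom p ∧ p1 x ∉ i) := by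
  rw [mem_dom, mem_dom, mem_dom]
  simp only [op_mem_glu]
  constructor
  · rintro ⟨y, h | h⟩
    · exact Or.inl ⟨y, h⟩
    · exact Or.inr ⟨⟨y, h.1⟩, h.2⟩
  · rintro (⟨y, h⟩ | ⟨⟨y, h⟩, h'⟩)
    · exact ⟨y, Or.inl h⟩
    · exact ⟨y, Or.inr ⟨h, h'⟩⟩

section glue

variable {i r p : M} (hi : IsOrd i) (hr : r ∈ CP i) (hp : Cnd p)

include hi hr hp

theorem isFun_glu : IsFun (glu i r p) := by
  obtain ⟨h1, h2⟩ := (mem_CP hi).1 hr
  constructor
  · intro w hw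
    unfold glu at hw
    rcases mem_union.1 hw with h | h
    · exact h1.1.1 w h
    · exact hp.1.1 w (mem_sep.1 h).1
  · intro x y y' h h'
    rw [op_mem_glu] at h h'
    rcases h with h | h <;> rcases h' with h' | h'
    · exact h1.1.2 x y y' h h'
    · exact absurd (h2 x (mem_dom.2 ⟨y, h⟩)) h'.2
    · exact absurd (h2 x (mem_dom.2 ⟨y', h'⟩)) h.2
    · exact hp.1.2 x y y' h.1 h'.1

theorem ap_glu_left {x : M} (hx : x ∈ dom r) : ap (glu i r p) x = ap r x :=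
  (isFun_glu hi hr hp).ap_eq
    (op_mem_glu.2 (Or.inl (((mem_CP hi).1 hr).1.1.op_ap_mem hx)))

theorem ap_glu_right {x : M} (hx : x ∈ dom p) (hx' : p1 x ∉ i) : ap (glu i r p) x = ap p x :=
  (isFun_glu hi hr hp).ap_eq (op_mem_glu.2 (Or.inr ⟨hp.1.op_ap_mem hx, hx'⟩))

theorem cnd_glu : Cnd (glu i r p) := by
  have hrc := cnd_of_mem hi hr
  refine ⟨isFun_glu hi hr hp, fun x hx => ?_, fun d hd hom => ?_⟩
  · rcases mem_dom_glu.1 hx with h | h
    · rw [ap_glu_left hi hr hp h]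
      exact hrc.2.1 x h
    · rw [ap_glu_right hi hr hp h.1 h.2]
      exact hp.2.1 x h.1
  · have h1 : sep (dom (glu i r p)) (fun x => alp (p1 x) ⊆ d) ⊆
        sep (dom r) (fun x => alp (p1 x) ⊆ d) ∪ sep (dom p) fun x => alp (p1 x) ⊆ d := by
      intro x hx
      rw [mem_sep] at hx
      rw [mem_union, mem_sep, mem_sep]
      rcases mem_dom_glu.1 hx.1 with h | h
      · exact Or.inl ⟨h, hx.2⟩
      · exact Or.inr ⟨h.1, hx.2⟩
    exact (isOrd_card _).mem_of_sub_of_mem hd.isOrd (card_mono h1)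
      (card_union_mem hd.infCard (hrc.2.2 d hd hom) (hp.2.2 d hd hom))

theorem rst_glu_of_sub {j : M} (hj : j ⊆ i) : rst j (glu i r p) = rst j r := by
  apply ext
  intro w
  unfold rst glu
  rw [mem_sep, mem_sep, mem_union, mem_sep]
  constructor
  · rintro ⟨h | h, h'⟩
    · exact ⟨h, h'⟩
    · exact absurd (hj _ h') h.2
  · rintro ⟨h, h'⟩
    exact ⟨Or.inl h, h'⟩

theorem rst_glu : rst i (glu i r p) = r := by
  rw [rst_glu_of_sub hi hr hp (Sub.refl i), rst_eq_self hi hr]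

theorem rst_glu_of_sup {j : M} (hj : IsOrd j) (hij : i ⊆ j) :
    rst j (glu i r p) = glu i r (rst j p) := by
  apply ext
  intro w
  have h2 := ((mem_CP hi).1 hr)
  unfold rst glu
  rw [mem_sep, mem_union, mem_union, mem_sep, mem_sep, mem_sep]
  constructor
  · rintro ⟨h | h, h'⟩
    · exact Or.inl h
    · exact Or.inr ⟨⟨h.1, h'⟩, h.2⟩
  · rintro (h | h)
    · refine ⟨Or.inl h, ?_⟩
      obtain ⟨x, hx, rfl⟩ := h2.1.1.mem_iff.1 h
      rw [p1_op]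
      exact hij _ (h2.2 x hx)
    · exact ⟨Or.inr ⟨h.1.1, h.2⟩, h.1.2⟩

theorem glu_mem {j : M} (hj : IsOrd j) (hij : i ⊆ j) (hpj : p ∈ CP j) : glu i r p ∈ CP j := by
  refine (mem_CP hj).2 ⟨cnd_glu hi hr hp, fun x hx => ?_⟩
  rcases mem_dom_glu.1 hx with h | h
  · exact hij _ (((mem_CP hi).1 hr).2 x h)
  · exact ((mem_CP hj).1 hpj).2 x h.1

theorem glu_le_left : cle (glu i r p) r := by
  have hrc := cnd_of_mem hi hr
  have hg := cnd_glu hi hr hp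
  refine ⟨hg, hrc, fun x hx => mem_dom_glu.2 (Or.inl hx), fun x hx => ?_⟩
  rw [ap_glu_left hi hr hp hx]
  exact FE_refl (hrc.isOrd hx) (rst_mem (hrc.isOrd hx) hg) (hrc.nm hx)

theorem glu_le (h : cle r (rst i p)) : cle (glu i r p) p := by
  have hrc := cnd_of_mem hi hr
  have hg := cnd_glu hi hr hp
  refine ⟨hg, hp, fun x hx => ?_, fun x hx => ?_⟩
  · rw [mem_dom_glu]
    by_cases h1 : p1 x ∈ i
    · exact Or.inl (h.2.2.1 x (mem_dom_rst.2 ⟨hx, h1⟩))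
    · exact Or.inr ⟨hx, h1⟩
  · by_cases h1 : p1 x ∈ i
    · have h2 : x ∈ dom (rst i p) := mem_dom_rst.2 ⟨hx, h1⟩
      have h3 := h.2.2.1 x h2
      have h4 := h.2.2.2 x h2
      rw [ap_rst hp.1 h1] at h4
      rw [ap_glu_left hi hr hp h3, rst_glu_of_sub hi hr hp (hi.sub_of_mem h1)]
      exact h4
    · rw [ap_glu_right hi hr hp hx h1]
      exact FE_refl (hp.isOrd hx) (rst_mem (hp.isOrd hx) hg) (hp.nm hx)

theorem le_glu {s : M} (h1 : cle s r) (h2 : cle s p) : cle s (glu i r p) := by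
  refine ⟨h1.1, cnd_glu hi hr hp, fun x hx => ?_, fun x hx => ?_⟩
  · rcases mem_dom_glu.1 hx with h | h
    · exact h1.2.2.1 x h
    · exact h2.2.2.1 x h.1
  · rcases mem_dom_glu.1 hx with h | h
    · rw [ap_glu_left hi hr hp h]
      exact h1.2.2.2 x h
    · rw [ap_glu_right hi hr hp h.1 h.2]
      exact h2.2.2.2 x h.1

end glue

/-- an inequality may be checked modulo the level `i` -/
theorem cle_loc {i q p : M} (hi : IsOrd i) (hq : Cnd q) (hp : Cnd p)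
    (h : cle (rst i q) (rst i p))
    (H : ∀ r ∈ CP i, cle r (rst i q) → ∃ r' ∈ CP i, cle r' r ∧ cle (glu i r' q) p) : cle q p := by
  have hqi := rst_mem hi hq
  refine ⟨hq, hp, fun x hx => ?_, fun x hx => ?_⟩
  · by_cases h1 : p1 x ∈ i
    · exact (mem_dom_rst.1 (h.2.2.1 x (mem_dom_rst.2 ⟨hx, h1⟩))).1
    · obtain ⟨r', hr', -, h3⟩ := H _ hqi (cle_refl (cnd_rst hq))
      rcases mem_dom_glu.1 (h3.2.2.1 x hx) with h4 | h4
      · exact absurd (((mem_CP hi).1 hr').2 x h4) h1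
      · exact h4.1
  · have hj := hp.isOrd hx
    by_cases h1 : p1 x ∈ i
    · have h2 : x ∈ dom (rst i p) := mem_dom_rst.2 ⟨hx, h1⟩
      have h4 := h.2.2.2 x h2
      rw [ap_rst hp.1 h1, ap_rst hq.1 h1, rst_rst (hi.sub_of_mem h1)] at h4
      exact h4
    · have hij : i ⊆ p1 x := (hj.not_mem hi).1 h1
      have hqj := rst_mem hj hq
      refine FE_dense hj hqj fun s hs hsq => ?_
      have hsi : cle (rst i s) (rst i q) := by
        have := rst_mono hi hsq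
        rwa [rst_rst hij] at this
      have hsc := cnd_of_mem hj hs
      obtain ⟨r', hr', h3, h4⟩ := H _ (rst_mem hi hsc) hsi
      have hxq : x ∈ dom q := by
        rcases mem_dom_glu.1 (h4.2.2.1 x hx) with h5 | h5
        · exact absurd (((mem_CP hi).1 hr').2 x h5) h1
        · exact h5.1
      have h6 := h4.2.2.2 x hx
      rw [ap_glu_right hi hr' hq hxq h1, rst_glu_of_sup hi hr' hq hj hij] at h6
      have h7 := glu_mem hi hr' hsc hj hij hs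
      have h8 := glu_le hi hr' hsc h3
      have h9 := glu_mem hi hr' (cnd_rst hq) hj hij hqj
      refine ⟨glu i r' s, h7, h8, FE_mono hj h9 h7 ?_ h6⟩
      exact le_glu hi hr' (cnd_rst hq) (glu_le_left hi hr' hsc) (cle_trans h8 hsq)

end

end Pool.Agent.IST
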