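import Pool.Agent.LP.Pure

/-!
# Coding the generic filter of a level into an unbounded function (5.1)

`W γ v u`: the condition `u` forces that the value of the function at `γ` is `v`.
-/

set_option synthInstance.maxSize 100000

namespace Pool.Agent.IST

open Pool.Agent.BVM

namespace LPo

variable {M : Type} [SetModel M] {Γ : Type} [IsCtx Γ M] {P : LPo M}

theorem pe_trans {i q q' p : M} (h : P.Pe i q' q) (h' : P.Pe i q p) : P.Pe i q' p :=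
  ⟨P.le_trans h.1 h'.1, h.2.trans h'.2⟩

theorem pe_refl {i p : M} (h : P.Cd p) : P.Pe i p p := ⟨P.le_refl h, rfl⟩

/-- the pieces of pure extensions -/
theorem Pe.gl {i q p r : M} (hi : IsOrd i) (h : P.Pe i q p) (hr : r ∈ P.PP i)
    (hrp : P.le r (P.rs i p)) : P.le (P.gl i r q) (P.gl i r p) := by
  have hrq : P.le r (P.rs i q) := by rw [h.2]; exact hrp
  have hq := P.left h.1
  have hp := P.right h.1
  exact P.le_gl hi hp hr hrp (P.gl_le_left hi hq hr hrq) (P.le_trans (P.gl_le hi hq hr hrq) h.1)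

/-- the pieces of stronger conditions of level `i` -/
theorem gl_left {i p r r' : M} (hi : IsOrd i) (hp : P.Cd p) (hr : r ∈ P.PP i)
    (hr' : r' ∈ P.PP i) (hrp : P.le r (P.rs i p)) (h : P.le r' r) :
    P.le (P.gl i r' p) (P.gl i r p) :=
  P.le_gl hi hp hr hrp (P.le_trans (P.gl_le_left hi hp hr' (P.le_trans h hrp)) h)
    (P.gl_le hi hp hr' (P.le_trans h hrp))

theorem rs_of_mem {i r : M} (hi : IsOrd i) (h : r ∈ P.PP i) : P.rs i r = r :=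
  ((P.mem_PP hi).1 h).2

theorem cd_of_mem {i r : M} (hi : IsOrd i) (h : r ∈ P.PP i) : P.Cd r := ((P.mem_PP hi).1 h).1

/-- pure decision for one property, strong form -/
theorem pd1' [GCh M] {i p : M} (hi : IsOrd i) (hc : card (P.PP i) ∈ P.al i) (hp : P.Cd p)
    (D : M → Prop) [hDd : Dfp fun γ : E0 M × M => D γ.2] (ho : ∀ u u', D u → P.le u' u → D u')
    (hD : ∀ a ∈ P.PP i, P.le a (P.rs i p) → ∃ u, P.le u (P.gl i a p) ∧ D u) :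
    ∃ q, P.Pe i q p ∧ ∀ a ∈ P.PP i, P.le a (P.rs i p) → ∃ a' ∈ P.PP i, P.le a' a ∧
      D (P.gl i a' q) := by
  have hDd' : ∀ {Θ : Type} [IsCtx Θ M] {a : Θ → M} [Dff a], Dfp fun γ => D (a γ) :=
    fun {Θ} _ {a} _ => Dfp.use1 hDd
  obtain ⟨g, hg⟩ := (eqn_card (P.PP i)).symm
  have hlo := isOrd_card (P.PP i)
  have hb : P.rs i p ∈ P.PP i := P.rs_mem hi hp
  -- the chosen extensions
  let F : M → M := fun a => pick fun u => P.le u (P.gl i a p) ∧ D u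
  have hFd : ∀ {Θ : Type} [IsCtx Θ M] {a : Θ → M} [Dff a], Dff fun γ => F (a γ) := by
    intro Θ _ a _
    simp only [F]; infer_instance
  have hF : ∀ a ∈ P.PP i, P.le a (P.rs i p) → P.le (F a) (P.gl i a p) ∧ D (F a) := by
    intro a ha hab
    exact pick_spec (P := fun u => P.le u (P.gl i a p) ∧ D u) (hD a ha hab)
  have hFcd : ∀ a ∈ P.PP i, P.le a (P.rs i p) → P.Cd (F a) := fun a ha hab =>
    P.left (hF a ha hab).1
  have hFp : ∀ a ∈ P.PP i, P.le a (P.rs i p) → P.le (F a) p := fun a ha hab =>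
    P.le_trans (hF a ha hab).1 (P.gl_le hi hp ha hab)
  have hFa : ∀ a ∈ P.PP i, P.le a (P.rs i p) → P.le (P.rs i (F a)) a := by
    intro a ha hab
    have := P.rs_mono hi (hF a ha hab).1
    rwa [P.rs_gl hi hp ha hab] at this
  -- a common level
  obtain ⟨j, hj, hij, hpj, hFj⟩ : ∃ j, IsOrd j ∧ i ⊆ j ∧ p ∈ P.PP j ∧
      ∀ a ∈ P.PP i, P.le a (P.rs i p) → F a ∈ P.PP j := by
    obtain ⟨j1, hj1, h1⟩ := P.exists_level hp
    obtain ⟨j2, hj2, h2⟩ := exists_ord_bound (sep (P.PP i) fun a => P.le a (P.rs i p))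
      (fun a => lst fun k => F a ∈ P.PP k) (fun a ha => by
        obtain ⟨ha1, ha2⟩ := mem_sep.1 ha
        obtain ⟨k, hk, h3⟩ := P.exists_level (hFcd a ha1 ha2)
        exact (lst_spec (P := fun k => F a ∈ P.PP k) hk h3).1)
    have hj := isOrd_union hi (isOrd_union hj1 hj2)
    refine ⟨_, hj, sub_union_left, P.mono_PP hj1 hj (Sub.trans sub_union_left sub_union_right) _ h1,
      fun a ha hab => ?_⟩
    obtain ⟨k, hk, h3⟩ := P.exists_level (hFcd a ha hab)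
    obtain ⟨h4, h5, -⟩ := lst_spec (P := fun k => F a ∈ P.PP k) hk h3
    have h6 := h2 a (mem_sep.2 ⟨ha, hab⟩)
    exact P.mono_PP h4 hj (Sub.trans (hj2.sub_of_mem h6)
      (Sub.trans sub_union_right sub_union_right)) _ h5
  -- the index set
  let X : M → M → Prop := fun ξ c => P.le (ap g ξ) (P.rs i p) ∧ P.le c (P.rs i (F (ap g ξ))) ∧
    ∀ η ∈ ξ, P.le (ap g η) (P.rs i p) → ¬ ∃ s, P.le s c ∧ P.le s (P.rs i (F (ap g η)))
  have hXd : ∀ {Θ : Type} [IsCtx Θ M] {a b : Θ → M} [Dff a] [Dff b],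
      Dfp fun γ => X (a γ) (b γ) := by
    intro Θ _ a b _ _
    simp only [X]; infer_instance
  have hXu : ∀ ξ ∈ card (P.PP i), ∀ η ∈ card (P.PP i), ∀ c c' r, X ξ c → X η c' → P.le r c →
      P.le r c' → ξ = η := by
    intro ξ hξ η hη c c' r h1 h2 hr hr'
    rcases (hlo.mem hξ).cmp (hlo.mem hη) with h | h | h
    · exact absurd ⟨r, hr', P.le_trans hr h1.2.1⟩ (h2.2.2 ξ h h1.1)
    · exact h
    · exact absurd ⟨r, hr, P.le_trans hr' h2.2.1⟩ (h1.2.2 η h h2.1)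
  set K := sep (P.PP i) (fun c => P.le c (P.rs i p) ∧ ∃ ξ ∈ card (P.PP i), X ξ c) with hK
  have hKm : ∀ {c}, c ∈ K ↔ c ∈ P.PP i ∧ P.le c (P.rs i p) ∧ ∃ ξ ∈ card (P.PP i), X ξ c :=
    fun {c} => mem_sep
  have hdense : ∀ r ∈ P.PP i, P.le r (P.rs i p) → ∃ c ∈ K, P.le c r := by
    intro r hr hrb
    obtain ⟨ξ0, hξ0, e0⟩ := hg.surj hr
    have hdfp : Dfp fun δ : E0 M × M => δ.2 ∈ card (P.PP i) ∧ P.le (ap g δ.2) (P.rs i p) ∧
        ∃ s, P.le s r ∧ P.le s (P.rs i (F (ap g δ.2))) := by infer_instance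
    obtain ⟨ξ, hξo, ⟨hξ, h1, s, hs1, hs2⟩, h2⟩ := exists_min (fun ξ => ξ ∈ card (P.PP i) ∧
      P.le (ap g ξ) (P.rs i p) ∧ ∃ s, P.le s r ∧ P.le s (P.rs i (F (ap g ξ)))) (hlo.mem hξ0)
      ⟨hξ0, by rw [e0]; exact hrb, P.rs i (F r), hFa r hr hrb, by
        rw [e0]; exact P.le_refl (cd_of_mem hi (P.rs_mem hi (hFcd r hr hrb)))⟩
    have hgξ := hg.1.ap_mem hξ
    have hFc := hFcd _ hgξ h1
    have h3 : P.le (P.rs i s) r := by
      have := P.rs_mono hi hs1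
      rwa [rs_of_mem hi hr] at this
    have h4 : P.le (P.rs i s) (P.rs i (F (ap g ξ))) := by
      have := P.rs_mono hi hs2
      rwa [P.rs_rs hi hi (Sub.refl _) hFc] at this
    refine ⟨P.rs i s, hKm.2 ⟨P.rs_mem hi (P.left hs1), P.le_trans h3 hrb, ξ, hξ, h1, h4,
      fun η hη h5 ⟨s', h6, h7⟩ => ?_⟩, h3⟩
    exact h2 η hη ⟨hlo.trans hη hξ, h5, s', P.le_trans h6 h3, h7⟩
  -- the family
  let xi : M → M := fun c => the fun ξ => ξ ∈ card (P.PP i) ∧ X ξ c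
  have hxid : ∀ {Θ : Type} [IsCtx Θ M] {a : Θ → M} [Dff a], Dff fun γ => xi (a γ) := by
    intro Θ _ a _
    simp only [xi]; infer_instance
  have hxi : ∀ c ∈ K, xi c ∈ card (P.PP i) ∧ X (xi c) c := by
    intro c hc'
    obtain ⟨h1, h2, ξ, hξ, h3⟩ := hKm.1 hc'
    have hcr := P.le_refl (cd_of_mem hi h1)
    exact the_spec (P := fun ξ => ξ ∈ card (P.PP i) ∧ X ξ c)
      ⟨ξ, ⟨hξ, h3⟩, fun η h4 => hXu η h4.1 ξ hξ c c c h4.2 h3 hcr hcr⟩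
  set d := lam K (fun c => P.gl i c (F (ap g (xi c)))) with hd
  have hdap : ∀ {c}, c ∈ K → ap d c = P.gl i c (F (ap g (xi c))) := fun h => ap_lam h
  have hfacts : ∀ c ∈ K, c ∈ P.PP i ∧ P.Cd (F (ap g (xi c))) ∧
      P.le c (P.rs i (F (ap g (xi c)))) ∧ P.le (F (ap g (xi c))) p ∧ D (F (ap g (xi c))) ∧
      F (ap g (xi c)) ∈ P.PP j := by
    intro c hc'
    obtain ⟨h1, h2⟩ := hxi c hc'
    have h3 := hg.1.ap_mem h1
    exact ⟨(hKm.1 hc').1, hFcd _ h3 h2.1, h2.2.1, hFp _ h3 h2.1, (hF _ h3 h2.1).2,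
      hFj _ h3 h2.1⟩
  have hrsd : ∀ c ∈ K, P.rs i (ap d c) = c := by
    intro c hc'
    obtain ⟨h1, h2, h3, -⟩ := hfacts c hc'
    rw [hdap hc', P.rs_gl hi h2 h1 h3]
  have hdle : ∀ c ∈ K, P.le (ap d c) (F (ap g (xi c))) := by
    intro c hc'
    obtain ⟨h1, h2, h3, -⟩ := hfacts c hc'
    rw [hdap hc']
    exact P.gl_le hi h2 h1 h3
  obtain ⟨q, hqj, hqb, hq⟩ := P.amal (i := i) (j := j) (K := K) (d := d) (b := P.rs i p) hi hj hij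
    isFun_lam dom_lam
    ((isOrd_card K).mem_of_sub_of_mem (P.reg_al hi).isOrd
      (card_sub_iff.2 (leq_of_sub fun r hr => (hKm.1 hr).1)) hc) hb
    (fun c hc' => by
      obtain ⟨h1, h2, h3, -, -, h4⟩ := hfacts c hc'
      rw [hdap hc']
      exact P.gl_mem hi hj hij h4 h1 h3)
    (fun k hk k' hk' r hr hrb h1 h2 => by
      refine ⟨r, hr, P.le_refl (cd_of_mem hi hr), k, hk, h1, ?_, ?_⟩
      · exact P.gl_le hi (P.left (hdle k hk)) hr h1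
      · have h3 := h1
        have h4 := h2
        rw [hrsd k hk] at h3
        rw [hrsd k' hk'] at h4
        have e : xi k = xi k' := hXu _ (hxi k hk).1 _ (hxi k' hk').1 k k' r (hxi k hk).2
          (hxi k' hk').2 h3 h4
        obtain ⟨g1, g2, g3, -⟩ := hfacts k' hk'
        have h5 : P.le (P.gl i r (ap d k)) (ap d k) := P.gl_le hi (P.left (hdle k hk)) hr h1
        have h6 : P.le (P.gl i r (ap d k)) r := P.gl_le_left hi (P.left (hdle k hk)) hr h1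
        rw [hdap hk']
        refine P.le_gl hi g2 g1 g3 (P.le_trans h6 h4) ?_
        rw [← e]
        exact P.le_trans h5 (hdle k hk))
  have hqc := cd_of_mem hj hqj
  have hkey : ∀ r ∈ P.PP i, P.le r (P.rs i p) → ∃ c ∈ K, P.le c r ∧
      P.le (P.gl i c q) (F (ap g (xi c))) := by
    intro r hr hrb
    obtain ⟨c, hcK, hcr⟩ := hdense r hr hrb
    refine ⟨c, hcK, hcr, P.le_trans (hq c hcK c (hKm.1 hcK).1 (hKm.1 hcK).2.1 ?_) (hdle c hcK)⟩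
    rw [hrsd c hcK]
    exact P.le_refl (cd_of_mem hi (hKm.1 hcK).1)
  have hqp : P.le q p := by
    refine P.loc hi hqc hp ?_ fun r hr hrq => ?_
    · rw [hqb]
      exact P.le_refl (cd_of_mem hi hb)
    · rw [hqb] at hrq
      obtain ⟨c, hcK, hcr, h⟩ := hkey r hr hrq
      exact ⟨c, (hKm.1 hcK).1, hcr, P.le_trans h (hfacts c hcK).2.2.2.1⟩
  refine ⟨q, ⟨hqp, hqb⟩, fun a ha hab => ?_⟩
  obtain ⟨c, hcK, hcr, h⟩ := hkey a ha hab
  exact ⟨c, (hKm.1 hcK).1, hcr, ho _ _ (hfacts c hcK).2.2.2.2.1 h⟩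

/-- the filter on `PP i` is coded at `a` by the ordinals `t` and `B` -/
def Cod (P : LPo M) (W : M → M → M → Prop) (i ν a t B q : M) : Prop :=
  (∀ r ∈ P.PP i, P.le r (P.rs i q) → P.le r a → ∃ r' ∈ P.PP i, P.le r' r ∧
    ∃ γ ∈ t, ∃ v ∈ ν, B ∈ v ∧ W γ v (P.gl i r' q)) ∧
  ∀ r ∈ P.PP i, P.le r (P.rs i q) → (¬ ∃ s, P.le s r ∧ P.le s a) → ∀ γ ∈ t,
    ∃ r' ∈ P.PP i, P.le r' r ∧ ∃ v ∈ ν, v ⊆ B ∧ W γ v (P.gl i r' q)

theorem dfp_Cod {Δ : Type} [IsCtx Δ M] {W : M → M → M → Prop}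
    (hW : Dfp fun γ : ((E0 M × M) × M) × M => W γ.1.1.2 γ.1.2 γ.2) {f g h k l m : Δ → M}
    [Dff f] [Dff g] [Dff h] [Dff k] [Dff l] [Dff m] :
    Dfp fun γ => P.Cod W (f γ) (g γ) (h γ) (k γ) (l γ) (m γ) := by
  have hW' : ∀ {Θ : Type} [IsCtx Θ M] {a b c : Θ → M} [Dff a] [Dff b] [Dff c],
      Dfp fun γ => W (a γ) (b γ) (c γ) := fun {Θ} _ {a b c} _ _ _ => Dfp.use3 hW
  unfold Cod
  infer_instance

theorem Cod.mono {W : M → M → M → Prop} (hWo : ∀ {γ v u u'}, W γ v u → P.le u' u → W γ v u')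
    {i ν a t B q q' : M} (hi : IsOrd i) (h : P.Cod W i ν a t B q) (hq : P.Pe i q' q) :
    P.Cod W i ν a t B q' := by
  obtain ⟨h1, h2⟩ := h
  refine ⟨fun r hr hrq hra => ?_, fun r hr hrq hra γ hγ => ?_⟩
  · rw [hq.2] at hrq
    obtain ⟨r', hr', h3, γ, hγ, v, hv, h4, h5⟩ := h1 r hr hrq hra
    exact ⟨r', hr', h3, γ, hγ, v, hv, h4, hWo h5 (hq.gl hi hr' (P.le_trans h3 hrq))⟩
  · rw [hq.2] at hrq
    obtain ⟨r', hr', h3, v, hv, h4, h5⟩ := h2 r hr hrq hra γ hγ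
    exact ⟨r', hr', h3, v, hv, h4, hWo h5 (hq.gl hi hr' (P.le_trans h3 hrq))⟩

/-- one step -/
theorem code_step [GCh M] {i q ν : M} (hi : IsOrd i) (hc : card (P.PP i) ∈ P.al i) (hq : P.Cd q)
    (hν : IsReg ν) (hiν : P.al i ∈ ν)
    (W : M → M → M → Prop) [hW : Dfp fun γ : ((E0 M × M) × M) × M => W γ.1.1.2 γ.1.2 γ.2]
    (hWo : ∀ {γ v u u'}, W γ v u → P.le u' u → W γ v u')
    (hWf : ∀ {γ v v' u}, P.Cd u → W γ v u → W γ v' u → v = v')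
    (hWd : ∀ γ ∈ P.al i, ∀ u, P.le u q → ∃ u', P.le u' u ∧ ∃ v ∈ ν, W γ v u')
    (hWu : ∀ β ∈ ν, ∀ u, P.le u q → ∃ u', P.le u' u ∧ ∃ γ ∈ P.al i, ∃ v ∈ ν, β ∈ v ∧ W γ v u')
    {a : M} (ha : a ∈ P.PP i) :
    ∃ q', P.Pe i q' q ∧ ∃ t ∈ P.al i, ∃ B ∈ ν, P.Cod W i ν a t B q' := by
  have hW' : ∀ {Θ : Type} [IsCtx Θ M] {a b c : Θ → M} [Dff a] [Dff b] [Dff c],
      Dfp fun γ => W (a γ) (b γ) (c γ) := fun {Θ} _ {a b c} _ _ _ => Dfp.use3 hW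
  have hal := P.reg_al hi
  have hνo := hν.isOrd
  have h0ν : (∅ : M) ∈ ν := empty_mem_of_isLim hν.infCard.isLim
  set b := P.rs i q with hb
  set A := sep (P.PP i) (fun r => P.le r b) with hA
  have hAc : card A ∈ P.al i := by
    refine (isOrd_card A).mem_of_sub_of_mem hal.isOrd ?_ hc
    exact card_sub_iff.2 (leq_of_sub fun r hr => (mem_sep.1 hr).1)
  have hAν : card A ∈ ν := hνo.trans hAc hiν
  have hAm : ∀ {r}, r ∈ A ↔ r ∈ P.PP i ∧ P.le r b := fun {r} => mem_sep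
  have hgl : ∀ {r}, r ∈ A → P.le (P.gl i r q) q := fun hr => P.gl_le hi hq (hAm.1 hr).1 (hAm.1 hr).2
  -- unbounded values
  let U : M → M → M → Prop := fun γ r β => ∃ u, P.le u (P.gl i r q) ∧ ∃ v ∈ ν, β ∈ v ∧ W γ v u
  have step1 : ∀ r ∈ A, ∃ γ ∈ P.al i, ∀ β ∈ ν, U γ r β := by
    intro r hr
    by_contra hcon
    push Not at hcon
    obtain ⟨β, hβ, h1⟩ := hν.bdd (a := P.al i) (by rwa [hal.isCard.card_eq])
      (fun γ => lst fun β => ¬ U γ r β) (hFd := by simp only [U]; infer_instance) (fun γ hγ => by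
        obtain ⟨β, hβ, h2⟩ := hcon γ hγ
        have : Dfp fun δ : E0 M × M => ¬ U γ r δ.2 := by simp only [U]; infer_instance
        obtain ⟨h3, -, -⟩ := lst_spec (P := fun β => ¬ U γ r β) (hνo.mem hβ) h2
        exact h3.mem_of_sub_of_mem hνo (lst_sub (hνo.mem hβ) h2) hβ)
    obtain ⟨u, hu, γ, hγ, v, hv, hβv, h2⟩ := hWu β hβ _ (hgl hr)
    obtain ⟨β', hβ', h3⟩ := hcon γ hγ
    have : Dfp fun δ : E0 M × M => ¬ U γ r δ.2 := by simp only [U]; infer_instance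
    obtain ⟨h4, h5, -⟩ := lst_spec (P := fun β => ¬ U γ r β) (hνo.mem hβ') h3
    exact h5 ⟨u, hu, v, hv, (hνo.mem hv).trans (h1 γ hγ) hβv, h2⟩
  obtain ⟨T, hT, hT1⟩ := hal.bdd hAc (fun r => lst fun γ => γ ∈ P.al i ∧ ∀ β ∈ ν, U γ r β)
    (hFd := by simp only [U]; infer_instance) (fun r hr => by
      obtain ⟨γ, hγ, h1⟩ := step1 r hr
      have : Dfp fun δ : E0 M × M => δ.2 ∈ P.al i ∧ ∀ β ∈ ν, U δ.2 r β := by
        simp only [U]; infer_instance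
      exact (lst_spec (P := fun γ => γ ∈ P.al i ∧ ∀ β ∈ ν, U γ r β) (hal.isOrd.mem hγ)
        ⟨hγ, h1⟩).2.1.1)
  have hT2 : ∀ r ∈ A, ∃ γ ∈ T, ∀ β ∈ ν, U γ r β := by
    intro r hr
    obtain ⟨γ, hγ, h1⟩ := step1 r hr
    have : Dfp fun δ : E0 M × M => δ.2 ∈ P.al i ∧ ∀ β ∈ ν, U δ.2 r β := by
      simp only [U]; infer_instance
    exact ⟨_, hT1 r hr, (lst_spec (P := fun γ => γ ∈ P.al i ∧ ∀ β ∈ ν, U γ r β)
      (hal.isOrd.mem hγ) ⟨hγ, h1⟩).2.1.2⟩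
  have hTo := hal.isOrd.mem hT
  have hTal : ∀ {γ}, γ ∈ T → γ ∈ P.al i := fun h => hal.isOrd.trans h hT
  -- deciding the values below `T`
  obtain ⟨q0, hq0, h0⟩ := pure_dec (P := P) hi hc hq (card_mem_of_mem hal.isCard hT)
    (fun γ u => ∃ v ∈ ν, W γ v u) (fun γ _ u u' ⟨v, hv, h⟩ hu => ⟨v, hv, hWo h hu⟩)
    (fun γ hγ u hu => hWd γ (hTal hγ) u hu)
  have hq0c := P.left hq0.1
  have hgl0 : ∀ {r}, r ∈ A → P.Cd (P.gl i r q0) := fun {r} hr =>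
    P.left (P.gl_le hi hq0c (hAm.1 hr).1 (by rw [hq0.2]; exact (hAm.1 hr).2))
  let V : M → M → M := fun r γ => the fun v => v ∈ ν ∧ W γ v (P.gl i r q0)
  have hVd : ∀ {Θ : Type} [IsCtx Θ M] {a b : Θ → M} [Dff a] [Dff b],
      Dff fun γ => V (a γ) (b γ) := by
    intro Θ _ a b _ _
    simp only [V]; infer_instance
  have hV : ∀ r ∈ A, ∀ γ v, v ∈ ν → W γ v (P.gl i r q0) → V r γ = v := by
    intro r hr γ v hv h
    exact the_eq (P := fun v => v ∈ ν ∧ W γ v (P.gl i r q0)) ⟨hv, h⟩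
      fun v' h' => hWf (hgl0 hr) h'.2 h
  have hVν : ∀ r γ, V r γ ∈ ν := by
    intro r γ
    by_cases hu : ∃! v, v ∈ ν ∧ W γ v (P.gl i r q0)
    · exact (the_spec hu).1
    · simp only [V]
      unfold the
      rw [dif_neg hu]
      exact h0ν
  have hB1 : ∀ r, ∃ β ∈ ν, ∀ γ ∈ T, V r γ ∈ β := fun r =>
    hν.bdd (a := T) (hνo.trans (card_mem_of_mem hal.isCard hT) hiν) (fun γ => V r γ)
      fun γ _ => hVν r γ
  obtain ⟨B, hB, hB2⟩ := hν.bdd hAν (fun r => lst fun β => ∀ γ ∈ T, V r γ ∈ β)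
    (fun r _ => by
      obtain ⟨β, hβ, h1⟩ := hB1 r
      obtain ⟨h3, -, -⟩ := lst_spec (P := fun β => ∀ γ ∈ T, V r γ ∈ β) (hνo.mem hβ) h1
      exact h3.mem_of_sub_of_mem hνo (lst_sub (hνo.mem hβ) h1) hβ)
  have hBo := hνo.mem hB
  have hVB : ∀ r ∈ A, ∀ γ ∈ T, V r γ ⊆ B := by
    intro r hr γ hγ
    obtain ⟨β, hβ, h1⟩ := hB1 r
    obtain ⟨h3, h4, -⟩ := lst_spec (P := fun β => ∀ γ ∈ T, V r γ ∈ β) (hνo.mem hβ) h1
    exact hBo.sub_of_mem (hBo.trans (h4 γ hγ) (hB2 r hr))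
  -- large values
  obtain ⟨q1, hq1, h1⟩ := pd1' (P := P) hi hc hq (fun u => ∃ γ ∈ T, ∃ v ∈ ν, B ∈ v ∧ W γ v u)
    (fun u u' ⟨γ, hγ, v, hv, h, h'⟩ hu => ⟨γ, hγ, v, hv, h, hWo h' hu⟩) (fun r hr hrb => by
      obtain ⟨γ, hγ, h2⟩ := hT2 r (hAm.2 ⟨hr, hrb⟩)
      obtain ⟨u, hu, v, hv, h3, h4⟩ := h2 B hB
      exact ⟨u, hu, γ, hγ, v, hv, h3, h4⟩)
  have hq1c := P.left hq1.1
  -- mixing
  obtain ⟨j, hj, hij, hqj, hq0j, hq1j⟩ : ∃ j, IsOrd j ∧ i ⊆ j ∧ q ∈ P.PP j ∧ q0 ∈ P.PP j ∧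
      q1 ∈ P.PP j := by
    obtain ⟨j1, hj1, h2⟩ := P.exists_level hq
    obtain ⟨j2, hj2, h3⟩ := P.exists_level hq0c
    obtain ⟨j3, hj3, h4⟩ := P.exists_level hq1c
    have hj := isOrd_union hi (isOrd_union hj1 (isOrd_union hj2 hj3))
    refine ⟨_, hj, sub_union_left, P.mono_PP hj1 hj ?_ _ h2, P.mono_PP hj2 hj ?_ _ h3,
      P.mono_PP hj3 hj ?_ _ h4⟩
    · exact Sub.trans sub_union_left sub_union_right
    · exact Sub.trans sub_union_left (Sub.trans sub_union_right sub_union_right)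
    · exact Sub.trans sub_union_right (Sub.trans sub_union_right sub_union_right)
  obtain ⟨q', hq'j, hq', h2, h3⟩ := mix2 hi hj hij hc hq1j hq0j hqj ha hq1 hq0
  have hq'c := P.left hq'.1
  refine ⟨q', hq', T, hT, B, hB, fun r hr hrq hra => ?_, fun r hr hrq hra γ hγ => ?_⟩
  · rw [hq'.2] at hrq
    obtain ⟨r', hr', h4, γ, hγ, v, hv, h5, h6⟩ := h1 r hr hrq
    have hr'b : P.le r' b := P.le_trans h4 hrq
    refine ⟨r', hr', h4, γ, hγ, v, hv, h5, hWo h6 ?_⟩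
    have hr1 : P.le r' (P.rs i q1) := by rw [hq1.2]; exact hr'b
    have hr2 : P.le r' (P.rs i q') := by rw [hq'.2]; exact hr'b
    exact P.le_gl hi hq1c hr' hr1 (P.gl_le_left hi hq'c hr' hr2)
      (h2 r' hr' (P.le_trans h4 hra) hr'b)
  · rw [hq'.2] at hrq
    obtain ⟨r', hr', h4, v, hv, h5⟩ := h0 γ hγ r hr hrq
    have hr'b : P.le r' b := P.le_trans h4 hrq
    have hr'A : r' ∈ A := hAm.2 ⟨hr', hr'b⟩
    have hv' := hV r' hr'A γ v hv h5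
    refine ⟨r', hr', h4, v, hv, hv' ▸ hVB r' hr'A γ hγ, hWo h5 ?_⟩
    have hr1 : P.le r' (P.rs i q0) := by rw [hq0.2]; exact hr'b
    have hr2 : P.le r' (P.rs i q') := by rw [hq'.2]; exact hr'b
    exact P.le_gl hi hq0c hr' hr1 (P.gl_le_left hi hq'c hr' hr2)
      (h3 r' hr' (fun ⟨s, h6, h7⟩ => hra ⟨s, P.le_trans h6 h4, h7⟩) hr'b)

/-- 5.1: coding the generic filter on `PP i` -/
theorem code [GCh M] {i p ν : M} (hi : IsOrd i) (hc : card (P.PP i) ∈ P.al i) (hp : P.Cd p)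
    (hν : IsReg ν) (hiν : P.al i ∈ ν)
    (W : M → M → M → Prop) [hW : Dfp fun γ : ((E0 M × M) × M) × M => W γ.1.1.2 γ.1.2 γ.2]
    (hWo : ∀ {γ v u u'}, W γ v u → P.le u' u → W γ v u')
    (hWf : ∀ {γ v v' u}, P.Cd u → W γ v u → W γ v' u → v = v')
    (hWd : ∀ γ ∈ P.al i, ∀ u, P.le u p → ∃ u', P.le u' u ∧ ∃ v ∈ ν, W γ v u')
    (hWu : ∀ β ∈ ν, ∀ u, P.le u p → ∃ u', P.le u' u ∧ ∃ γ ∈ P.al i, ∃ v ∈ ν, β ∈ v ∧ W γ v u') :
    ∃ q, P.Pe i q p ∧ ∃ t B, Maps t (P.PP i) (P.al i) ∧ Maps B (P.PP i) ν ∧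
      ∀ a ∈ P.PP i, P.Cod W i ν a (ap t a) (ap B a) q := by
  have hCd : ∀ {Θ : Type} [IsCtx Θ M] {f g h k l m : Θ → M} [Dff f] [Dff g] [Dff h] [Dff k]
      [Dff l] [Dff m], Dfp fun γ => P.Cod W (f γ) (g γ) (h γ) (k γ) (l γ) (m γ) :=
    fun {Θ} _ {f g h k l m} _ _ _ _ _ _ => dfp_Cod hW
  have hal := P.reg_al hi
  have hνo := hν.isOrd
  obtain ⟨g, hg⟩ := (eqn_card (P.PP i)).symm
  obtain ⟨q, hq, hR⟩ := fuse (P := P) hi hp (isOrd_card (P.PP i)) hc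
    (fun ξ q => ∃ t ∈ P.al i, ∃ B ∈ ν, P.Cod W i ν (ap g ξ) t B q)
    (fun ξ _ q q' ⟨t, ht, B, hB, h⟩ hq => ⟨t, ht, B, hB, Cod.mono (W := W) (fun {_ _ _ _} h h' => hWo h h') hi h hq⟩)
    (fun ξ hξ q hq => code_step hi hc (P.left hq.1) hν hiν W hWo hWf
      (fun γ hγ u hu => hWd γ hγ u (P.le_trans hu hq.1))
      (fun β hβ u hu => hWu β hβ u (P.le_trans hu hq.1)) (hg.1.ap_mem hξ))
  have hR' : ∀ a ∈ P.PP i, ∃ t ∈ P.al i, ∃ B ∈ ν, P.Cod W i ν a t B q := by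
    intro a ha
    obtain ⟨ξ, hξ, rfl⟩ := hg.surj ha
    exact hR ξ hξ
  refine ⟨q, hq, ?_⟩
  have h1 : ∀ a ∈ P.PP i, ∃ B ∈ ν, (lst fun t => t ∈ P.al i ∧ ∃ B ∈ ν, P.Cod W i ν a t B q) ∈
      P.al i ∧ P.Cod W i ν a (lst fun t => t ∈ P.al i ∧ ∃ B ∈ ν, P.Cod W i ν a t B q) B q := by
    intro a ha
    obtain ⟨t, ht, h⟩ := hR' a ha
    obtain ⟨-, ⟨h2, B, hB, h3⟩, -⟩ := lst_spec
      (P := fun t => t ∈ P.al i ∧ ∃ B ∈ ν, P.Cod W i ν a t B q) (hal.isOrd.mem ht) ⟨ht, h⟩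
    exact ⟨B, hB, h2, h3⟩
  set t := lam (P.PP i) (fun a => lst fun t => t ∈ P.al i ∧ ∃ B ∈ ν, P.Cod W i ν a t B q)
    with htdef
  have h2 : ∀ a ∈ P.PP i, ∃ B ∈ ν, ap t a ∈ P.al i ∧ P.Cod W i ν a (ap t a) B q := by
    intro a ha
    rw [htdef, ap_lam ha]
    exact h1 a ha
  have h3 : ∀ a ∈ P.PP i, (lst fun B => B ∈ ν ∧ P.Cod W i ν a (ap t a) B q) ∈ ν ∧
      P.Cod W i ν a (ap t a) (lst fun B => B ∈ ν ∧ P.Cod W i ν a (ap t a) B q) q := by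
    intro a ha
    obtain ⟨B, hB, -, h⟩ := h2 a ha
    exact (lst_spec (P := fun B => B ∈ ν ∧ P.Cod W i ν a (ap t a) B q) (hνo.mem hB)
      ⟨hB, h⟩).2.1
  refine ⟨t, lam (P.PP i) fun a => lst fun B => B ∈ ν ∧ P.Cod W i ν a (ap t a) B q, ?_, ?_, ?_⟩
  · exact maps_lam fun a ha => by
      obtain ⟨B, hB, h, -⟩ := h1 a ha
      exact h
  · exact maps_lam fun a ha => (h3 a ha).1
  · intro a ha
    have h4 := ap_lam (F := fun a => lst fun B => B ∈ ν ∧ P.Cod W i ν a (ap t a) B q) ha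
    rw [h4]
    exact (h3 a ha).2

end LPo

end Pool.Agent.IST
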