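import Pool.Agent.LP.Pure
import Pool.Agent.IST.Anti
import Pool.Agent.IST.CardMul

/-!
# Mixing over antichains and the coding lemma
-/

set_option synthInstance.maxSize 100000

namespace Pool.Agent.IST

open Pool.Agent.BVM

namespace LPo

variable {M : Type} [SetModel M] {P : LPo M}

theorem exists_common_level (P : LPo M) (A : M) (F : M → M) [DF1 F] (hF : ∀ a ∈ A, P.Cd (F a)) :
    ∃ j, IsOrd j ∧ ∀ a ∈ A, F a ∈ P.PP j := by
  obtain ⟨j, hj, h⟩ := exists_ord_bound A (fun a => lst fun j => F a ∈ P.PP j) (fun a ha => by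
    obtain ⟨j, hj, h⟩ := P.exists_level (hF a ha)
    have : Dfp fun γ : E0 M × M => F a ∈ P.PP γ.2 := inferInstance
    exact (lst_spec (P := fun j => F a ∈ P.PP j) hj h).1)
  refine ⟨j, hj, fun a ha => ?_⟩
  obtain ⟨k, hk, h'⟩ := P.exists_level (hF a ha)
  have h1 := lst_spec (P := fun j => F a ∈ P.PP j) hk h'
  exact P.mono_PP h1.1 hj (hj.sub_of_mem (h a ha)) _ h1.2.1

/-- mixing over an antichain of level `i` -/
theorem mixA {i p A : M} (F : M → M) [DF1 F] (hi : IsOrd i) (hp : P.Cd p)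
    (hA : card A ∈ P.al i) (hAP : A ⊆ P.PP i)
    (hanti : ∀ a ∈ A, ∀ b ∈ A, (∃ t, P.le t a ∧ P.le t b) → a = b)
    (hAp : ∀ a ∈ A, P.le a (P.rs i p)) (hF : ∀ a ∈ A, P.le (F a) p)
    (hF' : ∀ a ∈ A, P.rs i (F a) = a) :
    ∃ q, P.Pe i q p ∧ ∀ a ∈ A, P.le (P.gl i a q) (F a) := by
  classical
  obtain ⟨j₁, hj₁, h₁⟩ := P.exists_common_level A F fun a ha => P.left (hF a ha)
  obtain ⟨j₂, hj₂, h₂⟩ := P.exists_level hp
  have hj : IsOrd (j₁ ∪ j₂ ∪ i) := isOrd_union (isOrd_union hj₁ hj₂) hi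
  have hij : i ⊆ j₁ ∪ j₂ ∪ i := fun z hz => mem_union.2 (Or.inr hz)
  have hd : Dff fun γ : E0 M × M => if γ.2 = A then p else F γ.2 := inferInstance
  have hdA : ap (lam (sc A) fun k => if k = A then p else F k) A = p := by
    rw [ap_lam (self_mem_sc A), if_pos rfl]
  have hne : ∀ a ∈ A, a ≠ A := fun a ha e => mem_irrefl a (by rw [e] at ha; rw [e]; exact ha)
  have hda : ∀ a ∈ A, ap (lam (sc A) fun k => if k = A then p else F k) a = F a := fun a ha => by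
    rw [ap_lam (sub_sc A a ha), if_neg (hne a ha)]
  obtain ⟨q, hq, hqr, hqk⟩ := P.amal (i := i) (j := j₁ ∪ j₂ ∪ i) (K := sc A)
    (d := lam (sc A) fun k => if k = A then p else F k) (b := P.rs i p) hi hj hij isFun_lam
    (by rw [dom_lam]) (card_sc_mem (P.reg_al hi).infCard hA) (P.rs_mem hi hp)
    (fun k hk => by
      rcases mem_sc.1 hk with hk | rfl
      · rw [hda k hk]
        exact P.mono_PP hj₁ hj (fun z hz => mem_union.2 (Or.inl (mem_union.2 (Or.inl hz)))) _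
          (h₁ k hk)
      · rw [hdA]
        exact P.mono_PP hj₂ hj (fun z hz => mem_union.2 (Or.inl (mem_union.2 (Or.inr hz)))) _ h₂)
    (fun k hk k' hk' r hr hrb h h' => by
      rcases mem_sc.1 hk with hk1 | rfl
      · rw [hda k hk1] at h ⊢
        have hg := P.gl_le hi (P.left (hF k hk1)) hr h
        refine ⟨r, hr, P.le_refl (P.left h), k, hk, by rw [hda k hk1]; exact h, ?_, ?_⟩
        · rw [hda k hk1]
          exact hg
        · rw [hda k hk1]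
          rcases mem_sc.1 hk' with hk1' | rfl
          · rw [hda k' hk1', hF' k' hk1'] at h'
            rw [hF' k hk1] at h
            have := hanti k hk1 k' hk1' ⟨r, h, h'⟩
            subst this
            rw [hda k hk1]
            exact hg
          · rw [hdA]
            exact P.le_trans hg (hF k hk1)
      · rcases mem_sc.1 hk' with hk1' | rfl
        · rw [hda k' hk1'] at h' ⊢
          have hg := P.gl_le hi (P.left (hF k' hk1')) hr h'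
          refine ⟨r, hr, P.le_refl (P.left h), k', hk', by rw [hda k' hk1']; exact h', ?_, ?_⟩
          · rw [hda k' hk1', hdA]
            exact P.le_trans hg (hF k' hk1')
          · rw [hda k' hk1']
            exact hg
        · rw [hdA] at h ⊢
          have hg := P.gl_le hi hp hr h
          exact ⟨r, hr, P.le_refl (P.left h), k', hk', by rw [hdA]; exact h,
            by rw [hdA]; exact hg, by rw [hdA]; exact hg⟩)
  have hqc : P.Cd q := ((P.mem_PP hj).1 hq).1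
  have hqp : P.le q p := by
    have h1 := hqk A (self_mem_sc A) (P.rs i p) (P.rs_mem hi hp)
      (P.le_refl (((P.mem_PP hi).1 (P.rs_mem hi hp)).1)) (by
        rw [hdA]; exact P.le_refl (((P.mem_PP hi).1 (P.rs_mem hi hp)).1))
    rw [hdA, ← hqr] at h1
    exact P.le_trans (le_gl_rs hi hqc) h1
  refine ⟨q, ⟨hqp, hqr⟩, fun a ha => ?_⟩
  have h1 := hqk a (sub_sc A a ha) a (hAP a ha) (hAp a ha) (by
    rw [hda a ha, hF' a ha]; exact P.le_refl (P.left (hAp a ha)))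
  rwa [hda a ha] at h1

/-- compatibility -/
def Cmp (P : LPo M) (a b : M) : Prop := ∃ t, P.le t a ∧ P.le t b

instance dp2_Cmp : DP2 P.Cmp := ⟨by unfold Cmp; infer_instance⟩

instance dfp_Cmp {Γ : Type} [IsCtx Γ M] {f g : Γ → M} [Dff f] [Dff g] :
    Dfp fun γ => P.Cmp (f γ) (g γ) := by unfold Cmp; infer_instance

theorem Cmp.symm {a b : M} (h : P.Cmp a b) : P.Cmp b a := by
  obtain ⟨t, h1, h2⟩ := h
  exact ⟨t, h2, h1⟩

theorem Cmp.refl {a : M} (h : P.Cd a) : P.Cmp a a := ⟨a, P.le_refl h, P.le_refl h⟩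

theorem rs_eq {i r : M} (hi : IsOrd i) (hr : r ∈ P.PP i) : P.rs i r = r := ((P.mem_PP hi).1 hr).2

theorem cd_of_mem {i r : M} (hi : IsOrd i) (hr : r ∈ P.PP i) : P.Cd r := ((P.mem_PP hi).1 hr).1

/-- compatible elements of `PP i` have a common extension in `PP i` -/
theorem Cmp.level {i a b : M} (hi : IsOrd i) (h : P.Cmp a b) (ha : a ∈ P.PP i)
    (hb : b ∈ P.PP i) : ∃ t ∈ P.PP i, P.le t a ∧ P.le t b := by
  obtain ⟨t, h1, h2⟩ := h
  refine ⟨P.rs i t, P.rs_mem hi (P.left h1), ?_, ?_⟩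
  · have := P.rs_mono hi h1
    rwa [rs_eq hi ha] at this
  · have := P.rs_mono hi h2
    rwa [rs_eq hi hb] at this

/-- a condition is compatible with a condition of level `i` if its restriction is -/
theorem Cmp.of_rs {i a u : M} (hi : IsOrd i) (ha : a ∈ P.PP i) (hu : P.Cd u)
    (h : P.Cmp (P.rs i u) a) : P.Cmp u a := by
  obtain ⟨t, ht, h1, h2⟩ := h.level hi (P.rs_mem hi hu) ha
  exact ⟨P.gl i t u, P.gl_le hi hu ht h1, P.le_trans (P.gl_le_left hi hu ht h1) h2⟩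

/-- pure decision of one open class, which is dense below the conditions `gl i a p` -/
theorem pd1 [GCh M] {i p : M} (D : M → Prop) [DP1 D] (hi : IsOrd i)
    (hc : card (P.PP i) ∈ P.al i) (hp : P.Cd p) (ho : ∀ u u', D u → P.le u' u → D u')
    (hD : ∀ a ∈ P.PP i, P.le a (P.rs i p) → ∃ u, P.le u (P.gl i a p) ∧ D u) :
    ∃ q, P.Pe i q p ∧ ∀ r ∈ P.PP i, P.le r (P.rs i p) → ∃ r' ∈ P.PP i, P.le r' r ∧
      D (P.gl i r' q) := by
  have hS : ∀ s, s ∈ sep (P.PP i) (fun a => P.le a (P.rs i p) ∧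
      ∃ q, P.le q p ∧ P.rs i q = a ∧ D q) ↔ s ∈ P.PP i ∧ P.le s (P.rs i p) ∧
      ∃ q, P.le q p ∧ P.rs i q = s ∧ D q := fun s => mem_sep
  obtain ⟨A, hAS, hanti, hmax⟩ := exists_maxanti (sep (P.PP i) (fun a => P.le a (P.rs i p) ∧
      ∃ q, P.le q p ∧ P.rs i q = a ∧ D q)) P.Cmp (fun _ _ h => h.symm)
      (fun s hs => Cmp.refl (cd_of_mem hi ((hS s).1 hs).1))
  have hdf : DF1 fun a => pick fun q => P.le q p ∧ P.rs i q = a ∧ D q := ⟨inferInstance⟩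
  have hF : ∀ a ∈ A, P.le (pick fun q => P.le q p ∧ P.rs i q = a ∧ D q) p ∧
      P.rs i (pick fun q => P.le q p ∧ P.rs i q = a ∧ D q) = a ∧
      D (pick fun q => P.le q p ∧ P.rs i q = a ∧ D q) := fun a ha =>
    pick_spec ((hS a).1 (hAS a ha)).2.2
  obtain ⟨q, hq, hqA⟩ := mixA (P := P) (i := i) (p := p) (A := A)
    (fun a => pick fun q => P.le q p ∧ P.rs i q = a ∧ D q) hi hp
    ((isOrd_card A).mem_of_sub_of_mem (P.reg_al hi).isOrd
      (card_mono fun a ha => ((hS a).1 (hAS a ha)).1) hc)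
    (fun a ha => ((hS a).1 (hAS a ha)).1) hanti (fun a ha => ((hS a).1 (hAS a ha)).2.1)
    (fun a ha => (hF a ha).1) (fun a ha => (hF a ha).2.1)
  refine ⟨q, hq, fun r hr hrp => ?_⟩
  obtain ⟨u, hu, hDu⟩ := hD r hr hrp
  have hup : P.le u p := P.le_trans hu (P.gl_le hi hp hr hrp)
  have hur : P.le (P.rs i u) r := by
    have := P.rs_mono hi hu
    rwa [P.rs_gl hi hp hr hrp] at this
  have hui := P.rs_mem hi (P.left hu)
  obtain ⟨a, ha, hau⟩ := hmax (P.rs i u) ((hS _).2 ⟨hui, P.rs_mono hi hup, u, hup, rfl, hDu⟩)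
  have ha' := (hS a).1 (hAS a ha)
  obtain ⟨t, ht, h1, h2⟩ := hau.level hi hui ha'.1
  refine ⟨t, ht, P.le_trans h1 hur, ?_⟩
  have h3 : P.le t (P.rs i q) := by
    rw [hq.2]
    exact P.le_trans h2 ha'.2.1
  have h4 : P.le a (P.rs i q) := by
    rw [hq.2]
    exact ha'.2.1
  have hqc := P.left hq.1
  refine ho _ _ (hF a ha).2.2 (P.le_trans ?_ (hqA a ha))
  exact gl_mono hi h2 (P.le_refl hqc) ha'.1 ht h4 h3

/-- names of unbounded functions from `al i` to `ν`, below the condition `p`: `D γ v u` means that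
`u` decides that the value at `γ` is `v` -/
structure CofD (P : LPo M) (i p ν : M) (D : M → M → M → Prop) : Prop where
  mono : ∀ {γ v u u'}, D γ v u → P.le u' u → D γ v u'
  fn : ∀ {γ v v' u}, γ ∈ P.al i → P.le u p → D γ v u → D γ v' u → v = v'
  val : ∀ {γ v u}, γ ∈ P.al i → P.le u p → D γ v u → v ∈ ν
  tot : ∀ {γ u}, γ ∈ P.al i → P.le u p → ∃ u', P.le u' u ∧ ∃ v, D γ v u'
  unb : ∀ {β u}, β ∈ ν → P.le u p → ∃ u', P.le u' u ∧ ∃ γ ∈ P.al i, ∃ v, β ∈ v ∧ D γ v u'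

/-- `t` and `B` code the statement that `c` is in the generic filter -/
def Cdg (P : LPo M) (D : M → M → M → Prop) (t B c q : M) : Prop :=
  (∀ u, P.le u q → P.le u c → ∃ u', P.le u' u ∧ ∃ γ ∈ t, ∃ v, B ∈ v ∧ D γ v u') ∧
  ∀ u, P.le u q → ¬ P.Cmp u c → ∀ γ ∈ t, ∀ v, D γ v u → v ⊆ B

instance dfp_Cdg {Γ : Type} [IsCtx Γ M] {D : M → M → M → Prop} [DP3 D] {f g h k : Γ → M}
    [Dff f] [Dff g] [Dff h] [Dff k] : Dfp fun γ => P.Cdg D (f γ) (g γ) (h γ) (k γ) := by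
  unfold Cdg; infer_instance

theorem Cdg.mono {D : M → M → M → Prop} {t B c q q' : M} (h : P.Cdg D t B c q)
    (hq : P.le q' q) : P.Cdg D t B c q' :=
  ⟨fun u hu => h.1 u (P.le_trans hu hq), fun u hu => h.2 u (P.le_trans hu hq)⟩

theorem CofD.exists_unb {i p ν q a : M} {D : M → M → M → Prop} [DP3 D] (h : P.CofD i p ν D)
    (hi : IsOrd i) (hν : IsReg ν) (hνa : P.al i ∈ ν) (hq : P.le q p) (ha : a ∈ P.PP i)
    (haq : P.le a (P.rs i q)) :
    ∃ γ ∈ P.al i, ∀ β ∈ ν, ∃ v, β ∈ v ∧ ∃ r, P.le r (P.gl i a q) ∧ D γ v r := by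
  by_contra hc
  push Not at hc
  have hal := P.reg_al hi
  have hF : ∀ γ ∈ P.al i, (lst fun β => β ∈ ν ∧ ∀ v, β ∈ v → ∀ r, P.le r (P.gl i a q) →
      ¬ D γ v r) ∈ ν ∧ ∀ v, (lst fun β => β ∈ ν ∧ ∀ v, β ∈ v → ∀ r, P.le r (P.gl i a q) →
      ¬ D γ v r) ∈ v → ∀ r, P.le r (P.gl i a q) → ¬ D γ v r := by
    intro γ hγ
    obtain ⟨β, hβ, h1⟩ := hc γ hγ
    exact (lst_spec (P := fun β => β ∈ ν ∧ ∀ v, β ∈ v → ∀ r, P.le r (P.gl i a q) →
      ¬ D γ v r) (hν.isOrd.mem hβ) ⟨hβ, h1⟩).2.1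
  obtain ⟨β, hβ, h1⟩ := hν.bdd (a := P.al i) (by rwa [hal.isCard.card_eq])
    (fun γ => lst fun β => β ∈ ν ∧ ∀ v, β ∈ v → ∀ r, P.le r (P.gl i a q) → ¬ D γ v r)
    fun γ hγ => (hF γ hγ).1
  have hg := P.gl_le hi (P.left hq) ha haq
  obtain ⟨u, hu, γ, hγ, v, hv, hD⟩ := h.unb hβ (P.le_trans hg hq)
  have hv' := h.val hγ (P.le_trans hu (P.le_trans hg hq)) hD
  exact (hF γ hγ).2 v ((hν.isOrd.mem hv').trans (h1 γ hγ) hv) u hu hD

/-- one step of the coding -/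
theorem CofD.step [GCh M] {i p ν q c : M} {D : M → M → M → Prop} [DP3 D] (h : P.CofD i p ν D)
    (hi : IsOrd i) (hc : card (P.PP i) ∈ P.al i) (hν : IsReg ν) (hνa : P.al i ∈ ν)
    (hq : P.le q p) (hcP : c ∈ P.PP i) :
    ∃ q', P.Pe i q' q ∧ ∃ t ∈ P.al i, ∃ B ∈ ν, P.Cdg D t B c q' := by
  have hal := P.reg_al hi
  have hqc := P.left hq
  -- the ordinal `t`
  obtain ⟨t, ht, ht'⟩ : ∃ t ∈ P.al i, ∀ a ∈ P.PP i, P.le a (P.rs i q) → ∃ γ ∈ t,
      ∀ β ∈ ν, ∃ v, β ∈ v ∧ ∃ r, P.le r (P.gl i a q) ∧ D γ v r := by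
    have hF : ∀ a ∈ sep (P.PP i) (fun a => P.le a (P.rs i q)),
        (lst fun γ => γ ∈ P.al i ∧ ∀ β ∈ ν, ∃ v, β ∈ v ∧ ∃ r, P.le r (P.gl i a q) ∧ D γ v r) ∈
          P.al i ∧ ∀ β ∈ ν, ∃ v, β ∈ v ∧ ∃ r, P.le r (P.gl i a q) ∧ D (lst fun γ => γ ∈ P.al i ∧
          ∀ β ∈ ν, ∃ v, β ∈ v ∧ ∃ r, P.le r (P.gl i a q) ∧ D γ v r) v r := by
      intro a ha
      rw [mem_sep] at ha
      obtain ⟨γ, hγ, h1⟩ := h.exists_unb hi hν hνa hq ha.1 ha.2
      exact (lst_spec (P := fun γ => γ ∈ P.al i ∧ ∀ β ∈ ν, ∃ v, β ∈ v ∧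
        ∃ r, P.le r (P.gl i a q) ∧ D γ v r) (hal.isOrd.mem hγ) ⟨hγ, h1⟩).2.1
    obtain ⟨t, ht, h1⟩ := hal.bdd (a := sep (P.PP i) (fun a => P.le a (P.rs i q)))
      ((isOrd_card _).mem_of_sub_of_mem hal.isOrd (card_mono fun a ha => (mem_sep.1 ha).1) hc)
      (fun a => lst fun γ => γ ∈ P.al i ∧ ∀ β ∈ ν, ∃ v, β ∈ v ∧
        ∃ r, P.le r (P.gl i a q) ∧ D γ v r) fun a ha => (hF a ha).1
    exact ⟨t, ht, fun a ha haq => ⟨_, h1 a (mem_sep.2 ⟨ha, haq⟩), (hF a (mem_sep.2 ⟨ha, haq⟩)).2⟩⟩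
  have hta : ∀ γ ∈ t, γ ∈ P.al i := fun γ hγ => hal.isOrd.trans hγ ht
  have hct : card t ∈ P.al i := card_mem_of_mem hal.isCard ht
  -- decide the values below `t`
  obtain ⟨q0, hq0, hd0⟩ := pure_dec (P := P) (a := t) hi hc hqc hct (fun γ u => ∃ v, D γ v u)
    (fun γ _ u u' ⟨v, hv⟩ hu => ⟨v, h.mono hv hu⟩)
    (fun γ hγ u hu => h.tot (hta γ hγ) (P.le_trans hu hq))
  have hq0p : P.le q0 p := P.le_trans hq0.1 hq
  have hglp : ∀ r ∈ P.PP i, P.le r (P.rs i q) → P.le (P.gl i r q0) p := fun r hr hrq =>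
    P.le_trans (P.gl_le hi (P.left hq0.1) hr (by rw [hq0.2]; exact hrq)) hq0p
  obtain ⟨B, hB, hB'⟩ : ∃ B ∈ ν, ∀ γ ∈ t, ∀ r ∈ P.PP i, P.le r (P.rs i q) →
      ∀ v, D γ v (P.gl i r q0) → v ∈ B := by
    have hF : ∀ z ∈ sep (prod t (P.PP i)) (fun z => P.le (p2 z) (P.rs i q) ∧
        ∃ v, D (p1 z) v (P.gl i (p2 z) q0)), (the fun v => D (p1 z) v (P.gl i (p2 z) q0)) ∈ ν := by
      intro z hz
      obtain ⟨h1, h2, v, hv⟩ := mem_sep.1 hz
      obtain ⟨γ, hγ, r, hr, rfl⟩ := mem_prod.1 h1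
      rw [p2_op] at h2
      rw [p1_op, p2_op] at hv ⊢
      rw [the_eq (x := v) hv fun y hy => h.fn (hta γ hγ) (hglp r hr h2) hy hv]
      exact h.val (hta γ hγ) (hglp r hr h2) hv
    obtain ⟨B, hB, h1⟩ := hν.bdd (a := sep (prod t (P.PP i)) (fun z => P.le (p2 z) (P.rs i q) ∧
        ∃ v, D (p1 z) v (P.gl i (p2 z) q0)))
      (hν.isOrd.trans ((isOrd_card _).mem_of_sub_of_mem hal.isOrd
        (card_mono fun a ha => (mem_sep.1 ha).1) (card_prod_mem hal.infCard hct hc)) hνa)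
      (fun z => the fun v => D (p1 z) v (P.gl i (p2 z) q0)) hF
    refine ⟨B, hB, fun γ hγ r hr hrq v hv => ?_⟩
    have h2 := h1 (op γ r) (mem_sep.2 ⟨op_mem_prod.2 ⟨hγ, hr⟩, by rw [p2_op]; exact hrq,
      v, by rw [p1_op, p2_op]; exact hv⟩)
    rw [p1_op, p2_op] at h2
    rwa [the_eq (x := v) hv fun y hy => h.fn (hta γ hγ) (hglp r hr hrq) hy hv] at h2
  have hbd : ∀ u, P.le u q0 → ∀ γ ∈ t, ∀ v, D γ v u → v ∈ B := by
    intro u hu γ hγ v hv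
    have huc := P.left hu
    have hr := P.rs_mem hi huc
    have hrq : P.le (P.rs i u) (P.rs i q) := by
      rw [← hq0.2]
      exact P.rs_mono hi hu
    obtain ⟨r, hr1, hr2, v', hv'⟩ := hd0 γ hγ (P.rs i u) hr hrq
    have h1 : P.le (P.gl i r u) u := P.gl_le hi huc hr1 hr2
    have h2 : P.le (P.gl i r u) (P.gl i r q0) := gl_mono hi (P.le_refl (P.left hr2)) hu hr1 hr1
      (by rw [hq0.2]; exact P.le_trans hr2 hrq) hr2
    have h3 := h.fn (hta γ hγ) (P.le_trans h1 (P.le_trans hu hq0p)) (h.mono hv h1) (h.mono hv' h2)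
    rw [h3]
    exact hB' γ hγ r hr1 (P.le_trans hr2 hrq) v' hv'
  -- force a large value below `t`
  have hdp : DP1 fun u => ∃ γ ∈ t, ∃ v, B ∈ v ∧ D γ v u := ⟨inferInstance⟩
  obtain ⟨q1, hq1, hd1⟩ := pd1 (P := P) (fun u => ∃ γ ∈ t, ∃ v, B ∈ v ∧ D γ v u) hi hc hqc
    (fun u u' ⟨γ, hγ, v, h1, h2⟩ hu => ⟨γ, hγ, v, h1, h.mono h2 hu⟩)
    (fun a ha haq => by
      obtain ⟨γ, hγ, h1⟩ := ht' a ha haq
      obtain ⟨v, hv, r, hr, hD⟩ := h1 B hB
      exact ⟨r, hr, γ, hγ, v, hv, hD⟩)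
  -- mix
  obtain ⟨j₁, hj₁, hm₁⟩ := P.exists_level (P.left hq1.1)
  obtain ⟨j₀, hj₀, hm₀⟩ := P.exists_level (P.left hq0.1)
  obtain ⟨j₂, hj₂, hm₂⟩ := P.exists_level hqc
  have hj : IsOrd ((j₁ ∪ j₀) ∪ (j₂ ∪ i)) := isOrd_union (isOrd_union hj₁ hj₀) (isOrd_union hj₂ hi)
  obtain ⟨q2, -, hq2, ha2, hb2⟩ := mix2 (P := P) (i := i) (j := (j₁ ∪ j₀) ∪ (j₂ ∪ i)) (a := c)
    (u := q1) (w := q0) (p := q) hi hj
    (fun z hz => mem_union.2 (Or.inr (mem_union.2 (Or.inr hz)))) hc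
    (P.mono_PP hj₁ hj (fun z hz => mem_union.2 (Or.inl (mem_union.2 (Or.inl hz)))) _ hm₁)
    (P.mono_PP hj₀ hj (fun z hz => mem_union.2 (Or.inl (mem_union.2 (Or.inr hz)))) _ hm₀)
    (P.mono_PP hj₂ hj (fun z hz => mem_union.2 (Or.inr (mem_union.2 (Or.inl hz)))) _ hm₂)
    hcP hq1 hq0
  refine ⟨q2, hq2, t, ht, B, hB, fun u hu huc => ?_, fun u hu huc γ hγ v hv => ?_⟩
  · have hucd := P.left hu
    have hr := P.rs_mem hi hucd
    have hrq : P.le (P.rs i u) (P.rs i q) := by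
      rw [← hq2.2]
      exact P.rs_mono hi hu
    obtain ⟨r, hr1, hr2, γ, hγ, v, hv, hD⟩ := hd1 (P.rs i u) hr hrq
    have hrc : P.le r c := by
      have := P.rs_mono hi huc
      rw [rs_eq hi hcP] at this
      exact P.le_trans hr2 this
    have h1 := ha2 r hr1 hrc (P.le_trans hr2 hrq)
    have h2 : P.le (P.gl i r u) (P.gl i r q2) := gl_mono hi (P.le_refl (P.left hr2)) hu hr1 hr1
      (by rw [hq2.2]; exact P.le_trans hr2 hrq) hr2
    have h3 : P.le (P.gl i r u) (P.gl i r q1) := P.le_gl hi (P.left hq1.1) hr1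
      (by rw [hq1.2]; exact P.le_trans hr2 hrq) (P.gl_le_left hi hucd hr1 hr2)
      (P.le_trans h2 h1)
    exact ⟨P.gl i r u, P.gl_le hi hucd hr1 hr2, γ, hγ, v, hv, h.mono hD h3⟩
  · have hucd := P.left hu
    have hr := P.rs_mem hi hucd
    have hrq : P.le (P.rs i u) (P.rs i q) := by
      rw [← hq2.2]
      exact P.rs_mono hi hu
    have h1 := hb2 (P.rs i u) hr (fun h' => huc (Cmp.of_rs hi hcP hucd h')) hrq
    have h2 : P.le u (P.gl i (P.rs i u) q2) := P.le_gl hi (P.left hq2.1) hr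
      (by rw [hq2.2]; exact hrq) (P.le_rs hi hucd) hu
    exact (hν.isOrd.mem hB).sub_of_mem (hbd u (P.le_trans h2 h1) γ hγ v hv)

/-- the coding lemma -/
theorem CofD.code [GCh M] {i p ν : M} {D : M → M → M → Prop} [DP3 D] (h : P.CofD i p ν D)
    (hp : P.Cd p) (hi : IsOrd i) (hc : card (P.PP i) ∈ P.al i) (hν : IsReg ν)
    (hνa : P.al i ∈ ν) :
    ∃ q, P.Pe i q p ∧ ∀ c ∈ P.PP i, ∃ t ∈ P.al i, ∃ B ∈ ν, P.Cdg D t B c q := by
  obtain ⟨e, he⟩ := (eqn_card (P.PP i)).symm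
  obtain ⟨q, hq, h1⟩ := fuse (P := P) (i := i) (p := p) (lm := card (P.PP i)) hi hp
    (isOrd_card _) hc (fun x q => ∃ t ∈ P.al i, ∃ B ∈ ν, P.Cdg D t B (ap e x) q)
    (fun x _ q q' ⟨t, ht, B, hB, h1⟩ hq => ⟨t, ht, B, hB, h1.mono hq.1⟩)
    (fun x hx q hq => by
      obtain ⟨q', hq', t, ht, B, hB, h1⟩ := h.step hi hc hν hνa hq.1 (he.maps.ap_mem hx)
      exact ⟨q', hq', t, ht, B, hB, h1⟩)
  refine ⟨q, hq, fun c hc' => ?_⟩
  obtain ⟨x, hx, rfl⟩ := he.surj hc'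
  exact h1 x hx

end LPo

end Pool.Agent.IST
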