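import Pool.Agent.LP.VZ
import Pool.Agent.LP.CodeL

/-!
# Coding the generic filter on `PP i` by an unbounded function of the extension
-/

set_option synthInstance.maxSize 100000

namespace Pool.Agent.IST

open Pool.Agent.BVM

namespace Gen

variable {M : Type} [SetModel M] [GCh M] {Γ : Type} [IsCtx Γ M] {P : LPo M} (G : Gen P)

/-- a property which holds for all members of the filter is forced by one of them -/
theorem exists_forces (ψ : M → Prop) [DP1 ψ] (h : ∀ p, G.G p → ψ p) :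
    ∃ p, G.G p ∧ ∀ u, P.le u p → ψ u := by
  obtain ⟨p, hp, h1 | h1⟩ := G.meets (fun p => (∀ u, P.le u p → ψ u) ∨ ¬ ψ p)
    (by infer_instance) (fun r hr => by
      by_cases h2 : ∀ u, P.le u r → ψ u
      · exact ⟨r, P.le_refl hr, Or.inl h2⟩
      · push Not at h2
        obtain ⟨u, hu, h3⟩ := h2
        exact ⟨u, hu, Or.inr h3⟩)
  · exact ⟨p, hp, h1⟩
  · exact absurd (h p hp) h1

/-- a condition which is not in the filter is incompatible with a member of the filter -/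
theorem exists_inc {c q : M} (hq : G.G q) (h : ¬ G.G c) :
    ∃ u, G.G u ∧ P.le u q ∧ ¬ P.Cmp u c := by
  obtain ⟨u, hu, huq, h1 | h1⟩ := G.meets_below hq (fun u => P.le u c ∨ ¬ P.Cmp u c)
    (fun r hr => by
      by_cases h2 : P.Cmp r c
      · obtain ⟨t, h3, h4⟩ := h2
        exact ⟨t, h3, Or.inl h4⟩
      · exact ⟨r, P.le_refl (P.left hr), Or.inr h2⟩)
  · exact absurd (G.up hu h1) h
  · exact ⟨u, hu, huq, h1⟩

/-- `u` decides that the function with name `n` has the value `v` at `γ` -/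
def Dv (P : LPo M) (n γ v u : M) : Prop := P.Fm u (opN P (P.chk γ) (P.chk v)) n

instance dfp_Dv {n f g h : Γ → M} [Dff n] [Dff f] [Dff g] [Dff h] :
    Dfp fun γ => Dv P (n γ) (f γ) (g γ) (h γ) := by unfold Dv; infer_instance

instance dp3_Dv {n : M} : DP3 (Dv P n) := ⟨by unfold Dv; infer_instance⟩

theorem dv_iff {n γ v : M} : op (G.io γ) (G.io v) ∈ G.nm n ↔ ∃ u, G.G u ∧ Dv P n γ v u := by
  unfold io Dv
  rw [← G.nm_opN]
  exact G.mem_nm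

theorem Dv.mono {n γ v u u' : M} (h : Dv P n γ v u) (hu : P.le u' u) : Dv P n γ v u' :=
  LPo.Fm.mono h hu

theorem exists_cofD {i ν n : M} (hf : Maps (G.nm n) (G.io (P.al i)) (G.io ν))
    (hu : ∀ β ∈ ν, ∃ γ ∈ P.al i, G.io β ∈ ap (G.nm n) (G.io γ)) :
    ∃ p, G.G p ∧ P.CofD i p ν (Dv P n) := by
  have hval : ∀ {p γ v}, G.G p → Dv P n γ v p → ap (G.nm n) (G.io γ) = G.io v :=
    fun {p γ v} hp h => hf.isFun.ap_eq (G.dv_iff.2 ⟨p, hp, h⟩)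
  have hex : ∀ γ ∈ P.al i, ∃ v ∈ ν, ap (G.nm n) (G.io γ) = G.io v ∧
      ∃ r, G.G r ∧ Dv P n γ v r := by
    intro γ hγ
    have h1 : G.io γ ∈ G.io (P.al i) := G.temb.mem.2 hγ
    obtain ⟨v, hv, e⟩ := G.temb.tr (hf.ap_mem h1)
    refine ⟨v, hv, e, G.dv_iff.1 ?_⟩
    rw [← e]
    exact hf.isFun.op_ap_mem (by rw [hf.dom_eq]; exact h1)
  have hd : DP1 fun p => (∀ γ ∈ P.al i, ∀ v v', Dv P n γ v p → Dv P n γ v' p → v = v') ∧
      (∀ γ ∈ P.al i, ∀ v, Dv P n γ v p → v ∈ ν) ∧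
      (∀ γ ∈ P.al i, ∃ u', P.le u' p ∧ ∃ v, Dv P n γ v u') ∧
      ∀ β ∈ ν, ∃ u', P.le u' p ∧ ∃ γ ∈ P.al i, ∃ v, β ∈ v ∧ Dv P n γ v u' := ⟨inferInstance⟩
  obtain ⟨p, hp, h⟩ := G.exists_forces (fun p =>
      (∀ γ ∈ P.al i, ∀ v v', Dv P n γ v p → Dv P n γ v' p → v = v') ∧
      (∀ γ ∈ P.al i, ∀ v, Dv P n γ v p → v ∈ ν) ∧
      (∀ γ ∈ P.al i, ∃ u', P.le u' p ∧ ∃ v, Dv P n γ v u') ∧
      ∀ β ∈ ν, ∃ u', P.le u' p ∧ ∃ γ ∈ P.al i, ∃ v, β ∈ v ∧ Dv P n γ v u') (fun p hp => by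
    refine ⟨fun γ _ v v' h h' => ?_, fun γ hγ v h => ?_, fun γ hγ => ?_, fun β hβ => ?_⟩
    · exact G.temb.inj ((hval hp h).symm.trans (hval hp h'))
    · have h1 := hf.ap_mem (G.temb.mem.2 hγ)
      rwa [hval hp h, G.temb.mem] at h1
    · obtain ⟨v, hv, -, r, hr, h1⟩ := hex γ hγ
      obtain ⟨s, hs, h2, h3⟩ := G.dir hp hr
      exact ⟨s, h2, v, h1.mono h3⟩
    · obtain ⟨γ, hγ, h0⟩ := hu β hβ
      obtain ⟨v, hv, e, r, hr, h1⟩ := hex γ hγ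
      obtain ⟨s, hs, h2, h3⟩ := G.dir hp hr
      rw [e, G.temb.mem] at h0
      exact ⟨s, h2, γ, hγ, v, h0, h1.mono h3⟩)
  exact ⟨p, hp, fun h hu => h.mono hu, fun {γ v v' u} hγ hu => (h u hu).1 γ hγ v v',
    fun {γ v u} hγ hu => (h u hu).2.1 γ hγ v, fun {γ u} hγ hu => (h u hu).2.2.1 γ hγ,
    fun {β u} hβ hu => (h u hu).2.2.2 β hβ⟩

/-- the generic filter on `PP i` is coded by an unbounded function of the extension and two
functions of the ground model -/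
theorem exists_code {i ν : M} (hi : IsOrd i) (hc : card (P.PP i) ∈ P.al i) (hν : IsReg ν)
    (hνa : P.al i ∈ ν) {f : G.Ext} (hf : Maps f (G.io (P.al i)) (G.io ν))
    (hu : ∀ β ∈ ν, ∃ γ ∈ P.al i, G.io β ∈ ap f (G.io γ)) :
    ∃ t B : M, Maps t (P.PP i) (P.al i) ∧ Maps B (P.PP i) ν ∧
      ∀ c ∈ P.PP i, (G.G c ↔ ∃ γ ∈ ap t c, G.io (ap B c) ∈ ap f (G.io γ)) := by
  obtain ⟨n, rfl⟩ := G.exists_nm f
  obtain ⟨p, hp, hD⟩ := G.exists_cofD hf hu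
  obtain ⟨q, hq, hqp, h⟩ := G.meets_below hp
    (fun q => ∀ c ∈ P.PP i, ∃ t ∈ P.al i, ∃ B ∈ ν, P.Cdg (Dv P n) t B c q) (fun r hr => by
      have hD' : P.CofD i r ν (Dv P n) :=
        ⟨fun h hu => h.mono hu, fun hγ hu => hD.fn hγ (P.le_trans hu hr),
          fun hγ hu => hD.val hγ (P.le_trans hu hr), fun hγ hu => hD.tot hγ (P.le_trans hu hr),
          fun hβ hu => hD.unb hβ (P.le_trans hu hr)⟩
      obtain ⟨q, hq, h⟩ := hD'.code (P.left hr) hi hc hν hνa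
      exact ⟨q, hq.1, h⟩)
  have hal := P.reg_al hi
  have ht : ∀ c ∈ P.PP i, (lst fun t => t ∈ P.al i ∧ ∃ B ∈ ν, P.Cdg (Dv P n) t B c q) ∈ P.al i ∧
      ∃ B ∈ ν, P.Cdg (Dv P n) (lst fun t => t ∈ P.al i ∧ ∃ B ∈ ν, P.Cdg (Dv P n) t B c q)
        B c q := by
    intro c hc
    obtain ⟨t, ht, h1⟩ := h c hc
    exact (lst_spec (P := fun t => t ∈ P.al i ∧ ∃ B ∈ ν, P.Cdg (Dv P n) t B c q)
      (hal.isOrd.mem ht) ⟨ht, h1⟩).2.1
  obtain ⟨T, hT⟩ : ∃ T : M, T = lam (P.PP i) fun c => lst fun t => t ∈ P.al i ∧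
    ∃ B ∈ ν, P.Cdg (Dv P n) t B c q := ⟨_, rfl⟩
  have hTm : Maps T (P.PP i) (P.al i) := by
    rw [hT]
    exact maps_lam fun c hc => (ht c hc).1
  have hTB : ∀ c ∈ P.PP i, ∃ B ∈ ν, P.Cdg (Dv P n) (ap T c) B c q := by
    intro c hc
    rw [hT, ap_lam hc]
    exact (ht c hc).2
  have hB : ∀ c ∈ P.PP i, (lst fun B => B ∈ ν ∧ P.Cdg (Dv P n) (ap T c) B c q) ∈ ν ∧
      P.Cdg (Dv P n) (ap T c) (lst fun B => B ∈ ν ∧ P.Cdg (Dv P n) (ap T c) B c q) c q := by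
    intro c hc
    obtain ⟨B, hB, h1⟩ := hTB c hc
    exact (lst_spec (P := fun B => B ∈ ν ∧ P.Cdg (Dv P n) (ap T c) B c q)
      (hν.isOrd.mem hB) ⟨hB, h1⟩).2.1
  refine ⟨T, lam (P.PP i) fun c => lst fun B => B ∈ ν ∧ P.Cdg (Dv P n) (ap T c) B c q, hTm,
    maps_lam fun c hc => (hB c hc).1, fun c hc => ?_⟩
  rw [ap_lam hc]
  obtain ⟨hB1, hB2⟩ := hB c hc
  generalize (lst fun B => B ∈ ν ∧ P.Cdg (Dv P n) (ap T c) B c q) = B at hB1 hB2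
  constructor
  · intro hGc
    obtain ⟨w, hw, h1, h2⟩ := G.dir hq hGc
    obtain ⟨u, hu, huw, γ, hγ, v, hv, hDu⟩ := G.meets_below hw
      (fun u => ∃ γ ∈ ap T c, ∃ v, B ∈ v ∧ Dv P n γ v u) fun r hr =>
        hB2.1 r (P.le_trans hr h1) (P.le_trans hr h2)
    refine ⟨γ, hγ, ?_⟩
    rw [hf.isFun.ap_eq (G.dv_iff.2 ⟨u, hu, hDu⟩)]
    exact G.temb.mem.2 hv
  · rintro ⟨γ, hγ, h1⟩
    by_contra hGc
    obtain ⟨u, hu, huq, hinc⟩ := G.exists_inc hq hGc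
    have hγa : γ ∈ P.al i := hal.isOrd.trans hγ (hTm.ap_mem hc)
    have h2 : G.io γ ∈ G.io (P.al i) := G.temb.mem.2 hγa
    obtain ⟨v, hv, e⟩ := G.temb.tr (hf.ap_mem h2)
    have h3 : op (G.io γ) (G.io v) ∈ G.nm n := by
      rw [← e]
      exact hf.isFun.op_ap_mem (by rw [hf.dom_eq]; exact h2)
    obtain ⟨r, hr, hDr⟩ := G.dv_iff.1 h3
    obtain ⟨w, hw, hw1, hw2⟩ := G.dir hu hr
    rw [e, G.temb.mem] at h1
    have h4 := hB2.2 w (P.le_trans hw1 huq) (fun ⟨t, ht1, ht2⟩ =>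
      hinc ⟨t, P.le_trans ht1 hw1, ht2⟩) γ hγ v (hDr.mono hw2)
    exact mem_irrefl _ (h4 B h1)

end Gen

end Pool.Agent.IST
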