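import Pool.Agent.IST.CardDef

/-!
# Transitive embeddings between models of set theory

`TEmb f`: `f : M → N` is an isomorphism with a transitive class which contains all ordinals of `N`.
Both the embedding of the ground model into the generic extension and the inclusion of an inner
model are of this form.
-/

set_option synthInstance.maxSize 100000

namespace Pool.Agent.IST

open Pool.Agent.BVM

/-- transitive embeddings with the same ordinals -/
structure TEmb {M N : Type} [SetModel M] [SetModel N] (f : M → N) : Prop where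
  inj : ∀ {x y}, f x = f y → x = y
  mem : ∀ {x y}, f x ∈ f y ↔ x ∈ y
  tr : ∀ {x} {b : N}, b ∈ f x → ∃ a, a ∈ x ∧ b = f a
  ord : ∀ {b : N}, IsOrd b → ∃ a : M, b = f a

namespace TEmb

variable {M N : Type} [SetModel M] [SetModel N] {f : M → N} (h : TEmb f)

include h

/-! ### tools -/

theorem eq_iff {x y : M} : f x = f y ↔ x = y := ⟨h.inj, fun e => e ▸ rfl⟩

/-- computing values -/
theorem eq_of {x : M} {c : N} (h1 : ∀ z, z ∈ x ↔ f z ∈ c) (h2 : ∀ b ∈ c, ∃ a, b = f a) :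
    f x = c := by
  apply ext
  intro b
  constructor
  · intro hb
    obtain ⟨a, ha, rfl⟩ := h.tr hb
    exact (h1 a).1 ha
  · intro hb
    obtain ⟨a, rfl⟩ := h2 b hb
    exact h.mem.2 ((h1 a).2 hb)

/-- bounded existential quantifiers -/
theorem exB {x : M} {P : N → Prop} : (∃ b ∈ f x, P b) ↔ ∃ a ∈ x, P (f a) := by
  constructor
  · rintro ⟨b, hb, hP⟩
    obtain ⟨a, ha, rfl⟩ := h.tr hb
    exact ⟨a, ha, hP⟩
  · rintro ⟨a, ha, hP⟩
    exact ⟨f a, h.mem.2 ha, hP⟩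

/-- bounded universal quantifiers -/
theorem allB {x : M} {P : N → Prop} : (∀ b ∈ f x, P b) ↔ ∀ a ∈ x, P (f a) := by
  constructor
  · intro k a ha
    exact k _ (h.mem.2 ha)
  · intro k b hb
    obtain ⟨a, ha, rfl⟩ := h.tr hb
    exact k a ha

theorem sub {x y : M} : f x ⊆ f y ↔ x ⊆ y := by
  rw [sub_iff, sub_iff, h.allB (P := fun b => b ∈ f y)]
  simp only [h.mem]

theorem empty : f ∅ = ∅ := by
  refine h.eq_of (fun z => ?_) fun b hb => absurd hb (notMem_empty b)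
  exact ⟨fun hz => absurd hz (notMem_empty _), fun hz => absurd hz (notMem_empty _)⟩

theorem upair {x y : M} : f (upair x y) = IST.upair (f x) (f y) := by
  refine h.eq_of (fun z => ?_) fun b hb => ?_
  · rw [mem_upair, mem_upair, h.eq_iff, h.eq_iff]
  · rcases mem_upair.1 hb with rfl | rfl
    · exact ⟨x, rfl⟩
    · exact ⟨y, rfl⟩

theorem sing {x : M} : f (sing x) = IST.sing (f x) := h.upair

theorem op {x y : M} : f (op x y) = IST.op (f x) (f y) := by
  unfold IST.op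
  rw [h.upair, h.sing, h.upair]

theorem bigU {x : M} : f (bigU x) = IST.bigU (f x) := by
  refine h.eq_of (fun z => ?_) fun b hb => ?_
  · rw [mem_bigU, mem_bigU, h.exB]
    simp only [h.mem]
  · obtain ⟨c, hc, hb⟩ := mem_bigU.1 hb
    obtain ⟨y, hy, rfl⟩ := h.tr hc
    obtain ⟨a, ha, rfl⟩ := h.tr hb
    exact ⟨a, rfl⟩

theorem union {x y : M} : f (x ∪ y) = f x ∪ f y := by
  change f (IST.bigU (IST.upair x y)) = IST.bigU (IST.upair (f x) (f y))
  rw [h.bigU, h.upair]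

theorem inter {x y : M} : f (x ∩ y) = f x ∩ f y := by
  refine h.eq_of (fun z => ?_) fun b hb => ?_
  · rw [mem_inter, mem_inter, h.mem, h.mem]
  · obtain ⟨a, ha, rfl⟩ := h.tr (mem_inter.1 hb).1
    exact ⟨a, rfl⟩

theorem diff {x y : M} : f (x \ y) = f x \ f y := by
  refine h.eq_of (fun z => ?_) fun b hb => ?_
  · rw [mem_diff, mem_diff, h.mem, h.mem]
  · obtain ⟨a, ha, rfl⟩ := h.tr (mem_diff.1 hb).1
    exact ⟨a, rfl⟩

theorem prod {x y : M} : f (prod x y) = IST.prod (f x) (f y) := by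
  refine h.eq_of (fun z => ?_) fun b hb => ?_
  · rw [mem_prod, mem_prod, h.exB]
    simp only [h.exB, ← h.op, h.eq_iff]
  · obtain ⟨u, hu, v, hv, rfl⟩ := mem_prod.1 hb
    obtain ⟨a, ha, rfl⟩ := h.tr hu
    obtain ⟨b, hb, rfl⟩ := h.tr hv
    exact ⟨IST.op a b, h.op.symm⟩

theorem sc {x : M} : f (sc x) = IST.sc (f x) := by
  unfold IST.sc
  rw [h.union, h.sing]

theorem eq_empty_iff {x : M} : f x = ∅ ↔ x = ∅ := by
  rw [← h.empty, h.eq_iff]

/-! ### ordinals -/

theorem isTrans {x : M} : IsTrans (f x) ↔ IsTrans x := by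
  unfold IsTrans
  rw [h.allB]
  refine forall_congr' fun y => imp_congr_right fun _ => ?_
  rw [h.allB]
  simp only [h.mem]

theorem isOrd {x : M} : IsOrd (f x) ↔ IsOrd x := by
  unfold IsOrd
  rw [h.allB, h.isTrans]
  simp only [h.isTrans]

theorem isLim {x : M} : IsLim (f x) ↔ IsLim x := by
  unfold IsLim
  rw [h.allB, h.isOrd]
  simp only [← h.sc, h.mem, Ne, h.eq_empty_iff]

/-- ordinals of the larger model -/
theorem exists_of_ord {b : N} (hb : IsOrd b) : ∃ a : M, IsOrd a ∧ b = f a := by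
  obtain ⟨a, rfl⟩ := h.ord hb
  exact ⟨a, h.isOrd.1 hb, rfl⟩

theorem om : f om = IST.om := by
  apply Sub.antisymm
  · obtain ⟨a, ha, e⟩ := h.exists_of_ord (isOrd_om (M := N))
    rw [e, h.sub]
    apply om_sub_of_isLim
    rw [← h.isLim, ← e]
    exact isLim_om
  · apply om_sub_of_isLim
    rw [h.isLim]
    exact isLim_om

theorem isNat {x : M} : IsNat (f x) ↔ IsNat x := by
  rw [← mem_om, ← mem_om, ← h.om, h.mem]

/-! ### ordered pairs and functions -/

/-- ordered pairs in the range -/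
theorem op_split {u v : N} {a : M} (e : f a = IST.op u v) :
    ∃ x y, u = f x ∧ v = f y ∧ a = IST.op x y := by
  have h1 : IST.sing u ∈ f a := e ▸ mem_op.2 (Or.inl rfl)
  have h2 : IST.upair u v ∈ f a := e ▸ mem_op.2 (Or.inr rfl)
  obtain ⟨s, -, hs⟩ := h.tr h1
  obtain ⟨t, -, ht⟩ := h.tr h2
  obtain ⟨x, -, rfl⟩ := h.tr (x := s) (b := u) (hs ▸ mem_sing.2 rfl)
  obtain ⟨y, -, rfl⟩ := h.tr (x := t) (b := v) (ht ▸ mem_upair.2 (Or.inr rfl))
  refine ⟨x, y, rfl, rfl, h.inj ?_⟩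
  rw [e, h.op]

theorem exists_op {a : M} : (∃ u v, f a = IST.op u v) ↔ ∃ x y, a = IST.op x y := by
  constructor
  · rintro ⟨u, v, e⟩
    obtain ⟨x, y, -, -, e⟩ := h.op_split e
    exact ⟨x, y, e⟩
  · rintro ⟨x, y, rfl⟩
    exact ⟨f x, f y, h.op⟩

theorem op_mem {g x y : M} : IST.op (f x) (f y) ∈ f g ↔ IST.op x y ∈ g := by
  rw [← h.op, h.mem]

theorem op_mem_split {g : M} {u v : N} (e : IST.op u v ∈ f g) :
    ∃ x y, u = f x ∧ v = f y ∧ IST.op x y ∈ g := by
  obtain ⟨a, ha, e'⟩ := h.tr e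
  obtain ⟨x, y, rfl, rfl, rfl⟩ := h.op_split e'.symm
  exact ⟨x, y, rfl, rfl, ha⟩

theorem isRel {x : M} : IsRel (f x) ↔ IsRel x := by
  unfold IsRel
  rw [h.allB]
  simp only [h.exists_op]

theorem isFun {x : M} : IsFun (f x) ↔ IsFun x := by
  unfold IsFun
  rw [h.isRel]
  refine and_congr_right fun _ => ?_
  constructor
  · intro k u v w h1 h2
    exact h.inj (k _ _ _ (h.op_mem.2 h1) (h.op_mem.2 h2))
  · intro k u v w h1 h2
    obtain ⟨a, b, rfl, rfl, h3⟩ := h.op_mem_split h1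
    obtain ⟨a', c, e, rfl, h4⟩ := h.op_mem_split h2
    obtain rfl := h.inj e
    rw [k _ _ _ h3 h4]

theorem dom {x : M} : f (dom x) = IST.dom (f x) := by
  refine h.eq_of (fun z => ?_) fun b hb => ?_
  · rw [mem_dom, mem_dom]
    constructor
    · rintro ⟨y, hy⟩
      exact ⟨f y, h.op_mem.2 hy⟩
    · rintro ⟨v, hv⟩
      obtain ⟨a, b, e, rfl, h2⟩ := h.op_mem_split hv
      obtain rfl := h.inj e
      exact ⟨b, h2⟩
  · obtain ⟨v, hv⟩ := mem_dom.1 hb
    obtain ⟨a, b, rfl, rfl, h2⟩ := h.op_mem_split hv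
    exact ⟨a, rfl⟩

theorem ran {x : M} : f (ran x) = IST.ran (f x) := by
  refine h.eq_of (fun z => ?_) fun b hb => ?_
  · rw [mem_ran, mem_ran]
    constructor
    · rintro ⟨y, hy⟩
      exact ⟨f y, h.op_mem.2 hy⟩
    · rintro ⟨v, hv⟩
      obtain ⟨a, b, rfl, e, h2⟩ := h.op_mem_split hv
      obtain rfl := h.inj e
      exact ⟨a, h2⟩
  · obtain ⟨v, hv⟩ := mem_ran.1 hb
    obtain ⟨a, b, rfl, rfl, h2⟩ := h.op_mem_split hv
    exact ⟨b, rfl⟩

/-- values, without any hypothesis -/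
theorem ap' {g x : M} : f (ap g x) = IST.ap (f g) (f x) := by
  by_cases hu : ∃! y, IST.op x y ∈ g
  · obtain ⟨y, hy, hy'⟩ := hu
    have h1 : IST.ap g x = y := the_eq hy hy'
    rw [h1]
    refine Eq.symm (the_eq (P := fun v => IST.op (f x) v ∈ f g) (h.op_mem.2 hy) fun v hv => ?_)
    obtain ⟨a, b, e, rfl, h2⟩ := h.op_mem_split hv
    obtain rfl := h.inj e
    rw [hy' b h2]
  · have hu' : ¬ ∃! v, IST.op (f x) v ∈ f g := by
      rintro ⟨v, hv, hv'⟩
      refine hu ?_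
      obtain ⟨a, b, e, rfl, h2⟩ := h.op_mem_split hv
      obtain rfl := h.inj e
      exact ⟨b, h2, fun c hc => h.inj (hv' _ (h.op_mem.2 hc))⟩
    unfold IST.ap IST.the
    rw [dif_neg hu, dif_neg hu', h.empty]

theorem ap {g x : M} (_hg : IsFun g) (_hx : x ∈ IST.dom g) : f (ap g x) = IST.ap (f g) (f x) :=
  h.ap'

theorem res {g a : M} : f (res g a) = IST.res (f g) (f a) := by
  unfold IST.res
  refine h.eq_of (fun z => ?_) fun b hb => ?_
  · rw [mem_sep, mem_sep, h.mem, h.exB]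
    refine and_congr_right fun _ => exists_congr fun _ => and_congr_right fun _ => ?_
    constructor
    · rintro ⟨y, rfl⟩
      exact ⟨f y, h.op⟩
    · rintro ⟨v, e⟩
      obtain ⟨x', y, e1, rfl, e2⟩ := h.op_split e
      obtain rfl := h.inj e1
      exact ⟨y, e2⟩
  · obtain ⟨a, ha, rfl⟩ := h.tr (mem_sep.1 hb).1
    exact ⟨a, rfl⟩

theorem im {g a : M} : f (im g a) = IST.im (f g) (f a) := by
  unfold IST.im
  rw [h.ran, h.res]

theorem inv {g : M} : f (inv g) = IST.inv (f g) := by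
  refine h.eq_of (fun z => ?_) fun b hb => ?_
  · constructor
    · intro hz
      obtain ⟨x, y, rfl⟩ := isRel_inv z hz
      rw [h.op, op_mem_inv, h.op_mem]
      exact op_mem_inv.1 hz
    · intro hz
      obtain ⟨u, v, e⟩ := isRel_inv (f z) hz
      obtain ⟨x, y, rfl, rfl, rfl⟩ := h.op_split e
      rw [h.op, op_mem_inv, h.op_mem] at hz
      exact op_mem_inv.2 hz
  · obtain ⟨u, v, rfl⟩ := isRel_inv b hb
    obtain ⟨x, y, rfl, rfl, -⟩ := h.op_mem_split (op_mem_inv.1 hb)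
    exact ⟨IST.op y x, h.op.symm⟩

theorem maps {g a b : M} : Maps (f g) (f a) (f b) ↔ Maps g a b := by
  unfold Maps
  rw [h.isFun, h.allB, ← h.dom, h.eq_iff]
  simp only [← h.ap', h.mem]

theorem isInj' {g : M} : Inj (f g) ↔ Inj g := by
  unfold Inj
  rw [← h.dom, h.allB]
  refine forall_congr' fun y => imp_congr_right fun _ => ?_
  rw [h.allB]
  simp only [← h.ap', h.eq_iff]

theorem isInj {g : M} (_hg : IsFun g) : Inj (f g) ↔ Inj g := h.isInj'

theorem bij {g a b : M} : Bij (f g) (f a) (f b) ↔ Bij g a b := by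
  unfold Bij
  rw [h.maps, h.isInj', ← h.ran, h.eq_iff]

theorem eqn {a b : M} (hab : Eqn a b) : Eqn (f a) (f b) := by
  obtain ⟨g, hg⟩ := hab
  exact ⟨f g, h.bij.2 hg⟩

theorem leq {a b : M} (hab : Leq a b) : Leq (f a) (f b) := by
  obtain ⟨g, hg, hi⟩ := hab
  exact ⟨f g, h.maps.2 hg, h.isInj'.2 hi⟩

/-- a cardinal of the larger model is a cardinal of the smaller model -/
theorem isCard_of {a : M} (ha : IsCard (f a)) : IsCard a :=
  ⟨h.isOrd.1 ha.1, fun x hx e => ha.2 _ (h.mem.2 hx) (h.eqn e)⟩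

/-! ### further operations -/

theorem cmp' {g k : M} : f (cmp g k) = IST.cmp (f g) (f k) := by
  refine h.eq_of (fun z => ?_) fun b hb => ?_
  · constructor
    · intro hz
      obtain ⟨x, hx, rfl⟩ := mem_lam.1 hz
      rw [h.op, h.ap', h.ap']
      exact mem_lam.2 ⟨f x, h.dom ▸ h.mem.2 hx, rfl⟩
    · intro hz
      obtain ⟨u, hu, e⟩ := mem_lam.1 hz
      rw [← h.dom] at hu
      obtain ⟨x, hx, rfl⟩ := h.tr hu
      rw [← h.ap', ← h.ap', ← h.op] at e
      exact mem_lam.2 ⟨x, hx, h.inj e⟩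
  · obtain ⟨u, hu, rfl⟩ := mem_lam.1 hb
    rw [← h.dom] at hu
    obtain ⟨x, -, rfl⟩ := h.tr hu
    exact ⟨IST.op x (IST.ap g (IST.ap k x)), by rw [h.op, h.ap', h.ap']⟩

theorem idf' {a : M} : f (idf a) = IST.idf (f a) := by
  refine h.eq_of (fun z => ?_) fun b hb => ?_
  · constructor
    · intro hz
      obtain ⟨x, hx, rfl⟩ := mem_lam.1 hz
      rw [h.op]
      exact mem_lam.2 ⟨f x, h.mem.2 hx, rfl⟩
    · intro hz
      obtain ⟨u, hu, e⟩ := mem_lam.1 hz
      obtain ⟨x, hx, rfl⟩ := h.tr hu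
      rw [← h.op] at e
      exact mem_lam.2 ⟨x, hx, h.inj e⟩
  · obtain ⟨u, hu, rfl⟩ := mem_lam.1 hb
    obtain ⟨x, -, rfl⟩ := h.tr hu
    exact ⟨IST.op x x, h.op.symm⟩

theorem pw_sub {a : M} : f (pw a) ⊆ IST.pw (f a) := by
  intro b hb
  obtain ⟨s, hs, rfl⟩ := h.tr hb
  exact mem_pw.2 (h.sub.2 (mem_pw.1 hs))

end TEmb

theorem TEmb.id {M : Type} [SetModel M] : TEmb (fun x : M => x) where
  inj e := e
  mem := Iff.rfl
  tr hb := ⟨_, hb, rfl⟩
  ord _ := ⟨_, rfl⟩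

theorem TEmb.comp {M N K : Type} [SetModel M] [SetModel N] [SetModel K] {f : M → N} {g : N → K}
    (hg : TEmb g) (hf : TEmb f) : TEmb fun x => g (f x) where
  inj e := hf.inj (hg.inj e)
  mem := hg.mem.trans hf.mem
  tr hb := by
    obtain ⟨y, hy, rfl⟩ := hg.tr hb
    obtain ⟨x, hx, rfl⟩ := hf.tr hy
    exact ⟨x, hx, rfl⟩
  ord hb := by
    obtain ⟨y, hy, rfl⟩ := hg.exists_of_ord hb
    obtain ⟨x, rfl⟩ := hf.ord hy
    exact ⟨x, rfl⟩

end Pool.Agent.IST
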