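import Pool.Agent.LP.EmbR

/-!
# Transitive embeddings: reading a set of ordinals from a class
-/

set_option synthInstance.maxSize 100000

namespace Pool.Agent.IST

open Pool.Agent.BVM

/-! ### enumerations -/

section

variable {M : Type} [SetModel M]

theorem mc_img {μ : M} (hμ : IsOrd μ) (D : M → M) [Dff fun γ : E0 M × M => D γ.2]
    (h2 : ∀ ξ ∈ μ, ∀ ζ ∈ ξ, D ζ ∈ D ξ) : ∀ ξ ∈ μ, mc (img μ D) (D ξ) = ξ := by
  have key : ∀ ξ : M, IsOrd ξ → ξ ∈ μ → mc (img μ D) (D ξ) = ξ := by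
    refine ord_ind (fun ξ => ξ ∈ μ → mc (img μ D) (D ξ) = ξ) fun ξ hξ ih hm => ?_
    apply ext
    intro z
    rw [mem_mc]
    constructor
    · rintro ⟨y, hy, hyx, rfl⟩
      obtain ⟨ζ, hζ, rfl⟩ := mem_img.1 hy
      rcases (hμ.mem hζ).cmp hξ with h3 | rfl | h3
      · rw [ih ζ h3 hζ]
        exact h3
      · exact absurd hyx (mem_irrefl _)
      · exact absurd hyx (mem_asymm (h2 ζ hζ ξ h3))
    · intro hz
      have hzm := hμ.trans hz hm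
      exact ⟨D z, mem_img.2 ⟨z, hzm, rfl⟩, h2 ξ hm z hz, (ih z hz hzm).symm⟩
  exact fun ξ hξ => key ξ (hμ.mem hξ) hξ

theorem otp_img {μ : M} (hμ : IsOrd μ) (D : M → M) [Dff fun γ : E0 M × M => D γ.2]
    (h2 : ∀ ξ ∈ μ, ∀ ζ ∈ ξ, D ζ ∈ D ξ) : otp (img μ D) = μ := by
  apply ext
  intro z
  unfold otp
  rw [mem_img]
  constructor
  · rintro ⟨y, hy, rfl⟩
    obtain ⟨ζ, hζ, rfl⟩ := mem_img.1 hy
    rwa [mc_img hμ D h2 ζ hζ]
  · intro hz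
    exact ⟨D z, mem_img.2 ⟨z, hz, rfl⟩, (mc_img hμ D h2 z hz).symm⟩

theorem enm_img {μ : M} (hμ : IsOrd μ) (D : M → M) [Dff fun γ : E0 M × M => D γ.2]
    (h1 : ∀ ξ ∈ μ, IsOrd (D ξ)) (h2 : ∀ ξ ∈ μ, ∀ ζ ∈ ξ, D ζ ∈ D ξ) {ξ : M} (hξ : ξ ∈ μ) :
    ap (enm (img μ D)) ξ = D ξ := by
  have h3 : ∀ x ∈ img μ D, IsOrd x := fun x hx => by
    obtain ⟨ζ, hζ, rfl⟩ := mem_img.1 hx
    exact h1 ζ hζ
  have := enm_mc h3 (x := D ξ) (mem_img.2 ⟨ξ, hξ, rfl⟩)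
  rwa [mc_img hμ D h2 ξ hξ] at this

end

/-! ### more absoluteness -/

namespace TEmb

variable {M N : Type} [SetModel M] [SetModel N] {f : M → N} (h : TEmb f)

include h

theorem the {P : M → Prop} {P' : N → Prop} (hP : ∀ x, P x ↔ P' (f x))
    (hr : ∀ b, P' b → ∃ a, b = f a) : f (the P) = IST.the P' := by
  by_cases hu : ∃! x, P x
  · refine Eq.symm (the_eq ((hP _).1 (the_spec hu)) fun b hb => ?_)
    obtain ⟨a, rfl⟩ := hr b hb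
    rw [hu.unique ((hP a).2 hb) (the_spec hu)]
  · have hu' : ¬ ∃! b, P' b := by
      rintro ⟨b, hb, hb'⟩
      refine hu ?_
      obtain ⟨a, rfl⟩ := hr b hb
      exact ⟨a, (hP a).2 hb, fun c hc => h.inj (hb' _ ((hP c).1 hc))⟩
    unfold IST.the
    rw [dif_neg hu, dif_neg hu', h.empty]

theorem p1 {x : M} : f (p1 x) = IST.p1 (f x) := by
  refine h.the (fun y => ?_) fun b hb => ?_
  · constructor
    · rintro ⟨z, rfl⟩
      exact ⟨f z, h.op⟩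
    · rintro ⟨z, e⟩
      obtain ⟨u, v, e1, rfl, rfl⟩ := h.op_split e
      exact ⟨v, by rw [h.inj e1]⟩
  · obtain ⟨z, e⟩ := hb
    obtain ⟨u, v, rfl, -, -⟩ := h.op_split e
    exact ⟨u, rfl⟩

theorem p2 {x : M} : f (p2 x) = IST.p2 (f x) := by
  refine h.the (fun y => ?_) fun b hb => ?_
  · constructor
    · rintro ⟨z, rfl⟩
      exact ⟨f z, h.op⟩
    · rintro ⟨z, e⟩
      obtain ⟨u, v, rfl, e1, rfl⟩ := h.op_split e
      exact ⟨u, by rw [h.inj e1]⟩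
  · obtain ⟨z, e⟩ := hb
    obtain ⟨u, v, -, rfl, -⟩ := h.op_split e
    exact ⟨v, rfl⟩

/-- reading a set of ordinals: `x ⊆ f μ` is in the smaller model, if it is definable there from the
increasing enumeration of a set `L` -/
theorem read {μ L : M} (hμ : IsOrd μ) (D : N → N) [Dff fun γ : E0 N × N => D γ.2]
    (h1 : ∀ ξ ∈ f μ, IsOrd (D ξ)) (h2 : ∀ ξ ∈ f μ, ∀ ζ ∈ ξ, D ζ ∈ D ξ)
    (hL : ∀ b, b ∈ f L ↔ ∃ ξ ∈ f μ, b = D ξ) (B : M → Prop) [Dfp fun γ : E0 M × M => B γ.2]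
    {x : N} (hx : x ⊆ f μ) (hB : ∀ ξ ∈ μ, ∀ a, f a = D (f ξ) → (f ξ ∈ x ↔ B a)) :
    ∃ s, x = f s := by
  have hL' : f L = IST.img (f μ) D := by
    apply ext
    intro b
    rw [hL, mem_img]
  have hBd : Dfp fun γ : E0 M × M => B (IST.ap (IST.enm L) γ.2) :=
    Dfp.lift1 (P := fun _ : E0 M => B) (c := fun _ => ⟨⟩)
  refine ⟨IST.sep μ fun ξ => B (IST.ap (IST.enm L) ξ), (h.eq_of (fun ξ => ?_) fun b hb => ?_).symm⟩
  · rw [mem_sep]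
    constructor
    · rintro ⟨hξ, hb⟩
      refine (hB ξ hξ _ ?_).2 hb
      rw [h.ap', h.enm, hL', enm_img (h.isOrd.2 hμ) D h1 h2 (h.mem.2 hξ)]
    · intro hξ
      have hξ' : ξ ∈ μ := h.mem.1 (hx _ hξ)
      refine ⟨hξ', (hB ξ hξ' _ ?_).1 hξ⟩
      rw [h.ap', h.enm, hL', enm_img (h.isOrd.2 hμ) D h1 h2 (h.mem.2 hξ')]
  · obtain ⟨a, -, rfl⟩ := h.tr (hx b hb)
    exact ⟨a, rfl⟩

end TEmb

end Pool.Agent.IST
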