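import Pool.Agent.LP.Emb
import Pool.Agent.IST.Collapse
import Pool.Agent.IST.CardB

/-!
# Transitive embeddings: absoluteness of recursions
-/

set_option synthInstance.maxSize 100000

namespace Pool.Agent.IST

open Pool.Agent.BVM

namespace TEmb

variable {M N : Type} [SetModel M] [SetModel N] {f : M → N} (h : TEmb f)

include h

/-! ### separation, replacement -/

theorem sep {a : M} {P : M → Prop} {P' : N → Prop} [Dfp fun γ : E0 M × M => P γ.2]
    [Dfp fun γ : E0 N × N => P' γ.2] (hP : ∀ x ∈ a, P x ↔ P' (f x)) :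
    f (sep a P) = IST.sep (f a) P' := by
  refine h.eq_of (fun z => ?_) fun b hb => ?_
  · rw [mem_sep, mem_sep, h.mem]
    exact and_congr_right fun hz => hP z hz
  · obtain ⟨x, -, rfl⟩ := h.tr (mem_sep.1 hb).1
    exact ⟨x, rfl⟩

theorem img {a : M} {F : M → M} {F' : N → N} [Dff fun γ : E0 M × M => F γ.2]
    [Dff fun γ : E0 N × N => F' γ.2] (hF : ∀ x ∈ a, f (F x) = F' (f x)) :
    f (img a F) = IST.img (f a) F' := by
  refine h.eq_of (fun z => ?_) fun b hb => ?_
  · rw [mem_img, mem_img, h.exB]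
    refine exists_congr fun x => and_congr_right fun hx => ?_
    rw [← hF x hx, h.eq_iff]
  · obtain ⟨u, hu, rfl⟩ := mem_img.1 hb
    obtain ⟨x, hx, rfl⟩ := h.tr hu
    exact ⟨F x, (hF x hx).symm⟩

theorem iU {a : M} {F : M → M} {F' : N → N} [Dff fun γ : E0 M × M => F γ.2]
    [Dff fun γ : E0 N × N => F' γ.2] (hF : ∀ x ∈ a, f (F x) = F' (f x)) :
    f (iU a F) = IST.iU (f a) F' := by
  unfold IST.iU
  rw [h.bigU, h.img hF]

theorem lam {a : M} {F : M → M} {F' : N → N} [Dff fun γ : E0 M × M => F γ.2]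
    [Dff fun γ : E0 N × N => F' γ.2] (hF : ∀ x ∈ a, f (F x) = F' (f x)) :
    f (lam a F) = IST.lam (f a) F' := by
  unfold IST.lam
  exact h.img fun x hx => by rw [h.op, hF x hx]

/-! ### recursion -/

theorem appr {G : M → M → M} {G' : N → N → N} {r : M}
    (hG : ∀ x g, IsFun g → IST.dom g = x → f (G x g) = G' (f x) (f g)) (hr : Appr G r) :
    Appr G' (f r) := by
  refine ⟨h.isFun.2 hr.1, ?_, ?_⟩
  · rw [← h.dom, h.isTrans]
    exact hr.2.1
  · rw [← h.dom, h.allB]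
    intro x hx
    rw [← h.ap', ← h.res, hr.2.2 x hx, hG x _ hr.1.res]
    rw [dom_res]
    apply ext
    intro z
    rw [mem_inter]
    exact ⟨fun k => k.2, fun k => ⟨hr.2.1 x hx z k, k⟩⟩

theorem erec {G : M → M → M} {G' : N → N → N} [Dff fun γ : (E0 M × M) × M => G γ.1.2 γ.2]
    (hG : ∀ x g, IsFun g → IST.dom g = x → f (G x g) = G' (f x) (f g)) (x : M) :
    f (erec G x) = IST.erec G' (f x) := by
  have hd := erec_slice (G := G)
  have h1 : Appr G (IST.lam (IST.tc (IST.sing x)) fun x => IST.erec G x) :=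
    exists_appr (isTrans_tc _)
  have hx : x ∈ IST.tc (IST.sing x) := sub_tc _ _ (mem_sing.2 rfl)
  have h2 := h.appr hG h1
  rw [h2.erec_eq (x := f x), ← h.ap', ap_lam hx]
  rw [← h.dom, dom_lam, h.mem]
  exact hx

theorem itU {x n : M} : f (itU x n) = IST.itU (f x) (f n) := by
  unfold IST.itU
  exact h.erec (G := fun _ g => x ∪ IST.bigU (IST.bigU (IST.ran g)))
    (G' := fun _ g => f x ∪ IST.bigU (IST.bigU (IST.ran g)))
    (fun y g _ _ => by rw [h.union, h.bigU, h.bigU, h.ran]) n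

theorem tc {x : M} : f (tc x) = IST.tc (f x) := by
  unfold IST.tc
  rw [h.bigU, h.img (F' := fun n => IST.itU (f x) n) (fun n _ => h.itU), h.om]

theorem rk' {x : M} : f (rk x) = IST.rk (f x) := by
  unfold IST.rk
  refine h.erec (G := fun _ g => IST.bigU (IST.img (IST.ran g) fun y => IST.sc y))
    (G' := fun _ g => IST.bigU (IST.img (IST.ran g) fun y => IST.sc y)) (fun y g _ _ => ?_) x
  rw [h.bigU, h.img (F' := fun y => IST.sc y) (fun y _ => h.sc), h.ran]

theorem mem_Vr {x a : M} (ha : IsOrd a) : f x ∈ Vr (f a) ↔ x ∈ Vr a := by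
  rw [mem_Vr_iff ha, mem_Vr_iff (h.isOrd.2 ha), ← h.rk', h.mem]

theorem Vr_sub {a : M} (ha : IsOrd a) : f (Vr a) ⊆ IST.Vr (f a) := by
  intro b hb
  obtain ⟨x, hx, rfl⟩ := h.tr hb
  exact (h.mem_Vr ha).2 hx

theorem mc {s x : M} : f (mc s x) = IST.mc (f s) (f x) := by
  unfold IST.mc
  refine h.erec (G := fun x g => IST.img (s ∩ x) fun y => IST.ap g y)
    (G' := fun x g => IST.img (f s ∩ x) fun y => IST.ap g y) (fun y g _ _ => ?_) x
  rw [h.img (F' := fun y => IST.ap (f g) y) (fun y _ => h.ap'), h.inter]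

theorem otp {a : M} : f (otp a) = IST.otp (f a) := by
  unfold IST.otp
  exact h.img fun x _ => h.mc

theorem enm {a : M} : f (enm a) = IST.enm (f a) := by
  unfold IST.enm
  rw [h.inv, h.lam (F' := fun x => IST.mc (f a) x) (fun x _ => h.mc)]

/-- every set of elements of the smaller model is a subset of an element of the smaller model -/
theorem exists_cover {z : N} (hz : ∀ b ∈ z, ∃ a, b = f a) : ∃ y : M, z ⊆ f y := by
  obtain ⟨α, hα, e⟩ := h.exists_of_ord (isOrd_rk z)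
  refine ⟨Vr α, fun b hb => ?_⟩
  obtain ⟨a, rfl⟩ := hz b hb
  rw [h.mem, mem_Vr_iff hα, ← h.mem, ← e, h.rk']
  exact rk_mem hb

/-- if all sets of ordinals of the larger model are in the smaller model, then the same is
true for all subsets of the smaller model -/
theorem exists_of_sub (ho : ∀ x : N, (∀ y ∈ x, IsOrd y) → ∃ a, x = f a) {z : N}
    (hz : ∀ b ∈ z, ∃ a, b = f a) : ∃ a, z = f a := by
  obtain ⟨y, hy⟩ := h.exists_cover hz
  obtain ⟨α, hα, k, hk⟩ := exists_eqn_ord y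
  have hk' := hk.inv
  have hinv := h.bij.2 hk'
  have himg : ∀ c ∈ IST.im (f (IST.inv k)) z, IsOrd c := by
    intro c hc
    obtain ⟨x, hx, hc⟩ := mem_im.1 hc
    obtain ⟨a, b, rfl, rfl, hab⟩ := h.op_mem_split hc
    rw [h.isOrd]
    have := hk'.1.ap_mem (x := a) (h.mem.1 (hy _ hx))
    rw [hk'.1.1.ap_eq hab] at this
    exact hα.mem this
  obtain ⟨s, hs⟩ := ho _ himg
  refine ⟨IST.im k s, Sub.antisymm (fun b hb => ?_) fun b hb => ?_⟩
  · obtain ⟨a, rfl⟩ := hz b hb
    have ha : a ∈ y := h.mem.1 (hy _ hb)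
    rw [h.mem, mem_im]
    have h1 : IST.op a (IST.ap (IST.inv k) a) ∈ IST.inv k :=
      hk'.1.1.op_ap_mem (by rw [hk'.1.dom_eq]; exact ha)
    refine ⟨IST.ap (IST.inv k) a, ?_, op_mem_inv.1 h1⟩
    rw [← h.mem, ← hs, mem_im]
    exact ⟨f a, hb, h.op_mem.2 h1⟩
  · obtain ⟨a, ha, rfl⟩ := h.tr hb
    obtain ⟨ξ, hξ, hξa⟩ := mem_im.1 ha
    rw [← h.mem, ← hs, mem_im] at hξ
    obtain ⟨x, hx, hxξ⟩ := hξ
    obtain ⟨a', ξ', rfl, e, h2⟩ := h.op_mem_split hxξ
    obtain rfl := h.inj e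
    have h3 := op_mem_inv.1 h2
    rw [hk.1.1.2 _ _ _ hξa h3]
    exact hx

/-- if all sets of ordinals of the larger model are in the smaller model, then the models are
equal -/
theorem surj (hd : Dfp fun γ : E0 N × N => ∃ a, γ.2 = f a)
    (ho : ∀ x : N, (∀ y ∈ x, IsOrd y) → ∃ a, x = f a) : ∀ z : N, ∃ a, z = f a :=
  mem_ind (fun z => ∃ a, z = f a) fun _ hz => h.exists_of_sub ho hz

end TEmb

end Pool.Agent.IST
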