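import Pool.Agent.LP.Atom
import Pool.Agent.IST.Cnt

/-!
# The forcing relation, generic filters, the generic extension, the truth lemma

`P.Frc φ r v`: the condition `r` forces `φ` (a formula with a class predicate, which is interpreted
by the class of the elements of the ground model) for the names `v i`.
-/

set_option synthInstance.maxSize 100000

namespace Pool.Agent.IST

open Pool.Agent.BVM

namespace LPo

variable {M : Type} [SetModel M] {Γ : Type} [IsCtx Γ M]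

/-- `r` forces that `x` is in the ground model -/
def Fgr (P : LPo M) (r x : M) : Prop := P.Cd r ∧ ∀ r', P.le r' r → ∃ r'', P.le r'' r' ∧
  ∃ a, P.Fq r'' x (P.chk a)

/-- the forcing relation -/
def Frc (P : LPo M) : FmlU → M → (ℕ → M) → Prop
  | .mem i j, r, v => P.Fm r (v i) (v j)
  | .eq i j, r, v => P.Fq r (v i) (v j)
  | .cl i, r, v => P.Fgr r (v i)
  | .neg a, r, v => P.Cd r ∧ ∀ r', P.le r' r → ¬ P.Frc a r' v
  | .and a b, r, v => P.Frc a r v ∧ P.Frc b r v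
  | .or a b, r, v => P.Cd r ∧ ∀ r', P.le r' r → ∃ r'', P.le r'' r' ∧ (P.Frc a r'' v ∨ P.Frc b r'' v)
  | .imp a b, r, v => P.Cd r ∧ ∀ r', P.le r' r → P.Frc a r' v → P.Frc b r' v
  | .iff a b, r, v => P.Cd r ∧ ∀ r', P.le r' r → (P.Frc a r' v ↔ P.Frc b r' v)
  | .all a, r, v => ∀ x, P.Frc a r (cons x v)
  | .ex a, r, v => P.Cd r ∧ ∀ r', P.le r' r → ∃ r'', P.le r'' r' ∧ ∃ x, P.Frc a r'' (cons x v)

instance dfp_Fgr (P : LPo M) {f g : Γ → M} [Dff f] [Dff g] : Dfp fun γ => P.Fgr (f γ) (g γ) := by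
  unfold Fgr; infer_instance

theorem dff_cons {f : Γ → M} [Dff f] (s : ℕ → Γ → M) (hs : ∀ i, Dff (s i)) (i : ℕ) :
    Dff fun γ => cons (f γ) (fun i => s i γ) i := by
  cases i with
  | zero => exact (inferInstance : Dff f)
  | succ i => exact hs i

theorem frc_dfp_aux (P : LPo M) (φ : FmlU) : ∀ (Γ : Type) [IsCtx Γ M] (f : Γ → M) (_ : Dff f)
    (s : ℕ → Γ → M) (_ : ∀ i, Dff (s i)), Dfp fun γ => P.Frc φ (f γ) fun i => s i γ := by
  induction φ with
  | mem i j => 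
    intro Γ _ f hf s hs
    have := hs i
    have := hs j
    exact (inferInstance : Dfp fun γ => P.Fm (f γ) (s i γ) (s j γ))
  | eq i j => 
    intro Γ _ f hf s hs
    have := hs i
    have := hs j
    exact (inferInstance : Dfp fun γ => P.Fq (f γ) (s i γ) (s j γ))
  | cl i =>
    intro Γ _ f hf s hs
    have := hs i
    exact (inferInstance : Dfp fun γ => P.Fgr (f γ) (s i γ))
  | neg a ih =>
    intro Γ _ f hf s hs
    have h1 := ih (Γ × M) Prod.snd inferInstance (fun i γ => s i γ.1) fun i => by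
      have := hs i
      infer_instance
    exact (inferInstance : Dfp fun γ => P.Cd (f γ) ∧ ∀ r', P.le r' (f γ) →
      ¬ P.Frc a r' fun i => s i γ)
  | and a b iha ihb =>
    intro Γ _ f hf s hs
    have h1 := iha Γ f hf s hs
    have h2 := ihb Γ f hf s hs
    exact (inferInstance : Dfp fun γ => (P.Frc a (f γ) fun i => s i γ) ∧
      P.Frc b (f γ) fun i => s i γ)
  | or a b iha ihb =>
    intro Γ _ f hf s hs
    have h0 : ∀ i, Dff fun γ : (Γ × M) × M => s i γ.1.1 := fun i => by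
      have := hs i
      infer_instance
    have h1 := iha ((Γ × M) × M) Prod.snd inferInstance (fun i γ => s i γ.1.1) h0
    have h2 := ihb ((Γ × M) × M) Prod.snd inferInstance (fun i γ => s i γ.1.1) h0
    exact (inferInstance : Dfp fun γ => P.Cd (f γ) ∧ ∀ r', P.le r' (f γ) → ∃ r'', P.le r'' r' ∧
      ((P.Frc a r'' fun i => s i γ) ∨ P.Frc b r'' fun i => s i γ))
  | imp a b iha ihb =>
    intro Γ _ f hf s hs
    have h0 : ∀ i, Dff fun γ : Γ × M => s i γ.1 := fun i => by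
      have := hs i
      infer_instance
    have h1 := iha (Γ × M) Prod.snd inferInstance (fun i γ => s i γ.1) h0
    have h2 := ihb (Γ × M) Prod.snd inferInstance (fun i γ => s i γ.1) h0
    exact (inferInstance : Dfp fun γ => P.Cd (f γ) ∧ ∀ r', P.le r' (f γ) →
      (P.Frc a r' fun i => s i γ) → P.Frc b r' fun i => s i γ)
  | iff a b iha ihb =>
    intro Γ _ f hf s hs
    have h0 : ∀ i, Dff fun γ : Γ × M => s i γ.1 := fun i => by
      have := hs i
      infer_instance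
    have h1 := iha (Γ × M) Prod.snd inferInstance (fun i γ => s i γ.1) h0
    have h2 := ihb (Γ × M) Prod.snd inferInstance (fun i γ => s i γ.1) h0
    exact (inferInstance : Dfp fun γ => P.Cd (f γ) ∧ ∀ r', P.le r' (f γ) →
      ((P.Frc a r' fun i => s i γ) ↔ P.Frc b r' fun i => s i γ))
  | all a ih =>
    intro Γ _ f hf s hs
    have h0 : ∀ i, Dff fun γ : Γ × M => s i γ.1 := fun i => by
      have := hs i
      infer_instance
    have h1 := ih (Γ × M) (fun γ => f γ.1) inferInstance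
      (fun i γ => cons γ.2 (fun i => s i γ.1) i) (dff_cons (f := fun γ : Γ × M => γ.2) _ h0)
    exact (Dfp.all : Dfp fun γ => ∀ x, P.Frc a (f γ) (cons x fun i => s i γ))
  | ex a ih =>
    intro Γ _ f hf s hs
    have h0 : ∀ i, Dff fun γ : ((Γ × M) × M) × M => s i γ.1.1.1 := fun i => by
      have := hs i
      infer_instance
    have h1 := ih (((Γ × M) × M) × M) (fun γ => γ.1.2) inferInstance
      (fun i γ => cons γ.2 (fun i => s i γ.1.1.1) i)
      (dff_cons (f := fun γ : ((Γ × M) × M) × M => γ.2) _ h0)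
    have h2 : Dfp fun γ : (Γ × M) × M => ∃ x, P.Frc a γ.2 (cons x fun i => s i γ.1.1) := Dfp.ex
    exact (inferInstance : Dfp fun γ => P.Cd (f γ) ∧ ∀ r', P.le r' (f γ) → ∃ r'', P.le r'' r' ∧
      ∃ x, P.Frc a r'' (cons x fun i => s i γ))

/-- the forcing relation is definable -/
theorem frc_dfp (P : LPo M) (φ : FmlU) {f : Γ → M} [Dff f] (s : ℕ → Γ → M) (hs : ∀ i, Dff (s i)) :
    Dfp fun γ => P.Frc φ (f γ) fun i => s i γ := frc_dfp_aux P φ Γ f inferInstance s hs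

variable {P : LPo M}

theorem Frc.cd {φ : FmlU} {r : M} {v : ℕ → M} (h : P.Frc φ r v) : P.Cd r := by
  induction φ generalizing v with
  | mem i j => exact Fm.cd h
  | eq i j => exact Fq.cd h
  | cl i => exact h.1
  | neg a ih => exact h.1
  | and a b iha ihb => exact iha h.1
  | or a b iha ihb => exact h.1
  | imp a b iha ihb => exact h.1
  | iff a b iha ihb => exact h.1
  | all a ih =>
    obtain ⟨x⟩ := nonempty_model (M := M)
    exact ih (h x)
  | ex a ih => exact h.1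

theorem Frc.mono {φ : FmlU} {r r' : M} {v : ℕ → M} (h : P.Frc φ r v) (hr : P.le r' r) :
    P.Frc φ r' v := by
  induction φ generalizing r r' v with
  | mem i j => exact Fm.mono h hr
  | eq i j => exact Fq.mono h hr
  | cl i => exact ⟨P.left hr, fun s hs => h.2 s (P.le_trans hs hr)⟩
  | neg a ih => exact ⟨P.left hr, fun s hs => h.2 s (P.le_trans hs hr)⟩
  | and a b iha ihb => exact ⟨iha h.1 hr, ihb h.2 hr⟩
  | or a b iha ihb => exact ⟨P.left hr, fun s hs => h.2 s (P.le_trans hs hr)⟩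
  | imp a b iha ihb => exact ⟨P.left hr, fun s hs => h.2 s (P.le_trans hs hr)⟩
  | iff a b iha ihb => exact ⟨P.left hr, fun s hs => h.2 s (P.le_trans hs hr)⟩
  | all a ih => exact fun x => ih (h x) hr
  | ex a ih => exact ⟨P.left hr, fun s hs => h.2 s (P.le_trans hs hr)⟩

theorem Frc.loc {φ : FmlU} {r : M} {v : ℕ → M} (hr : P.Cd r)
    (h : ∀ r', P.le r' r → ∃ r'', P.le r'' r' ∧ P.Frc φ r'' v) : P.Frc φ r v := by
  induction φ generalizing r v with
  | mem i j => exact Fm.loc hr h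
  | eq i j => exact Fq.loc hr h
  | cl i =>
    refine ⟨hr, fun s hs => ?_⟩
    obtain ⟨t, ht, h1⟩ := h s hs
    obtain ⟨u, hu, h2⟩ := h1.2 t (P.le_refl (P.left ht))
    exact ⟨u, P.le_trans hu ht, h2⟩
  | neg a ih =>
    refine ⟨hr, fun s hs h0 => ?_⟩
    obtain ⟨t, ht, h1⟩ := h s hs
    exact h1.2 t (P.le_refl (P.left ht)) (h0.mono ht)
  | and a b iha ihb =>
    refine ⟨iha hr fun s hs => ?_, ihb hr fun s hs => ?_⟩
    · obtain ⟨t, ht, h1⟩ := h s hs
      exact ⟨t, ht, h1.1⟩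
    · obtain ⟨t, ht, h1⟩ := h s hs
      exact ⟨t, ht, h1.2⟩
  | or a b iha ihb =>
    refine ⟨hr, fun s hs => ?_⟩
    obtain ⟨t, ht, h1⟩ := h s hs
    obtain ⟨u, hu, h2⟩ := h1.2 t (P.le_refl (P.left ht))
    exact ⟨u, P.le_trans hu ht, h2⟩
  | imp a b iha ihb =>
    refine ⟨hr, fun s hs h0 => ihb (P.left hs) fun t ht => ?_⟩
    obtain ⟨u, hu, h1⟩ := h t (P.le_trans ht hs)
    exact ⟨u, hu, h1.2 u (P.le_refl (P.left hu)) (h0.mono (P.le_trans hu ht))⟩
  | iff a b iha ihb =>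
    refine ⟨hr, fun s hs => ⟨fun h0 => ihb (P.left hs) fun t ht => ?_,
      fun h0 => iha (P.left hs) fun t ht => ?_⟩⟩
    · obtain ⟨u, hu, h1⟩ := h t (P.le_trans ht hs)
      exact ⟨u, hu, (h1.2 u (P.le_refl (P.left hu))).1 (h0.mono (P.le_trans hu ht))⟩
    · obtain ⟨u, hu, h1⟩ := h t (P.le_trans ht hs)
      exact ⟨u, hu, (h1.2 u (P.le_refl (P.left hu))).2 (h0.mono (P.le_trans hu ht))⟩
  | all a ih =>
    refine fun x => ih hr fun s hs => ?_
    obtain ⟨t, ht, h1⟩ := h s hs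
    exact ⟨t, ht, h1 x⟩
  | ex a ih =>
    refine ⟨hr, fun s hs => ?_⟩
    obtain ⟨t, ht, h1⟩ := h s hs
    obtain ⟨u, hu, h2⟩ := h1.2 t (P.le_refl (P.left ht))
    exact ⟨u, P.le_trans hu ht, h2⟩

theorem fq_cons {r x : M} {v v' : ℕ → M} (hr : P.Cd r) (hv : ∀ i, P.Fq r (v i) (v' i)) (i : ℕ) :
    P.Fq r (cons x v i) (cons x v' i) := by
  cases i with
  | zero => exact Fq.refl hr x
  | succ i => exact hv i

theorem Frc.congr {φ : FmlU} {r : M} {v v' : ℕ → M} (h : P.Frc φ r v)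
    (hv : ∀ i, P.Fq r (v i) (v' i)) : P.Frc φ r v' := by
  induction φ generalizing r v v' with
  | mem i j => exact Fm.congr h (hv i) (hv j)
  | eq i j => exact (hv i).symm.trans (Fq.trans h (hv j))
  | cl i =>
    refine ⟨h.1, fun s hs => ?_⟩
    obtain ⟨t, ht, a, h1⟩ := h.2 s hs
    exact ⟨t, ht, a, ((hv i).symm.mono (P.le_trans ht hs)).trans h1⟩
  | neg a ih =>
    exact ⟨h.1, fun s hs h0 => h.2 s hs (ih h0 fun i => (hv i).symm.mono hs)⟩
  | and a b iha ihb => exact ⟨iha h.1 hv, ihb h.2 hv⟩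
  | or a b iha ihb =>
    refine ⟨h.1, fun s hs => ?_⟩
    obtain ⟨t, ht, h1⟩ := h.2 s hs
    have h2 := fun i => (hv i).mono (P.le_trans ht hs)
    exact ⟨t, ht, h1.imp (fun h => iha h h2) fun h => ihb h h2⟩
  | imp a b iha ihb =>
    exact ⟨h.1, fun s hs h0 => ihb (h.2 s hs (iha h0 fun i => (hv i).symm.mono hs))
      fun i => (hv i).mono hs⟩
  | iff a b iha ihb =>
    exact ⟨h.1, fun s hs => ⟨fun h0 => ihb ((h.2 s hs).1 (iha h0 fun i => (hv i).symm.mono hs))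
      fun i => (hv i).mono hs, fun h0 => iha ((h.2 s hs).2 (ihb h0 fun i => (hv i).symm.mono hs))
      fun i => (hv i).mono hs⟩⟩
  | all a ih => exact fun x => ih (h x) (fq_cons (h x).cd hv)
  | ex a ih =>
    refine ⟨h.1, fun s hs => ?_⟩
    obtain ⟨t, ht, x, h1⟩ := h.2 s hs
    exact ⟨t, ht, x, ih h1 (fq_cons h1.cd fun i => (hv i).mono (P.le_trans ht hs))⟩

theorem frc_decide (φ : FmlU) {r : M} (v : ℕ → M) (hr : P.Cd r) :
    ∃ r', P.le r' r ∧ (P.Frc φ r' v ∨ P.Frc (.neg φ) r' v) := by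
  by_cases h : ∃ r', P.le r' r ∧ P.Frc φ r' v
  · obtain ⟨r', h1, h2⟩ := h
    exact ⟨r', h1, Or.inl h2⟩
  · push Not at h
    exact ⟨r, P.le_refl hr, Or.inr ⟨hr, h⟩⟩

end LPo

/-- generic filters; they are not classes of the ground model -/
structure Gen {M : Type} [SetModel M] (P : LPo M) where
  /-- the filter -/
  G : M → Prop
  cd : ∀ {r}, G r → P.Cd r
  up : ∀ {r r'}, G r → P.le r r' → G r'
  dir : ∀ {r r'}, G r → G r' → ∃ s, G s ∧ P.le s r ∧ P.le s r'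
  meets : ∀ D : M → Prop, (Dfp fun γ : E0 M × M => D γ.2) →
    (∀ r, P.Cd r → ∃ r', P.le r' r ∧ D r') → ∃ r, G r ∧ D r

namespace Gen

variable {M : Type} [SetModel M] {Γ : Type} [IsCtx Γ M] {P : LPo M}

theorem exists_gen [Countable M] (P : LPo M) {p : M} (hp : P.Cd p) : ∃ G : Gen P, G.G p := by
  classical
  obtain ⟨F, -, hF⟩ := exists_enum_dfp (M := M)
  -- one step of the construction
  have hstep : ∀ (n : ℕ) (r : {r : M // P.Cd r}), ∃ s : {r : M // P.Cd r}, P.le s.1 r.1 ∧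
      ((∀ r, P.Cd r → ∃ r', P.le r' r ∧ F n r') → F n s.1) := by
    intro n r
    by_cases h : ∀ r, P.Cd r → ∃ r', P.le r' r ∧ F n r'
    · obtain ⟨s, h1, h2⟩ := h r.1 r.2
      exact ⟨⟨s, P.left h1⟩, h1, fun _ => h2⟩
    · exact ⟨r, P.le_refl r.2, fun h' => absurd h' h⟩
  choose st hst1 hst2 using hstep
  let q : ℕ → {r : M // P.Cd r} := fun n => Nat.rec ⟨p, hp⟩ (fun n r => st n r) n
  have hq : ∀ n, q (n + 1) = st n (q n) := fun n => rfl
  have hmono : ∀ m n, m ≤ n → P.le (q n).1 (q m).1 := by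
    intro m n h
    induction n, h using Nat.le_induction with
    | base => exact P.le_refl (q m).2
    | succ n _ ih =>
      rw [hq]
      exact P.le_trans (hst1 n (q n)) ih
  refine ⟨⟨fun r => P.Cd r ∧ ∃ n, P.le (q n).1 r, fun h => h.1, ?_, ?_, ?_⟩, hp, 0, P.le_refl hp⟩
  · rintro r r' ⟨-, n, h2⟩ h
    exact ⟨P.right h, n, P.le_trans h2 h⟩
  · rintro r r' ⟨-, n, h1⟩ ⟨-, m, h2⟩
    exact ⟨(q (max n m)).1, ⟨(q _).2, _, P.le_refl (q _).2⟩,
      P.le_trans (hmono _ _ (le_max_left _ _)) h1, P.le_trans (hmono _ _ (le_max_right _ _)) h2⟩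
  · intro D hD hdense
    obtain ⟨n, rfl⟩ := hF D hD
    exact ⟨(q (n + 1)).1, ⟨(q (n + 1)).2, n + 1, P.le_refl (q (n + 1)).2⟩,
      hst2 n (q n) hdense⟩

variable (G : Gen P)

theorem one_mem : G.G P.one := by
  obtain ⟨r, h1, h2⟩ := G.meets P.Cd inferInstance fun r hr => ⟨r, P.le_refl hr, hr⟩
  exact G.up h1 (P.le_one h2)

theorem rs_mem {r i : M} (hi : IsOrd i) (h : G.G r) : G.G (P.rs i r) := G.up h (P.le_rs hi (G.cd h))

/-- `G` meets classes which are dense below a member -/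
theorem meets_below {p : M} (hp : G.G p) (D : M → Prop) [Dfp fun γ : E0 M × M => D γ.2]
    (hD : ∀ r, P.le r p → ∃ r', P.le r' r ∧ D r') : ∃ r, G.G r ∧ P.le r p ∧ D r := by
  obtain ⟨r, h1, h2⟩ := G.meets (fun r => (P.le r p ∧ D r) ∨ ∀ s, P.le s r → ¬ P.le s p)
    (by infer_instance) (by
      intro r hr
      by_cases h : ∃ s, P.le s r ∧ P.le s p
      · obtain ⟨s, h1, h2⟩ := h
        obtain ⟨t, h3, h4⟩ := hD s h2
        exact ⟨t, P.le_trans h3 h1, Or.inl ⟨P.le_trans h3 h2, h4⟩⟩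
      · push Not at h
        exact ⟨r, P.le_refl hr, Or.inr h⟩)
  rcases h2 with h2 | h2
  · exact ⟨r, h1, h2⟩
  · obtain ⟨s, -, h3, h4⟩ := G.dir h1 hp
    exact absurd h4 (h2 s h3)

theorem fq_equiv : Equivalence fun x y => ∃ r, G.G r ∧ P.Fq r x y := by
  refine ⟨fun x => ⟨P.one, G.one_mem, LPo.Fq.refl P.cd_one x⟩, ?_, ?_⟩
  · rintro x y ⟨r, h1, h2⟩
    exact ⟨r, h1, h2.symm⟩
  · rintro x y z ⟨r, h1, h2⟩ ⟨r', h3, h4⟩
    obtain ⟨s, h5, h6, h7⟩ := G.dir h1 h3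
    exact ⟨s, h5, (h2.mono h6).trans (h4.mono h7)⟩

/-- names, modulo the generic filter -/
def setoid : Setoid M := ⟨fun x y => ∃ r, G.G r ∧ P.Fq r x y, G.fq_equiv⟩

/-- the generic extension -/
def Ext : Type := Quotient G.setoid

/-- the value of a name -/
def nm (x : M) : G.Ext := Quotient.mk G.setoid x

theorem exists_nm (a : G.Ext) : ∃ x, G.nm x = a := Quotient.exists_rep a

theorem nm_eq {x y : M} : G.nm x = G.nm y ↔ ∃ r, G.G r ∧ P.Fq r x y :=
  Quotient.eq (r := G.setoid)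

theorem E_aux {x y x' y' : M} (hx : ∃ r, G.G r ∧ P.Fq r x x') (hy : ∃ r, G.G r ∧ P.Fq r y y')
    (h : ∃ r, G.G r ∧ P.Fm r x y) : ∃ r, G.G r ∧ P.Fm r x' y' := by
  obtain ⟨r, h1, h2⟩ := hx
  obtain ⟨r', h3, h4⟩ := hy
  obtain ⟨r'', h5, h6⟩ := h
  obtain ⟨s, h7, h8, h9⟩ := G.dir h1 h3
  obtain ⟨t, h10, h11, h12⟩ := G.dir h7 h5
  exact ⟨t, h10, (h6.mono h12).congr (h2.mono (P.le_trans h11 h8)) (h4.mono (P.le_trans h11 h9))⟩

/-- membership in the generic extension -/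
def E : G.Ext → G.Ext → Prop :=
  Quotient.lift₂ (s₁ := G.setoid) (s₂ := G.setoid) (fun x y => ∃ r, G.G r ∧ P.Fm r x y)
    fun _ _ _ _ hx hy => propext ⟨G.E_aux hx hy, G.E_aux (G.fq_equiv.symm hx) (G.fq_equiv.symm hy)⟩

theorem E_nm {x y : M} : G.E (G.nm x) (G.nm y) ↔ ∃ r, G.G r ∧ P.Fm r x y := Iff.rfl

/-- the embedding of the ground model -/
noncomputable def io (a : M) : G.Ext := G.nm (P.chk a)

theorem cons_nm (x : M) (v : ℕ → M) :
    (cons (G.nm x) fun i => G.nm (v i)) = fun i => G.nm (cons x v i) := by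
  funext i
  cases i <;> rfl

theorem dfp_Frc (φ : FmlU) (v : ℕ → M) : Dfp fun γ : E0 M × M => P.Frc φ γ.2 v :=
  LPo.frc_dfp P φ (f := fun γ : E0 M × M => γ.2) (fun i _ => v i) fun _ => inferInstance

theorem dfp_Frc' (φ : FmlU) (v : ℕ → M) :
    Dfp fun γ : (E0 M × M) × M => P.Frc φ γ.1.2 (cons γ.2 v) :=
  LPo.frc_dfp P φ (f := fun γ : (E0 M × M) × M => γ.1.2) (fun i γ => cons γ.2 v i)
    (LPo.dff_cons (f := fun γ : (E0 M × M) × M => γ.2) (fun i _ => v i) fun _ => inferInstance)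

/-- some member of `G` decides `φ` -/
theorem decides (φ : FmlU) (v : ℕ → M) :
    ∃ r, G.G r ∧ (P.Frc φ r v ∨ P.Frc (.neg φ) r v) := by
  have h1 := dfp_Frc (P := P) φ v
  have h2 := dfp_Frc (P := P) (.neg φ) v
  exact G.meets (fun r => P.Frc φ r v ∨ P.Frc (.neg φ) r v) (by infer_instance)
    fun r hr => LPo.frc_decide φ v hr

/-- `G` cannot contain a condition which forces `φ` and one which forces `¬ φ` -/
theorem frc_neg {φ : FmlU} {v : ℕ → M} {r r' : M} (hr : G.G r) (hr' : G.G r')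
    (h : P.Frc φ r v) (h' : P.Frc (.neg φ) r' v) : False := by
  obtain ⟨s, -, h1, h2⟩ := G.dir hr hr'
  exact h'.2 s h2 (h.mono h1)

/-- the truth lemma -/
theorem truth (φ : FmlU) (v : ℕ → M) :
    SatU G.E (fun x => ∃ a, x = G.io a) φ (fun i => G.nm (v i)) ↔ ∃ r, G.G r ∧ P.Frc φ r v := by
  induction φ generalizing v with
  | mem i j => exact G.E_nm
  | eq i j => exact G.nm_eq
  | cl i =>
    constructor
    · rintro ⟨a, ha⟩
      obtain ⟨r, h1, h2⟩ := G.nm_eq.1 ha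
      exact ⟨r, h1, G.cd h1, fun r' hr' => ⟨r', P.le_refl (P.left hr'), a, h2.mono hr'⟩⟩
    · rintro ⟨r, h1, h2⟩
      obtain ⟨s, h3, -, a, h4⟩ := G.meets_below h1 (fun s => ∃ a, P.Fq s (v i) (P.chk a))
        fun s hs => h2.2 s hs
      exact ⟨a, G.nm_eq.2 ⟨s, h3, h4⟩⟩
  | neg a ih =>
    change ¬ _ ↔ _
    rw [ih]
    constructor
    · intro h
      obtain ⟨r, h1, h2⟩ := G.decides a v
      rcases h2 with h2 | h2
      · exact absurd ⟨r, h1, h2⟩ h
      · exact ⟨r, h1, h2⟩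
    · rintro ⟨r, h1, h2⟩ ⟨r', h3, h4⟩
      exact G.frc_neg h3 h1 h4 h2
  | and a b iha ihb =>
    change _ ∧ _ ↔ _
    rw [iha, ihb]
    constructor
    · rintro ⟨⟨r, h1, h2⟩, ⟨r', h3, h4⟩⟩
      obtain ⟨s, h5, h6, h7⟩ := G.dir h1 h3
      exact ⟨s, h5, h2.mono h6, h4.mono h7⟩
    · rintro ⟨r, h1, h2⟩
      exact ⟨⟨r, h1, h2.1⟩, ⟨r, h1, h2.2⟩⟩
  | or a b iha ihb =>
    change _ ∨ _ ↔ _
    rw [iha, ihb]
    constructor
    · rintro (⟨r, h1, h2⟩ | ⟨r, h1, h2⟩)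
      · exact ⟨r, h1, G.cd h1, fun s hs => ⟨s, P.le_refl (P.left hs), Or.inl (h2.mono hs)⟩⟩
      · exact ⟨r, h1, G.cd h1, fun s hs => ⟨s, P.le_refl (P.left hs), Or.inr (h2.mono hs)⟩⟩
    · rintro ⟨r, h1, h2⟩
      have h3 := dfp_Frc (P := P) a v
      have h4 := dfp_Frc (P := P) b v
      obtain ⟨s, h5, -, h6⟩ := G.meets_below h1 (fun s => P.Frc a s v ∨ P.Frc b s v) h2.2
      exact h6.imp (fun h => ⟨s, h5, h⟩) fun h => ⟨s, h5, h⟩
  | imp a b iha ihb =>
    change (_ → _) ↔ _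
    rw [iha, ihb]
    constructor
    · intro h
      obtain ⟨r, h1, h2⟩ := G.decides a v
      rcases h2 with h2 | h2
      · obtain ⟨r', h3, h4⟩ := h ⟨r, h1, h2⟩
        exact ⟨r', h3, G.cd h3, fun s hs _ => h4.mono hs⟩
      · exact ⟨r, h1, G.cd h1, fun s hs h3 => absurd h3 (h2.2 s hs)⟩
    · rintro ⟨r, h1, h2⟩ ⟨r', h3, h4⟩
      obtain ⟨s, h5, h6, h7⟩ := G.dir h1 h3
      exact ⟨s, h5, h2.2 s h6 (h4.mono h7)⟩
  | iff a b iha ihb =>
    change (_ ↔ _) ↔ _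
    rw [iha, ihb]
    constructor
    · intro h
      obtain ⟨r, h1, h2⟩ := G.decides a v
      obtain ⟨r', h3, h4⟩ := G.decides b v
      obtain ⟨s, h5, h6, h7⟩ := G.dir h1 h3
      refine ⟨s, h5, G.cd h5, fun t ht => ?_⟩
      rcases h2 with h2 | h2 <;> rcases h4 with h4 | h4
      · exact ⟨fun _ => h4.mono (P.le_trans ht h7), fun _ => h2.mono (P.le_trans ht h6)⟩
      · obtain ⟨r'', h8, h9⟩ := h.1 ⟨r, h1, h2⟩
        exact (G.frc_neg h8 h3 h9 h4).elim
      · obtain ⟨r'', h8, h9⟩ := h.2 ⟨r', h3, h4⟩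
        exact (G.frc_neg h8 h1 h9 h2).elim
      · exact ⟨fun h => absurd h (h2.2 t (P.le_trans ht h6)),
          fun h => absurd h (h4.2 t (P.le_trans ht h7))⟩
    · rintro ⟨r, h1, h2⟩
      constructor
      · rintro ⟨r', h3, h4⟩
        obtain ⟨s, h5, h6, h7⟩ := G.dir h1 h3
        exact ⟨s, h5, (h2.2 s h6).1 (h4.mono h7)⟩
      · rintro ⟨r', h3, h4⟩
        obtain ⟨s, h5, h6, h7⟩ := G.dir h1 h3
        exact ⟨s, h5, (h2.2 s h6).2 (h4.mono h7)⟩
  | all a ih =>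
    change (∀ x, SatU _ _ a (cons x _)) ↔ _
    constructor
    · intro h
      have h3 := dfp_Frc' (P := P) a v
      have h4 := dfp_Frc' (P := P) (.neg a) v
      obtain ⟨r, h1, h2⟩ := G.meets
        (fun s => (∀ y, P.Frc a s (cons y v)) ∨ ∃ y, P.Frc (.neg a) s (cons y v))
        (by infer_instance) (by
          intro r hr
          by_cases h5 : ∀ y, P.Frc a r (cons y v)
          · exact ⟨r, P.le_refl hr, Or.inl h5⟩
          · push Not at h5
            obtain ⟨y, hy⟩ := h5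
            have h6 : ∃ r', P.le r' r ∧ ∀ r'', P.le r'' r' → ¬ P.Frc a r'' (cons y v) := by
              by_contra h7
              push Not at h7
              exact hy (LPo.Frc.loc hr h7)
            obtain ⟨r', h7, h8⟩ := h6
            exact ⟨r', h7, Or.inr ⟨y, P.left h7, h8⟩⟩)
      rcases h2 with h2 | ⟨y, h2⟩
      · exact ⟨r, h1, h2⟩
      · have h5 := h (G.nm y)
        rw [G.cons_nm, ih] at h5
        obtain ⟨r', h6, h7⟩ := h5
        exact (G.frc_neg h6 h1 h7 h2).elim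
    · rintro ⟨r, h1, h2⟩ x
      obtain ⟨y, rfl⟩ := G.exists_nm x
      rw [G.cons_nm, ih]
      exact ⟨r, h1, h2 y⟩
  | ex a ih =>
    change (∃ x, SatU _ _ a (cons x _)) ↔ _
    constructor
    · rintro ⟨x, hx⟩
      obtain ⟨y, rfl⟩ := G.exists_nm x
      rw [G.cons_nm, ih] at hx
      obtain ⟨r, h1, h2⟩ := hx
      exact ⟨r, h1, G.cd h1, fun s hs => ⟨s, P.le_refl (P.left hs), y, h2.mono hs⟩⟩
    · rintro ⟨r, h1, h2⟩
      have h3 := dfp_Frc' (P := P) a v
      obtain ⟨s, h5, -, y, h6⟩ := G.meets_below h1 (fun s => ∃ y, P.Frc a s (cons y v)) h2.2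
      refine ⟨G.nm y, ?_⟩
      rw [G.cons_nm, ih]
      exact ⟨s, h5, h6⟩

end Gen

end Pool.Agent.IST
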