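import Pool.Agent.LP.Frc
import Pool.Agent.IST.VRec

/-!
# Automorphisms of a class poset and homogeneity

An automorphism of the class poset acts on names, and moves the forcing relation.  `LPo.Hmg`: any
two conditions with the same restriction to level `k` become compatible after moving one of them by
an automorphism which is the identity on `PP k`.  Then the forcing of statements about names of
level `k` depends only on the restriction to level `k`.
-/

set_option synthInstance.maxSize 100000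

namespace Pool.Agent.IST

open Pool.Agent.BVM

namespace LPo

variable {M : Type} [SetModel M] {Γ : Type} [IsCtx Γ M]

/-- the action of a function `f` on names -/
noncomputable def anm (P : LPo M) (f : M → M) (x : M) : M :=
  vrec (fun x h => img (sep x fun t => ∃ z s, t = op z s ∧ P.Cd s) fun t =>
    op (ap h (p1 t)) (f (p2 t))) x

instance anm.dff {P : LPo M} {F : Γ → M → M} [hF : Dff fun γ : Γ × M => F γ.1 γ.2] {f : Γ → M}
    [Dff f] : Dff fun γ => P.anm (F γ) (f γ) := by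
  unfold anm
  have : Dff fun γ : ((Γ × M) × M) × M => F γ.1.1.1 (p2 γ.2) :=
    Dff.lift1 (F := F) (c := fun γ : ((Γ × M) × M) × M => γ.1.1.1)
      (hc := ⟨fun f hf => simple_fst (simple_fst (simple_fst hf))⟩)
  infer_instance

/-- automorphisms -/
structure Aut (P : LPo M) where
  /-- the automorphism -/
  f : M → M
  /-- its inverse -/
  g : M → M
  f_def : Dff fun γ : E0 M × M => f γ.2
  g_def : Dff fun γ : E0 M × M => g γ.2
  le_f : ∀ {q p}, P.le q p → P.le (f q) (f p)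
  le_g : ∀ {q p}, P.le q p → P.le (g q) (g p)
  gf : ∀ {p}, P.Cd p → g (f p) = p
  fg : ∀ {p}, P.Cd p → f (g p) = p
  f_one : f P.one = P.one

namespace Aut

variable {P : LPo M} (A : P.Aut)

instance dff_f {f : Γ → M} [Dff f] : Dff fun γ => A.f (f γ) := Dff.use1 A.f_def
instance dff_g {f : Γ → M} [Dff f] : Dff fun γ => A.g (f γ) := Dff.use1 A.g_def

/-- the inverse -/
def inv : P.Aut where
  f := A.g
  g := A.f
  f_def := A.g_def
  g_def := A.f_def
  le_f := A.le_g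
  le_g := A.le_f
  gf := A.fg
  fg := A.gf
  f_one := by
    have := A.gf P.cd_one
    rwa [A.f_one] at this

theorem cd_f {p : M} (h : P.Cd p) : P.Cd (A.f p) := P.left (A.le_f (P.le_refl h))

theorem cd_g {p : M} (h : P.Cd p) : P.Cd (A.g p) := P.left (A.le_g (P.le_refl h))

theorem g_le {q p : M} (hp : P.Cd p) (h : P.le q (A.f p)) : P.le (A.g q) p := by
  have := A.le_g h
  rwa [A.gf hp] at this

theorem f_le {q p : M} (hq : P.Cd q) (h : P.le (A.g q) p) : P.le q (A.f p) := by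
  have := A.le_f h
  rwa [A.fg hq] at this

theorem f_le' {q p : M} (hp : P.Cd p) (h : P.le q (A.g p)) : P.le (A.f q) p := by
  have := A.le_f h
  rwa [A.fg hp] at this

/-- the action on names -/
noncomputable def nm (x : M) : M := P.anm A.f x

instance dff_nm {f : Γ → M} [Dff f] : Dff fun γ => A.nm (f γ) := by
  unfold nm; infer_instance

theorem mem_nm {x t : M} : t ∈ A.nm x ↔ ∃ z s, op z s ∈ x ∧ P.Cd s ∧ t = op (A.nm z) (A.f s) := by
  unfold nm anm
  conv_lhs => rw [vrec_eq]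
  rw [mem_img]
  constructor
  · rintro ⟨w, hw, rfl⟩
    obtain ⟨hw, z, s, rfl, hs⟩ := mem_sep.1 hw
    refine ⟨z, s, hw, hs, ?_⟩
    rw [p1_op, p2_op, ap_lam ((mem_Vr_iff (isOrd_rk x)).2 (rk_op_left hw))]
  · rintro ⟨z, s, h, hs, rfl⟩
    refine ⟨op z s, mem_sep.2 ⟨h, z, s, rfl, hs⟩, ?_⟩
    rw [p1_op, p2_op, ap_lam ((mem_Vr_iff (isOrd_rk x)).2 (rk_op_left h))]

theorem op_mem_nm {x z s : M} (h : op z s ∈ x) (hs : P.Cd s) : op (A.nm z) (A.f s) ∈ A.nm x :=
  (A.mem_nm).2 ⟨z, s, h, hs, rfl⟩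

theorem fq {x y r : M} (h : P.Fq r x y) : P.Fq (A.f r) (A.nm x) (A.nm y) := by
  revert x y r
  have key : ∀ x : M, ∀ y r, P.Fq r x y → P.Fq (A.f r) (A.nm x) (A.nm y) := by
    refine rk_ind (fun x => ∀ y r, P.Fq r x y → P.Fq (A.f r) (A.nm x) (A.nm y)) fun x ih y r h => ?_
    have hr := h.cd
    rw [fq_iff']
    refine ⟨A.cd_f hr, fun t u htu r' h1 h2 => ?_, fun t u htu r' h1 h2 => ?_⟩
    · obtain ⟨z, s, hzs, hs, e⟩ := A.mem_nm.1 htu
      obtain ⟨rfl, rfl⟩ := op_inj.1 e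
      have h3 : P.Fm (A.g r') z y := (fq_iff'.1 h).2.1 z s hzs _ (A.g_le hr h1) (A.g_le hs h2)
      rw [fm_iff]
      refine ⟨P.left h1, fun r1 h4 => ?_⟩
      obtain ⟨r2, h5, w, s', hw, h6, h7⟩ := (fm_iff.1 h3).2 (A.g r1) (A.le_g h4)
      exact ⟨A.f r2, A.f_le' (P.left h4) h5, A.nm w, A.f s', A.op_mem_nm hw (P.right h6),
        A.le_f h6, ih z (rk_op_left hzs) w r2 h7⟩
    · obtain ⟨w, s, hws, hs, e⟩ := A.mem_nm.1 htu
      obtain ⟨rfl, rfl⟩ := op_inj.1 e
      have h3 : P.Fm (A.g r') w x := (fq_iff'.1 h).2.2 w s hws _ (A.g_le hr h1) (A.g_le hs h2)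
      rw [fm_iff]
      refine ⟨P.left h1, fun r1 h4 => ?_⟩
      obtain ⟨r2, h5, z, s', hz, h6, h7⟩ := (fm_iff.1 h3).2 (A.g r1) (A.le_g h4)
      exact ⟨A.f r2, A.f_le' (P.left h4) h5, A.nm z, A.f s', A.op_mem_nm hz (P.right h6),
        A.le_f h6, (ih z (rk_op_left hz) w r2 h7.symm).symm⟩
  exact fun {x y r} => key x y r

theorem fm {x y r : M} (h : P.Fm r x y) : P.Fm (A.f r) (A.nm x) (A.nm y) := by
  have hr := h.cd
  rw [fm_iff]
  refine ⟨A.cd_f hr, fun r1 h4 => ?_⟩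
  obtain ⟨r2, h5, z, s', hz, h6, h7⟩ := (fm_iff.1 h).2 (A.g r1) (A.g_le hr h4)
  exact ⟨A.f r2, A.f_le' (P.left h4) h5, A.nm z, A.f s', A.op_mem_nm hz (P.right h6),
    A.le_f h6, A.fq h7⟩

/-- names which differ only by forcing equal elements -/
theorem fq_of_mem {r x y : M} (hr : P.Cd r)
    (h1 : ∀ z s, op z s ∈ x → P.Cd s → ∃ w, op w s ∈ y ∧ P.Fq P.one z w)
    (h2 : ∀ w s, op w s ∈ y → P.Cd s → ∃ z, op z s ∈ x ∧ P.Fq P.one z w) : P.Fq r x y := by
  rw [fq_iff']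
  refine ⟨hr, fun z s hzs r' h3 h4 => ?_, fun w s hws r' h3 h4 => ?_⟩
  · obtain ⟨w, hw, h5⟩ := h1 z s hzs (P.right h4)
    have h6 : P.Fq r' z w := h5.mono (P.le_one (P.left h3))
    exact (Fm.of_mem hw h4).congr h6.symm (Fq.refl (P.left h3) y)
  · obtain ⟨z, hz, h5⟩ := h2 w s hws (P.right h4)
    have h6 : P.Fq r' z w := h5.mono (P.le_one (P.left h3))
    exact (Fm.of_mem hz h4).congr h6 (Fq.refl (P.left h3) x)

theorem nm_nm (x : M) : P.Fq P.one (A.nm (A.inv.nm x)) x := by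
  revert x
  refine rk_ind (fun x => P.Fq P.one (A.nm (A.inv.nm x)) x) fun x ih => ?_
  refine fq_of_mem P.cd_one (fun t u htu hu => ?_) fun z s hz hs => ?_
  · obtain ⟨t', u', h1, h2, e⟩ := A.mem_nm.1 htu
    obtain ⟨rfl, rfl⟩ := op_inj.1 e
    obtain ⟨z, s, h3, h4, e⟩ := A.inv.mem_nm.1 h1
    obtain ⟨rfl, rfl⟩ := op_inj.1 e
    refine ⟨z, ?_, ih z (rk_op_left h3)⟩
    have : A.f (A.inv.f s) = s := A.fg h4
    rw [this]
    exact h3
  · refine ⟨A.nm (A.inv.nm z), ?_, ih z (rk_op_left hz)⟩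
    have h1 := A.op_mem_nm (A.inv.op_mem_nm hz hs) (A.inv.cd_f hs)
    have : A.f (A.inv.f s) = s := A.fg hs
    rwa [this] at h1

theorem nm_chk (x : M) : A.nm (P.chk x) = P.chk x := by
  revert x
  refine rk_ind (fun x => A.nm (P.chk x) = P.chk x) fun x ih => ?_
  apply ext
  intro t
  rw [A.mem_nm, mem_chk]
  constructor
  · rintro ⟨z, s, h, -, rfl⟩
    obtain ⟨y, hy, e⟩ := (P.mem_chk).1 h
    obtain ⟨rfl, rfl⟩ := op_inj.1 e
    exact ⟨y, hy, by rw [ih y (rk_mem hy), A.f_one]⟩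
  · rintro ⟨y, hy, rfl⟩
    exact ⟨P.chk y, P.one, (P.mem_chk).2 ⟨y, hy, rfl⟩, P.cd_one, by rw [ih y (rk_mem hy), A.f_one]⟩

theorem fgr {x r : M} (h : P.Fgr r x) : P.Fgr (A.f r) (A.nm x) := by
  refine ⟨A.cd_f h.1, fun r1 h1 => ?_⟩
  obtain ⟨r2, h2, a, h3⟩ := h.2 (A.g r1) (A.g_le h.1 h1)
  refine ⟨A.f r2, A.f_le' (P.left h1) h2, a, ?_⟩
  have := A.fq h3
  rwa [A.nm_chk] at this

theorem frc_cons {φ : FmlU} {r x : M} {v : ℕ → M}
    (h : P.Frc φ r (fun i => A.nm (cons x v i))) :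
    P.Frc φ r (cons (A.nm x) fun i => A.nm (v i)) := by
  have : (fun i => A.nm (cons x v i)) = cons (A.nm x) fun i => A.nm (v i) := by
    funext i
    cases i <;> rfl
  rwa [this] at h

theorem frc_of_nm_nm {φ : FmlU} {r : M} {v : ℕ → M}
    (h : P.Frc φ r (fun i => A.nm (A.inv.nm (v i)))) : P.Frc φ r v :=
  h.congr fun i => (A.nm_nm (v i)).mono (P.le_one h.cd)

theorem frc_nm_nm {φ : FmlU} {r : M} {v : ℕ → M} (h : P.Frc φ r v) :
    P.Frc φ r (fun i => A.nm (A.inv.nm (v i))) :=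
  h.congr fun i => ((A.nm_nm (v i)).mono (P.le_one h.cd)).symm

/-- the forcing relation is moved by automorphisms -/
theorem frc {φ : FmlU} : ∀ (A : P.Aut) {r : M} {v : ℕ → M}, P.Frc φ r v →
    P.Frc φ (A.f r) (fun i => A.nm (v i)) := by
  induction φ with
  | mem i j => exact fun A r v h => A.fm h
  | eq i j => exact fun A r v h => A.fq h
  | cl i => exact fun A r v h => A.fgr h
  | neg a ih =>
    intro A r v h
    refine ⟨A.cd_f h.1, fun r' h1 h2 => h.2 (A.g r') (A.g_le h.1 h1) ?_⟩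
    have h3 := ih A.inv h2
    exact A.inv.frc_of_nm_nm h3
  | and a b iha ihb => exact fun A r v h => ⟨iha A h.1, ihb A h.2⟩
  | or a b iha ihb =>
    intro A r v h
    refine ⟨A.cd_f h.1, fun r' h1 => ?_⟩
    obtain ⟨r2, h2, h3⟩ := h.2 (A.g r') (A.g_le h.1 h1)
    refine ⟨A.f r2, A.f_le' (P.left h1) h2, ?_⟩
    rcases h3 with h3 | h3
    · exact Or.inl (iha A h3)
    · exact Or.inr (ihb A h3)
  | imp a b iha ihb =>
    intro A r v h
    refine ⟨A.cd_f h.1, fun r' h1 h2 => ?_⟩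
    have h3 := h.2 (A.g r') (A.g_le h.1 h1) (A.inv.frc_of_nm_nm (iha A.inv h2))
    have h4 := ihb A h3
    rwa [A.fg (P.left h1)] at h4
  | iff a b iha ihb =>
    intro A r v h
    refine ⟨A.cd_f h.1, fun r' h1 => ?_⟩
    have h3 := h.2 (A.g r') (A.g_le h.1 h1)
    constructor
    · intro h2
      have h4 := ihb A (h3.1 (A.inv.frc_of_nm_nm (iha A.inv h2)))
      rwa [A.fg (P.left h1)] at h4
    · intro h2
      have h4 := iha A (h3.2 (A.inv.frc_of_nm_nm (ihb A.inv h2)))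
      rwa [A.fg (P.left h1)] at h4
  | all a ih =>
    intro A r v h x
    have h1 := A.frc_cons (ih A (h (A.inv.nm x)))
    refine h1.congr fun i => ?_
    cases i with
    | zero => exact (A.nm_nm x).mono (P.le_one h1.cd)
    | succ i => exact Fq.refl h1.cd _
  | ex a ih =>
    intro A r v h
    refine ⟨A.cd_f h.1, fun r' h1 => ?_⟩
    obtain ⟨r2, h2, x, h3⟩ := h.2 (A.g r') (A.g_le h.1 h1)
    exact ⟨A.f r2, A.f_le' (P.left h1) h2, A.nm x, A.frc_cons (ih A h3)⟩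

/-- names of level `k` are not moved by automorphisms which are the identity on `PP k` -/
theorem nm_level {k : M} (hf : ∀ r ∈ P.PP k, A.f r = r) (x : M) (hx : P.Nm k x) :
    P.Fq P.one (A.nm x) x := by
  revert x
  have h0 : Dfp fun γ : E0 M × M => P.Nm k γ.2 → P.Fq P.one (A.nm γ.2) γ.2 := inferInstance
  refine rk_ind (fun x => P.Nm k x → P.Fq P.one (A.nm x) x) fun x ih hx => ?_
  refine fq_of_mem P.cd_one (fun t u htu hu => ?_) fun z s hz hs => ?_
  · obtain ⟨z, s, h1, h2, e⟩ := A.mem_nm.1 htu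
    obtain ⟨rfl, rfl⟩ := op_inj.1 e
    refine ⟨z, ?_, ih z (rk_op_left h1) (hx.of_mem h1)⟩
    rw [hf s (hx.mem_PP h1 h2)]
    exact h1
  · refine ⟨A.nm z, ?_, ih z (rk_op_left hz) (hx.of_mem hz)⟩
    have h1 := A.op_mem_nm hz hs
    rwa [hf s (hx.mem_PP hz hs)] at h1

/-- statements about names of level `k` are not moved -/
theorem frc_level {k : M} (hf : ∀ r ∈ P.PP k, A.f r = r) {φ : FmlU} {r : M} {v : ℕ → M}
    (hv : ∀ i, P.Nm k (v i)) (h : P.Frc φ r v) : P.Frc φ (A.f r) v :=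
  (A.frc h).congr fun i => (A.nm_level hf (v i) (hv i)).mono (P.le_one (A.cd_f h.cd))

end Aut

/-- homogeneity of the tails -/
def Hmg (P : LPo M) : Prop := ∀ k p q, IsOrd k → P.Cd p → P.Cd q → P.rs k p = P.rs k q →
  ∃ A : P.Aut, (∀ r ∈ P.PP k, A.f r = r) ∧ ∃ s, P.le s (A.f p) ∧ P.le s q

variable {P : LPo M}

/-- the forcing of statements about names of level `k` depends only on the restriction -/
theorem Hmg.frc (H : P.Hmg) {k : M} (hk : IsOrd k) {φ : FmlU} {v : ℕ → M}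
    (hv : ∀ i, P.Nm k (v i)) {q : M} (h : P.Frc φ q v) : P.Frc φ (P.rs k q) v := by
  by_contra hc
  have hq := h.cd
  have h1 : P.Cd (P.rs k q) := P.right (P.le_rs hk hq)
  have h2 : ∃ r', P.le r' (P.rs k q) ∧ ∀ r'', P.le r'' r' → ¬ P.Frc φ r'' v := by
    by_contra hn
    push Not at hn
    exact hc (Frc.loc h1 hn)
  obtain ⟨r', h3, h4⟩ := h2
  have h5 : P.rs k (P.rs k q) = P.rs k q := P.rs_rs hk hk (Sub.refl k) hq
  have h6 : P.le (P.rs k r') (P.rs k q) := by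
    have := P.rs_mono hk h3
    rwa [h5] at this
  have h7 : P.rs k r' ∈ P.PP k := P.rs_mem hk (P.left h3)
  have h8 := P.gl_le hk hq h7 h6
  obtain ⟨A, hA, s, hs1, hs2⟩ := H k (P.gl k (P.rs k r') q) r' hk (P.left h8) (P.left h3)
    (P.rs_gl hk hq h7 h6)
  exact h4 s hs2 ((A.frc_level hA hv (h.mono h8)).mono hs1)

end LPo

end Pool.Agent.IST
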