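import Pool.Agent.LP.Size
import Pool.Agent.IST.ChoiceA

/-!
# Swaps of coordinates

For two conditions `p`, `q` and a level `k` there is an involution `s` of a set of coordinates of
stages not in `k`, which preserves the stages, such that `s` moves the coordinates of `p` of stages
not in `k` off `dom p` and `dom q`.
-/

set_option synthInstance.maxSize 100000

namespace Pool.Agent.IST

open Pool.Agent.BVM

section

variable {M : Type} [SetModel M] {Γ : Type} [IsCtx Γ M]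

/-- the involution given by an injection whose range is disjoint from its domain -/
noncomputable def swp (f : M) : M := f ∪ inv f

instance swp.dff {f : Γ → M} [Dff f] : Dff fun γ => swp (f γ) := by
  unfold swp; infer_instance

section

variable {f : M} (hf : IsFun f) (hi : Inj f) (hd : ∀ x ∈ dom f, x ∉ ran f)

theorem op_mem_swp {f x y : M} : op x y ∈ swp f ↔ op x y ∈ f ∨ op y x ∈ f := by
  unfold swp
  rw [mem_union, op_mem_inv]

theorem dom_swp {f : M} : dom (swp f) = dom f ∪ ran f := by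
  apply ext
  intro x
  rw [mem_union, mem_dom, mem_dom, mem_ran, ← exists_or]
  exact exists_congr fun y => op_mem_swp

theorem ran_swp {f : M} : ran (swp f) = dom f ∪ ran f := by
  apply ext
  intro x
  rw [mem_union, mem_dom, mem_ran, mem_ran, ← exists_or]
  exact exists_congr fun y => op_mem_swp.trans or_comm

include hf hi hd

theorem isFun_swp : IsFun (swp f) := by
  refine ⟨fun w hw => ?_, fun x y y' h h' => ?_⟩
  · rcases mem_union.1 hw with h | h
    · exact hf.1 w h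
    · exact isRel_inv w h
  · rw [op_mem_swp] at h h'
    rcases h with h | h <;> rcases h' with h' | h'
    · exact hf.2 x y y' h h'
    · exact absurd (mem_ran.2 ⟨y', h'⟩) (hd x (mem_dom.2 ⟨y, h⟩))
    · exact absurd (mem_ran.2 ⟨y, h⟩) (hd x (mem_dom.2 ⟨y', h'⟩))
    · refine hi y (mem_dom.2 ⟨x, h⟩) y' (mem_dom.2 ⟨x, h'⟩) ?_
      rw [hf.ap_eq h, hf.ap_eq h']

theorem ap_swp {x : M} (hx : x ∈ dom f) : ap (swp f) x = ap f x :=
  (isFun_swp hf hi hd).ap_eq (op_mem_swp.2 (Or.inl (hf.op_ap_mem hx)))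

theorem ap_swp' {x : M} (hx : x ∈ dom f) : ap (swp f) (ap f x) = x :=
  (isFun_swp hf hi hd).ap_eq (op_mem_swp.2 (Or.inr (hf.op_ap_mem hx)))

theorem ap_swp_swp {x : M} (hx : x ∈ dom (swp f)) : ap (swp f) (ap (swp f) x) = x := by
  rw [dom_swp, mem_union, hf.mem_ran_iff] at hx
  rcases hx with hx | ⟨y, hy, rfl⟩
  · rw [ap_swp hf hi hd hx, ap_swp' hf hi hd hx]
  · rw [ap_swp' hf hi hd hy, ap_swp hf hi hd hy]

theorem bij_swp : Bij (swp f) (dom (swp f)) (dom (swp f)) := by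
  refine ⟨⟨isFun_swp hf hi hd, rfl, fun x hx => ?_⟩, fun x hx y hy e => ?_, ?_⟩
  · have h1 := (isFun_swp hf hi hd).ap_mem_ran hx
    rwa [ran_swp, ← dom_swp] at h1
  · rw [← ap_swp_swp hf hi hd hx, e, ap_swp_swp hf hi hd hy]
  · rw [ran_swp, dom_swp]

end

end

section

variable {M : Type} [SetModel M] {Γ : Type} [IsCtx Γ M] [BitC M]

/-- literal extensions are stronger -/
theorem cle_of_sub {q p : M} (hq : Cnd q) (hp : Cnd p) (h : p ⊆ q) : cle q p := by
  have key : ∀ x ∈ dom p, x ∈ dom q ∧ ap q x = ap p x := fun x hx => by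
    have h1 := h _ (hp.1.op_ap_mem hx)
    exact ⟨mem_dom.2 ⟨_, h1⟩, hq.1.ap_eq h1⟩
  refine ⟨hq, hp, fun x hx => (key x hx).1, fun x hx => ?_⟩
  rw [(key x hx).2]
  exact FE_refl (hp.isOrd hx) (rst_mem (hp.isOrd hx) hq) (hp.nm hx)

/-- the union of two conditions which agree on the common part of the domains -/
theorem cnd_union_ap {p q : M} (hp : Cnd p) (hq : Cnd q)
    (h : ∀ x ∈ dom p, x ∈ dom q → ap p x = ap q x) : Cnd (p ∪ q) := by
  have hf : IsFun (p ∪ q) := by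
    refine ⟨fun w hw => ?_, fun x y y' h1 h2 => ?_⟩
    · rcases mem_union.1 hw with h1 | h1
      · exact hp.1.1 w h1
      · exact hq.1.1 w h1
    · rcases mem_union.1 h1 with h1 | h1 <;> rcases mem_union.1 h2 with h2 | h2
      · exact hp.1.2 x y y' h1 h2
      · rw [← hp.1.ap_eq h1, ← hq.1.ap_eq h2]
        exact h x (mem_dom.2 ⟨y, h1⟩) (mem_dom.2 ⟨y', h2⟩)
      · rw [← hp.1.ap_eq h2, ← hq.1.ap_eq h1]
        exact (h x (mem_dom.2 ⟨y', h2⟩) (mem_dom.2 ⟨y, h1⟩)).symm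
      · exact hq.1.2 x y y' h1 h2
  have hdom : ∀ x, x ∈ dom (p ∪ q) ↔ x ∈ dom p ∨ x ∈ dom q := by
    intro x
    rw [mem_dom, mem_dom, mem_dom, ← exists_or]
    exact exists_congr fun y => mem_union
  refine ⟨hf, fun x hx => ?_, fun d hd hom => ?_⟩
  · rcases (hdom x).1 hx with h1 | h1
    · rw [hf.ap_eq (mem_union.2 (Or.inl (hp.1.op_ap_mem h1)))]
      exact hp.2.1 x h1
    · rw [hf.ap_eq (mem_union.2 (Or.inr (hq.1.op_ap_mem h1)))]
      exact hq.2.1 x h1
  · refine (isOrd_card _).mem_of_sub_of_mem hd.isOrd (card_mono fun x hx => ?_)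
      (card_union_mem hd.infCard (hp.2.2 d hd hom) (hq.2.2 d hd hom))
    rw [mem_sep, hdom] at hx
    rw [mem_union, mem_sep, mem_sep]
    exact hx.1.imp (fun h1 => ⟨h1, hx.2⟩) fun h1 => ⟨h1, hx.2⟩

/-- two conditions with the same restriction to `k` and disjoint domains above `k` -/
theorem compat_of_disjoint {k p q : M} (hp : Cnd p) (hq : Cnd q) (h : rst k p = rst k q)
    (hd : ∀ x ∈ dom p, p1 x ∉ k → x ∉ dom q) : Cnd (p ∪ q) ∧ cle (p ∪ q) p ∧ cle (p ∪ q) q := by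
  have hc : Cnd (p ∪ q) := by
    refine cnd_union_ap hp hq fun x hx hx' => ?_
    have h1 : p1 x ∈ k := by
      by_contra h1
      exact hd x hx h1 hx'
    rw [← ap_rst hp.1 h1, h, ap_rst hq.1 h1]
  exact ⟨hc, cle_of_sub hc hp sub_union_left, cle_of_sub hc hq sub_union_right⟩

/-- the number of coordinates of the stage `j` -/
theorem SR.card_stage {p j : M} (h : SR p) (hj : IsOrd j) :
    card (sep (dom p) fun x => p1 x = j) ∈ alp j := by
  have h1 := h (alp j) (isReg_alp hj) (om_mem_alp hj)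
  refine (isCard_card _).1.mem_of_sub_of_mem (isOrd_alp hj) (card_mono fun x hx => ?_) h1
  rw [mem_sep] at hx ⊢
  refine ⟨hx.1, ?_⟩
  rw [hx.2]
  exact Sub.refl _

/-- there is room for a second copy at every stage -/
theorem leq_free {p q j : M} (hp : SR p) (hq : SR q) (hj : IsOrd j) :
    Leq (sep (dom p) fun x => p1 x = j)
      (sep (prod (sing j) (DD j)) fun x => x ∉ dom p ∧ x ∉ dom q) := by
  by_contra h
  have hA := hp.card_stage hj
  have hB := hq.card_stage hj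
  have hC := (isOrd_alp hj).trans (card_mem_iff.2 h) hA
  have hU := card_union_mem (infCard_alp hj) hC (card_union_mem (infCard_alp hj) hA hB)
  rw [card_mem_iff_not_leq (infCard_alp hj).1] at hU
  refine hU ((leq_of_sub (alp_sub_DD hj)).trans ⟨lam (DD j) fun ξ => op j ξ,
    maps_lam fun ξ hξ => ?_, fun x hx y hy e => ?_⟩)
  · have h1 : op j ξ ∈ prod (sing j) (DD j) := op_mem_prod.2 ⟨mem_sing.2 rfl, hξ⟩
    rw [mem_union, mem_union, mem_sep, mem_sep, mem_sep, p1_op]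
    by_cases h2 : op j ξ ∈ dom p
    · exact Or.inr (Or.inl ⟨h2, rfl⟩)
    · by_cases h3 : op j ξ ∈ dom q
      · exact Or.inr (Or.inr ⟨h3, rfl⟩)
      · exact Or.inl ⟨h1, h2, h3⟩
  · rw [dom_lam] at hx hy
    rw [ap_lam hx, ap_lam hy] at e
    exact (op_inj.1 e).2

/-- an involution which moves the coordinates of `p` of stages not in `k` off `dom p` and
`dom q` -/
theorem exists_swap {k p q : M} (hp : Cnd p) (hq : Cnd q) :
    ∃ s, Bij s (dom s) (dom s) ∧
      (∀ x ∈ dom s, IsX x ∧ p1 (ap s x) = p1 x ∧ p1 x ∉ k ∧ ap s (ap s x) = x) ∧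
      ∀ x ∈ dom p, p1 x ∉ k → x ∈ dom s ∧ ap s x ∉ dom p ∧ ap s x ∉ dom q := by
  obtain ⟨E, -, -, hE⟩ := exists_choice_cls (img (sep (dom p) fun x => p1 x ∉ k) fun x => p1 x)
    (fun j g => Maps g (sep (dom p) fun x => p1 x = j)
      (sep (prod (sing j) (DD j)) fun x => x ∉ dom p ∧ x ∉ dom q) ∧ Inj g) (by
    intro j hj
    obtain ⟨x, hx, rfl⟩ := mem_img.1 hj
    exact leq_free hp.2.2 hq.2.2 (hp.2.1 x (mem_sep.1 hx).1).1.isOrd)
  have hd : Dff fun γ : E0 M × M => ap (ap E (p1 γ.2)) γ.2 := inferInstance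
  have hff : IsFun (lam (sep (dom p) fun x => p1 x ∉ k) fun x => ap (ap E (p1 x)) x) := isFun_lam
  have hfd : dom (lam (sep (dom p) fun x => p1 x ∉ k) fun x => ap (ap E (p1 x)) x) =
    sep (dom p) fun x => p1 x ∉ k := dom_lam
  have key : ∀ x ∈ dom p, p1 x ∉ k → ap (ap E (p1 x)) x ∈
      sep (prod (sing (p1 x)) (DD (p1 x))) fun x => x ∉ dom p ∧ x ∉ dom q := by
    intro x hx hxk
    exact (hE (p1 x) (mem_img.2 ⟨x, mem_sep.2 ⟨hx, hxk⟩, rfl⟩)).1.ap_mem (mem_sep.2 ⟨hx, rfl⟩)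
  have hap : ∀ x ∈ dom p, p1 x ∉ k →
      ap (lam (sep (dom p) fun x => p1 x ∉ k) fun x => ap (ap E (p1 x)) x) x =
        ap (ap E (p1 x)) x := fun x hx hxk => ap_lam (mem_sep.2 ⟨hx, hxk⟩)
  generalize (lam (sep (dom p) fun x => p1 x ∉ k) fun x => ap (ap E (p1 x)) x) = f
    at hff hfd hap
  have hp1 : ∀ x ∈ dom p, p1 x ∉ k → p1 (ap f x) = p1 x := by
    intro x hx hxk
    rw [hap x hx hxk]
    have h1 := (mem_sep.1 (key x hx hxk)).1
    obtain ⟨a, ha, b, hb, e⟩ := mem_prod.1 h1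
    rw [e, p1_op, mem_sing.1 ha]
  have hout : ∀ x ∈ dom p, p1 x ∉ k → ap f x ∉ dom p ∧ ap f x ∉ dom q := by
    intro x hx hxk
    rw [hap x hx hxk]
    exact (mem_sep.1 (key x hx hxk)).2
  have hX : ∀ x ∈ dom p, p1 x ∉ k → IsX (ap f x) := by
    intro x hx hxk
    rw [hap x hx hxk]
    have h1 := (mem_sep.1 (key x hx hxk)).1
    obtain ⟨a, ha, b, hb, e⟩ := mem_prod.1 h1
    rw [mem_sing] at ha
    subst ha
    exact ⟨p1 x, (hp.2.1 x hx).1.isOrd, b, hb, e⟩
  have hinj : Inj f := by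
    intro x hx y hy e
    rw [hfd, mem_sep] at hx hy
    have h1 : p1 x = p1 y := by rw [← hp1 x hx.1 hx.2, e, hp1 y hy.1 hy.2]
    rw [hap x hx.1 hx.2, hap y hy.1 hy.2, ← h1] at e
    have h2 := hE (p1 x) (mem_img.2 ⟨x, mem_sep.2 hx, rfl⟩)
    refine h2.2 x ?_ y ?_ e
    · rw [h2.1.dom_eq]
      exact mem_sep.2 ⟨hx.1, rfl⟩
    · rw [h2.1.dom_eq]
      exact mem_sep.2 ⟨hy.1, h1.symm⟩
  have hdis : ∀ x ∈ dom f, x ∉ ran f := by
    intro x hx hx'
    obtain ⟨y, hy, rfl⟩ := hff.mem_ran_iff.1 hx'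
    rw [hfd, mem_sep] at hx hy
    exact (hout y hy.1 hy.2).1 hx.1
  refine ⟨swp f, bij_swp hff hinj hdis, fun x hx => ?_, fun x hx hxk => ?_⟩
  · refine ⟨?_, ?_, ?_, ap_swp_swp hff hinj hdis hx⟩
    · rw [dom_swp, mem_union, hff.mem_ran_iff] at hx
      rcases hx with hx | ⟨y, hy, rfl⟩
      · rw [hfd, mem_sep] at hx
        exact (hp.2.1 x hx.1).1
      · rw [hfd, mem_sep] at hy
        exact hX y hy.1 hy.2
    · rw [dom_swp, mem_union, hff.mem_ran_iff] at hx
      rcases hx with hx | ⟨y, hy, rfl⟩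
      · rw [ap_swp hff hinj hdis hx]
        rw [hfd, mem_sep] at hx
        exact hp1 x hx.1 hx.2
      · rw [ap_swp' hff hinj hdis hy]
        rw [hfd, mem_sep] at hy
        exact (hp1 y hy.1 hy.2).symm
    · rw [dom_swp, mem_union, hff.mem_ran_iff] at hx
      rcases hx with hx | ⟨y, hy, rfl⟩
      · rw [hfd, mem_sep] at hx
        exact hx.2
      · rw [hfd, mem_sep] at hy
        rw [hp1 y hy.1 hy.2]
        exact hy.2
  · have h1 : x ∈ dom f := by
      rw [hfd, mem_sep]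
      exact ⟨hx, hxk⟩
    refine ⟨?_, ?_⟩
    · rw [dom_swp, mem_union]
      exact Or.inl h1
    · rw [ap_swp hff hinj hdis h1]
      exact hout x hx hxk

end

end Pool.Agent.IST
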