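import Pool.Agent.LP.Inst
import Pool.Agent.LP.Homog
import Pool.Agent.LP.Perm
import Pool.Agent.LP.Swap

/-!
# Homogeneity of the tails of the iteration
-/

set_option synthInstance.maxSize 100000

namespace Pool.Agent.IST

open Pool.Agent.BVM

section

variable {M : Type} [SetModel M] [BitC M]

/-- the automorphism of the iteration given by a permutation of coordinates -/
noncomputable def autS {σ : M} (h : Pm σ) : (IT M).Aut where
  f := ac σ
  g := ac (inv σ)
  f_def := inferInstance
  g_def := inferInstance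
  le_f := fun h1 => ac_mono h h1
  le_g := fun h1 => ac_mono h.inv h1
  gf := fun hp => ac_inv_ac h hp
  fg := fun hp => ac_ac_inv h hp
  f_one := ac_empty σ

/-- homogeneity of the tails -/
theorem hmg : (IT M).Hmg := by
  intro k p q hk hp hq he
  have hp : Cnd p := hp
  have hq : Cnd q := hq
  have he : rst k p = rst k q := he
  obtain ⟨s, h1, h2, h3⟩ := exists_swap (k := k) hp hq
  have hs : Pm s := ⟨h1, fun x hx => ⟨(h2 x hx).1, (h2 x hx).2.1⟩⟩
  have hk' : ∀ x ∈ dom s, p1 x ∉ k := fun x hx => (h2 x hx).2.2.1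
  have hfix : ∀ r ∈ CP k, ac s r = r := fun r hr => ac_level hk hk' hr
  have hap := cnd_ac hs hp
  have h4 : rst k (ac s p) = rst k q := by
    rw [rst_ac hs hp, hfix _ (rst_mem hk hp), he]
  obtain ⟨-, h5, h6⟩ := compat_of_disjoint hap hq h4 fun y hy hyk => by
    obtain ⟨x, hx, rfl⟩ := (mem_dom_ac hp).1 hy
    rw [hs.p1_px] at hyk
    obtain ⟨h7, -, h8⟩ := h3 x hx hyk
    rw [px_of_mem h7]
    exact h8
  exact ⟨autS hs, hfix, ac s p ∪ q, h5, h6⟩

end

end Pool.Agent.IST
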