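import Pool.Agent.LP.Homog
import Pool.Agent.LP.Inst
import Pool.Agent.LP.Perm
import Pool.Agent.LP.Swap

/-!
# Automorphisms of the iteration, homogeneity of the tails
-/

set_option synthInstance.maxSize 100000

namespace Pool.Agent.IST

open Pool.Agent.BVM

section

variable {M : Type} [SetModel M] [BitC M]

/-- the automorphism of the iteration given by a permutation of the coordinates -/
noncomputable def autC (σ : M) (hσ : Pm σ) : (IT M).Aut where
  f := ac σ
  g := ac (inv σ)
  f_def := inferInstance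
  g_def := inferInstance
  le_f := fun h => ac_mono hσ h
  le_g := fun h => ac_mono hσ.inv h
  gf := fun h => ac_inv_ac hσ h
  fg := fun h => ac_ac_inv hσ h
  f_one := ac_empty σ

theorem autC_f {σ : M} (hσ : Pm σ) : (autC σ hσ).f = ac σ := rfl

/-- the action on names, with the permutation as a variable -/
theorem autC_nm {σ : M} (hσ : Pm σ) (x : M) : (autC σ hσ).nm x = (IT M).anm (ac σ) x := rfl

/-- the tails of the iteration are homogeneous -/
theorem hmg_IT : (IT M).Hmg := by
  intro k p q hk hp hq h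
  have hp' : Cnd p := hp
  have hq' : Cnd q := hq
  have h' : rst k p = rst k q := h
  obtain ⟨s, h1, h2, h3⟩ := exists_swap (k := k) hp' hq'
  have hs : Pm s := ⟨h1, fun x hx => ⟨(h2 x hx).1, (h2 x hx).2.1⟩⟩
  have h4 : ∀ r ∈ CP k, ac s r = r := fun r hr =>
    ac_level hk (fun x hx => (h2 x hx).2.2.1) hr
  have h5 := cnd_ac hs hp'
  have h6 : rst k (ac s p) = rst k q := by
    rw [rst_ac hs hp', h4 _ (rst_mem hk hp'), h']
  have h7 := compat_of_disjoint h5 hq' h6 fun y hy hyk => by
    obtain ⟨x, hx, rfl⟩ := (mem_dom_ac hp').1 hy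
    rw [hs.p1_px] at hyk
    obtain ⟨h8, -, h9⟩ := h3 x hx hyk
    rw [px_of_mem h8]
    exact h9
  exact ⟨autC s hs, h4, _, h7.2.1, h7.2.2⟩

/-- forcing of statements about names of level `k` depends only on the restriction to `k` -/
theorem frc_rst {k : M} (hk : IsOrd k) {φ : FmlU} {v : ℕ → M} (hv : ∀ i, (IT M).Nm k (v i))
    {q : M} (h : (IT M).Frc φ q v) : (IT M).Frc φ (rst k q) v := hmg_IT.frc hk hv h

end

end Pool.Agent.IST
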