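import Pool.Agent.LP.PermI

/-!
# Permutations of one stage

`stP i τ`: the permutation of the coordinates of the stage `i` given by a permutation `τ` of a
subset of `DD i`.
-/

set_option synthInstance.maxSize 100000

namespace Pool.Agent.IST

open Pool.Agent.BVM

section

variable {M : Type} [SetModel M] [BitC M] {Γ : Type} [IsCtx Γ M]

/-- the permutation of the coordinates of the stage `i` given by `τ` -/
noncomputable def stP (i τ : M) : M := lam (prod (sing i) (dom τ)) fun x => op i (ap τ (p2 x))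

omit [BitC M] in
theorem stP_dff {f g : Γ → M} [Dff f] [Dff g] : Dff fun γ => stP (f γ) (g γ) := by
  unfold stP; infer_instance

instance stP.dff {f g : Γ → M} [Dff f] [Dff g] : Dff fun γ => stP (f γ) (g γ) := stP_dff

omit [BitC M] in
theorem mem_dom_stP {i τ x : M} : x ∈ dom (stP i τ) ↔ ∃ ξ ∈ dom τ, x = op i ξ := by
  unfold stP
  rw [dom_lam, mem_prod]
  simp only [mem_sing]
  constructor
  · rintro ⟨j, rfl, ξ, hξ, rfl⟩
    exact ⟨ξ, hξ, rfl⟩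
  · rintro ⟨ξ, hξ, rfl⟩
    exact ⟨i, rfl, ξ, hξ, rfl⟩

omit [BitC M] in
theorem ap_stP {i τ ξ : M} (h : ξ ∈ dom τ) : ap (stP i τ) (op i ξ) = op i (ap τ ξ) := by
  unfold stP
  rw [ap_lam, p2_op]
  exact op_mem_prod.2 ⟨mem_sing.2 rfl, h⟩

theorem px_stP {i τ ξ : M} (h : ξ ∈ dom τ) : px (stP i τ) (op i ξ) = op i (ap τ ξ) := by
  rw [px_of_mem (mem_dom_stP.2 ⟨ξ, h, rfl⟩), ap_stP h]

theorem px_stP_of_ne {i τ x : M} (h : ∀ ξ ∈ dom τ, x ≠ op i ξ) : px (stP i τ) x = x :=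
  px_of_notMem fun hx => by
    obtain ⟨ξ, hξ, e⟩ := mem_dom_stP.1 hx
    exact h ξ hξ e

theorem pm_stP {i τ : M} (hi : IsOrd i) (hτ : Bij τ (dom τ) (dom τ)) (hd : dom τ ⊆ DD i) :
    Pm (stP i τ) := by
  have h1 : IsFun (stP i τ) := isFun_lam
  refine ⟨⟨⟨h1, rfl, fun x hx => ?_⟩, fun x hx y hy e => ?_, ?_⟩, fun x hx => ?_⟩
  · obtain ⟨ξ, hξ, rfl⟩ := mem_dom_stP.1 hx
    rw [ap_stP hξ]
    exact mem_dom_stP.2 ⟨_, hτ.1.ap_mem hξ, rfl⟩
  · obtain ⟨ξ, hξ, rfl⟩ := mem_dom_stP.1 hx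
    obtain ⟨ζ, hζ, rfl⟩ := mem_dom_stP.1 hy
    rw [ap_stP hξ, ap_stP hζ] at e
    rw [hτ.2.1 ξ hξ ζ hζ (op_inj.1 e).2]
  · apply ext
    intro y
    rw [h1.mem_ran_iff]
    constructor
    · rintro ⟨x, hx, rfl⟩
      obtain ⟨ξ, hξ, rfl⟩ := mem_dom_stP.1 hx
      rw [ap_stP hξ]
      exact mem_dom_stP.2 ⟨_, hτ.1.ap_mem hξ, rfl⟩
    · intro hy
      obtain ⟨ζ, hζ, rfl⟩ := mem_dom_stP.1 hy
      have : ζ ∈ ran τ := by
        rw [hτ.2.2]
        exact hζ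
      obtain ⟨ξ, hξ, rfl⟩ := hτ.1.isFun.mem_ran_iff.1 this
      exact ⟨op i ξ, mem_dom_stP.2 ⟨ξ, hξ, rfl⟩, (ap_stP hξ).symm⟩
  · obtain ⟨ξ, hξ, rfl⟩ := mem_dom_stP.1 hx
    rw [ap_stP hξ, p1_op, p1_op]
    exact ⟨⟨i, hi, ξ, hd ξ hξ, rfl⟩, rfl⟩

omit [BitC M] in
theorem p1_of_mem_dom_stP {i τ x : M} (hx : x ∈ dom (stP i τ)) : p1 x = i := by
  obtain ⟨ξ, -, rfl⟩ := mem_dom_stP.1 hx
  rw [p1_op]

/-- conditions of level `i` are not moved -/
theorem ac_stP_level {i τ p : M} (hi : IsOrd i) (hp : p ∈ CP i) : ac (stP i τ) p = p :=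
  ac_level hi (fun x hx => by
    rw [p1_of_mem_dom_stP hx]
    exact mem_irrefl i) hp

/-- names at the stage `i` are not moved -/
theorem nc_stP_level {i τ n : M} (hi : IsOrd i) (hn : n ∈ Nm i) : nc (stP i τ) n = n :=
  nc_level hi (fun x hx => by
    rw [p1_of_mem_dom_stP hx]
    exact mem_irrefl i) hn

/-- conditions of level `sc i` whose coordinates are fixed are not moved -/
theorem ac_stP_eq {i τ p : M} (hi : IsOrd i) (hp : p ∈ CP (sc i))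
    (h : ∀ ξ ∈ dom τ, op i ξ ∈ dom p → ap τ ξ = ξ) : ac (stP i τ) p = p := by
  refine ac_eq_self hi (fun x hx => ?_) hp fun x hx => ?_
  · rw [p1_of_mem_dom_stP hx]
    exact mem_irrefl i
  · by_cases h1 : x ∈ dom (stP i τ)
    · obtain ⟨ξ, hξ, rfl⟩ := mem_dom_stP.1 h1
      rw [px_stP hξ, h ξ hξ hx]
    · exact px_of_notMem h1

/-- the value of the image at the stage `i` -/
theorem ap_ac_stP {i τ p ξ : M} (hi : IsOrd i) (hτ : Bij τ (dom τ) (dom τ)) (hd : dom τ ⊆ DD i)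
    (hp : Cnd p) (hξ : ξ ∈ dom τ) (hx : op i ξ ∈ dom p) :
    ap (ac (stP i τ) p) (op i (ap τ ξ)) = ap p (op i ξ) := by
  have h1 := ap_ac (pm_stP hi hτ hd) hp hx
  rw [px_stP hξ] at h1
  rw [h1]
  have h2 := hp.nm hx
  rw [p1_op] at h2
  exact nc_stP_level hi h2

/-- names of level `i` are not moved -/
theorem nm_stP_level {i τ x : M} (hi : IsOrd i) (hτ : Bij τ (dom τ) (dom τ)) (hd : dom τ ⊆ DD i)
    (hx : (IT M).Nm i x) : (IT M).Fq (IT M).one ((IT M).anm (ac (stP i τ)) x) x :=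
  (autC _ (pm_stP hi hτ hd)).nm_level (fun _ hr => ac_stP_level hi hr) x hx

end

end Pool.Agent.IST
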