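import Pool.Agent.LP.PureC

/-!
# Pure extensions

`PureA`: pure extensions, mixing, lower bounds of chains; `PureB`: fusion; `PureC`: pure decision.
-/
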