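import Pool.Agent.LP.Basic
import Pool.Agent.IST.GCh
import Pool.Agent.IST.Subst
import Pool.Agent.IST.CardMul
import Pool.Agent.IST.Reg

/-!
# Pure extensions

`q` is a pure extension of `p` at `i` if `q ≤ p` and `rs i q = rs i p`.  Consequences of `loc` and
`amal`: mixing, closure under descending sequences of length `< al i`, pure decision.
-/

set_option synthInstance.maxSize 100000

namespace Pool.Agent.IST

open Pool.Agent.BVM

section

variable {M : Type} [SetModel M]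

theorem card_sing_mem {κ a : M} (h : InfCard κ) : card (sing a) ∈ κ :=
  h.2 _ (fin_of_leq (mem_om.2 isNat_empty.sc) (leq_sing (ne_empty_iff.2 ⟨∅, self_mem_sc ∅⟩)))

theorem card_sc_mem {κ a : M} (h : InfCard κ) (ha : card a ∈ κ) : card (sc a) ∈ κ := by
  unfold sc
  exact card_union_mem h ha (card_sing_mem h)

end

namespace LPo

variable {M : Type} [SetModel M] {Γ : Type} [IsCtx Γ M]

theorem pick_spec [GCh M] {P : M → Prop} [Dfp fun γ : E0 M × M => P γ.2] (h : ∃ x, P x) :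
    P (pick P) := IST.pick_spec h

variable {P : LPo M}

/-- pure extension -/
def Pe (P : LPo M) (i q p : M) : Prop := P.le q p ∧ P.rs i q = P.rs i p

instance dfp_Pe {f g h : Γ → M} [Dff f] [Dff g] [Dff h] :
    Dfp fun γ => P.Pe (f γ) (g γ) (h γ) := by unfold Pe; infer_instance

theorem Pe.refl {i p : M} (hp : P.Cd p) : P.Pe i p p := ⟨P.le_refl hp, rfl⟩

theorem Pe.trans {i r q p : M} (h : P.Pe i r q) (h' : P.Pe i q p) : P.Pe i r p :=
  ⟨P.le_trans h.1 h'.1, h.2.trans h'.2⟩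

theorem gl_mono {i r r' p p' : M} (hi : IsOrd i) (hr : P.le r' r) (hp : P.le p' p)
    (hrm : r ∈ P.PP i) (hrm' : r' ∈ P.PP i) (h : P.le r (P.rs i p)) (h' : P.le r' (P.rs i p')) :
    P.le (P.gl i r' p') (P.gl i r p) :=
  P.le_gl hi (P.right hp) hrm h (P.le_trans (P.gl_le_left hi (P.left hp) hrm' h') hr)
    (P.le_trans (P.gl_le hi (P.left hp) hrm' h') hp)

theorem le_gl_rs {i p : M} (hi : IsOrd i) (hp : P.Cd p) : P.le p (P.gl i (P.rs i p) p) :=
  P.le_gl hi hp (P.rs_mem hi hp) (P.le_refl ((P.mem_PP hi).1 (P.rs_mem hi hp)).1)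
    (P.le_rs hi hp) (P.le_refl hp)

/-- mixing of a family of extensions of `p` -/
theorem mixK {i j p K d : M} (hi : IsOrd i) (hj : IsOrd j) (hij : i ⊆ j)
    (hK : card K ∈ P.al i) (hp : p ∈ P.PP j) (hdj : ∀ k ∈ K, ap d k ∈ P.PP j)
    (hdp : ∀ k ∈ K, P.le (ap d k) p)
    (hdir : ∀ k ∈ K, ∀ k' ∈ K, ∀ r ∈ P.PP i, P.le r (P.rs i (ap d k)) →
      P.le r (P.rs i (ap d k')) → ∃ r' ∈ P.PP i, P.le r' r ∧ ∃ l ∈ K,
        P.le r' (P.rs i (ap d l)) ∧ P.le (P.gl i r' (ap d l)) (ap d k) ∧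
        P.le (P.gl i r' (ap d l)) (ap d k')) :
    ∃ q ∈ P.PP j, P.Pe i q p ∧ ∀ k ∈ K, ∀ r ∈ P.PP i, P.le r (P.rs i (ap d k)) →
      P.le (P.gl i r q) (ap d k) := by
  classical
  have hpc : P.Cd p := ((P.mem_PP hj).1 hp).1
  have hpr := P.rs_mem hi hpc
  have hprc : P.Cd (P.rs i p) := ((P.mem_PP hi).1 hpr).1
  have hd : Dff fun γ : E0 M × M => if γ.2 = K then p else ap d γ.2 := inferInstance
  have hdA : ap (lam (sc K) fun k => if k = K then p else ap d k) K = p := by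
    rw [ap_lam (self_mem_sc K), if_pos rfl]
  have hne : ∀ k ∈ K, k ≠ K := fun k hk e => mem_irrefl k (by rw [e] at hk; rw [e]; exact hk)
  have hda : ∀ k ∈ K, ap (lam (sc K) fun k => if k = K then p else ap d k) k = ap d k :=
    fun k hk => by rw [ap_lam (sub_sc K k hk), if_neg (hne k hk)]
  obtain ⟨q, hq, hqr, hqk⟩ := P.amal (i := i) (j := j) (K := sc K)
    (d := lam (sc K) fun k => if k = K then p else ap d k) (b := P.rs i p) hi hj hij isFun_lam
    (by rw [dom_lam]) (card_sc_mem (P.reg_al hi).infCard hK) hpr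
    (fun k hk => by
      rcases mem_sc.1 hk with hk | rfl
      · rw [hda k hk]
        exact hdj k hk
      · rw [hdA]
        exact hp)
    (fun k hk k' hk' r hr hrb h h' => by
      rcases mem_sc.1 hk with hk1 | rfl
      · rw [hda k hk1] at h ⊢
        rcases mem_sc.1 hk' with hk1' | rfl
        · rw [hda k' hk1'] at h' ⊢
          obtain ⟨r', hr', hle, l, hl, h1, h2, h3⟩ := hdir k hk1 k' hk1' r hr h h'
          refine ⟨r', hr', hle, l, sub_sc K l hl, ?_⟩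
          rw [hda l hl]
          exact ⟨h1, h2, h3⟩
        · have hg := P.gl_le hi (P.left (hdp k hk1)) hr h
          refine ⟨r, hr, P.le_refl (P.left h), k, hk, ?_⟩
          rw [hda k hk1, hdA]
          exact ⟨h, hg, P.le_trans hg (hdp k hk1)⟩
      · rcases mem_sc.1 hk' with hk1' | rfl
        · rw [hda k' hk1'] at h' ⊢
          have hg := P.gl_le hi (P.left (hdp k' hk1')) hr h'
          refine ⟨r, hr, P.le_refl (P.left h), k', hk', ?_⟩
          rw [hda k' hk1', hdA]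
          exact ⟨h', P.le_trans hg (hdp k' hk1'), hg⟩
        · rw [hdA] at h ⊢
          have hg := P.gl_le hi hpc hr h
          refine ⟨r, hr, P.le_refl (P.left h), k', hk', ?_⟩
          rw [hdA]
          exact ⟨h, hg, hg⟩)
  have hqc : P.Cd q := ((P.mem_PP hj).1 hq).1
  have hqp : P.le q p := by
    have h1 := hqk K (self_mem_sc K) (P.rs i p) hpr (P.le_refl hprc) (by
      rw [hdA]; exact P.le_refl hprc)
    rw [hdA, ← hqr] at h1
    exact P.le_trans (le_gl_rs hi hqc) h1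
  refine ⟨q, hq, ⟨hqp, hqr⟩, fun k hk r hr h => ?_⟩
  have h1 := hqk k (sub_sc K k hk) r hr (P.le_trans h (P.rs_mono hi (hdp k hk))) (by
    rw [hda k hk]; exact h)
  rwa [hda k hk] at h1

/-- mixing: every extension is given by a pure extension and a condition of level `i` -/
theorem mix1 {i j s p : M} (hi : IsOrd i) (hj : IsOrd j) (hij : i ⊆ j) (hs : s ∈ P.PP j)
    (hp : p ∈ P.PP j) (h : P.le s p) :
    ∃ q ∈ P.PP j, P.Pe i q p ∧ P.le (P.gl i (P.rs i s) q) s := by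
  have hap : ∀ k ∈ sing (∅ : M), ap (lam (sing ∅) fun _ => s) k = s := fun k hk => ap_lam hk
  obtain ⟨q, hq, hqp, h1⟩ := mixK (P := P) (i := i) (j := j) (p := p) (K := sing ∅)
    (d := lam (sing ∅) fun _ => s) hi hj hij (card_sing_mem (P.reg_al hi).infCard) hp
    (fun k hk => by rw [hap k hk]; exact hs) (fun k hk => by rw [hap k hk]; exact h)
    (fun k hk k' hk' r hr h1 h2 => by
      rw [hap k hk] at h1 ⊢
      rw [hap k' hk']
      refine ⟨r, hr, P.le_refl (P.left h1), k, hk, ?_⟩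
      rw [hap k hk]
      exact ⟨h1, P.gl_le hi (P.left h) hr h1, P.gl_le hi (P.left h) hr h1⟩)
  refine ⟨q, hq, hqp, ?_⟩
  have h0 : (∅ : M) ∈ sing ∅ := mem_sing.2 rfl
  have h2 := h1 ∅ h0 (P.rs i s) (P.rs_mem hi (P.left h)) (by
    rw [hap ∅ h0]
    exact P.le_refl ((P.mem_PP hi).1 (P.rs_mem hi (P.left h))).1)
  rwa [hap ∅ h0] at h2

/-- mixing of two pure extensions -/
theorem mix2 {i j a u w p : M} (hi : IsOrd i) (hj : IsOrd j) (hij : i ⊆ j)
    (hc : card (P.PP i) ∈ P.al i) (hu : u ∈ P.PP j) (hw : w ∈ P.PP j) (hp : p ∈ P.PP j)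
    (ha : a ∈ P.PP i) (h1 : P.Pe i u p) (h2 : P.Pe i w p) :
    ∃ q ∈ P.PP j, P.Pe i q p ∧ (∀ r ∈ P.PP i, P.le r a → P.le r (P.rs i p) →
      P.le (P.gl i r q) u) ∧ ∀ r ∈ P.PP i, (¬ ∃ t, P.le t r ∧ P.le t a) → P.le r (P.rs i p) →
      P.le (P.gl i r q) w := by
  classical
  have huc := P.left h1.1
  have hwc := P.left h2.1
  have hd : Dff fun γ : E0 M × M => if P.le γ.2 a then P.gl i γ.2 u else P.gl i γ.2 w :=
    inferInstance
  have hK : ∀ k, k ∈ sep (P.PP i) (fun k => P.le k (P.rs i p) ∧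
      (P.le k a ∨ ¬ ∃ t, P.le t k ∧ P.le t a)) ↔ k ∈ P.PP i ∧ P.le k (P.rs i p) ∧
      (P.le k a ∨ ¬ ∃ t, P.le t k ∧ P.le t a) := fun k => mem_sep
  generalize hKe : sep (P.PP i) (fun k => P.le k (P.rs i p) ∧
      (P.le k a ∨ ¬ ∃ t, P.le t k ∧ P.le t a)) = K at hK
  have hKc : card K ∈ P.al i := (isOrd_card K).mem_of_sub_of_mem (P.reg_al hi).isOrd
    (card_mono fun k hk => ((hK k).1 hk).1) hc
  have hv : ∀ k ∈ K, ∃ v, P.Pe i v p ∧ v ∈ P.PP j ∧
      ap (lam K fun k => if P.le k a then P.gl i k u else P.gl i k w) k = P.gl i k v ∧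
      ((P.le k a ∧ v = u) ∨ (¬ P.le k a ∧ v = w)) := by
    intro k hk
    rw [ap_lam hk]
    by_cases h : P.le k a
    · rw [if_pos h]
      exact ⟨u, h1, hu, rfl, Or.inl ⟨h, rfl⟩⟩
    · rw [if_neg h]
      exact ⟨w, h2, hw, rfl, Or.inr ⟨h, rfl⟩⟩
  have hvr : ∀ {k v}, k ∈ K → P.Pe i v p → P.le k (P.rs i v) := fun {k v} hk hv => by
    rw [hv.2]
    exact ((hK k).1 hk).2.1
  obtain ⟨q, hq, hqp, h3⟩ := mixK (P := P) (i := i) (j := j) (p := p) (K := K)
    (d := lam K fun k => if P.le k a then P.gl i k u else P.gl i k w) hi hj hij hKc hp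
    (fun k hk => by
      obtain ⟨v, hv1, hv2, hv3, -⟩ := hv k hk
      rw [hv3]
      exact P.gl_mem hi hj hij hv2 ((hK k).1 hk).1 (hvr hk hv1))
    (fun k hk => by
      obtain ⟨v, hv1, hv2, hv3, -⟩ := hv k hk
      rw [hv3]
      exact P.le_trans (P.gl_le hi (P.left hv1.1) ((hK k).1 hk).1 (hvr hk hv1)) hv1.1)
    (fun k hk k' hk' r hr h3 h4 => by
      obtain ⟨v, hv1, hv2, hv3, hv4⟩ := hv k hk
      obtain ⟨v', hv1', hv2', hv3', hv4'⟩ := hv k' hk'
      have hkP := ((hK k).1 hk).1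
      have hkP' := ((hK k').1 hk').1
      rw [hv3, P.rs_gl hi (P.left hv1.1) hkP (hvr hk hv1)] at h3
      rw [hv3', P.rs_gl hi (P.left hv1'.1) hkP' (hvr hk' hv1')] at h4
      have hvv : v = v' := by
        rcases hv4 with ⟨g1, g2⟩ | ⟨g1, g2⟩
        · rcases hv4' with ⟨g3, g4⟩ | ⟨g3, g4⟩
          · rw [g2, g4]
          · rcases ((hK k').1 hk').2.2 with g5 | g5
            · exact absurd g5 g3
            · exact absurd ⟨r, h4, P.le_trans h3 g1⟩ g5
        · rcases hv4' with ⟨g3, g4⟩ | ⟨g3, g4⟩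
          · rcases ((hK k).1 hk).2.2 with g5 | g5
            · exact absurd g5 g1
            · exact absurd ⟨r, h3, P.le_trans h4 g3⟩ g5
          · rw [g2, g4]
      subst hvv
      have hrg : P.le r (P.rs i (P.gl i k v)) := by
        rw [P.rs_gl hi (P.left hv1.1) hkP (hvr hk hv1)]
        exact h3
      have hgc : P.Cd (P.gl i k v) := P.left (P.gl_le hi (P.left hv1.1) hkP (hvr hk hv1))
      have hg := P.gl_le hi hgc hr hrg
      refine ⟨r, hr, P.le_refl (P.left h3), k, hk, ?_⟩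
      rw [hv3, hv3']
      refine ⟨hrg, hg, P.le_gl hi (P.left hv1.1) hkP' (hvr hk' hv1')
        (P.le_trans (P.gl_le_left hi hgc hr hrg) h4)
        (P.le_trans hg (P.gl_le hi (P.left hv1.1) hkP (hvr hk hv1)))⟩)
  have h5 : ∀ r ∈ K, ∀ v, ap (lam K fun k => if P.le k a then P.gl i k u else P.gl i k w) r =
      P.gl i r v → P.Pe i v p → P.le (P.gl i r q) v := by
    intro r hr v hv3 hv1
    have hrP := ((hK r).1 hr).1
    have := h3 r hr r hrP (by
      rw [hv3, P.rs_gl hi (P.left hv1.1) hrP (hvr hr hv1)]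
      exact P.le_refl ((P.mem_PP hi).1 hrP).1)
    rw [hv3] at this
    exact P.le_trans this (P.gl_le hi (P.left hv1.1) hrP (hvr hr hv1))
  refine ⟨q, hq, hqp, fun r hr hra hrp => ?_, fun r hr hra hrp => ?_⟩
  · have hrK := (hK r).2 ⟨hr, hrp, Or.inl hra⟩
    exact h5 r hrK u (by rw [ap_lam hrK, if_pos hra]) h1
  · have hrK := (hK r).2 ⟨hr, hrp, Or.inr hra⟩
    have hra' : ¬ P.le r a := fun h => hra ⟨r, P.le_refl (P.left hrp), h⟩
    exact h5 r hrK w (by rw [ap_lam hrK, if_neg hra']) h2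

/-- descending sequences of pure extensions of `p` have lower bounds -/
theorem chainK {i j lm f p : M} (hi : IsOrd i) (hj : IsOrd j) (hij : i ⊆ j) (hl : IsOrd lm)
    (hlm : lm ∈ P.al i) (hp : p ∈ P.PP j) (hf : ∀ x ∈ lm, ap f x ∈ P.PP j)
    (hr : ∀ x ∈ lm, P.Pe i (ap f x) p) (hd : ∀ x ∈ lm, ∀ y ∈ x, P.le (ap f x) (ap f y)) :
    ∃ q ∈ P.PP j, P.Pe i q p ∧ ∀ x ∈ lm, P.le q (ap f x) := by
  have hpc : P.Cd p := ((P.mem_PP hj).1 hp).1
  have hdd : ∀ x ∈ lm, ∀ y ∈ lm, y ⊆ x → P.le (ap f x) (ap f y) := by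
    intro x hx y hy h
    rcases ((hl.mem hy).sub_iff (hl.mem hx)).1 h with h1 | h1
    · exact hd x hx y h1
    · rw [h1]
      exact P.le_refl (P.left (hr x hx).1)
  obtain ⟨q, hq, hqp, h1⟩ := mixK (P := P) (i := i) (j := j) (p := p) (K := lm) (d := f) hi hj hij
    (card_mem_of_mem (P.reg_al hi).isCard hlm) hp hf (fun x hx => (hr x hx).1)
    (fun x hx y hy r hr' h1 h2 => by
      rcases (hl.mem hx).total (hl.mem hy) with h3 | h3
      · have hg := P.gl_le hi (P.left (hr y hy).1) hr' h2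
        exact ⟨r, hr', P.le_refl (P.left h1), y, hy, h2, P.le_trans hg (hdd y hy x hx h3), hg⟩
      · have hg := P.gl_le hi (P.left (hr x hx).1) hr' h1
        exact ⟨r, hr', P.le_refl (P.left h1), x, hx, h1, hg, P.le_trans hg (hd x hx y h3)⟩)
  refine ⟨q, hq, hqp, fun x hx => ?_⟩
  have h2 := h1 x hx (P.rs i q) (P.rs_mem hi (P.left hqp.1)) (by
    rw [hqp.2, (hr x hx).2]
    exact P.le_refl ((P.mem_PP hi).1 (P.rs_mem hi hpc)).1)
  exact P.le_trans (le_gl_rs hi (P.left hqp.1)) h2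

/-- descending sequences of pure extensions have lower bounds -/
theorem chain {i j lm f b : M} (hi : IsOrd i) (hj : IsOrd j) (hij : i ⊆ j) (hl : IsOrd lm)
    (hlm : lm ∈ P.al i) (hf : Maps f lm (P.PP j)) (hb : b ∈ P.PP i)
    (hr : ∀ x ∈ lm, P.rs i (ap f x) = b) (hd : ∀ x ∈ lm, ∀ y ∈ x, P.le (ap f x) (ap f y)) :
    ∃ q ∈ P.PP j, P.rs i q = b ∧ ∀ x ∈ lm, P.le q (ap f x) := by
  have hbc : P.Cd b := ((P.mem_PP hi).1 hb).1
  have hbb : P.rs i b = b := ((P.mem_PP hi).1 hb).2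
  have hbj : b ∈ P.PP j := P.mono_PP hi hj hij b hb
  have hfc : ∀ x ∈ lm, P.Cd (ap f x) := fun x hx => ((P.mem_PP hj).1 (hf.ap_mem hx)).1
  obtain ⟨q, hq, hqp, h⟩ := chainK (P := P) (i := i) (j := j) (p := b) (f := f) hi hj hij hl hlm
    hbj (fun x hx => hf.ap_mem hx) (fun x hx => ⟨by
      have := P.le_rs hi (hfc x hx)
      rwa [hr x hx] at this, by rw [hr x hx, hbb]⟩) hd
  exact ⟨q, hq, hqp.2.trans hbb, h⟩

end LPo

end Pool.Agent.IST
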