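import Pool.Agent.LP.PureA

/-!
# Iterated pure extensions
-/

set_option synthInstance.maxSize 100000

namespace Pool.Agent.IST

open Pool.Agent.BVM

namespace LPo

variable {M : Type} [SetModel M] {Γ : Type} [IsCtx Γ M]

variable {P : LPo M}

theorem pe_comp {i q q' p : M} (h : P.Pe i q q') (h' : P.Pe i q' p) : P.Pe i q p :=
  ⟨P.le_trans h.1 h'.1, h.2.trans h'.2⟩

theorem pe_self {i p : M} (h : P.Cd p) : P.Pe i p p := ⟨P.le_refl h, rfl⟩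

/-- a family of conditions has a common level -/
theorem exists_level_all {ξ : M} (s : M → M) [hs : Dff fun γ : E0 M × M => s γ.2]
    (h : ∀ ζ ∈ ξ, P.Cd (s ζ)) : ∃ j, IsOrd j ∧ ∀ ζ ∈ ξ, s ζ ∈ P.PP j := by
  have ds : ∀ {Δ : Type} [IsCtx Δ M] {u : Δ → M} [Dff u], Dff fun δ => s (u δ) :=
    fun {_ _ _ _} => Dff.use1 hs
  obtain ⟨j, hj, h1⟩ := exists_ord_bound ξ (fun ζ => lst fun α => s ζ ∈ P.PP α)
    fun ζ hζ => by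
      obtain ⟨i, hi, h2⟩ := P.exists_level (h ζ hζ)
      exact (lst_spec (P := fun α => s ζ ∈ P.PP α) hi h2).1
  refine ⟨j, hj, fun ζ hζ => ?_⟩
  obtain ⟨i, hi, h2⟩ := P.exists_level (h ζ hζ)
  have h3 := lst_spec (P := fun α => s ζ ∈ P.PP α) hi h2
  exact P.mono_PP h3.1 hj (hj.sub_of_mem (h1 ζ hζ)) _ h3.2.1

/-- lower bounds of descending sequences of pure extensions -/
theorem exists_lb {i j p : M} (hi : IsOrd i) (hj : IsOrd j) (hij : i ⊆ j)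
    (hp : p ∈ P.PP j) {ξ : M} (hξ : IsOrd ξ) (hξl : ξ ∈ P.al i) (s : M → M)
    [hs : Dff fun γ : E0 M × M => s γ.2]
    (h : ∀ ζ ∈ ξ, s ζ ∈ P.PP j ∧ P.Pe i (s ζ) p ∧ ∀ η ∈ ζ, P.le (s ζ) (s η)) :
    ∃ b ∈ P.PP j, P.Pe i b p ∧ ∀ ζ ∈ ξ, P.le b (s ζ) := by
  have hpc := ((P.mem_PP hj).1 hp).1
  by_cases h0 : ξ = ∅
  · subst h0
    exact ⟨p, hp, pe_self hpc, fun ζ hζ => absurd hζ (notMem_empty ζ)⟩
  obtain ⟨q, hq, h1, h2⟩ := chain (P := P) (f := lam ξ s) hi hj hij hξ hξl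
    (maps_lam fun ζ hζ => (h ζ hζ).1) (P.rs_mem hi hpc)
    (fun ζ hζ => by rw [ap_lam hζ]; exact (h ζ hζ).2.1.2)
    (fun ζ hζ η hη => by
      rw [ap_lam hζ, ap_lam (hξ.trans hη hζ)]
      exact (h ζ hζ).2.2 η hη)
  have h3 : ∀ ζ ∈ ξ, P.le q (s ζ) := fun ζ hζ => by
    have := h2 ζ hζ
    rwa [ap_lam hζ] at this
  obtain ⟨ζ, hζ⟩ := ne_empty_iff.1 h0
  exact ⟨q, hq, ⟨P.le_trans (h3 ζ hζ) (h ζ hζ).2.1.1, h1⟩, h3⟩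

/-- iterated pure extensions in a class `C` -/
theorem fuse_aux [GCh M] {i p lm : M} (hl : IsOrd lm)
    (C : M → Prop) [hC : Dfp fun γ : E0 M × M => C γ.2]
    (hlb : ∀ ξ, IsOrd ξ → (ξ ∈ lm ∨ ξ = lm) → ∀ (s : M → M) [Dff fun γ : E0 M × M => s γ.2],
      (∀ ζ ∈ ξ, C (s ζ) ∧ P.Pe i (s ζ) p ∧ ∀ η ∈ ζ, P.le (s ζ) (s η)) →
      ∃ b, C b ∧ P.Pe i b p ∧ ∀ ζ ∈ ξ, P.le b (s ζ))
    (R : M → M → Prop) [hRd : Dfp fun γ : (E0 M × M) × M => R γ.1.2 γ.2]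
    (hm : ∀ x ∈ lm, ∀ q q', R x q → P.Pe i q' q → R x q')
    (hR : ∀ x ∈ lm, ∀ q, C q → P.Pe i q p → ∃ q', C q' ∧ P.Pe i q' q ∧ R x q') :
    ∃ q, C q ∧ P.Pe i q p ∧ ∀ x ∈ lm, R x q := by
  have dC : ∀ {Δ : Type} [IsCtx Δ M] {u : Δ → M} [Dff u], Dfp fun δ => C (u δ) :=
    fun {_ _ _ _} => Dfp.use1 hC
  have dR : ∀ {Δ : Type} [IsCtx Δ M] {u v : Δ → M} [Dff u] [Dff v], Dfp fun δ => R (u δ) (v δ) :=
    fun {_ _ _ _ _ _} => Dfp.use2 hRd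
  obtain ⟨s, hs⟩ : ∃ s : M → M, s = fun x => erec (fun ξ f => pick fun q' => C q' ∧ P.Pe i q' p ∧
      (∀ ζ ∈ ξ, P.le q' (ap f ζ)) ∧ R ξ q') x := ⟨_, rfl⟩
  have ds0 : Dff fun γ : E0 M × M => s γ.2 := by rw [hs]; infer_instance
  have heq : ∀ ξ, s ξ = pick fun q' => C q' ∧ P.Pe i q' p ∧
      (∀ ζ ∈ ξ, P.le q' (s ζ)) ∧ R ξ q' := by
    intro ξ
    have h1 : s ξ = pick fun q' => C q' ∧ P.Pe i q' p ∧
        (∀ ζ ∈ ξ, P.le q' (ap (lam ξ fun ζ => s ζ) ζ)) ∧ R ξ q' := by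
      rw [hs]
      dsimp only
      rw [erec_eq]
    rw [h1]
    congr 1
    funext q'
    have : (∀ ζ ∈ ξ, P.le q' (ap (lam ξ fun ζ => s ζ) ζ)) = ∀ ζ ∈ ξ, P.le q' (s ζ) := by
      apply propext
      exact forall_congr' fun ζ => imp_congr_right fun hζ => by rw [ap_lam hζ]
    rw [this]
  have key : ∀ ξ : M, IsOrd ξ → (ξ ∈ lm → C (s ξ) ∧ P.Pe i (s ξ) p ∧
      (∀ ζ ∈ ξ, P.le (s ξ) (s ζ)) ∧ R ξ (s ξ)) := by
    have ds : ∀ {Δ : Type} [IsCtx Δ M] {u : Δ → M} [Dff u], Dff fun δ => s (u δ) :=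
      fun {_ _ _ _} => Dff.use1 ds0
    refine ord_ind (fun ξ => ξ ∈ lm → C (s ξ) ∧ P.Pe i (s ξ) p ∧
      (∀ ζ ∈ ξ, P.le (s ξ) (s ζ)) ∧ R ξ (s ξ)) fun ξ hξ ih hξl => ?_
    obtain ⟨b, hb1, hb2, hb3⟩ := hlb ξ hξ (Or.inl hξl) s fun ζ hζ => by
      have := ih ζ hζ (hl.trans hζ hξl)
      exact ⟨this.1, this.2.1, this.2.2.1⟩
    obtain ⟨q', h1, h2, h3⟩ := hR ξ hξl b hb1 hb2
    have h4 : ∃ q', C q' ∧ P.Pe i q' p ∧ (∀ ζ ∈ ξ, P.le q' (s ζ)) ∧ R ξ q' :=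
      ⟨q', h1, pe_comp h2 hb2, fun ζ hζ => P.le_trans h2.1 (hb3 ζ hζ), h3⟩
    have h5 := pick_spec h4
    rw [← heq ξ] at h5
    exact h5
  obtain ⟨q, h1, h2, h3⟩ := hlb lm hl (Or.inr rfl) s fun ζ hζ => by
    have := key ζ (hl.mem hζ) hζ
    exact ⟨this.1, this.2.1, this.2.2.1⟩
  refine ⟨q, h1, h2, fun x hx => ?_⟩
  have := key x (hl.mem hx) hx
  exact hm x hx _ _ this.2.2.2 ⟨h3 x hx, h2.2.trans this.2.1.2.symm⟩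

/-- iterated pure extensions: `R ξ q q'` is a requirement -/
theorem fuse [GCh M] {i p lm : M} (hi : IsOrd i) (hp : P.Cd p) (hl : IsOrd lm)
    (hlm : lm ∈ P.al i) (R : M → M → Prop) [Dfp fun γ : (E0 M × M) × M => R γ.1.2 γ.2]
    (hm : ∀ x ∈ lm, ∀ q q', R x q → P.Pe i q' q → R x q')
    (hR : ∀ x ∈ lm, ∀ q, P.Pe i q p → ∃ q', P.Pe i q' q ∧ R x q') :
    ∃ q, P.Pe i q p ∧ ∀ x ∈ lm, R x q := by
  have ho := (P.reg_al hi).isOrd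
  have hlb : ∀ ξ, IsOrd ξ → (ξ ∈ lm ∨ ξ = lm) →
      ∀ (s : M → M) [Dff fun γ : E0 M × M => s γ.2],
      (∀ ζ ∈ ξ, True ∧ P.Pe i (s ζ) p ∧ ∀ η ∈ ζ, P.le (s ζ) (s η)) →
      ∃ b, True ∧ P.Pe i b p ∧ ∀ ζ ∈ ξ, P.le b (s ζ) := by
    intro ξ hξ hξl s hs h
    obtain ⟨j, hj, h1⟩ := exists_level_all (P := P) s fun ζ hζ => P.left (h ζ hζ).2.1.1
    obtain ⟨k, hk, h2⟩ := P.exists_level hp
    have hu := isOrd_union hj (isOrd_union hk hi)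
    have hξa : ξ ∈ P.al i := by
      rcases hξl with h3 | rfl
      · exact ho.trans h3 hlm
      · exact hlm
    obtain ⟨b, -, h3, h4⟩ := exists_lb (P := P) hi hu
      (Sub.trans sub_union_right sub_union_right)
      (P.mono_PP hk hu (Sub.trans sub_union_left sub_union_right) p h2) hξ hξa s
      fun ζ hζ => ⟨P.mono_PP hj hu sub_union_left _ (h1 ζ hζ), (h ζ hζ).2⟩
    exact ⟨b, trivial, h3, h4⟩
  obtain ⟨q, -, h1, h2⟩ := fuse_aux (P := P) (p := p) hl (fun _ => True) hlb R hm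
    fun x hx q _ hq => by
      obtain ⟨q', h1, h2⟩ := hR x hx q hq
      exact ⟨q', trivial, h1, h2⟩
  exact ⟨q, h1, h2⟩

/-- iterated pure extensions inside `PP j` -/
theorem fuse_bdd [GCh M] {i j p lm : M} (hi : IsOrd i) (hj : IsOrd j) (hij : i ⊆ j)
    (hp : p ∈ P.PP j) (hl : IsOrd lm) (hlm : lm ∈ P.al i) (R : M → M → Prop)
    [Dfp fun γ : (E0 M × M) × M => R γ.1.2 γ.2]
    (hm : ∀ x ∈ lm, ∀ q q', R x q → P.Pe i q' q → R x q')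
    (hR : ∀ x ∈ lm, ∀ q ∈ P.PP j, P.Pe i q p → ∃ q' ∈ P.PP j, P.Pe i q' q ∧ R x q') :
    ∃ q ∈ P.PP j, P.Pe i q p ∧ ∀ x ∈ lm, R x q := by
  have ho := (P.reg_al hi).isOrd
  refine fuse_aux (P := P) (p := p) hl (fun q => q ∈ P.PP j)
    (fun ξ hξ hξl s hs h => ?_) R hm hR
  have hξa : ξ ∈ P.al i := by
    rcases hξl with h3 | rfl
    · exact ho.trans h3 hlm
    · exact hlm
  exact exists_lb (P := P) hi hj hij hp hξ hξa s h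

end LPo

end Pool.Agent.IST
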