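import Pool.Agent.LP.PureB

/-!
# Pure decision
-/

set_option synthInstance.maxSize 100000

namespace Pool.Agent.IST

open Pool.Agent.BVM

namespace LPo

variable {M : Type} [SetModel M] {Γ : Type} [IsCtx Γ M] {P : LPo M}

theorem rs_of_mem_ {i r : M} (hi : IsOrd i) (h : r ∈ P.PP i) : P.rs i r = r :=
  ((P.mem_PP hi).1 h).2

theorem cd_of_mem_ {i r : M} (hi : IsOrd i) (h : r ∈ P.PP i) : P.Cd r := ((P.mem_PP hi).1 h).1

theorem pd1_bdd [GCh M] {i j p : M} (hi : IsOrd i) (hj : IsOrd j) (hij : i ⊆ j)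
    (hc : card (P.PP i) ∈ P.al i) (hpj : p ∈ P.PP j)
    (D : M → Prop) [hDd : Dfp fun γ : E0 M × M => D γ.2] (ho : ∀ u u', D u → P.le u' u → D u')
    (hD : ∀ a ∈ P.PP i, P.le a (P.rs i p) → ∃ u ∈ P.PP j, P.le u (P.gl i a p) ∧ D u) :
    ∃ q ∈ P.PP j, P.Pe i q p ∧ ∀ a ∈ P.PP i, P.le a (P.rs i p) → ∃ a' ∈ P.PP i, P.le a' a ∧
      D (P.gl i a' q) := by
  have hp : P.Cd p := ((P.mem_PP hj).1 hpj).1
  have hDd' : ∀ {Θ : Type} [IsCtx Θ M] {a : Θ → M} [Dff a], Dfp fun γ => D (a γ) :=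
    fun {Θ} _ {a} _ => Dfp.use1 hDd
  obtain ⟨g, hg⟩ := (eqn_card (P.PP i)).symm
  have hlo := isOrd_card (P.PP i)
  have hb : P.rs i p ∈ P.PP i := P.rs_mem hi hp
  -- the chosen extensions
  let F : M → M := fun a => pick fun u => u ∈ P.PP j ∧ P.le u (P.gl i a p) ∧ D u
  have hFd : ∀ {Θ : Type} [IsCtx Θ M] {a : Θ → M} [Dff a], Dff fun γ => F (a γ) := by
    intro Θ _ a _
    simp only [F]; infer_instance
  have hF0 : ∀ a ∈ P.PP i, P.le a (P.rs i p) → F a ∈ P.PP j ∧ P.le (F a) (P.gl i a p) ∧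
      D (F a) := by
    intro a ha hab
    exact pick_spec (P := fun u => u ∈ P.PP j ∧ P.le u (P.gl i a p) ∧ D u) (hD a ha hab)
  have hF : ∀ a ∈ P.PP i, P.le a (P.rs i p) → P.le (F a) (P.gl i a p) ∧ D (F a) :=
    fun a ha hab => (hF0 a ha hab).2
  have hFcd : ∀ a ∈ P.PP i, P.le a (P.rs i p) → P.Cd (F a) := fun a ha hab =>
    P.left (hF a ha hab).1
  have hFp : ∀ a ∈ P.PP i, P.le a (P.rs i p) → P.le (F a) p := fun a ha hab =>
    P.le_trans (hF a ha hab).1 (P.gl_le hi hp ha hab)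
  have hFa : ∀ a ∈ P.PP i, P.le a (P.rs i p) → P.le (P.rs i (F a)) a := by
    intro a ha hab
    have := P.rs_mono hi (hF a ha hab).1
    rwa [P.rs_gl hi hp ha hab] at this
  have hFj : ∀ a ∈ P.PP i, P.le a (P.rs i p) → F a ∈ P.PP j := fun a ha hab =>
    (hF0 a ha hab).1
  -- the index set
  let X : M → M → Prop := fun ξ c => P.le (ap g ξ) (P.rs i p) ∧ P.le c (P.rs i (F (ap g ξ))) ∧
    ∀ η ∈ ξ, P.le (ap g η) (P.rs i p) → ¬ ∃ s, P.le s c ∧ P.le s (P.rs i (F (ap g η)))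
  have hXd : ∀ {Θ : Type} [IsCtx Θ M] {a b : Θ → M} [Dff a] [Dff b],
      Dfp fun γ => X (a γ) (b γ) := by
    intro Θ _ a b _ _
    simp only [X]; infer_instance
  have hXu : ∀ ξ ∈ card (P.PP i), ∀ η ∈ card (P.PP i), ∀ c c' r, X ξ c → X η c' → P.le r c →
      P.le r c' → ξ = η := by
    intro ξ hξ η hη c c' r h1 h2 hr hr'
    rcases (hlo.mem hξ).cmp (hlo.mem hη) with h | h | h
    · exact absurd ⟨r, hr', P.le_trans hr h1.2.1⟩ (h2.2.2 ξ h h1.1)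
    · exact h
    · exact absurd ⟨r, hr, P.le_trans hr' h2.2.1⟩ (h1.2.2 η h h2.1)
  set K := sep (P.PP i) (fun c => P.le c (P.rs i p) ∧ ∃ ξ ∈ card (P.PP i), X ξ c) with hK
  have hKm : ∀ {c}, c ∈ K ↔ c ∈ P.PP i ∧ P.le c (P.rs i p) ∧ ∃ ξ ∈ card (P.PP i), X ξ c :=
    fun {c} => mem_sep
  have hdense : ∀ r ∈ P.PP i, P.le r (P.rs i p) → ∃ c ∈ K, P.le c r := by
    intro r hr hrb
    obtain ⟨ξ0, hξ0, e0⟩ := hg.surj hr
    have hdfp : Dfp fun δ : E0 M × M => δ.2 ∈ card (P.PP i) ∧ P.le (ap g δ.2) (P.rs i p) ∧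
        ∃ s, P.le s r ∧ P.le s (P.rs i (F (ap g δ.2))) := by infer_instance
    obtain ⟨ξ, hξo, ⟨hξ, h1, s, hs1, hs2⟩, h2⟩ := exists_min (fun ξ => ξ ∈ card (P.PP i) ∧
      P.le (ap g ξ) (P.rs i p) ∧ ∃ s, P.le s r ∧ P.le s (P.rs i (F (ap g ξ)))) (hlo.mem hξ0)
      ⟨hξ0, by rw [e0]; exact hrb, P.rs i (F r), hFa r hr hrb, by
        rw [e0]; exact P.le_refl (cd_of_mem_ hi (P.rs_mem hi (hFcd r hr hrb)))⟩
    have hgξ := hg.1.ap_mem hξ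
    have hFc := hFcd _ hgξ h1
    have h3 : P.le (P.rs i s) r := by
      have := P.rs_mono hi hs1
      rwa [rs_of_mem_ hi hr] at this
    have h4 : P.le (P.rs i s) (P.rs i (F (ap g ξ))) := by
      have := P.rs_mono hi hs2
      rwa [P.rs_rs hi hi (Sub.refl _) hFc] at this
    refine ⟨P.rs i s, hKm.2 ⟨P.rs_mem hi (P.left hs1), P.le_trans h3 hrb, ξ, hξ, h1, h4,
      fun η hη h5 ⟨s', h6, h7⟩ => ?_⟩, h3⟩
    exact h2 η hη ⟨hlo.trans hη hξ, h5, s', P.le_trans h6 h3, h7⟩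
  -- the family
  let xi : M → M := fun c => the fun ξ => ξ ∈ card (P.PP i) ∧ X ξ c
  have hxid : ∀ {Θ : Type} [IsCtx Θ M] {a : Θ → M} [Dff a], Dff fun γ => xi (a γ) := by
    intro Θ _ a _
    simp only [xi]; infer_instance
  have hxi : ∀ c ∈ K, xi c ∈ card (P.PP i) ∧ X (xi c) c := by
    intro c hc'
    obtain ⟨h1, h2, ξ, hξ, h3⟩ := hKm.1 hc'
    have hcr := P.le_refl (cd_of_mem_ hi h1)
    exact the_spec (P := fun ξ => ξ ∈ card (P.PP i) ∧ X ξ c)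
      ⟨ξ, ⟨hξ, h3⟩, fun η h4 => hXu η h4.1 ξ hξ c c c h4.2 h3 hcr hcr⟩
  set d := lam K (fun c => P.gl i c (F (ap g (xi c)))) with hd
  have hdap : ∀ {c}, c ∈ K → ap d c = P.gl i c (F (ap g (xi c))) := fun h => ap_lam h
  have hfacts : ∀ c ∈ K, c ∈ P.PP i ∧ P.Cd (F (ap g (xi c))) ∧
      P.le c (P.rs i (F (ap g (xi c)))) ∧ P.le (F (ap g (xi c))) p ∧ D (F (ap g (xi c))) ∧
      F (ap g (xi c)) ∈ P.PP j := by
    intro c hc'
    obtain ⟨h1, h2⟩ := hxi c hc'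
    have h3 := hg.1.ap_mem h1
    exact ⟨(hKm.1 hc').1, hFcd _ h3 h2.1, h2.2.1, hFp _ h3 h2.1, (hF _ h3 h2.1).2,
      hFj _ h3 h2.1⟩
  have hrsd : ∀ c ∈ K, P.rs i (ap d c) = c := by
    intro c hc'
    obtain ⟨h1, h2, h3, -⟩ := hfacts c hc'
    rw [hdap hc', P.rs_gl hi h2 h1 h3]
  have hdle : ∀ c ∈ K, P.le (ap d c) (F (ap g (xi c))) := by
    intro c hc'
    obtain ⟨h1, h2, h3, -⟩ := hfacts c hc'
    rw [hdap hc']
    exact P.gl_le hi h2 h1 h3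
  obtain ⟨q, hqj, hqb, hq⟩ := P.amal (i := i) (j := j) (K := K) (d := d) (b := P.rs i p) hi hj hij
    isFun_lam dom_lam
    ((isOrd_card K).mem_of_sub_of_mem (P.reg_al hi).isOrd
      (card_sub_iff.2 (leq_of_sub fun r hr => (hKm.1 hr).1)) hc) hb
    (fun c hc' => by
      obtain ⟨h1, h2, h3, -, -, h4⟩ := hfacts c hc'
      rw [hdap hc']
      exact P.gl_mem hi hj hij h4 h1 h3)
    (fun k hk k' hk' r hr hrb h1 h2 => by
      refine ⟨r, hr, P.le_refl (cd_of_mem_ hi hr), k, hk, h1, ?_, ?_⟩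
      · exact P.gl_le hi (P.left (hdle k hk)) hr h1
      · have h3 := h1
        have h4 := h2
        rw [hrsd k hk] at h3
        rw [hrsd k' hk'] at h4
        have e : xi k = xi k' := hXu _ (hxi k hk).1 _ (hxi k' hk').1 k k' r (hxi k hk).2
          (hxi k' hk').2 h3 h4
        obtain ⟨g1, g2, g3, -⟩ := hfacts k' hk'
        have h5 : P.le (P.gl i r (ap d k)) (ap d k) := P.gl_le hi (P.left (hdle k hk)) hr h1
        have h6 : P.le (P.gl i r (ap d k)) r := P.gl_le_left hi (P.left (hdle k hk)) hr h1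
        rw [hdap hk']
        refine P.le_gl hi g2 g1 g3 (P.le_trans h6 h4) ?_
        rw [← e]
        exact P.le_trans h5 (hdle k hk))
  have hqc := cd_of_mem_ hj hqj
  have hkey : ∀ r ∈ P.PP i, P.le r (P.rs i p) → ∃ c ∈ K, P.le c r ∧
      P.le (P.gl i c q) (F (ap g (xi c))) := by
    intro r hr hrb
    obtain ⟨c, hcK, hcr⟩ := hdense r hr hrb
    refine ⟨c, hcK, hcr, P.le_trans (hq c hcK c (hKm.1 hcK).1 (hKm.1 hcK).2.1 ?_) (hdle c hcK)⟩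
    rw [hrsd c hcK]
    exact P.le_refl (cd_of_mem_ hi (hKm.1 hcK).1)
  have hqp : P.le q p := by
    refine P.loc hi hqc hp ?_ fun r hr hrq => ?_
    · rw [hqb]
      exact P.le_refl (cd_of_mem_ hi hb)
    · rw [hqb] at hrq
      obtain ⟨c, hcK, hcr, h⟩ := hkey r hr hrq
      exact ⟨c, (hKm.1 hcK).1, hcr, P.le_trans h (hfacts c hcK).2.2.2.1⟩
  refine ⟨q, hqj, ⟨hqp, hqb⟩, fun a ha hab => ?_⟩
  obtain ⟨c, hcK, hcr, h⟩ := hkey a ha hab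
  exact ⟨c, (hKm.1 hcK).1, hcr, ho _ _ (hfacts c hcK).2.2.2.2.1 h⟩


/-- pure decision of one property, unbounded -/
theorem pd1_unb [GCh M] {i p : M} (hi : IsOrd i) (hc : card (P.PP i) ∈ P.al i) (hp : P.Cd p)
    (D : M → Prop) [hDd : Dfp fun γ : E0 M × M => D γ.2] (ho : ∀ u u', D u → P.le u' u → D u')
    (hD : ∀ a ∈ P.PP i, P.le a (P.rs i p) → ∃ u, P.le u (P.gl i a p) ∧ D u) :
    ∃ q, P.Pe i q p ∧ ∀ a ∈ P.PP i, P.le a (P.rs i p) → ∃ a' ∈ P.PP i, P.le a' a ∧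
      D (P.gl i a' q) := by
  have hDd' : ∀ {Θ : Type} [IsCtx Θ M] {a : Θ → M} [Dff a], Dfp fun γ => D (a γ) :=
    fun {Θ} _ {a} _ => Dfp.use1 hDd
  obtain ⟨j1, hj1, h1⟩ := P.exists_level hp
  let L : M → M := fun a => lst fun k => ∃ u ∈ P.PP k, P.le u (P.gl i a p) ∧ D u
  have hL : ∀ a ∈ P.PP i, P.le a (P.rs i p) → IsOrd (L a) ∧
      ∃ u ∈ P.PP (L a), P.le u (P.gl i a p) ∧ D u := by
    intro a ha hab
    obtain ⟨u, hu, hu'⟩ := hD a ha hab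
    obtain ⟨k, hk, h3⟩ := P.exists_level (P.left hu)
    obtain ⟨h4, h5, -⟩ := lst_spec (P := fun k => ∃ u ∈ P.PP k, P.le u (P.gl i a p) ∧ D u) hk
      ⟨u, h3, hu, hu'⟩
    exact ⟨h4, h5⟩
  obtain ⟨j2, hj2, h2⟩ := exists_ord_bound (sep (P.PP i) fun a => P.le a (P.rs i p)) L
    (fun a ha => (hL a (mem_sep.1 ha).1 (mem_sep.1 ha).2).1)
  have hj := isOrd_union hi (isOrd_union hj1 hj2)
  have hij : i ⊆ i ∪ (j1 ∪ j2) := sub_union_left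
  obtain ⟨q, -, hq, h⟩ := pd1_bdd hi hj hij hc
    (P.mono_PP hj1 hj (Sub.trans sub_union_left sub_union_right) _ h1) D ho (fun a ha hab => by
      obtain ⟨hLo, u, hu, hu'⟩ := hL a ha hab
      exact ⟨u, P.mono_PP hLo hj (Sub.trans (hj2.sub_of_mem (h2 a (mem_sep.2 ⟨ha, hab⟩)))
        (Sub.trans sub_union_right sub_union_right)) _ hu, hu'⟩)
  exact ⟨q, hq, h⟩

/-- pure decision -/
theorem pure_dec [GCh M] {i p a : M} (hi : IsOrd i) (hc : card (P.PP i) ∈ P.al i) (hp : P.Cd p)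
    (ha : card a ∈ P.al i) (D : M → M → Prop) [hDd : Dfp fun γ : (E0 M × M) × M => D γ.1.2 γ.2]
    (ho : ∀ x ∈ a, ∀ u u', D x u → P.le u' u → D x u')
    (hD : ∀ x ∈ a, ∀ u, P.le u p → ∃ u', P.le u' u ∧ D x u') :
    ∃ q, P.Pe i q p ∧ ∀ x ∈ a, ∀ r ∈ P.PP i, P.le r (P.rs i p) →
      ∃ r' ∈ P.PP i, P.le r' r ∧ D x (P.gl i r' q) := by
  have hDd' : ∀ {Θ : Type} [IsCtx Θ M] {f g : Θ → M} [Dff f] [Dff g],
      Dfp fun γ => D (f γ) (g γ) := fun {Θ} _ {f g} _ _ => Dfp.use2 hDd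
  obtain ⟨g, hg⟩ := (eqn_card a).symm
  let R : M → M → Prop := fun ξ q => P.Pe i q p ∧ ∀ r ∈ P.PP i, P.le r (P.rs i p) →
    ∃ r' ∈ P.PP i, P.le r' r ∧ D (ap g ξ) (P.gl i r' q)
  have hRd : Dfp fun γ : (E0 M × M) × M => R γ.1.2 γ.2 := by
    simp only [R]; infer_instance
  obtain ⟨q, hq, h⟩ := fuse (P := P) hi hp (isOrd_card a) ha R
    (fun ξ hξ q q' h1 h2 => by
      refine ⟨⟨P.le_trans h2.1 h1.1.1, h2.2.trans h1.1.2⟩, fun r hr hrp => ?_⟩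
      obtain ⟨r', hr', hrr, hd⟩ := h1.2 r hr hrp
      have h3 : P.le r' (P.rs i q) := by rw [h1.1.2]; exact P.le_trans hrr hrp
      have h4 : P.le r' (P.rs i q') := by rw [h2.2]; exact h3
      refine ⟨r', hr', hrr, ho _ (hg.1.ap_mem hξ) _ _ hd ?_⟩
      exact gl_mono hi (P.le_refl (P.left hrr)) h2.1 hr' hr' h3 h4)
    (fun ξ hξ q hq => by
      have hx := hg.1.ap_mem hξ
      have hqc := P.left hq.1
      have : Dfp fun γ : E0 M × M => D (ap g ξ) γ.2 := by infer_instance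
      obtain ⟨q', hq', h'⟩ := pd1_unb hi hc hqc (D (ap g ξ)) (ho _ hx) (fun b hb hbq => by
        have h5 := P.gl_le hi hqc hb hbq
        exact hD _ hx _ (P.le_trans h5 hq.1))
      refine ⟨q', hq', ⟨P.le_trans hq'.1 hq.1, hq'.2.trans hq.2⟩, fun r hr hrp => ?_⟩
      exact h' r hr (by rw [hq.2]; exact hrp))
  refine ⟨q, hq, fun x hx r hr hrp => ?_⟩
  obtain ⟨ξ, hξ, e⟩ := hg.surj hx
  obtain ⟨r', hr', h1, h2⟩ := (h ξ hξ).2 r hr hrp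
  exact ⟨r', hr', h1, by rw [← e]; exact h2⟩

/-- pure decision inside `PP j` -/
theorem pure_dec_bdd [GCh M] {i j p a : M} (hi : IsOrd i) (hj : IsOrd j) (hij : i ⊆ j)
    (hc : card (P.PP i) ∈ P.al i) (hp : p ∈ P.PP j)
    (ha : card a ∈ P.al i) (D : M → M → Prop)
    [hDd : Dfp fun γ : (E0 M × M) × M => D γ.1.2 γ.2]
    (ho : ∀ x ∈ a, ∀ u u', D x u → P.le u' u → D x u')
    (hD : ∀ x ∈ a, ∀ u ∈ P.PP j, P.le u p → ∃ u' ∈ P.PP j, P.le u' u ∧ D x u') :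
    ∃ q ∈ P.PP j, P.Pe i q p ∧ ∀ x ∈ a, ∀ r ∈ P.PP i, P.le r (P.rs i p) →
      ∃ r' ∈ P.PP i, P.le r' r ∧ D x (P.gl i r' q) := by
  have hDd' : ∀ {Θ : Type} [IsCtx Θ M] {f g : Θ → M} [Dff f] [Dff g],
      Dfp fun γ => D (f γ) (g γ) := fun {Θ} _ {f g} _ _ => Dfp.use2 hDd
  obtain ⟨g, hg⟩ := (eqn_card a).symm
  let R : M → M → Prop := fun ξ q => P.Pe i q p ∧ ∀ r ∈ P.PP i, P.le r (P.rs i p) →
    ∃ r' ∈ P.PP i, P.le r' r ∧ D (ap g ξ) (P.gl i r' q)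
  have hRd : Dfp fun γ : (E0 M × M) × M => R γ.1.2 γ.2 := by
    simp only [R]; infer_instance
  obtain ⟨q, hqj, hq, h⟩ := fuse_bdd (P := P) hi hj hij hp (isOrd_card a) ha R
    (fun ξ hξ q q' h1 h2 => by
      refine ⟨⟨P.le_trans h2.1 h1.1.1, h2.2.trans h1.1.2⟩, fun r hr hrp => ?_⟩
      obtain ⟨r', hr', hrr, hd⟩ := h1.2 r hr hrp
      have h3 : P.le r' (P.rs i q) := by rw [h1.1.2]; exact P.le_trans hrr hrp
      have h4 : P.le r' (P.rs i q') := by rw [h2.2]; exact h3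
      refine ⟨r', hr', hrr, ho _ (hg.1.ap_mem hξ) _ _ hd ?_⟩
      exact gl_mono hi (P.le_refl (P.left hrr)) h2.1 hr' hr' h3 h4)
    (fun ξ hξ q hqj hq => by
      have hx := hg.1.ap_mem hξ
      have hqc := P.left hq.1
      have : Dfp fun γ : E0 M × M => D (ap g ξ) γ.2 := by infer_instance
      obtain ⟨q', hqj', hq', h'⟩ := pd1_bdd hi hj hij hc hqj (D (ap g ξ)) (ho _ hx)
        (fun b hb hbq => by
          have h5 := P.gl_le hi hqc hb hbq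
          exact hD _ hx _ (P.gl_mem hi hj hij hqj hb hbq) (P.le_trans h5 hq.1))
      refine ⟨q', hqj', hq', ⟨P.le_trans hq'.1 hq.1, hq'.2.trans hq.2⟩, fun r hr hrp => ?_⟩
      exact h' r hr (by rw [hq.2]; exact hrp))
  refine ⟨q, hqj, hq, fun x hx r hr hrp => ?_⟩
  obtain ⟨ξ, hξ, e⟩ := hg.surj hx
  obtain ⟨r', hr', h1, h2⟩ := (h ξ hξ).2 r hr hrp
  exact ⟨r', hr', h1, by rw [← e]; exact h2⟩

end LPo

end Pool.Agent.IST
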