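import Pool.Agent.LP.CV

/-!
# Reading functions in the generic extension
-/

set_option synthInstance.maxSize 100000

namespace Pool.Agent.IST

open Pool.Agent.BVM

namespace Gen

variable {M : Type} [SetModel M] [GCh M] {Γ : Type} [IsCtx Γ M] {P : LPo M} (G : Gen P)

/-- compatible conditions -/
def Cpt (P : LPo M) (p q : M) : Prop := ∃ r, P.le r p ∧ P.le r q

instance dfp_Cpt {f g : Γ → M} [Dff f] [Dff g] : Dfp fun γ => Cpt P (f γ) (g γ) := by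
  unfold Cpt; infer_instance

theorem op_ap_mem_of {a : M} {f : G.Ext} (hf : IsFun f) (hd : dom f = G.io a)
    {e v : M} (he : e ∈ a) (hv : ap f (G.io e) = G.io v) : op (G.io e) (G.io v) ∈ f := by
  rw [← hv]
  exact hf.op_ap_mem (hd ▸ G.io_mem.2 he)

/-- a function of the extension from a small set into the ground model is read by the conditions
of level `i` -/
theorem read_fun {i a : M} (hi : IsOrd i) (hc : card (P.PP i) ∈ P.al i) (ha : card a ∈ P.al i)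
    {f : G.Ext} (hf : IsFun f) (hd : dom f = G.io a) (hv : ∀ e ∈ a, ∃ v, ap f (G.io e) = G.io v) :
    ∃ R : M, (∀ t ∈ R, ∃ e ∈ a, ∃ r ∈ P.PP i, ∃ v, t = op (op e r) v) ∧
      (∀ e r v r' v', op (op e r) v ∈ R → op (op e r') v' ∈ R → Cpt P r r' → v = v') ∧
      ∀ e ∈ a, ∃ r v, G.G r ∧ op (op e r) v ∈ R ∧ ap f (G.io e) = G.io v := by
  obtain ⟨nf, rfl⟩ := G.exists_nm f
  let D : M → M → Prop := fun e u => (∃ v, P.Fm u (opN P (P.chk e) (P.chk v)) nf) ∨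
    ∀ u', P.le u' u → ∀ v, ¬ P.Fm u' (opN P (P.chk e) (P.chk v)) nf
  have hD : Dfp fun γ : (E0 M × M) × M => D γ.1.2 γ.2 := by
    simp only [D]; infer_instance
  have ho : ∀ x u u', D x u → P.le u' u → D x u' := fun x u u' hu hle =>
    hu.imp (fun ⟨v, hv⟩ => ⟨v, hv.mono hle⟩) fun h u'' h' => h u'' (P.le_trans h' hle)
  obtain ⟨q0, hq0, h⟩ := G.exists_dec hi hc ha D (fun x _ => ho x) fun x _ u hu => by
      by_cases h1 : ∃ u', P.le u' u ∧ ∃ v, P.Fm u' (opN P (P.chk x) (P.chk v)) nf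
      · obtain ⟨u', hu', h2⟩ := h1
        exact ⟨u', hu', Or.inl h2⟩
      · exact ⟨u, P.le_refl hu, Or.inr fun u' hu' v hv => h1 ⟨u', hu', v, hv⟩⟩
  -- a condition which forces that `nf` is a function
  obtain ⟨u, hu, h1⟩ := G.meets (fun u => (∃ e v v', v ≠ v' ∧
      P.Fm u (opN P (P.chk e) (P.chk v)) nf ∧ P.Fm u (opN P (P.chk e) (P.chk v')) nf) ∨
    ∀ u', P.le u' u → ∀ e v v', P.Fm u' (opN P (P.chk e) (P.chk v)) nf →
      P.Fm u' (opN P (P.chk e) (P.chk v')) nf → v = v') inferInstance fun u hu => by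
    by_cases h1 : ∃ u', P.le u' u ∧ ∃ e v v', v ≠ v' ∧
      P.Fm u' (opN P (P.chk e) (P.chk v)) nf ∧ P.Fm u' (opN P (P.chk e) (P.chk v')) nf
    · obtain ⟨u', hu', h2⟩ := h1
      exact ⟨u', hu', Or.inl h2⟩
    · refine ⟨u, P.le_refl hu, Or.inr fun u' hu' e v v' h2 h3 => ?_⟩
      by_contra h4
      exact h1 ⟨u', hu', e, v, v', h4, h2, h3⟩
  have hfun : ∀ u', P.le u' u → ∀ e v v', P.Fm u' (opN P (P.chk e) (P.chk v)) nf →
      P.Fm u' (opN P (P.chk e) (P.chk v')) nf → v = v' := by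
    rcases h1 with ⟨e, v, v', hne, h2, h3⟩ | h1
    · exact absurd (G.io_inj (hf.2 _ _ _ (G.mem_opN.2 ⟨u, hu, h2⟩) (G.mem_opN.2 ⟨u, hu, h3⟩))) hne
    · exact h1
  obtain ⟨q, hq, hqq0, hqu⟩ := G.dir hq0 hu
  have hqc := G.cd hq
  replace h : ∀ x ∈ a, ∀ r ∈ P.PP i, P.le r (P.rs i q) →
      ∃ r' ∈ P.PP i, P.le r' r ∧ D x (P.gl i r' q) := by
    intro x hx r hr hrq
    have h2 := P.rs_mono hi hqq0
    obtain ⟨r', hr', h3, h4⟩ := h x hx r hr (P.le_trans hrq h2)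
    have h5 := P.le_trans h3 hrq
    exact ⟨r', hr', h3, ho x _ _ h4 (LPo.gl_mono hi (P.le_refl ((P.mem_PP hi).1 hr').1) hqq0 hr' hr'
      (P.le_trans h5 h2) h5)⟩
  let S : M := sep (prod a (P.PP i)) fun t => P.le (p2 t) (P.rs i q) ∧
    ∃ v, P.Fm (P.gl i (p2 t) q) (opN P (P.chk (p1 t)) (P.chk v)) nf
  have hS : ∀ e r, op e r ∈ S ↔ (e ∈ a ∧ r ∈ P.PP i) ∧ P.le r (P.rs i q) ∧
      ∃ v, P.Fm (P.gl i r q) (opN P (P.chk e) (P.chk v)) nf := by
    intro e r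
    simp only [S]
    rw [mem_sep, op_mem_prod, p1_op, p2_op]
  let V : M → M := fun t => pick fun v => P.Fm (P.gl i (p2 t) q) (opN P (P.chk (p1 t)) (P.chk v)) nf
  have hV : Dff fun γ : E0 M × M => V γ.2 := by
    simp only [V]; infer_instance
  have hVs : ∀ e r, op e r ∈ S →
      P.Fm (P.gl i r q) (opN P (P.chk e) (P.chk (V (op e r)))) nf := by
    intro e r hS'
    simp only [V]
    rw [p1_op, p2_op]
    exact LPo.pick_spec (P := fun v => P.Fm (P.gl i r q) (opN P (P.chk e) (P.chk v)) nf)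
      ((hS e r).1 hS').2.2
  have key : ∀ e r, G.G r → op e r ∈ S → op (G.io e) (G.io (V (op e r))) ∈ G.nm nf := by
    intro e r hr hS'
    obtain ⟨⟨-, h1⟩, h2, h3⟩ := (hS e r).1 hS'
    exact G.mem_opN.2 ⟨_, G.glue hi hr hq h1 h2, hVs e r hS'⟩
  refine ⟨lam S V, fun t ht => ?_, fun e r v r' v' h1 h2 h3 => ?_, fun e he => ?_⟩
  · obtain ⟨x, hx, rfl⟩ := mem_lam.1 ht
    obtain ⟨e, he, r, hr, rfl⟩ := mem_prod.1 (mem_sep.1 hx).1
    exact ⟨e, he, r, hr, _, rfl⟩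
  · obtain ⟨h4, rfl⟩ := op_mem_lam.1 h1
    obtain ⟨h5, rfl⟩ := op_mem_lam.1 h2
    obtain ⟨w, hw, hw'⟩ := h3
    obtain ⟨⟨-, hr⟩, hrq, -⟩ := (hS e r).1 h4
    obtain ⟨⟨-, hr'⟩, hrq', -⟩ := (hS e r').1 h5
    have h6 := P.rs_mono hi hw
    have h7 := P.rs_mono hi hw'
    rw [((P.mem_PP hi).1 hr).2] at h6
    rw [((P.mem_PP hi).1 hr').2] at h7
    have hwm := P.rs_mem hi (P.left hw)
    have h8 := P.le_trans h6 hrq
    have hqr := P.le_refl hqc
    exact hfun (P.gl i (P.rs i w) q) (P.le_trans (P.gl_le hi hqc hwm h8) hqu) e _ _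
      ((hVs e r h4).mono (LPo.gl_mono hi h6 hqr hr hwm hrq h8))
      ((hVs e r' h5).mono (LPo.gl_mono hi h7 hqr hr' hwm hrq' h8))
  · obtain ⟨v, hv⟩ := hv e he
    have h0 := G.op_ap_mem_of hf hd he hv
    obtain ⟨s, hs, h1⟩ := G.mem_opN.1 h0
    obtain ⟨r, hr, hrG, hrq, h2, h3⟩ := G.dec_spec hi D hq h he
    have hrS : op e r ∈ S := by
      rcases h2 with h2 | h2
      · exact (hS e r).2 ⟨⟨he, hr⟩, hrq, h2⟩
      · obtain ⟨t, -, h4, h5⟩ := G.dir h3 hs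
        exact absurd (h1.mono h5) (h2 t h4 v)
    exact ⟨r, _, hrG, op_mem_lam.2 ⟨hrS, rfl⟩, hf.ap_eq (key e r hrG hrS)⟩

/-- few possible values -/
theorem read_bound {i a : M} (hi : IsOrd i) (hc : card (P.PP i) ∈ P.al i) (ha : card a ∈ P.al i)
    {f : G.Ext} (hf : IsFun f) (hd : dom f = G.io a) (hv : ∀ e ∈ a, ∃ v, ap f (G.io e) = G.io v) :
    ∃ F : M, IsFun F ∧ dom F = a ∧ (∀ e ∈ a, Leq (ap F e) (P.PP i)) ∧
      ∀ e ∈ a, ∃ v ∈ ap F e, ap f (G.io e) = G.io v := by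
  obtain ⟨H, h1, h2, h3, h4⟩ := G.cover_cc hi hc (LPo.cc_card hi) ha (f := f) hf.2
  refine ⟨H, h1, h2, fun e he => card_sub_iff.1 (h3 e he), fun e he => ?_⟩
  obtain ⟨v, hv⟩ := hv e he
  exact ⟨v, h4 e he v (G.op_ap_mem_of hf hd he hv), hv⟩

/-- few possible values, with a chain condition -/
theorem read_cc {i a θ : M} (hi : IsOrd i) (hc : card (P.PP i) ∈ P.al i) (ha : card a ∈ P.al i)
    (hθ : ∀ A, A ⊆ P.PP i → (∀ p ∈ A, ∀ q ∈ A, Cpt P p q → p = q) → Leq A θ)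
    {f : G.Ext} (hf : IsFun f) (hd : dom f = G.io a) (hv : ∀ e ∈ a, ∃ v, ap f (G.io e) = G.io v) :
    ∃ F : M, IsFun F ∧ dom F = a ∧ (∀ e ∈ a, Leq (ap F e) θ) ∧
      ∀ e ∈ a, ∃ v ∈ ap F e, ap f (G.io e) = G.io v := by
  have hcc : P.CC i (card θ) := LPo.cc_of_antichain hi fun A hA h => card_sub_iff.2 (hθ A hA (by
    rintro p hp q hq ⟨w, h1, h2⟩
    by_contra hne
    refine h p hp q hq hne ⟨P.rs i w, P.rs_mem hi (P.left h1), ?_, ?_⟩
    · have := P.rs_mono hi h1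
      rwa [((P.mem_PP hi).1 (hA _ hp)).2] at this
    · have := P.rs_mono hi h2
      rwa [((P.mem_PP hi).1 (hA _ hq)).2] at this))
  obtain ⟨H, h1, h2, h3, h4⟩ := G.cover_cc hi hc hcc ha (f := f) hf.2
  refine ⟨H, h1, h2, fun e he => card_sub_iff.1 (h3 e he), fun e he => ?_⟩
  obtain ⟨v, hv⟩ := hv e he
  exact ⟨v, h4 e he v (G.op_ap_mem_of hf hd he hv), hv⟩

/-- `al i` remains regular if `PP i` is small -/
theorem isReg_al {i : M} (hi : IsOrd i) (hc : card (P.PP i) ∈ P.al i) :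
    IsReg (G.io (P.al i)) := G.isReg_al' hi hc

/-- a regular cardinal `κ` remains regular, if all functions from smaller ordinals to `κ` have
ranges in small sets of the ground model -/
theorem isReg_of_cover {κ : M} (hκ : IsReg κ)
    (h : ∀ μ ∈ κ, ∀ f : G.Ext, Maps f (G.io μ) (G.io κ) →
      ∃ b : M, card b ∈ κ ∧ ∀ e ∈ μ, ∃ v ∈ b, ap f (G.io e) = G.io v) :
    IsReg (G.io κ) := by
  have hlim : IsLim (G.io κ) := G.temb.isLim.2 hκ.infCard.isLim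
  have hreg := isReg_cof hlim
  obtain ⟨h1, h2, ⟨f, hf, hfc⟩, -⟩ := cof_spec hlim.1
  rcases (h1.sub_iff hlim.1).1 h2 with h3 | h3
  · exfalso
    obtain ⟨m, hm, h4⟩ := G.io_tr h3
    rw [h4] at hreg hf hfc
    obtain ⟨b, hb, h5⟩ := h m hm f hf
    have h6 : bigU (b ∩ κ) ∈ κ := hκ.bigU_mem
      ((isOrd_card _).mem_of_sub_of_mem hκ.isOrd (card_mono fun z hz => (mem_inter.1 hz).1) hb)
      fun x hx => (mem_inter.1 hx).2
    obtain ⟨ξ, hξ, h7⟩ := hfc _ (G.io_mem.2 (hκ.infCard.isLim.2.2 _ h6))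
    obtain ⟨e, he, rfl⟩ := G.io_tr hξ
    obtain ⟨v, hv, h8⟩ := h5 e he
    have h9 := hf.ap_mem hξ
    rw [h8] at h7 h9
    have h10 := G.io_mem.1 h9
    have h11 := G.temb.sub.1 h7 _ (self_mem_sc _)
    exact mem_irrefl _ (sub_bigU (mem_inter.2 ⟨hv, h10⟩) _ h11)
  · rwa [h3] at hreg

/-- transfer of cardinality from the ground model -/
theorem leq_io {a b : M} (h : Leq a b) : Leq (G.io a) (G.io b) := G.temb.leq h

theorem eqn_io {a b : M} (h : Eqn a b) : Eqn (G.io a) (G.io b) := G.temb.eqn h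

/-- a cardinal of the extension is a cardinal of the ground model -/
theorem isCard_of_io {a : M} (h : IsCard (G.io a)) : IsCard a := G.temb.isCard_of h

end Gen

end Pool.Agent.IST
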