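import Pool.Agent.LP.VZ
import Pool.Agent.LP.CV
import Pool.Agent.LP.Homog

/-!
# Names of subsets of the ground model given by relations, and their images under automorphisms

`P.rnm R`, for a set `R` of pairs `(y, r)`, is a name of the set of all `y` with `(y, r) ∈ R` for an
`r` in the generic filter.
-/

set_option synthInstance.maxSize 100000

namespace Pool.Agent.IST

open Pool.Agent.BVM

namespace LPo

variable {M : Type} [SetModel M] {Γ : Type} [IsCtx Γ M] (P : LPo M)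

/-- the name given by a set of pairs of a ground model set and a condition -/
noncomputable def rnm (R : M) : M := img R fun w => op (P.chk (p1 w)) (p2 w)

instance dff_rnm {f : Γ → M} [Dff f] : Dff fun γ => P.rnm (f γ) := by
  unfold rnm; infer_instance

theorem mem_rnm {R t : M} : t ∈ P.rnm R ↔ ∃ w ∈ R, t = op (P.chk (p1 w)) (p2 w) := mem_img

variable {P}

theorem op_mem_rnm {R y r : M} (h : op y r ∈ R) :
    op (P.chk y) r ∈ P.rnm R := (P.mem_rnm).2 ⟨op y r, h, by rw [p1_op, p2_op]⟩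

theorem of_op_mem_rnm {R a b z s : M} (hR : R ⊆ prod a b) (h : op z s ∈ P.rnm R) :
    ∃ y, op y s ∈ R ∧ z = P.chk y := by
  obtain ⟨w, hw, e⟩ := (P.mem_rnm).1 h
  obtain ⟨rfl, rfl⟩ := op_inj.1 e
  obtain ⟨y, -, r, -, rfl⟩ := mem_prod.1 (hR w hw)
  exact ⟨y, by rwa [p2_op], by rw [p1_op]⟩

theorem nm_rnm {R a j : M} (hj : IsOrd j) (hR : R ⊆ prod a (P.PP j)) : P.Nm j (P.rnm R) := by
  refine Nm.intro hj fun t ht => ?_
  obtain ⟨w, hw, rfl⟩ := (P.mem_rnm).1 ht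
  obtain ⟨y, -, r, hr, rfl⟩ := mem_prod.1 (hR w hw)
  exact ⟨_, _, rfl, P.nm_chk hj _, by rwa [p2_op]⟩

theorem fm_rnm {R a b s y : M} (hR : R ⊆ prod a b) : P.Fm s (P.chk y) (P.rnm R) ↔
    P.Cd s ∧ ∀ s', P.le s' s → ∃ s'', P.le s'' s' ∧ ∃ r, op y r ∈ R ∧ P.le s'' r := by
  rw [fm_iff]
  refine and_congr_right fun _ => forall_congr' fun s' => forall_congr' fun _ =>
    exists_congr fun s'' => and_congr_right fun h => ?_
  constructor
  · rintro ⟨z, t, h1, h2, h3⟩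
    obtain ⟨y', h4, rfl⟩ := of_op_mem_rnm hR h1
    rw [fq_chk (P.left h)] at h3
    subst h3
    exact ⟨t, h4, h2⟩
  · rintro ⟨r, h1, h2⟩
    exact ⟨_, r, op_mem_rnm h1, h2, Fq.refl (P.left h) _⟩

/-- the same inside `PP j` -/
theorem fm_rnm_level {R a j s y : M} (hj : IsOrd j) (hR : R ⊆ prod a (P.PP j)) (hs : s ∈ P.PP j) :
    P.Fm s (P.chk y) (P.rnm R) ↔ ∀ s' ∈ P.PP j, P.le s' s → ∃ s'' ∈ P.PP j, P.le s'' s' ∧
      ∃ r, op y r ∈ R ∧ P.le s'' r := by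
  have hself : ∀ {t : M}, t ∈ P.PP j → P.rs j t = t := fun ht => ((P.mem_PP hj).1 ht).2
  rw [fm_rnm hR]
  constructor
  · rintro ⟨-, h⟩ s' hs' hle
    obtain ⟨s'', h1, r, h2, h3⟩ := h s' hle
    have hr := (op_mem_prod.1 (hR _ h2)).2
    have h4 := P.rs_mono hj h1
    have h5 := P.rs_mono hj h3
    rw [hself hs'] at h4
    rw [hself hr] at h5
    exact ⟨_, P.rs_mem hj (P.left h1), h4, r, h2, h5⟩
  · intro h
    refine ⟨((P.mem_PP hj).1 hs).1, fun s' hle => ?_⟩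
    have h1 := P.rs_mono hj hle
    rw [hself hs] at h1
    have hc := P.left hle
    obtain ⟨s'', h2, h3, r, h4, h5⟩ := h _ (P.rs_mem hj hc) h1
    exact ⟨P.gl j s'' s', P.gl_le hj hc h2 h3, r, h4, P.le_trans (P.gl_le_left hj hc h2 h3) h5⟩

namespace Aut

variable (A : P.Aut)

/-- the action on relations -/
noncomputable def rel (R : M) : M := img R fun w => op (p1 w) (A.f (p2 w))

theorem mem_rel {R t : M} : t ∈ A.rel R ↔ ∃ w ∈ R, t = op (p1 w) (A.f (p2 w)) := mem_img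

theorem op_mem_rel {R a b y s : M} (hR : R ⊆ prod a b) :
    op y s ∈ A.rel R ↔ ∃ r, op y r ∈ R ∧ s = A.f r := by
  rw [A.mem_rel]
  constructor
  · rintro ⟨w, hw, e⟩
    obtain ⟨rfl, rfl⟩ := op_inj.1 e
    obtain ⟨y, -, r, -, rfl⟩ := mem_prod.1 (hR w hw)
    exact ⟨r, by rwa [p1_op], by rw [p2_op]⟩
  · rintro ⟨r, h, rfl⟩
    exact ⟨op y r, h, by rw [p1_op, p2_op]⟩

theorem nm_rnm {R a b : M} (hR : R ⊆ prod a b) (hb : ∀ r ∈ b, P.Cd r) :
    A.nm (P.rnm R) = P.rnm (A.rel R) := by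
  apply ext
  intro t
  rw [A.mem_nm, P.mem_rnm]
  constructor
  · rintro ⟨z, s, h, -, rfl⟩
    obtain ⟨y, h1, rfl⟩ := of_op_mem_rnm hR h
    refine ⟨op y (A.f s), (A.op_mem_rel hR).2 ⟨s, h1, rfl⟩, ?_⟩
    rw [p1_op, p2_op, A.nm_chk]
  · rintro ⟨w, hw, rfl⟩
    obtain ⟨v, hv, rfl⟩ := A.mem_rel.1 hw
    obtain ⟨y, -, r, hr, rfl⟩ := mem_prod.1 (hR v hv)
    refine ⟨P.chk y, r, op_mem_rnm hv, hb r hr, ?_⟩
    rw [p1_op, p2_op, p1_op, p2_op, A.nm_chk]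

theorem rel_sub {R a j : M} (hR : R ⊆ prod a (P.PP j)) (hj : ∀ r ∈ P.PP j, A.f r ∈ P.PP j) :
    A.rel R ⊆ prod a (P.PP j) := by
  intro t ht
  obtain ⟨v, hv, rfl⟩ := A.mem_rel.1 ht
  obtain ⟨y, hy, r, hr, rfl⟩ := mem_prod.1 (hR v hv)
  rw [p1_op, p2_op]
  exact op_mem_prod.2 ⟨hy, hj r hr⟩

end Aut

end LPo

namespace Gen

variable {M : Type} [SetModel M] [GCh M] {Γ : Type} [IsCtx Γ M] {P : LPo M} (G : Gen P)

theorem mem_nm_rnm {R a c : M} (hR : R ⊆ prod a c) {b : G.Ext} :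
    b ∈ G.nm (P.rnm R) ↔ ∃ y r, op y r ∈ R ∧ G.G r ∧ b = G.io y := by
  rw [G.mem_nm_iff]
  constructor
  · rintro ⟨z, s, h, h1, rfl⟩
    obtain ⟨y, h2, rfl⟩ := LPo.of_op_mem_rnm hR h
    exact ⟨y, s, h2, h1, rfl⟩
  · rintro ⟨y, r, h, h1, rfl⟩
    exact ⟨_, r, LPo.op_mem_rnm h, h1, rfl⟩

/-- every small subset of a ground model set has a name of this form -/
theorem exists_rnm {j a : M} (hj : IsOrd j) (hc : card (P.PP j) ∈ P.al j)
    (ha : card a ∈ P.al j) {x : G.Ext} (hx : x ⊆ G.io a) :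
    ∃ R : M, R ⊆ prod a (P.PP j) ∧ x = G.nm (P.rnm R) := by
  obtain ⟨R, hR, h⟩ := G.subset_level hj hc ha hx
  refine ⟨R, hR, ext fun b => ?_⟩
  rw [G.mem_nm_rnm hR]
  constructor
  · intro hb
    obtain ⟨y, hy, rfl⟩ := G.io_tr (hx b hb)
    obtain ⟨r, h1, h2⟩ := (h y hy).1 hb
    exact ⟨y, r, h2, h1, rfl⟩
  · rintro ⟨y, r, h1, h2, rfl⟩
    exact (h y (op_mem_prod.1 (hR _ h1)).1).2 ⟨r, h2, h1⟩

/-- thinning of a name by the chain condition -/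
theorem exists_thin {j κ a R : M} (hj : IsOrd j) (hcc : P.CC j κ) (hR : R ⊆ prod a (P.PP j)) :
    ∃ R' : M, R' ⊆ prod a (P.PP j) ∧
      (∀ y ∈ a, card (sep (P.PP j) fun r => op y r ∈ R') ⊆ κ) ∧
      G.nm (P.rnm R') = G.nm (P.rnm R) := by
  obtain ⟨g, -, -, hg⟩ := exists_choice_cls a (fun y A =>
    A ⊆ (sep (P.PP j) fun r => ∃ r', op y r' ∈ R ∧ P.le r r') ∧
    card A ⊆ κ ∧ ∀ r ∈ sep (P.PP j) fun r => ∃ r', op y r' ∈ R ∧ P.le r r',
      ∃ a ∈ A, ∃ w ∈ P.PP j, P.le w r ∧ P.le w a) fun y _ => hcc _ fun r hr => (mem_sep.1 hr).1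
  have hR' : (sep (prod a (P.PP j)) fun w => p2 w ∈ ap g (p1 w)) ⊆ prod a (P.PP j) :=
    fun w hw => (mem_sep.1 hw).1
  have hm : ∀ y s, op y s ∈ (sep (prod a (P.PP j)) fun w => p2 w ∈ ap g (p1 w)) ↔
      y ∈ a ∧ s ∈ P.PP j ∧ s ∈ ap g y := fun y s => by
    rw [mem_sep, op_mem_prod, p1_op, p2_op, and_assoc]
  refine ⟨_, hR', fun y hy => ?_, ext fun b => ?_⟩
  · refine Sub.trans (card_mono fun r hr => ?_) (hg y hy).2.1
    exact ((hm y r).1 (mem_sep.1 hr).2).2.2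
  · rw [G.mem_nm_rnm hR', G.mem_nm_rnm hR]
    constructor
    · rintro ⟨y, s, h1, h2, rfl⟩
      obtain ⟨hy, -, h3⟩ := (hm y s).1 h1
      obtain ⟨-, r, h4, h5⟩ := mem_sep.1 ((hg y hy).1 s h3)
      exact ⟨y, r, h4, G.up h2 h5, rfl⟩
    · rintro ⟨y, r, h1, h2, rfl⟩
      obtain ⟨hy, hr⟩ := op_mem_prod.1 (hR _ h1)
      obtain ⟨h3, -, h4⟩ := hg y hy
      obtain ⟨s, hs, hsr, h5⟩ := G.meets_below h2
        (fun s => (∃ c, c ∈ ap g y ∧ P.le s c) ∨ ∀ c ∈ ap g y, ∀ w, P.le w s → ¬ P.le w c)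
        fun s hsr => by
          by_cases h6 : ∃ c ∈ ap g y, ∃ w, P.le w s ∧ P.le w c
          · obtain ⟨c, hc, w, hw, hw'⟩ := h6
            exact ⟨w, hw, Or.inl ⟨c, hc, hw'⟩⟩
          · push Not at h6
            exact ⟨s, P.le_refl (P.left hsr), Or.inr h6⟩
      rcases h5 with ⟨c, hc, h6⟩ | h5
      · exact ⟨y, c, (hm y c).2 ⟨hy, (mem_sep.1 (h3 c hc)).1, hc⟩, G.up hs h6, rfl⟩
      · exfalso
        have h6 := P.rs_mono hj hsr
        rw [((P.mem_PP hj).1 hr).2] at h6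
        have hcs := P.left hsr
        obtain ⟨c, hc, w, hw, hws, hwc⟩ := h4 (P.rs j s)
          (mem_sep.2 ⟨P.rs_mem hj hcs, r, h1, h6⟩)
        exact h5 c hc _ (P.gl_le hj hcs hw hws)
          (P.le_trans (P.gl_le_left hj hcs hw hws) hwc)

omit [GCh M] in
theorem exists_name_level (c : G.Ext) : ∃ n k : M, IsOrd k ∧ P.Nm k n ∧ G.nm n = c := by
  obtain ⟨n, hn⟩ := G.exists_nm c
  obtain ⟨k, hk, h⟩ := P.exists_Nm n
  exact ⟨n, k, hk, h, hn⟩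

omit [GCh M] in
/-- a bound for finitely many ordinals -/
theorem exists_bound (K : ℕ → M) (hK : ∀ i, IsOrd (K i)) (n : ℕ) :
    ∃ k : M, IsOrd k ∧ ∀ i < n, K i ⊆ k := by
  induction n with
  | zero => exact ⟨∅, isOrd_empty, fun i hi => absurd hi (Nat.not_lt_zero i)⟩
  | succ n ih =>
    obtain ⟨k, hk, h⟩ := ih
    refine ⟨k ∪ K n, isOrd_union hk (hK n), fun i hi => ?_⟩
    rcases Nat.lt_succ_iff_lt_or_eq.1 hi with h1 | rfl
    · exact Sub.trans (h i h1) fun z hz => mem_union.2 (Or.inl hz)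
    · exact fun z hz => mem_union.2 (Or.inr hz)

/-- a definable relation of the extension is invariant under the automorphisms which fix a level -/
theorem exists_inv (Q : G.Ext → G.Ext → G.Ext → Prop)
    (hQ : Dfp fun γ : ((E0 G.Ext × G.Ext) × G.Ext) × G.Ext => Q γ.1.1.2 γ.1.2 γ.2)
    (H : P.Hmg) :
    ∃ k, IsOrd k ∧ ∀ j, IsOrd j → k ⊆ j → ∀ x a b : M, P.Nm j x →
      Q (G.nm x) (G.io a) (G.io b) → ∃ q ∈ P.PP j, G.G q ∧
        ∀ A : P.Aut, (∀ r ∈ P.PP k, A.f r = r) → ∀ q', P.le q' q → G.G (A.f q') →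
          Q (G.nm (A.nm x)) (G.io a) (G.io b) := by
  classical
  obtain ⟨φ, s, hs, hφ⟩ := hQ.out
  obtain ⟨n, hn⟩ := exists_bd φ
  have hs' : ∀ i, ∃ c k : M, IsOrd k ∧ P.Nm k c ∧ ((s i = fun _ => G.nm c) ∨
      (s i = fun γ => γ.1.1.2) ∨ (s i = fun γ => γ.1.2) ∨ s i = fun γ => γ.2) := by
    intro i
    rcases hs i with ⟨g, ⟨g', ⟨g'', -, rfl⟩ | rfl, rfl⟩ | rfl, h⟩ | h
    · obtain ⟨c, k, hk, hc, e⟩ := G.exists_name_level (g'' ⟨⟩)
      exact ⟨c, k, hk, hc, Or.inl (by rw [h, e])⟩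
    · exact ⟨P.chk ∅, ∅, isOrd_empty, P.nm_chk isOrd_empty _, Or.inr (Or.inl h)⟩
    · exact ⟨P.chk ∅, ∅, isOrd_empty, P.nm_chk isOrd_empty _, Or.inr (Or.inr (Or.inl h))⟩
    · exact ⟨P.chk ∅, ∅, isOrd_empty, P.nm_chk isOrd_empty _, Or.inr (Or.inr (Or.inr h))⟩
  choose c K hK hc hsc using hs'
  obtain ⟨k, hk, hkb⟩ := exists_bound K hK n
  refine ⟨k, hk, fun j hj hkj x a b hx hq => ?_⟩
  -- the names
  let v : M → ℕ → M := fun x i => if n ≤ i then P.chk ∅ else if s i = (fun γ => γ.1.1.2) then x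
    else if s i = (fun γ => γ.1.2) then P.chk a else if s i = (fun γ => γ.2) then P.chk b else c i
  have hv : ∀ x i, i < n → G.nm (v x i) = s i (((⟨⟩, G.nm x), G.io a), G.io b) := by
    intro x i hi
    simp only [v]
    rw [if_neg (by omega)]
    split_ifs with h1 h2 h3
    · rw [h1]
    · rw [h2]; rfl
    · rw [h3]; rfl
    · rcases hsc i with h | h | h | h
      · rw [h]
      · exact absurd h h1
      · exact absurd h h2
      · exact absurd h h3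
  have hsat : ∀ x, Q (G.nm x) (G.io a) (G.io b) ↔
      SatU G.E (fun x => ∃ a, x = G.io a) φ (fun i => G.nm (v x i)) := by
    intro x
    have h1 : Q (G.nm x) (G.io a) (G.io b) ↔ SatU G.E (fun x => ∃ a, x = G.io a) φ
      fun i => s i (((⟨⟩, G.nm x), G.io a), G.io b) := hφ (((⟨⟩, G.nm x), G.io a), G.io b)
    exact h1.trans (hn _ _ _ _ _ fun i hi => (hv x i hi).symm)
  have hlev : ∀ i, P.Nm j (v x i) := by
    intro i
    simp only [v]
    split_ifs with h0 h1 h2 h3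
    · exact P.nm_chk hj _
    · exact hx
    · exact P.nm_chk hj _
    · exact P.nm_chk hj _
    · exact (hc i).mono (hK i) hj (Sub.trans (hkb i (by omega)) hkj)
  obtain ⟨r, hr, hfr⟩ := (G.truth φ _).1 ((hsat x).1 hq)
  refine ⟨P.rs j r, P.rs_mem hj (G.cd hr), G.rs_mem hj hr, fun A hA q' hq' hG => ?_⟩
  have h1 := A.frc ((H.frc hj hlev hfr).mono hq')
  rw [hsat]
  have h2 := (G.truth φ _).2 ⟨_, hG, h1⟩
  refine (hn _ _ _ _ _ fun i hi => ?_).1 h2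
  have h0 : ¬ n ≤ i := by omega
  simp only [v, if_neg h0]
  split_ifs with h3 h4 h5
  · rfl
  · rw [A.nm_chk]
  · rw [A.nm_chk]
  · exact (G.nm_eq).2 ⟨P.one, G.one_mem, A.nm_level hA _
      ((hc i).mono (hK i) hk (hkb i hi))⟩

end Gen

end Pool.Agent.IST
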