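import Pool.Agent.LP.CCi

/-!
# The generic collapses; power sets in the extension
-/

set_option synthInstance.maxSize 100000

namespace Pool.Agent.IST

open Pool.Agent.BVM

section

variable {M : Type} [SetModel M] [BitC M]

/-- constant names -/
theorem cst_mem_Nm {i v : M} (hi : IsOrd i) (hv : v ∈ tau i) : sing (op ∅ v) ∈ Nm i := by
  rw [mem_Nm hi]
  refine ⟨fun t ht => ?_, fun q v' q' v'' r h1 h2 _ _ _ => ?_, fun r hr => ?_⟩
  · rw [mem_sing.1 ht]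
    exact op_mem_prod.2 ⟨empty_mem_CP hi, hv⟩
  · rw [(op_inj.1 (mem_sing.1 h1)).2, (op_inj.1 (mem_sing.1 h2)).2]
  · have hc := cnd_of_mem hi hr
    exact ⟨r, hr, cle_refl hc, ∅, v, mem_sing.2 rfl, cle_empty hc⟩

omit [BitC M] in
theorem isFun_sing {x y : M} : IsFun (sing (op x y)) := by
  refine ⟨fun p hp => ⟨x, y, mem_sing.1 hp⟩, fun a b b' h1 h2 => ?_⟩
  rw [(op_inj.1 (mem_sing.1 h1)).2, (op_inj.1 (mem_sing.1 h2)).2]

omit [BitC M] in
theorem dom_sing {x y : M} : dom (sing (op x y)) = sing x := by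
  apply ext
  intro z
  rw [mem_dom, mem_sing]
  constructor
  · rintro ⟨w, hw⟩
    exact (op_inj.1 (mem_sing.1 hw)).1
  · rintro rfl
    exact ⟨y, mem_sing.2 rfl⟩

/-- conditions with one element -/
theorem cnd_cst {i ξ v : M} (hi : IsOrd i) (hξ : ξ ∈ DD i) (hv : v ∈ tau i) :
    Cnd (sing (op (op i ξ) (sing (op ∅ v)))) := by
  refine ⟨isFun_sing, fun x hx => ?_, fun d hd hom => ?_⟩
  · rw [dom_sing] at hx
    rw [mem_sing.1 hx]
    refine ⟨⟨i, hi, ξ, hξ, rfl⟩, ?_⟩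
    rw [isFun_sing.ap_eq (mem_sing.2 rfl), p1_op]
    exact cst_mem_Nm hi hv
  · refine (isOrd_card _).mem_of_sub_of_mem hd.isOrd (card_sub_of_leq isCard_om ?_) hom
    rw [dom_sing]
    exact (leq_of_sub fun x hx => (mem_sep.1 hx).1).trans (leq_sing infCard_om.ne_empty)

/-- every condition can be extended by a constant name -/
theorem exists_cst {i p v : M} (hi : IsOrd i) (hp : Cnd p) (hv : v ∈ tau i) :
    ∃ p', cle p' p ∧ ∃ ξ ∈ alp i, op i ξ ∈ dom p' ∧ ap p' (op i ξ) = sing (op ∅ v) := by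
  have h1 : ∃ ξ ∈ alp i, op i ξ ∉ dom p := by
    by_contra h2
    push Not at h2
    have h3 : Leq (alp i) (dom (rst (sc i) p)) := by
      refine leq_of (fun ξ => op i ξ) (fun ξ hξ => ?_) fun ξ _ ζ _ e => (op_inj.1 e).2
      rw [mem_dom_rst, p1_op]
      exact ⟨h2 ξ hξ, self_mem_sc i⟩
    have h4 := card_sub_iff.2 h3
    rw [(isReg_alp hi).isCard.card_eq] at h4
    exact mem_irrefl _ (h4 _ (card_dom_rst hp hi))
  obtain ⟨ξ, hξ, h2⟩ := h1
  have hs := cnd_cst hi (alp_sub_DD hi ξ hξ) hv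
  have hf : IsFun (p ∪ sing (op (op i ξ) (sing (op ∅ v)))) := by
    refine ⟨fun t ht => ?_, fun x y y' h3 h4 => ?_⟩
    · rcases mem_union.1 ht with h | h
      · exact hp.1.1 t h
      · exact ⟨_, _, mem_sing.1 h⟩
    · rcases mem_union.1 h3 with h5 | h5 <;> rcases mem_union.1 h4 with h6 | h6
      · exact hp.1.2 x y y' h5 h6
      · rw [(op_inj.1 (mem_sing.1 h6)).1] at h5
        exact absurd (mem_dom.2 ⟨_, h5⟩) h2
      · rw [(op_inj.1 (mem_sing.1 h5)).1] at h6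
        exact absurd (mem_dom.2 ⟨_, h6⟩) h2
      · rw [(op_inj.1 (mem_sing.1 h5)).2, (op_inj.1 (mem_sing.1 h6)).2]
  refine ⟨_, cle_union_left hp hs hf, ξ, hξ, ?_, ?_⟩
  · rw [dom_union]
    exact mem_union.2 (Or.inr (by rw [dom_sing]; exact mem_sing.2 rfl))
  · exact hf.ap_eq (mem_union.2 (Or.inr (mem_sing.2 rfl)))

/-- two constant names in compatible conditions are equal -/
theorem cst_unique {i ξ v v' u q q' : M} (hi : IsOrd i) (h : cle u q) (h' : cle u q')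
    (hq : op i ξ ∈ dom q) (hq' : op i ξ ∈ dom q') (e : ap q (op i ξ) = sing (op ∅ v))
    (e' : ap q' (op i ξ) = sing (op ∅ v')) : v = v' := by
  have hu := h.1
  have h1 := h.2.2.2 _ hq
  have h2 := h'.2.2.2 _ hq'
  rw [p1_op] at h1 h2
  have hr := rst_mem hi hu
  rw [e, FE_iff hi hr] at h1
  rw [e'] at h2
  obtain ⟨r1, hr1, h3, w, a, b, h4, h5, -, hb, h6, h7⟩ := h1 _ hr (cle_refl (cnd_of_mem hi hr))
  rw [FE_iff hi hr] at h2
  obtain ⟨r2, hr2, h8, w', a', b', h9, h10, ha', -, h11, h12⟩ := h2 r1 hr1 h3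
  have h13 := (op_inj.1 (mem_sing.1 h5)).2
  have h14 := (op_inj.1 (mem_sing.1 h10)).2
  have hux : op i ξ ∈ dom u := h.2.2.1 _ hq
  have hn := hu.nm hux
  rw [p1_op] at hn
  rw [← h13, ← h14]
  exact nm_coh hi hn h4 h9 hr2 (cle_trans h8 h6) h11

end

namespace Gen

variable {M : Type} [SetModel M] [BitC M] [GCh M] (G : Gen (IT M))

/-- the generic collapse -/
theorem leq_tau {i : M} (hi : IsOrd i) : Leq (G.io (tau i)) (G.io (alp i)) := by
  obtain ⟨g, hg⟩ := G.exists_fam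
    (sep (prod (prod (alp i) (tau i)) (CP (sc i))) fun t => op i (p1 (p1 t)) ∈ dom (p2 t) ∧
      ap (p2 t) (op i (p1 (p1 t))) = sing (op ∅ (p2 (p1 t))))
    (fun t => (IT M).chk (p1 t)) fun t => p2 t
  have hg' : ∀ b, b ∈ g ↔ ∃ ξ ∈ alp i, ∃ v ∈ tau i, (∃ q, G.G q ∧ op i ξ ∈ dom q ∧
      ap q (op i ξ) = sing (op ∅ v)) ∧ b = op (G.io ξ) (G.io v) := by
    intro b
    rw [hg]
    constructor
    · rintro ⟨t, ht, hq, rfl⟩
      obtain ⟨h1, h2, h3⟩ := mem_sep.1 ht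
      obtain ⟨t1, ht1, q, hq', rfl⟩ := mem_prod.1 h1
      obtain ⟨ξ, hξ, v, hv, rfl⟩ := mem_prod.1 ht1
      rw [p1_op, p1_op, p2_op] at h2
      rw [p1_op, p1_op, p2_op, p2_op] at h3
      rw [p2_op] at hq
      refine ⟨ξ, hξ, v, hv, ⟨q, hq, h2, h3⟩, ?_⟩
      rw [p1_op]
      exact G.temb.op
    · rintro ⟨ξ, hξ, v, hv, ⟨q, hq, h1, h2⟩, rfl⟩
      have hqc : Cnd q := G.cd hq
      refine ⟨op (op ξ v) (rst (sc i) q), mem_sep.2 ⟨op_mem_prod.2 ⟨op_mem_prod.2 ⟨hξ, hv⟩,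
        rst_mem hi.sc hqc⟩, ?_, ?_⟩, ?_, ?_⟩
      · rw [p1_op, p1_op, p2_op, mem_dom_rst, p1_op]
        exact ⟨h1, self_mem_sc i⟩
      · rw [p1_op, p1_op, p2_op, p2_op, ap_rst hqc.1 (by rw [p1_op]; exact self_mem_sc i)]
        exact h2
      · rw [p2_op]
        exact G.rs_mem hi.sc hq
      · rw [p1_op]
        exact G.temb.op.symm
  have hfun : IsFun g := by
    refine ⟨fun b hb => ?_, fun x y y' h1 h2 => ?_⟩
    · obtain ⟨ξ, -, v, -, -, rfl⟩ := (hg' b).1 hb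
      exact ⟨_, _, rfl⟩
    · obtain ⟨ξ, -, v, -, ⟨q, hq, h3, h4⟩, e⟩ := (hg' _).1 h1
      obtain ⟨ξ', -, v', -, ⟨q', hq', h5, h6⟩, e'⟩ := (hg' _).1 h2
      obtain ⟨rfl, rfl⟩ := op_inj.1 e
      obtain ⟨h7, rfl⟩ := op_inj.1 e'
      rw [← G.io_inj h7] at h5 h6
      obtain ⟨u, -, h8, h9⟩ := G.dir hq hq'
      rw [cst_unique hi h8 h9 h3 h5 h4 h6]
  have hdom : dom g ⊆ G.io (alp i) := by
    intro x hx
    obtain ⟨y, hy⟩ := mem_dom.1 hx
    obtain ⟨ξ, hξ, v, -, -, e⟩ := (hg' _).1 hy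
    rw [(op_inj.1 e).1]
    exact G.io_mem.2 hξ
  have hran : G.io (tau i) ⊆ ran g := by
    intro y hy
    obtain ⟨v, hv, rfl⟩ := G.io_tr hy
    obtain ⟨p, hp, ξ, hξ, h1, h2⟩ := G.meets (fun p => ∃ ξ ∈ alp i, op i ξ ∈ dom p ∧
      ap p (op i ξ) = sing (op ∅ v)) inferInstance fun r hr => exists_cst hi hr hv
    exact mem_ran.2 ⟨G.io ξ, (hg' _).2 ⟨ξ, hξ, v, hv, ⟨p, hp, h1, h2⟩, rfl⟩⟩
  exact ((leq_of_sub hran).trans (leq_ran hfun)).trans (leq_of_sub hdom)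

/-- the number of subsets in the extension -/
theorem leq_pw_alp {i : M} (hi : IsOrd i) :
    Leq (pw (G.io (alp i))) (G.io (alp (sc i))) := by
  have h0 : card (alp i) ∈ alp (sc i) := by
    rw [(isReg_alp hi).isCard.card_eq]
    exact alp_mem_alp hi.sc (self_mem_sc i)
  have h1 : Leq (pw (G.io (alp i))) (G.io (pw (prod (alp i) (CP (sc i))))) :=
    G.leq_pw_io (j := sc i) hi.sc (card_CP_sc hi) h0
  have h2 : Leq (prod (alp i) (CP (sc i))) (alp (sc i)) := by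
    have h3 := infCard_alp hi.sc
    exact leq_prod h3 (leq_of_sub (h3.isOrd.sub_of_mem (alp_mem_alp hi.sc (self_mem_sc i))))
      (leq_of_card_mem h3.isOrd (card_CP_sc hi))
  have h4 : Leq (pw (prod (alp i) (CP (sc i)))) (tau (sc i)) := by
    have h5 : tau (sc i) = pow2 (alp (sc i)) := by
      unfold tau tauF
      rw [if_neg not_limIx_sc]
    rw [h5]
    exact (leq_pw h2).trans (eqn_pw_pow2 _).leq
  exact (h1.trans (G.temb.leq h4)).trans (G.leq_tau hi.sc)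

end Gen

end Pool.Agent.IST
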