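import Pool.Agent.LP.VF1
import Pool.Agent.LP.VF2
import Pool.Agent.LP.CardV

/-!
# The primitive facts about the cardinals of the extension
-/

namespace Pool.Agent.IST

open Pool.Agent.BVM

variable {M : Type} [SetModel M] [BitC M] [GCh M]

/-- the primitive facts about the cardinals of the extension by the iteration -/
theorem Gen.vfacts (G : Gen (IT M)) : VFacts G.io where
  emb := G.temb
  card_alp := fun hi => G.isCard_alp hi
  leq_tau := fun hi => G.leq_tau hi
  card_tau1 := fun hi _ => (G.isReg_tau1 hi).isCard
  card_tau2 := fun hi hb => (G.isReg_tau2 hi hb).isCard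
  leq_pw := fun hl _ => G.leq_pw_alp hl.1.sc

end Pool.Agent.IST
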