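import Pool.Agent.LP.CCi

/-!
# Cardinals of the extension by the iteration
-/

set_option synthInstance.maxSize 100000

namespace Pool.Agent.IST

open Pool.Agent.BVM

namespace Gen

variable {M : Type} [SetModel M] [BitC M] [GCh M] (G : Gen (IT M))

/-- the closure cardinals are regular in the extension -/
theorem isReg_alp {i : M} (hi : IsOrd i) : IsReg (G.io (alp i)) := by
  rcases ord_cases hi with rfl | ⟨j, hj, rfl⟩ | hl
  · exact G.isReg_al' isOrd_empty card_CP_empty
  · exact G.isReg_al' hj.sc (card_CP_sc hj)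
  · by_cases hr : IsReg (dlt i)
    · exact G.isReg_al' hi (card_CP_reg hl hr)
    · refine G.isReg_io (IST.isReg_alp hi) fun m hm hmr => ?_
      have hmr' := G.temb.isReg_of hmr
      have hd := infCard_dlt hi
      have h1 : m ⊆ dlt i := by
        rw [alp_lim (Or.inr hl), card_mem_iff_sub hd.1 hmr'.isCard] at hm
        exact hm
      rcases (hmr'.isOrd.sub_iff hd.isOrd).1 h1 with h2 | h2
      · obtain ⟨j, hj, h3⟩ := (mem_dlt_lim hl).1 h2
        have hjo := hi.mem hj
        have hj' := hl.2.2 j hj
        refine ⟨sc j, card (CP (sc j)), hjo.sc, card_CP_sc hjo, ?_, LPo.cc_card hjo.sc, ?_⟩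
        · exact card_mem_of_mem (infCard_alp hjo.sc).1
            ((isOrd_alp hjo.sc).trans h3 (alp_mem_alp_sc hjo))
        · exact (isOrd_alp hi).trans (card_CP_sc hjo) (alp_mem_alp hi hj')
      · exact absurd (h2 ▸ hmr') hr

/-- the closure cardinals are cardinals of the extension -/
theorem isCard_alp {i : M} (hi : IsOrd i) : IsCard (G.io (alp i)) := (G.isReg_alp hi).isCard

/-- the first successor of `τ` is regular in the extension -/
theorem isReg_tau1 {i : M} (hi : IsOrd i) : IsReg (G.io (scard (tau i))) := by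
  have ht := infCard_tau hi
  refine G.isReg_io (isReg_scard ht) fun m hm _ => ⟨sc i, tau i, hi.sc, card_CP_sc hi, ?_,
    IT_cc hi, mem_scard_self ht.isOrd⟩
  have hmo : IsOrd m := (infCard_scard ht).isOrd.mem hm
  refine (isOrd_card m).mem_of_sub_of_mem (isOrd_alp hi.sc) ?_ (tau_mem_alp hi)
  exact card_sub_of_leq ht.isCard ((mem_scard_iff ht.isCard hmo).1 hm)

/-- the second successor of `τ` is regular in the extension at the stages with bit 1 -/
theorem isReg_tau2 {i : M} (hi : IsOrd i) (hb : Bit1 i) : IsReg (G.io (scard (scard (tau i)))) := by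
  have ht := infCard_tau hi
  have ht1 := infCard_scard ht
  have ht2 := infCard_scard ht1
  refine G.isReg_io (isReg_scard ht1) fun m hm _ => ⟨sc i, tau i, hi.sc, card_CP_sc hi, ?_,
    IT_cc hi, ht2.isOrd.trans (mem_scard_self ht.isOrd) (mem_scard_self ht1.isOrd)⟩
  have hmo : IsOrd m := ht2.isOrd.mem hm
  refine (isOrd_card m).mem_of_sub_of_mem (isOrd_alp hi.sc)
    (card_sub_of_leq ht1.isCard ((mem_scard_iff ht1.isCard hmo).1 hm)) ?_
  have h3 : alp (sc i) = scard (scard (scard (tau i))) := by
    rw [alp_sc hi]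
    unfold nxtF
    rw [if_pos hb]
  change scard (tau i) ∈ alp (sc i)
  rw [h3]
  exact (infCard_scard ht2).isOrd.trans (mem_scard_self ht1.isOrd) (mem_scard_self ht2.isOrd)

end Gen

end Pool.Agent.IST
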