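import Pool.Agent.LP.VZ0

/-!
# The generic extension: embedding of the ground model, names of families, subsets of ground model
sets
-/

set_option synthInstance.maxSize 100000

namespace Pool.Agent.IST

open Pool.Agent.BVM

namespace Gen

variable {M : Type} [SetModel M] [GCh M] {Γ : Type} [IsCtx Γ M] {P : LPo M} (G : Gen P)

/-! ### the embedding of the ground model -/

theorem io_inj {x y : M} (h : G.io x = G.io y) : x = y := by
  obtain ⟨r, hr, h⟩ := G.nm_eq.1 h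
  exact (LPo.fq_chk (G.cd hr)).1 h

theorem io_mem {x y : M} : G.io x ∈ G.io y ↔ x ∈ y := by
  constructor
  · intro h
    obtain ⟨r, hr, h⟩ := G.mem_nm.1 h
    exact (LPo.fm_chk (G.cd hr)).1 h
  · intro h
    exact G.mem_nm.2 ⟨P.one, G.one_mem, (LPo.fm_chk P.cd_one).2 h⟩

theorem io_tr {x : M} {b : G.Ext} (hb : b ∈ G.io x) : ∃ a, a ∈ x ∧ b = G.io a := by
  obtain ⟨z, rfl⟩ := G.exists_nm b
  obtain ⟨r, hr, h⟩ := G.mem_nm.1 hb
  obtain ⟨-, h⟩ := LPo.fm_chk_iff.1 h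
  obtain ⟨s, hs, -, a, ha, h⟩ := G.meets_below hr (fun u => ∃ a ∈ x, P.Fq u z (P.chk a)) h
  exact ⟨a, ha, G.nm_eq.2 ⟨s, hs, h⟩⟩

/-- names of ordinals of the ground model have at least the same rank -/
theorem rk_of_fq (w : M) : ∀ θ, IsOrd θ → ∀ r, P.Fq r (P.chk θ) w → θ ⊆ rk w := by
  have key : ∀ α, IsOrd α → ∀ w, rk w = α → ∀ θ, IsOrd θ → ∀ r, P.Fq r (P.chk θ) w → θ ⊆ α := by
    refine ord_ind (fun α => ∀ w, rk w = α → ∀ θ, IsOrd θ → ∀ r, P.Fq r (P.chk θ) w → θ ⊆ α) ?_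
    rintro α hα ih w rfl θ hθ r hr η hη
    have hcd := hr.cd
    have h1 : P.Fm r (P.chk η) (P.chk θ) := (LPo.fm_chk hcd).2 hη
    have h2 : P.Fm r (P.chk η) w := h1.congr (LPo.Fq.refl hcd _) hr
    obtain ⟨-, h2⟩ := LPo.fm_iff.1 h2
    obtain ⟨r', -, u, s, hu, -, h3⟩ := h2 r (P.le_refl hcd)
    have hu1 : rk u ∈ rk (sing u) := rk_mem (mem_sing.2 rfl)
    have hu2 : rk (sing u) ∈ rk (op u s) := rk_mem (mem_op.2 (Or.inl rfl))
    have hu3 : rk (op u s) ∈ rk w := rk_mem hu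
    have hu4 : rk u ∈ rk w := hα.trans hu1 (hα.trans hu2 hu3)
    exact (hθ.mem hη).mem_of_sub_of_mem hα (ih _ hu4 u rfl η (hθ.mem hη) r' h3) hu4
  exact fun θ hθ r hr => key _ (isOrd_rk w) w rfl θ hθ r hr

theorem io_isTrans {x : M} (h : IsTrans x) : IsTrans (G.io x) := by
  intro b hb c hc
  obtain ⟨a, ha, rfl⟩ := G.io_tr hb
  obtain ⟨d, hd, rfl⟩ := G.io_tr hc
  exact G.io_mem.2 (h a ha d hd)

theorem io_isOrd {x : M} (h : IsOrd x) : IsOrd (G.io x) := by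
  refine ⟨G.io_isTrans h.1, fun b hb => ?_⟩
  obtain ⟨a, ha, rfl⟩ := G.io_tr hb
  exact G.io_isTrans (h.2 a ha)

/-- elements of the value of a name -/
theorem mem_nm_iff {y : M} {b : G.Ext} :
    b ∈ G.nm y ↔ ∃ z s, op z s ∈ y ∧ G.G s ∧ b = G.nm z := by
  constructor
  · intro hb
    obtain ⟨x, rfl⟩ := G.exists_nm b
    obtain ⟨r, hr, h⟩ := G.mem_nm.1 hb
    obtain ⟨-, h⟩ := LPo.fm_iff.1 h
    obtain ⟨u, hu, -, z, s, hz, hs, h⟩ := G.meets_below hr
      (fun u => ∃ z s, op z s ∈ y ∧ P.le u s ∧ P.Fq u x z) h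
    exact ⟨z, s, hz, G.up hu hs, G.nm_eq.2 ⟨u, hu, h⟩⟩
  · rintro ⟨z, s, hz, hs, rfl⟩
    exact G.mem_nm.2 ⟨s, hs, LPo.Fm.of_mem hz (P.le_refl (G.cd hs))⟩

/-- the ordinals of the extension are the ordinals of the ground model -/
theorem exists_ord {b : G.Ext} (hb : IsOrd b) : ∃ a : M, b = G.io a := by
  obtain ⟨z, rfl⟩ := G.exists_nm b
  have h1 : IsOrd (G.io (rk z)) := G.io_isOrd (isOrd_rk z)
  rcases hb.cmp h1 with h | h | h
  · obtain ⟨a, -, e⟩ := G.io_tr h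
    exact ⟨a, e⟩
  · exact ⟨_, h⟩
  · exfalso
    obtain ⟨w, s, hw, -, e⟩ := G.mem_nm_iff.1 h
    obtain ⟨r, -, hr⟩ := G.nm_eq.1 e
    have h2 := rk_of_fq w (rk z) (isOrd_rk z) r hr
    have hu1 : rk w ∈ rk (sing w) := rk_mem (mem_sing.2 rfl)
    have hu2 : rk (sing w) ∈ rk (op w s) := rk_mem (mem_op.2 (Or.inl rfl))
    have hu3 : rk (op w s) ∈ rk z := rk_mem hw
    have hz := isOrd_rk z
    exact mem_irrefl _ (h2 _ (hz.trans hu1 (hz.trans hu2 hu3)))

/-- the ground model is embedded as a transitive class with the same ordinals -/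
theorem temb : TEmb G.io where
  inj := G.io_inj
  mem := G.io_mem
  tr := G.io_tr
  ord := G.exists_ord

/-! ### names -/

/-- the canonical name of the pair -/
noncomputable def opN (P : LPo M) (x y : M) : M :=
  upair (op (upair (op x P.one) (op x P.one)) P.one) (op (upair (op x P.one) (op y P.one)) P.one)

/-- the name of the unordered pair -/
theorem nm_upN (x y : M) :
    G.nm (upair (op x P.one) (op y P.one)) = upair (G.nm x) (G.nm y) := by
  apply ext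
  intro b
  rw [G.mem_nm_iff, mem_upair]
  constructor
  · rintro ⟨z, s, hz, -, rfl⟩
    rcases mem_upair.1 hz with h | h
    · exact Or.inl (by rw [(op_inj.1 h).1])
    · exact Or.inr (by rw [(op_inj.1 h).1])
  · rintro (rfl | rfl)
    · exact ⟨x, P.one, mem_upair.2 (Or.inl rfl), G.one_mem, rfl⟩
    · exact ⟨y, P.one, mem_upair.2 (Or.inr rfl), G.one_mem, rfl⟩

theorem nm_opN (x y : M) : G.nm (opN P x y) = op (G.nm x) (G.nm y) := by
  unfold opN
  rw [G.nm_upN, G.nm_upN, G.nm_upN]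
  rfl

instance dff_opN {f g : Γ → M} [Dff f] [Dff g] : Dff fun γ => opN P (f γ) (g γ) := by
  unfold opN; infer_instance

/-- the set of the values of names `F x`, `x ∈ a`, with conditions `H x` -/
theorem exists_fam (a : M) (F H : M → M) [Dff fun γ : E0 M × M => F γ.2]
    [Dff fun γ : E0 M × M => H γ.2] :
    ∃ g : G.Ext, ∀ b, b ∈ g ↔ ∃ x ∈ a, G.G (H x) ∧ b = G.nm (F x) := by
  refine ⟨G.nm (img a fun x => op (F x) (H x)), fun b => ?_⟩
  rw [G.mem_nm_iff]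
  constructor
  · rintro ⟨z, s, hz, hs, rfl⟩
    obtain ⟨x, hx, e⟩ := mem_img.1 hz
    obtain ⟨rfl, rfl⟩ := op_inj.1 e
    exact ⟨x, hx, hs, rfl⟩
  · rintro ⟨x, hx, hs, rfl⟩
    exact ⟨F x, H x, mem_img.2 ⟨x, hx, rfl⟩, hs, rfl⟩

/-- the generic filter on `PP i`, as an element of the extension -/
theorem exists_filter {i : M} (hi : IsOrd i) :
    ∃ g : G.Ext, ∀ b, b ∈ g ↔ ∃ r ∈ P.PP i, G.G r ∧ b = G.io r :=
  G.exists_fam (P.PP i) (fun r => P.chk r) (fun r => r)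

/-! ### subsets of ground model sets -/

/-- if `r, q` are in the filter then so is their greatest lower bound -/
theorem gl_mem_G {i r q : M} (hi : IsOrd i) (hr : G.G r) (hq : G.G q) (hri : r ∈ P.PP i)
    (h : P.le r (P.rs i q)) : G.G (P.gl i r q) := by
  obtain ⟨s, hs, h1, h2⟩ := G.dir hr hq
  exact G.up hs (P.le_gl hi (G.cd hq) hri h h1 h2)

/-- subsets of ground model sets: if fewer than `al i` many elements, and `PP i` is smaller than
`al i`, then the subset is given by a relation of the ground model and the filter on `PP i` -/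
theorem subset_level {i a : M} (hi : IsOrd i) (hc : card (P.PP i) ∈ P.al i)
    (ha : card a ∈ P.al i) {x : G.Ext} (hx : x ⊆ G.io a) :
    ∃ R : M, R ⊆ prod a (P.PP i) ∧ ∀ y ∈ a, (G.io y ∈ x ↔ ∃ r, G.G r ∧ op y r ∈ R) := by
  obtain ⟨e, rfl⟩ := G.exists_nm x
  let D : M → M → Prop := fun y u => P.Fm u (P.chk y) e ∨ ∀ u', P.le u' u → ¬ P.Fm u' (P.chk y) e
  have hD : Dfp fun γ : (E0 M × M) × M => D γ.1.2 γ.2 := by
    unfold D; infer_instance
  have ho : ∀ y u u', D y u → P.le u' u → D y u' := by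
    rintro y u u' (h | h) hu
    · exact Or.inl (h.mono hu)
    · exact Or.inr fun u'' h' => h u'' (P.le_trans h' hu)
  obtain ⟨q, hq, hqD⟩ : ∃ q, G.G q ∧ ∀ y ∈ a, ∀ r ∈ P.PP i, P.le r (P.rs i q) →
      ∃ r' ∈ P.PP i, P.le r' r ∧ D y (P.gl i r' q) := by
    refine G.meets (fun q => ∀ y ∈ a, ∀ r ∈ P.PP i, P.le r (P.rs i q) →
      ∃ r' ∈ P.PP i, P.le r' r ∧ D y (P.gl i r' q)) ?_ ?_
    · unfold D; infer_instance
    · intro p hp
      obtain ⟨q, hq, h⟩ := LPo.pure_dec hi hc hp ha D (fun y _ => ho y) (fun y _ u hu => by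
        by_cases h : ∃ u', P.le u' u ∧ P.Fm u' (P.chk y) e
        · obtain ⟨u', h1, h2⟩ := h
          exact ⟨u', h1, Or.inl h2⟩
        · exact ⟨u, P.le_refl (P.left hu), Or.inr fun u' h1 h2 => h ⟨u', h1, h2⟩⟩)
      refine ⟨q, hq.1, fun y hy r hr hrq => h y hy r hr ?_⟩
      rw [← hq.2]
      exact hrq
  refine ⟨sep (prod a (P.PP i)) fun t => ∃ y r, t = op y r ∧ P.le r (P.rs i q) ∧
    P.Fm (P.gl i r q) (P.chk y) e, fun t ht => (mem_sep.1 ht).1, fun y hy => ?_⟩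
  constructor
  · intro h
    obtain ⟨t, ht, hf⟩ := G.mem_nm.1 h
    have hqi := G.rs_mem hi hq
    obtain ⟨u, hu, -, h1, h2⟩ := G.meets_below hqi
      (fun u => P.le (P.rs i u) (P.rs i q) ∧ D y (P.gl i (P.rs i u) q)) (fun r hr => by
        have hrc := P.left hr
        have h3 : P.le (P.rs i r) (P.rs i q) := by
          have := P.rs_mono hi hr
          rwa [P.rs_rs hi hi (Sub.refl _) (G.cd hq)] at this
        obtain ⟨r', hr', h4, h5⟩ := hqD y hy _ (P.rs_mem hi hrc) h3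
        refine ⟨P.gl i r' r, P.gl_le hi hrc hr' h4, ?_⟩
        rw [P.rs_gl hi hrc hr' h4]
        exact ⟨P.le_trans h4 h3, h5⟩)
    have hui := G.rs_mem hi hu
    have hm := P.rs_mem hi (G.cd hu)
    have hg := G.gl_mem_G hi hui hq hm h1
    refine ⟨P.rs i u, hui, mem_sep.2 ⟨op_mem_prod.2 ⟨hy, hm⟩, y, _, rfl, h1, ?_⟩⟩
    rcases h2 with h2 | h2
    · exact h2
    · obtain ⟨s, -, h3, h4⟩ := G.dir hg ht
      exact absurd (hf.mono h4) (h2 s h3)
  · rintro ⟨r, hr, h⟩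
    obtain ⟨h1, y', r', e', h2, h3⟩ := mem_sep.1 h
    obtain ⟨rfl, rfl⟩ := op_inj.1 e'
    exact G.mem_nm.2 ⟨_, G.gl_mem_G hi hr hq (op_mem_prod.1 h1).2 h2, h3⟩

end Gen

end Pool.Agent.IST
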