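import Pool.Agent.LP.VZ1
import Pool.Agent.LP.Emb

/-!
# The generic extension is a model of ZFC
-/

set_option synthInstance.maxSize 100000

namespace Pool.Agent.IST

open Pool.Agent.BVM

namespace Gen

variable {M : Type} [SetModel M] [GCh M] {Γ : Type} [IsCtx Γ M] {P : LPo M} (G : Gen P)

noncomputable instance : SetModel G.Ext := ⟨G.E, fun x => ∃ a, x = G.io a, G.zfcu_ext⟩

theorem mem_nm {x y : M} : G.nm x ∈ G.nm y ↔ ∃ r, G.G r ∧ P.Fm r x y := Iff.rfl

theorem u_iff {x : G.Ext} : SetModel.U x ↔ ∃ a, x = G.io a := Iff.rfl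

end Gen

end Pool.Agent.IST
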