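import Pool.Agent.LP.Frc
import Pool.Agent.LP.Pure
import Pool.Agent.IST.Subst

/-!
# The axioms of ZFC in the generic extension
-/

set_option synthInstance.maxSize 100000

namespace Pool.Agent.IST

open Pool.Agent.BVM

section

variable {M : Type} [SetModel M] {Γ : Type} [IsCtx Γ M]

/-- definable assignments -/
class Dfv (s : Γ → ℕ → M) : Prop where
  out : ∀ i, Dff fun γ => s γ i

instance Dfv.const (w : ℕ → M) : Dfv fun _ : Γ => w := ⟨fun i => Dff.const (w i)⟩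

instance Dfv.cons {f : Γ → M} {s : Γ → ℕ → M} [hf : Dff f] [hs : Dfv s] :
    Dfv fun γ => cons (f γ) (s γ) := ⟨fun i => by
  cases i with
  | zero => exact hf
  | succ n => exact hs.out n⟩

instance dfp_Frc {P : LPo M} {φ : FmlU} {f : Γ → M} {s : Γ → ℕ → M} [Dff f] [hs : Dfv s] :
    Dfp fun γ => P.Frc φ (f γ) (s γ) := P.frc_dfp φ (fun i γ => s γ i) hs.out

end

namespace Gen

variable {M : Type} [SetModel M] {P : LPo M} (G : Gen P)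

theorem nm_cons (z : M) (v : ℕ → M) :
    (fun i => G.nm (cons z v i)) = cons (G.nm z) fun i => G.nm (v i) := by
  funext i
  cases i <;> rfl

/-- satisfaction in the extension -/
def St (φ : FmlU) (v : ℕ → G.Ext) : Prop := SatU G.E (fun x => ∃ a, x = G.io a) φ v

theorem st0 (φ : FmlU) (v : ℕ → M) :
    G.St φ (fun i => G.nm (v i)) ↔ ∃ r, G.G r ∧ P.Frc φ r v := G.truth φ v

theorem st1 (φ : FmlU) (z : M) (v : ℕ → M) :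
    G.St φ (cons (G.nm z) fun i => G.nm (v i)) ↔ ∃ r, G.G r ∧ P.Frc φ r (cons z v) := by
  rw [← G.nm_cons]
  exact G.st0 φ _

theorem st2 (φ : FmlU) (z y : M) (v : ℕ → M) :
    G.St φ (cons (G.nm z) (cons (G.nm y) fun i => G.nm (v i))) ↔
      ∃ r, G.G r ∧ P.Frc φ r (cons z (cons y v)) := by
  rw [← G.nm_cons, ← G.nm_cons]
  exact G.st0 φ _

theorem exists_env (v : ℕ → G.Ext) : ∃ w : ℕ → M, v = fun i => G.nm (w i) := by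
  choose w hw using fun i => G.exists_nm (v i)
  exact ⟨w, funext fun i => (hw i).symm⟩

/-- elements of the value of a name -/
theorem E_iff {y : M} {b : G.Ext} :
    G.E b (G.nm y) ↔ ∃ z s, op z s ∈ y ∧ G.G s ∧ b = G.nm z := by
  obtain ⟨x, rfl⟩ := G.exists_nm b
  constructor
  · intro h
    obtain ⟨r, hr, h⟩ := G.E_nm.1 h
    have h' := LPo.fm_iff.1 h
    obtain ⟨u, hu, -, z, s, hzs, hus, hxz⟩ := G.meets_below hr
      (fun u => ∃ z s, op z s ∈ y ∧ P.le u s ∧ P.Fq u x z) h'.2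
    exact ⟨z, s, hzs, G.up hu hus, G.nm_eq.2 ⟨u, hu, hxz⟩⟩
  · rintro ⟨z, s, hzs, hs, h⟩
    rw [h]
    exact G.E_nm.2 ⟨s, hs, LPo.Fm.of_mem hzs (P.le_refl (G.cd hs))⟩

theorem glue {i r q : M} (hi : IsOrd i) (hr : G.G r) (hq : G.G q) (hri : r ∈ P.PP i)
    (h : P.le r (P.rs i q)) : G.G (P.gl i r q) := by
  obtain ⟨s, hs, h1, h2⟩ := G.dir hr hq
  exact G.up hs (P.le_gl hi (G.cd hq) hri h h1 h2)

end Gen

theorem al_sub {M : Type} [SetModel M] (P : LPo M) {α : M} (h : IsOrd α) : α ⊆ P.al α := by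
  refine ord_ind (fun α : M => α ⊆ P.al α) (fun α hα ih => ?_) α h
  intro β hβ
  exact (hα.mem hβ).mem_of_sub_of_mem (P.reg_al hα).isOrd (ih β hβ) (P.al_mem hα hβ)

theorem exists_good {M : Type} [SetModel M] (P : LPo M) (a : M) :
    ∃ i, IsOrd i ∧ card a ∈ P.al i ∧ card (P.PP i) ∈ P.al i := by
  have h := isOrd_card a
  exact ⟨sc (card a), h.sc, h.mem_of_sub_of_mem (P.reg_al h.sc).isOrd (al_sub P h)
    (P.al_mem h.sc (self_mem_sc _)), P.card_PP h⟩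

namespace Gen

variable {M : Type} [SetModel M] [GCh M] {P : LPo M} (G : Gen P)

theorem exists_dec {i a : M} (hi : IsOrd i) (hc : card (P.PP i) ∈ P.al i) (ha : card a ∈ P.al i)
    (D : M → M → Prop) [hd : Dfp fun γ : (E0 M × M) × M => D γ.1.2 γ.2]
    (ho : ∀ x ∈ a, ∀ u u', D x u → P.le u' u → D x u')
    (hD : ∀ x ∈ a, ∀ u, P.Cd u → ∃ u', P.le u' u ∧ D x u') :
    ∃ q, G.G q ∧ ∀ x ∈ a, ∀ r ∈ P.PP i, P.le r (P.rs i q) →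
      ∃ r' ∈ P.PP i, P.le r' r ∧ D x (P.gl i r' q) := by
  have hd' : DP2 D := ⟨hd⟩
  refine G.meets (fun q => ∀ x ∈ a, ∀ r ∈ P.PP i, P.le r (P.rs i q) →
      ∃ r' ∈ P.PP i, P.le r' r ∧ D x (P.gl i r' q)) inferInstance fun p hp => ?_
  obtain ⟨q, hq, h⟩ := LPo.pure_dec hi hc hp ha D ho fun x hx u hu => hD x hx u (P.left hu)
  refine ⟨q, hq.1, fun x hx r hr hrq => h x hx r hr ?_⟩
  rwa [← hq.2]

omit [GCh M] in
theorem dec_spec {i a q : M} (hi : IsOrd i) (D : M → M → Prop)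
    [hd : Dfp fun γ : (E0 M × M) × M => D γ.1.2 γ.2] (hq : G.G q)
    (h : ∀ x ∈ a, ∀ r ∈ P.PP i, P.le r (P.rs i q) → ∃ r' ∈ P.PP i, P.le r' r ∧ D x (P.gl i r' q))
    {x : M} (hx : x ∈ a) :
    ∃ r ∈ P.PP i, G.G r ∧ P.le r (P.rs i q) ∧ D x (P.gl i r q) ∧ G.G (P.gl i r q) := by
  have hd' : DP2 D := ⟨hd⟩
  obtain ⟨u, hu, huq, r', hr', h1, h2, h3⟩ := G.meets_below hq
    (fun u => ∃ r' ∈ P.PP i, P.le r' (P.rs i q) ∧ P.le u r' ∧ D x (P.gl i r' q)) fun u hu => by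
      obtain ⟨r', hr', h1, h2⟩ := h x hx (P.rs i u) (P.rs_mem hi (P.left hu))
        (P.rs_mono hi hu)
      exact ⟨P.gl i r' u, P.gl_le hi (P.left hu) hr' h1, r', hr',
        P.le_trans h1 (P.rs_mono hi hu), P.gl_le_left hi (P.left hu) hr' h1, h2⟩
  have hr : G.G r' := G.up hu h2
  exact ⟨r', hr', hr, h1, h3, G.glue hi hr hq hr' h1⟩

/-- a name for a subset of the value of `a`, given by a formula; its level is bounded -/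
theorem sep_name {i a : M} (hi : IsOrd i) (hc : card (P.PP i) ∈ P.al i)
    (ha : card (dom a) ∈ P.al i) (φ : FmlU) (w : ℕ → M) :
    ∃ y : M, y ⊆ prod (dom a) (P.PP i) ∧ ∀ b, G.E b (G.nm y) ↔
      G.E b (G.nm a) ∧ G.St φ (cons b fun k => G.nm (w k)) := by
  obtain ⟨ψ, hψ⟩ : ∃ ψ : FmlU, ∀ z : G.Ext, G.St ψ (cons z (cons (G.nm a) fun k => G.nm (w k))) ↔
      G.E z (G.nm a) ∧ G.St φ (cons z fun k => G.nm (w k)) := by
    refine ⟨.and (.mem 0 1) (rn (fun k => Nat.casesOn k 0 fun k => k + 2) φ), fun z => ?_⟩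
    refine and_congr Iff.rfl ((sat_rn _ _ _ _ _).trans (iff_of_eq ?_))
    unfold St
    congr 1
    funext k
    cases k <;> rfl
  let D : M → M → Prop := fun z u => P.Frc ψ u (cons z (cons a w)) ∨
    P.Frc (.neg ψ) u (cons z (cons a w))
  have hD : Dfp fun γ : (E0 M × M) × M => D γ.1.2 γ.2 := by
    simp only [D]; infer_instance
  obtain ⟨q, hq, h⟩ := G.exists_dec hi hc ha D
    (fun x _ u u' hu hle => hu.imp (fun h => h.mono hle) fun h => h.mono hle)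
    fun x _ u hu => LPo.frc_decide ψ _ hu
  refine ⟨sep (prod (dom a) (P.PP i)) fun t => ∃ z r, t = op z r ∧ P.le r (P.rs i q) ∧
    P.Frc ψ (P.gl i r q) (cons z (cons a w)), fun t ht => (mem_sep.1 ht).1, fun b => ?_⟩
  rw [E_iff]
  constructor
  · rintro ⟨z, s, hzs, hs, rfl⟩
    obtain ⟨h1, z', s', e, h2, h3⟩ := mem_sep.1 hzs
    obtain ⟨rfl, rfl⟩ := op_inj.1 e
    rw [← hψ, G.st2]
    exact ⟨_, G.glue hi hs hq (op_mem_prod.1 h1).2 h2, h3⟩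
  · rintro ⟨hb, hφ⟩
    obtain ⟨z, s, hzs, hs, rfl⟩ := G.E_iff.1 hb
    have hz : z ∈ dom a := mem_dom.2 ⟨s, hzs⟩
    obtain ⟨r, hr, hrG, hrq, h1, h2⟩ := G.dec_spec hi D hq h hz
    rcases h1 with h1 | h1
    · exact ⟨z, r, mem_sep.2 ⟨op_mem_prod.2 ⟨hz, hr⟩, z, r, rfl, hrq, h1⟩, hrG, rfl⟩
    · have h3 := (G.st2 (.neg ψ) z a w).2 ⟨_, h2, h1⟩
      exact absurd ((hψ _).2 ⟨hb, hφ⟩) h3

theorem sep_ext (φ : FmlU) (v : ℕ → G.Ext) (x : G.Ext) :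
    ∃ y, ∀ z, G.E z y ↔ G.E z x ∧ G.St φ (cons z v) := by
  obtain ⟨w, rfl⟩ := G.exists_env v
  obtain ⟨a, rfl⟩ := G.exists_nm x
  obtain ⟨i, hi, ha, hc⟩ := exists_good P (dom a)
  obtain ⟨y, -, hy⟩ := G.sep_name hi hc ha φ w
  exact ⟨G.nm y, hy⟩

/-- collection -/
theorem coll_ext (φ : FmlU) (v : ℕ → G.Ext) (x : G.Ext) :
    ∃ B, ∀ a, G.E a x → (∃ b, G.St φ (cons b (cons a v))) →
      ∃ b, G.E b B ∧ G.St φ (cons b (cons a v)) := by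
  obtain ⟨w, rfl⟩ := G.exists_env v
  obtain ⟨a, rfl⟩ := G.exists_nm x
  obtain ⟨i, hi, ha, hc⟩ := exists_good P (dom a)
  let D : M → M → Prop := fun z u => (∃ y, P.Frc φ u (cons y (cons z w))) ∨
    P.Frc (.neg (.ex φ)) u (cons z w)
  have hD : Dfp fun γ : (E0 M × M) × M => D γ.1.2 γ.2 := by
    simp only [D]; infer_instance
  obtain ⟨q, hq, h⟩ := G.exists_dec hi hc ha D
    (fun x _ u u' hu hle => hu.imp (fun ⟨y, h⟩ => ⟨y, h.mono hle⟩) fun h => h.mono hle)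
    fun x _ u hu => by
      obtain ⟨u', hu', h1 | h1⟩ := LPo.frc_decide (.ex φ) (cons x w) hu
      · obtain ⟨u'', hu'', y, hy⟩ := h1.2 u' (P.le_refl (P.left hu'))
        exact ⟨u'', P.le_trans hu'' hu', Or.inl ⟨y, hy⟩⟩
      · exact ⟨u', hu', Or.inr h1⟩
  refine ⟨G.nm (img (prod (dom a) (P.PP i)) fun t =>
    op (pick fun y => P.Frc φ (P.gl i (p2 t) q) (cons y (cons (p1 t) w))) P.one), fun b hb hex => ?_⟩
  obtain ⟨z, s, hzs, hs, rfl⟩ := G.E_iff.1 hb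
  have hz : z ∈ dom a := mem_dom.2 ⟨s, hzs⟩
  obtain ⟨r, hr, hrG, hrq, h1, h2⟩ := G.dec_spec hi D hq h hz
  rcases h1 with h1 | h1
  · have h3 : P.Frc φ (P.gl i r q)
        (cons (pick fun y => P.Frc φ (P.gl i r q) (cons y (cons z w))) (cons z w)) :=
      LPo.pick_spec (P := fun y => P.Frc φ (P.gl i r q) (cons y (cons z w))) h1
    refine ⟨_, G.E_iff.2 ⟨pick fun y => P.Frc φ (P.gl i r q) (cons y (cons z w)), P.one,
      mem_img.2 ⟨op z r, op_mem_prod.2 ⟨hz, hr⟩, ?_⟩, G.one_mem, rfl⟩, (G.st2 φ _ z w).2 ⟨_, h2, h3⟩⟩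
    rw [p1_op, p2_op]
  · have h3 := (G.st1 (.neg (.ex φ)) z w).2 ⟨_, h2, h1⟩
    exact absurd hex h3

theorem repl_ext (φ : FmlU) (v : ℕ → G.Ext) (x : G.Ext)
    (h : ∀ a, G.E a x → ∃! b, G.St φ (cons b (cons a v))) :
    ∃ y, ∀ b, G.E b y ↔ ∃ a, G.E a x ∧ G.St φ (cons b (cons a v)) := by
  obtain ⟨B, hB⟩ := G.coll_ext φ v x
  obtain ⟨y, hy⟩ := G.sep_ext (.ex (.and (.mem 0 2)
    (rn (fun k => Nat.casesOn k 1 fun k => Nat.casesOn k 0 fun k => k + 3) φ))) (cons x v) B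
  refine ⟨y, fun b => (hy b).trans ?_⟩
  have key : G.St (.ex (.and (.mem 0 2)
      (rn (fun k => Nat.casesOn k 1 fun k => Nat.casesOn k 0 fun k => k + 3) φ)))
      (cons b (cons x v)) ↔ ∃ a, G.E a x ∧ G.St φ (cons b (cons a v)) := by
    refine exists_congr fun a => and_congr Iff.rfl ((sat_rn _ _ _ _ _).trans (iff_of_eq ?_))
    unfold St
    congr 1
    funext k
    rcases k with _ | _ | k <;> rfl
  rw [key]
  refine ⟨fun h => h.2, fun h' => ⟨?_, h'⟩⟩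
  obtain ⟨a, ha, hb⟩ := h'
  obtain ⟨b', hb', h1⟩ := hB a ha ⟨b, hb⟩
  rwa [(h a ha).unique hb h1]

omit [GCh M] in
theorem ext_ext {x y : G.Ext} (h : ∀ z, G.E z x ↔ G.E z y) : x = y := by
  obtain ⟨a, rfl⟩ := G.exists_nm x
  obtain ⟨b, rfl⟩ := G.exists_nm y
  have h1 : G.St (.all (.iff (.mem 0 1) (.mem 0 2)))
      (cons (G.nm a) (cons (G.nm b) fun _ => G.nm a)) := h
  obtain ⟨r, hr, h2⟩ := (G.st2 _ a b fun _ => a).1 h1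
  exact G.nm_eq.2 ⟨r, hr, LPo.fq_iff.2 ⟨G.cd hr, fun r' hr' z => (h2 z).2 r' hr'⟩⟩

omit [GCh M] in
theorem found_ext (x : G.Ext) (hx : ∃ y, G.E y x) : ∃ y, G.E y x ∧ ∀ z, G.E z y → ¬ G.E z x := by
  by_contra hcon
  obtain ⟨a, rfl⟩ := G.exists_nm x
  have h1 : G.St (.all (.imp (.mem 0 1) (.ex (.and (.mem 0 1) (.mem 0 2)))))
      (cons (G.nm a) fun _ => G.nm a) := by
    intro y hy
    by_contra h
    exact hcon ⟨y, hy, fun z hz hza => h ⟨z, hz, hza⟩⟩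
  obtain ⟨r0, hr0, h2⟩ := (G.st1 _ a fun _ => a).1 h1
  obtain ⟨y, hy⟩ := hx
  obtain ⟨z0, rfl⟩ := G.exists_nm y
  obtain ⟨r1, hr1, h3⟩ := G.E_nm.1 hy
  obtain ⟨r, hr, hrr0, hrr1⟩ := G.dir hr0 hr1
  have key : ∀ α : M, IsOrd α → ∀ z, rk z = α → ∀ r', P.le r' r → ¬ P.Fm r' z a := by
    refine ord_ind (fun α : M => ∀ z, rk z = α → ∀ r', P.le r' r → ¬ P.Fm r' z a) ?_
    intro α hα ih z hz r' hr' hm
    obtain ⟨-, h4⟩ := (h2 z).2 r' (P.le_trans hr' hrr0) hm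
    obtain ⟨r2, hr2, z1, h5, h6⟩ := h4 r' (P.le_refl (P.left hr'))
    obtain ⟨hcd, h7⟩ := LPo.fm_iff.1 h5
    obtain ⟨r3, hr3, z2, s, hzs, -, h8⟩ := h7 r2 (P.le_refl hcd)
    have h9 : P.Fm r3 z2 a :=
      LPo.Fm.congr (h6.mono hr3) h8 (LPo.Fq.refl (P.left hr3) a)
    refine ih (rk z2) ?_ z2 rfl r3 (P.le_trans hr3 (P.le_trans hr2 hr')) h9
    rw [← hz]
    have h10 : rk z2 ∈ rk (sing z2) := rk_mem (mem_sing.2 rfl)
    have h11 : rk (sing z2) ∈ rk (op z2 s) := rk_mem (mem_op.2 (Or.inl rfl))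
    have h12 : rk (op z2 s) ∈ rk z := rk_mem hzs
    exact (isOrd_rk z).trans ((isOrd_rk _).trans h10 h11) h12
  exact key (rk z0) (isOrd_rk z0) z0 rfl r (P.le_refl (G.cd hr)) (h3.mono hrr1)

omit [GCh M] in
theorem pair_ext (x y : G.Ext) : ∃ z, ∀ t, G.E t z ↔ (t = x ∨ t = y) := by
  obtain ⟨a, rfl⟩ := G.exists_nm x
  obtain ⟨b, rfl⟩ := G.exists_nm y
  refine ⟨G.nm (upair (op a P.one) (op b P.one)), fun t => G.E_iff.trans ⟨?_, ?_⟩⟩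
  · rintro ⟨z, s, hzs, -, rfl⟩
    rcases mem_upair.1 hzs with h | h
    · exact Or.inl (by rw [(op_inj.1 h).1])
    · exact Or.inr (by rw [(op_inj.1 h).1])
  · rintro (rfl | rfl)
    · exact ⟨a, P.one, mem_upair.2 (Or.inl rfl), G.one_mem, rfl⟩
    · exact ⟨b, P.one, mem_upair.2 (Or.inr rfl), G.one_mem, rfl⟩

omit [SetModel M] [GCh M] in
theorem _root_.Pool.Agent.IST.mem_of_op_mem [SetModel M] {t y z s : M} (ht : IsTrans t)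
    (hy : y ∈ t) (h : op z s ∈ y) : z ∈ t :=
  ht _ (ht _ (ht _ hy _ h) _ (mem_op.2 (Or.inl rfl))) _ (mem_sing.2 rfl)

theorem union_ext (x : G.Ext) : ∃ u, ∀ t, G.E t u ↔ ∃ y, G.E y x ∧ G.E t y := by
  obtain ⟨a, rfl⟩ := G.exists_nm x
  obtain ⟨u, hu⟩ := G.sep_ext (.ex (.and (.mem 0 2) (.mem 1 0))) (fun _ => G.nm a)
    (G.nm (img (tc a) fun z => op z P.one))
  refine ⟨u, fun t => (hu t).trans ⟨fun h => h.2, fun h => ⟨?_, h⟩⟩⟩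
  obtain ⟨y, hy, ht⟩ := h
  obtain ⟨z, s, hzs, -, rfl⟩ := G.E_iff.1 hy
  obtain ⟨z', s', hzs', -, rfl⟩ := G.E_iff.1 ht
  have h1 : z ∈ tc a := isTrans_tc a _ (isTrans_tc a _ (sub_tc a _ hzs) _ (mem_op.2 (Or.inl rfl)))
    _ (mem_sing.2 rfl)
  have h2 : z' ∈ tc a := mem_of_op_mem (isTrans_tc a) h1 hzs'
  exact G.E_iff.2 ⟨z', P.one, mem_img.2 ⟨z', h2, rfl⟩, G.one_mem, rfl⟩

theorem power_ext (x : G.Ext) : ∃ p, ∀ t, G.E t p ↔ ∀ z, G.E z t → G.E z x := by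
  obtain ⟨a, rfl⟩ := G.exists_nm x
  obtain ⟨i, hi, ha, hc⟩ := exists_good P (dom a)
  obtain ⟨p, hp⟩ := G.sep_ext (.all (.imp (.mem 0 1) (.mem 0 2))) (fun _ => G.nm a)
    (G.nm (img (pw (prod (dom a) (P.PP i))) fun z => op z P.one))
  refine ⟨p, fun t => (hp t).trans ⟨fun h => h.2, fun h => ⟨?_, h⟩⟩⟩
  obtain ⟨t, rfl⟩ := G.exists_nm t
  obtain ⟨y, hy, h1⟩ := G.sep_name hi hc ha (.mem 0 1) fun _ => t
  have h2 : G.nm y = G.nm t := G.ext_ext fun z => (h1 z).trans ⟨fun h => h.2, fun h' => ⟨h z h', h'⟩⟩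
  exact G.E_iff.2 ⟨y, P.one, mem_img.2 ⟨y, mem_pw.2 hy, rfl⟩, G.one_mem, h2.symm⟩

omit [GCh M] in
theorem E_io {x : M} {b : G.Ext} : G.E b (G.io x) ↔ ∃ y ∈ x, b = G.io y := by
  refine G.E_iff.trans ⟨?_, ?_⟩
  · rintro ⟨z, s, hzs, -, rfl⟩
    obtain ⟨y, hy, e⟩ := (P.mem_chk).1 hzs
    exact ⟨y, hy, by rw [(op_inj.1 e).1]; rfl⟩
  · rintro ⟨y, hy, rfl⟩
    exact ⟨_, P.one, (P.mem_chk).2 ⟨y, hy, rfl⟩, G.one_mem, rfl⟩

omit [GCh M] in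
theorem infinity_ext : ∃ x, (∃ e, G.E e x ∧ ∀ z, ¬ G.E z e) ∧ ∀ y, G.E y x → ∃ s, G.E s x ∧
    ∀ z, G.E z s ↔ (G.E z y ∨ z = y) := by
  obtain ⟨x, ⟨e, he, h1⟩, h2⟩ := (SetModel.zfc (M := M)).infinity
  refine ⟨G.io x, ⟨G.io e, G.E_io.2 ⟨e, he, rfl⟩, fun z hz => ?_⟩, fun y hy => ?_⟩
  · obtain ⟨t, ht, -⟩ := G.E_io.1 hz
    exact h1 t ht
  · obtain ⟨y, hyx, rfl⟩ := G.E_io.1 hy
    obtain ⟨s, hs, h3⟩ := h2 y hyx
    refine ⟨G.io s, G.E_io.2 ⟨s, hs, rfl⟩, fun z => ?_⟩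
    rw [E_io, E_io]
    constructor
    · rintro ⟨t, ht, rfl⟩
      rcases (h3 t).1 ht with h4 | rfl
      · exact Or.inl ⟨t, h4, rfl⟩
      · exact Or.inr rfl
    · rintro (⟨t, ht, rfl⟩ | rfl)
      · exact ⟨t, (h3 t).2 (Or.inl ht), rfl⟩
      · exact ⟨y, (h3 y).2 (Or.inr rfl), rfl⟩

omit [GCh M] in
/-- least ordinals of the ground model -/
theorem exists_least (φ : FmlU) (w : ℕ → M) (F : M → M) [hF : Dff fun γ : E0 M × M => F γ.2]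
    {κ : M} (hκ : IsOrd κ)
    (h : ∃ ξ ∈ κ, G.St φ (cons (G.nm (F ξ)) fun k => G.nm (w k))) :
    ∃ ξ ∈ κ, G.St φ (cons (G.nm (F ξ)) fun k => G.nm (w k)) ∧
      ∀ η ∈ ξ, ¬ G.St φ (cons (G.nm (F η)) fun k => G.nm (w k)) := by
  have hF' : DF1 F := ⟨hF⟩
  obtain ⟨u, hu, h1 | h1⟩ := G.meets
    (fun r => (∃ ξ ∈ κ, P.Frc φ r (cons (F ξ) w) ∧ ∀ η ∈ ξ, P.Frc (.neg φ) r (cons (F η) w)) ∨
      ∀ ξ ∈ κ, P.Frc (.neg φ) r (cons (F ξ) w)) inferInstance fun r hr => by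
    by_cases h1 : ∃ ξ ∈ κ, ∃ r', P.le r' r ∧ P.Frc φ r' (cons (F ξ) w)
    · obtain ⟨ξ, hξ, h2⟩ := h1
      obtain ⟨ξ, -, ⟨hξ, r', hr', h2⟩, h3⟩ := exists_min (fun ξ => ξ ∈ κ ∧ ∃ r', P.le r' r ∧
        P.Frc φ r' (cons (F ξ) w)) (hκ.mem hξ) ⟨hξ, h2⟩
      refine ⟨r', hr', Or.inl ⟨ξ, hξ, h2, fun η hη => ⟨P.left hr', fun r'' hr'' h4 => ?_⟩⟩⟩
      exact h3 η hη ⟨hκ.trans hη hξ, r'', P.le_trans hr'' hr', h4⟩
    · push Not at h1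
      exact ⟨r, P.le_refl hr, Or.inr fun ξ hξ => ⟨hr, fun r' hr' h2 => h1 ξ hξ r' hr' h2⟩⟩
  · obtain ⟨ξ, hξ, h2, h3⟩ := h1
    exact ⟨ξ, hξ, (G.st1 φ _ w).2 ⟨u, hu, h2⟩, fun η hη => (G.st1 (.neg φ) _ w).2 ⟨u, hu, h3 η hη⟩⟩
  · obtain ⟨ξ, hξ, h2⟩ := h
    exact absurd h2 ((G.st1 (.neg φ) _ w).2 ⟨u, hu, h1 ξ hξ⟩)

theorem choice_ext (x : G.Ext) (hne : ∀ y, G.E y x → ∃ z, G.E z y)
    (hdj : ∀ y y' z, G.E y x → G.E y' x → G.E z y → G.E z y' → y = y') :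
    ∃ c, ∀ y, G.E y x → ∃! z, G.E z y ∧ G.E z c := by
  obtain ⟨a, rfl⟩ := G.exists_nm x
  obtain ⟨f, hf⟩ := eqn_card (tc a)
  have hκ : IsOrd (card (tc a)) := isOrd_card _
  have hg := hf.inv
  obtain ⟨g, hgdef⟩ : ∃ g, g = inv f := ⟨_, rfl⟩
  rw [← hgdef] at hg
  -- initial segments
  let I : M → M := fun ξ => img ξ fun η => op (ap g η) P.one
  have hI : ∀ ξ b, G.E b (G.nm (I ξ)) ↔ ∃ η ∈ ξ, b = G.nm (ap g η) := by
    intro ξ b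
    refine G.E_iff.trans ⟨?_, ?_⟩
    · rintro ⟨z, s, hzs, -, rfl⟩
      obtain ⟨η, hη, e⟩ := mem_img.1 hzs
      exact ⟨η, hη, by rw [(op_inj.1 e).1]⟩
    · rintro ⟨η, hη, rfl⟩
      exact ⟨_, P.one, mem_img.2 ⟨η, hη, rfl⟩, G.one_mem, rfl⟩
  have hC : ∀ b, G.E b (G.nm (img (sc (card (tc a))) fun ξ => op (I ξ) P.one)) ↔
      ∃ ξ ∈ sc (card (tc a)), b = G.nm (I ξ) := by
    intro b
    refine G.E_iff.trans ⟨?_, ?_⟩
    · rintro ⟨z, s, hzs, -, rfl⟩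
      obtain ⟨η, hη, e⟩ := mem_img.1 hzs
      exact ⟨η, hη, by rw [(op_inj.1 e).1]⟩
    · rintro ⟨η, hη, rfl⟩
      exact ⟨_, P.one, mem_img.2 ⟨η, hη, rfl⟩, G.one_mem, rfl⟩
  obtain ⟨C, hCdef⟩ : ∃ C, C = G.nm (img (sc (card (tc a))) fun ξ => op (I ξ) P.one) := ⟨_, rfl⟩
  rw [← hCdef] at hC
  obtain ⟨u, hu⟩ := G.union_ext (G.nm a)
  obtain ⟨c, hc⟩ := G.sep_ext (.ex (.and (.mem 0 2) (.ex (.and (.mem 0 4) (.all (.iff
    (.and (.mem 0 1) (.mem 0 2)) (.eq 0 3))))))) (cons (G.nm a) (cons C fun _ => C)) u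
  have hc' : ∀ t, G.E t c ↔ G.E t u ∧ ∃ y, G.E y (G.nm a) ∧ ∃ J, G.E J C ∧
      ∀ z, (G.E z J ∧ G.E z y ↔ z = t) := hc
  refine ⟨c, fun y hy => ?_⟩
  obtain ⟨y', s, hys, -, e⟩ := G.E_iff.1 hy
  obtain ⟨b, hb⟩ := hne y hy
  rw [e] at hb
  obtain ⟨z, s', hzs, hs', rfl⟩ := G.E_iff.1 hb
  rw [← e] at hb
  have h1 : y' ∈ tc a := isTrans_tc a _ (isTrans_tc a _ (sub_tc a _ hys) _ (mem_op.2 (Or.inl rfl)))
    _ (mem_sing.2 rfl)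
  have h2 : z ∈ tc a := mem_of_op_mem (isTrans_tc a) h1 hzs
  obtain ⟨ξ0, hξ0, h3⟩ := hg.surj h2
  obtain ⟨ξ, hξ, h4, h5⟩ := G.exists_least (.mem 0 1) (fun _ => y') (fun ξ => ap g ξ) hκ
    ⟨ξ0, hξ0, by rw [h3]; rw [e] at hb; exact hb⟩
  have h4' : G.E (G.nm (ap g ξ)) y := by rw [e]; exact h4
  have h5' : ∀ η ∈ ξ, ¬ G.E (G.nm (ap g η)) y := by rw [e]; exact h5
  have hξo : IsOrd ξ := hκ.mem hξ
  have h6 : ∀ z, (G.E z (G.nm (I (sc ξ))) ∧ G.E z y ↔ z = G.nm (ap g ξ)) := by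
    intro z
    rw [hI]
    constructor
    · rintro ⟨⟨η, hη, rfl⟩, h7⟩
      rcases mem_sc.1 hη with h8 | rfl
      · exact absurd h7 (h5' η h8)
      · rfl
    · rintro rfl
      exact ⟨⟨ξ, self_mem_sc _, rfl⟩, h4'⟩
  have h7 : sc ξ ∈ sc (card (tc a)) := by
    rw [hξo.sc.mem_sc_iff hκ]
    intro η hη
    rcases mem_sc.1 hη with h8 | rfl
    · exact hκ.trans h8 hξ
    · exact hξ
  refine ⟨G.nm (ap g ξ), ⟨h4', (hc' _).2 ⟨(hu _).2 ⟨y, hy, h4'⟩, y, hy, G.nm (I (sc ξ)),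
    (hC _).2 ⟨sc ξ, h7, rfl⟩, h6⟩⟩, ?_⟩
  rintro t ⟨ht1, ht2⟩
  obtain ⟨-, y2, hy2, J, hJ, h8⟩ := (hc' t).1 ht2
  obtain ⟨ht3, ht4⟩ := (h8 t).2 rfl
  have hyy : y2 = y := hdj y2 y t hy2 hy ht4 ht1
  subst hyy
  obtain ⟨ξ2, hξ2, rfl⟩ := (hC J).1 hJ
  have hξ2o : IsOrd ξ2 := hκ.sc.mem hξ2
  rcases hξo.sc.total hξ2o with h9 | h9
  · symm
    refine (h8 _).1 ⟨(hI _ _).2 ⟨ξ, h9 _ (self_mem_sc _), rfl⟩, h4'⟩
  · refine (h6 t).1 ⟨?_, ht1⟩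
    obtain ⟨η, hη, rfl⟩ := (hI _ _).1 ht3
    exact (hI _ _).2 ⟨η, hξo.sc.trans hη h9, rfl⟩

/-- the generic extension is a model of ZFC, with a predicate for the ground model -/
theorem zfcu_ext : ZFCU G.E (fun x => ∃ a, x = G.io a) where
  ext _ _ h := G.ext_ext h
  found := G.found_ext
  pair := G.pair_ext
  union := G.union_ext
  power := G.power_ext
  infinity := G.infinity_ext
  sep := G.sep_ext
  repl := G.repl_ext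
  choice := G.choice_ext

end Gen

end Pool.Agent.IST
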